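import Mathlib

set_option autoImplicit false

namespace Pool.Agent.MultiSpec

/-- The relative algebraic closure of `F(S)`. -/
def acl (F : Type*) {Ω : Type*} [Field F] [Field Ω] [Algebra F Ω] (S : Set Ω) : Subfield Ω where
  carrier := {a | IsAlgebraic (Algebra.adjoin F S) a}
  mul_mem' := fun ha hb => IsAlgebraic.mul ha hb
  one_mem' := isAlgebraic_one
  add_mem' := fun ha hb => IsAlgebraic.add ha hb
  zero_mem' := isAlgebraic_zero
  neg_mem' := fun ha => IsAlgebraic.neg ha
  inv_mem' := fun _ ha => IsAlgebraic.inv ha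

theorem Count_subset_acl {F Ω : Type*} [Field F] [Field Ω] [Algebra F Ω] {S : Set Ω} {a : Ω}
    (ha : a ∈ S) : a ∈ acl F S :=
  isAlgebraic_algebraMap (⟨a, Algebra.subset_adjoin ha⟩ : Algebra.adjoin F S)

theorem Count_acl_mono {F Ω : Type*} [Field F] [Field Ω] [Algebra F Ω] {S T : Set Ω}
    (h : S ⊆ T) : acl F S ≤ acl F T := by
  intro a ha
  have h1 : IsAlgebraic (Algebra.adjoin F S) a := ha
  obtain ⟨p, hp0, hp⟩ := h1
  have hle : Algebra.adjoin F S ≤ Algebra.adjoin F T := Algebra.adjoin_mono h
  refine ⟨p.map (Subalgebra.inclusion hle).toRingHom, ?_, ?_⟩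
  · rw [Ne, Polynomial.map_eq_zero_iff (Subalgebra.inclusion_injective hle)]
    exact hp0
  · rw [Polynomial.aeval_def, Polynomial.eval₂_map]
    exact hp

/-- An algebraically independent set whose elements are all algebraic over `F(S)` has at most as
many elements as `S`. -/
theorem Count_encard_le {F Ω : Type*} [Field F] [Field Ω] [Algebra F Ω] (I S : Set Ω)
    (hI : AlgebraicIndepOn F id I) (hS : ∀ a ∈ I, IsAlgebraic (Algebra.adjoin F S) a) :
    I.encard ≤ S.encard := by
  obtain ⟨B, hB⟩ := (AlgebraicIndependent.matroid F Ω).exists_isBasis S (Set.subset_univ _)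
  have hB' := AlgebraicIndependent.matroid_isBasis_iff.1 hB
  have hBSI : (AlgebraicIndependent.matroid F Ω).IsBasis B (S ∪ I) := by
    rw [AlgebraicIndependent.matroid_isBasis_iff]
    refine ⟨hB'.1, hB'.2.1.trans Set.subset_union_left, ?_⟩
    rintro a (ha | ha)
    · exact hB'.2.2 a ha
    · exact (AlgebraicIndependent.isAlgebraic_adjoin_iff_of_matroid_isBasis hB).2 (hS a ha)
  obtain ⟨J, hJ, hIJ⟩ := Matroid.Indep.subset_isBasis_of_subset
    (M := AlgebraicIndependent.matroid F Ω) (I := I) hI (Set.subset_union_right (s := S))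
    (Set.subset_univ _)
  calc I.encard ≤ J.encard := Set.encard_le_encard hIJ
    _ = B.encard := hJ.encard_eq_encard hBSI
    _ ≤ S.encard := Set.encard_le_encard hB'.2.1

/-- Counting: `n` independent linear conditions, with coefficients algebraic over the `≤ n`
elements `Y`, on generic constants `c` are impossible if the field generated by `Y` contains a
non constant function. -/
theorem not_of_count {F K₀ Ω : Type*} [Field F] [Field K₀] [Field Ω] [Algebra F K₀]
    [Algebra K₀ Ω] [Algebra F Ω] [IsScalarTower F K₀ Ω] {ι : Type*} [Fintype ι] (c : ι → K₀)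
    (hc : AlgebraicIndependent F c) (ξ : Ω) (hξ : Transcendental K₀ ξ) {n : ℕ} (Y : Finset Ω)
    (hY : Y.card ≤ n) (hξY : ξ ∈ acl F (Y : Set Ω)) (D : Fin n → ι → Ω)
    (hD : LinearIndependent Ω D) (hDY : ∀ m i, D m i ∈ acl F (Y : Set Ω))
    (h0 : ∀ m, ∑ i, D m i * algebraMap K₀ Ω (c i) = 0) : False := by
  classical
  set A : Subfield Ω := acl F (Y : Set Ω) with hA
  set v : ι → Ω := fun i => algebraMap K₀ Ω (c i) with hv
  set L : (ι → A) →ₗ[A] Ω := Fintype.linearCombination A v with hL
  have hLapp : ∀ a : ι → A, L a = ∑ i, (a i : Ω) * v i := by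
    intro a
    rw [hL, Fintype.linearCombination_apply]
    rfl
  set d : Fin n → ι → A := fun m i => ⟨D m i, hDY m i⟩ with hd
  have hdker : ∀ m, d m ∈ LinearMap.ker L := by
    intro m
    rw [LinearMap.mem_ker, hLapp]
    exact h0 m
  have hdli : LinearIndependent A d := by
    rw [Fintype.linearIndependent_iff]
    intro g hg m
    have h1 : ∑ m, (g m : Ω) • D m = 0 := by
      funext i
      have h2 := congrArg (fun w : ι → A => ((w i : A) : Ω)) hg
      simpa [hd, Finset.sum_apply] using h2
    have h2 := Fintype.linearIndependent_iff.mp hD _ h1 m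
    exact Subtype.ext h2
  have hdli' : LinearIndependent A (fun m => (⟨d m, hdker m⟩ : LinearMap.ker L)) := by
    refine LinearIndependent.of_comp (LinearMap.ker L).subtype ?_
    exact hdli
  have hker : n ≤ Module.finrank A (LinearMap.ker L) := by
    have := hdli'.fintype_card_le_finrank
    simpa using this
  have hrn := LinearMap.finrank_range_add_finrank_ker L
  rw [Module.finrank_fintype_fun_eq_card] at hrn
  have hrange : LinearMap.range L = Submodule.span A (Set.range v) :=
    Fintype.range_linearCombination A v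
  -- extract a basis
  obtain ⟨κ, a, hainj, hspan, hli⟩ := exists_linearIndependent' A v
  have : Finite κ := Finite.of_injective a hainj
  have : Fintype κ := Fintype.ofFinite κ
  have hcard : Fintype.card κ = Module.finrank A (LinearMap.range L) := by
    rw [hrange, ← hspan]
    exact (finrank_span_eq_card hli).symm
  have hbound : Fintype.card κ + n ≤ Fintype.card ι := by omega
  set S : Set Ω := (Y : Set Ω) ∪ Set.range (v ∘ a) with hS
  have hASle : A ≤ acl F S := Count_acl_mono Set.subset_union_left
  have hvS : ∀ i, v i ∈ acl F S := by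
    intro i
    have h1 : v i ∈ Submodule.span A (Set.range (v ∘ a)) := by
      rw [hspan]
      exact Submodule.subset_span ⟨i, rfl⟩
    generalize v i = u at h1
    induction h1 using Submodule.span_induction with
    | mem x hx => exact Count_subset_acl (Or.inr hx)
    | zero => exact zero_mem _
    | add x y _ _ hx hy => exact add_mem hx hy
    | smul r x _ hx => exact mul_mem (hASle r.2) hx
  have hind : AlgebraicIndependent F (Sum.elim (fun _ : Unit => ξ) (algebraMap K₀ Ω ∘ c)) :=
    AlgebraicIndependent.sumElim_comp hc (algebraicIndependent_unique_type_iff.2 hξ)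
  have hinj := hind.injective
  have h3 := Count_encard_le (Set.range (Sum.elim (fun _ : Unit => ξ)
    (algebraMap K₀ Ω ∘ c))) S hind.to_subtype_range (by
      rintro _ ⟨i | i, rfl⟩
      · exact hASle hξY
      · exact hvS i)
  have h4 : (Set.range (Sum.elim (fun _ : Unit => ξ) (algebraMap K₀ Ω ∘ c))).encard =
      ((Fintype.card ι + 1 : ℕ) : ℕ∞) := by
    rw [← Set.image_univ, hinj.encard_image, Set.encard_univ, ENat.card_eq_coe_fintype_card,
      Fintype.card_sum, Fintype.card_unit, add_comm]
  have h5 : S.encard ≤ ((Fintype.card ι : ℕ) : ℕ∞) := by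
    have e1 : S = ((Y ∪ Finset.univ.image (v ∘ a) : Finset Ω) : Set Ω) := by
      rw [hS, Finset.coe_union, Finset.coe_image, Finset.coe_univ, Set.image_univ]
    rw [e1, Set.encard_coe_eq_coe_finsetCard]
    have h6 : (Y ∪ Finset.univ.image (v ∘ a)).card ≤ Fintype.card ι := by
      refine (Finset.card_union_le _ _).trans ?_
      have h7 := Finset.card_image_le (s := (Finset.univ : Finset κ)) (f := v ∘ a)
      rw [Finset.card_univ] at h7
      omega
    exact_mod_cast h6
  rw [h4] at h3
  have h6 := h3.trans h5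
  have h7 : Fintype.card ι + 1 ≤ Fintype.card ι := by exact_mod_cast h6
  omega

/-- a linear form vanishing at `w` but not at `v` -/
theorem Count_linForm {Ω : Type*} [Field Ω] {k : ℕ} (v w : Fin (k + 1) → Ω) (hw : w ≠ 0)
    (h : ∀ a : Ω, v ≠ a • w) :
    ∃ l : MvPolynomial (Fin (k + 1)) Ω, l.IsHomogeneous 1 ∧ MvPolynomial.eval w l = 0 ∧
      MvPolynomial.eval v l ≠ 0 := by
  obtain ⟨q, hq⟩ := Function.ne_iff.mp hw
  have hq' : w q ≠ 0 := hq
  by_contra hcon
  push Not at hcon
  apply h (v q / w q)
  funext p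
  have h1 := hcon (MvPolynomial.C (w q) * MvPolynomial.X p - MvPolynomial.C (w p) * MvPolynomial.X q)
    (by
      refine MvPolynomial.IsHomogeneous.sub ?_ ?_
      · simpa using (MvPolynomial.isHomogeneous_C _ _).mul (MvPolynomial.isHomogeneous_X Ω p)
      · simpa using (MvPolynomial.isHomogeneous_C _ _).mul (MvPolynomial.isHomogeneous_X Ω q))
    (by simp; ring)
  simp only [map_sub, map_mul, MvPolynomial.eval_C, MvPolynomial.eval_X] at h1
  simp only [Pi.smul_apply, smul_eq_mul]
  field_simp
  linear_combination h1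

/-- Evaluation at `n + 1` pairwise non proportional points imposes independent conditions on the
forms of degree at least `n`. -/
theorem linearIndependent_eval {Ω : Type*} [Field Ω] [Infinite Ω] {n k N : ℕ} (hN : n ≤ N)
    (v : Fin (n + 1) → Fin (k + 1) → Ω) (h0 : ∀ m, v m ≠ 0)
    (hne : ∀ m m', m ≠ m' → ∀ a : Ω, v m ≠ a • v m') :
    LinearIndependent Ω fun (m : Fin (n + 1)) (e : {e : Fin (k + 1) →₀ ℕ // e.degree = N}) =>
      ∏ i, v m i ^ e.1 i := by
  classical
  rw [Fintype.linearIndependent_iff]
  intro g hg m₀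
  -- the relation for all forms of degree `N`
  have hform : ∀ f : MvPolynomial (Fin (k + 1)) Ω, f.IsHomogeneous N →
      ∑ m, g m * MvPolynomial.eval (v m) f = 0 := by
    intro f hf
    have h1 : ∀ m, MvPolynomial.eval (v m) f = ∑ e ∈ f.support, f.coeff e * ∏ i, v m i ^ e i :=
      fun m => MvPolynomial.eval_eq' _ _
    simp_rw [h1, Finset.mul_sum]
    rw [Finset.sum_comm]
    refine Finset.sum_eq_zero fun e he => ?_
    have hdeg : e.degree = N := by
      have := hf (MvPolynomial.mem_support_iff.mp he)
      rw [← this, Finsupp.degree_eq_weight_one]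
      rfl
    have h2 := congrFun hg ⟨e, hdeg⟩
    simp only [Finset.sum_apply, Pi.smul_apply, smul_eq_mul, Pi.zero_apply] at h2
    calc ∑ m, g m * (f.coeff e * ∏ i, v m i ^ e i)
        = f.coeff e * ∑ m, g m * ∏ i, v m i ^ e i := by
          rw [Finset.mul_sum]
          exact Finset.sum_congr rfl fun m _ => by ring
      _ = 0 := by rw [h2, mul_zero]
  -- linear forms
  have hl : ∀ m, m ≠ m₀ → ∃ l : MvPolynomial (Fin (k + 1)) Ω, l.IsHomogeneous 1 ∧
      MvPolynomial.eval (v m) l = 0 ∧ MvPolynomial.eval (v m₀) l ≠ 0 :=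
    fun m hm => Count_linForm (v m₀) (v m) (h0 m) (hne m₀ m (Ne.symm hm))
  choose! l hl1 hl2 hl3 using hl
  obtain ⟨q, hq⟩ := Function.ne_iff.mp (h0 m₀)
  have hq' : v m₀ q ≠ 0 := hq
  set f : MvPolynomial (Fin (k + 1)) Ω :=
    (∏ m ∈ Finset.univ.erase m₀, l m) * MvPolynomial.X q ^ (N - n) with hf
  have hfhom : f.IsHomogeneous N := by
    have h1 : (∏ m ∈ Finset.univ.erase m₀, l m).IsHomogeneous
        (∑ _m ∈ Finset.univ.erase m₀, 1) :=
      MvPolynomial.IsHomogeneous.prod _ _ _ fun m hm => hl1 m (Finset.ne_of_mem_erase hm)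
    have h2 := h1.mul ((MvPolynomial.isHomogeneous_X Ω q).pow (N - n))
    have h3 : (∑ _m ∈ Finset.univ.erase m₀, 1) + 1 * (N - n) = N := by
      rw [Finset.sum_const, Finset.card_erase_of_mem (Finset.mem_univ _), Finset.card_univ,
        Fintype.card_fin]
      simp
      omega
    rw [h3] at h2
    exact h2
  have h1 := hform f hfhom
  rw [Finset.sum_eq_single m₀] at h1
  · rcases mul_eq_zero.mp h1 with h2 | h2
    · exact h2
    · exfalso
      rw [hf, map_mul, map_prod, map_pow, MvPolynomial.eval_X] at h2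
      rcases mul_eq_zero.mp h2 with h3 | h3
      · rw [Finset.prod_eq_zero_iff] at h3
        obtain ⟨m, hm, h4⟩ := h3
        exact hl3 m (Finset.ne_of_mem_erase hm) h4
      · exact (pow_ne_zero _ hq') h3
  · intro m _ hm
    have : MvPolynomial.eval (v m) f = 0 := by
      rw [hf, map_mul, map_prod,
        Finset.prod_eq_zero (Finset.mem_erase.mpr ⟨hm, Finset.mem_univ m⟩) (hl2 m hm), zero_mul]
    rw [this, mul_zero]
  · intro h
    exact absurd (Finset.mem_univ _) h

end Pool.Agent.MultiSpec
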