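import Pool.Agent.MultiSpec.Datum

set_option autoImplicit false

namespace Pool.Agent.MultiSpec

open MvPolynomial IsLocalRing

variable {N n : ℕ}

lemma IsLift.map {R S : Type*} [CommRing R] [CommRing S] (φ : R →+* S) {D : EDatum N n R}
    {x z : R} {q : LiftPt n R} (h : IsLift D x z q) :
    IsLift (D.map φ) (φ x) (φ z) (q.map φ) := by
  have hF : (D.map φ).F = MvPolynomial.map φ D.F := (map_quar φ _ _ _).symm
  refine ⟨?_, ?_, ?_, ?_, fun l j => ?_, fun l j => ?_⟩
  · rw [hF, ev_map, ← h.hY]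
    simp [LiftPt.map]
  · show 2 * (φ q.α) ^ N = ev (φ x) (φ z) (MvPolynomial.map φ D.A) +
      ev (φ x) (φ z) (MvPolynomial.map φ D.B) * φ q.Y
    rw [ev_map, ev_map, ← map_mul, ← map_add, ← h.hα]
    simp [map_ofNat]
  · show 2 * (φ q.β) ^ N = ev (φ x) (φ z) (MvPolynomial.map φ D.A) -
      ev (φ x) (φ z) (MvPolynomial.map φ D.B) * φ q.Y
    rw [ev_map, ev_map, ← map_mul, ← map_sub, ← h.hβ]
    simp [map_ofNat]
  · show φ q.α * φ q.β = φ x * φ z
    rw [← map_mul, h.hαβ, map_mul]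
  · show (φ q.β) ^ (l.val + 1) * φ (q.s l j) = ev (φ x) (φ z) (MvPolynomial.map φ (D.P l j)) +
      ev (φ x) (φ z) (MvPolynomial.map φ (D.Q l j)) * φ q.Y
    rw [ev_map, ev_map, ← map_pow, ← map_mul, h.h1 l j]
    simp
  · show 2 * (φ q.α) ^ (N - (l.val + 1)) * φ (q.s l j) =
      ev (φ x) (φ z) (MvPolynomial.map φ (D.V l j)) +
      ev (φ x) (φ z) (MvPolynomial.map φ (D.U l j)) * φ q.Y
    rw [ev_map, ev_map, ← map_mul φ (ev x z (D.U l j)), ← map_add, ← h.h2 l j]
    simp [map_ofNat]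

lemma IsLift.of_map {R S : Type*} [CommRing R] [CommRing S] {φ : R →+* S}
    (hφ : Function.Injective φ) {D : EDatum N n R} {x z : R} {q : LiftPt n R}
    (h : IsLift (D.map φ) (φ x) (φ z) (q.map φ)) : IsLift D x z q := by
  have hF : (D.map φ).F = MvPolynomial.map φ D.F := (map_quar φ _ _ _).symm
  have h0 := h.hY
  rw [hF, ev_map] at h0
  have hα : 2 * (φ q.α) ^ N = ev (φ x) (φ z) (MvPolynomial.map φ D.A) +
      ev (φ x) (φ z) (MvPolynomial.map φ D.B) * φ q.Y := h.hα
  have hβ : 2 * (φ q.β) ^ N = ev (φ x) (φ z) (MvPolynomial.map φ D.A) -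
      ev (φ x) (φ z) (MvPolynomial.map φ D.B) * φ q.Y := h.hβ
  have hαβ : φ q.α * φ q.β = φ x * φ z := h.hαβ
  have h1 : ∀ l j, (φ q.β) ^ (l.val + 1) * φ (q.s l j) =
      ev (φ x) (φ z) (MvPolynomial.map φ (D.P l j)) +
      ev (φ x) (φ z) (MvPolynomial.map φ (D.Q l j)) * φ q.Y := h.h1
  have h2 : ∀ l j, 2 * (φ q.α) ^ (N - (l.val + 1)) * φ (q.s l j) =
      ev (φ x) (φ z) (MvPolynomial.map φ (D.V l j)) +
      ev (φ x) (φ z) (MvPolynomial.map φ (D.U l j)) * φ q.Y := h.h2
  refine ⟨?_, ?_, ?_, ?_, fun l j => ?_, fun l j => ?_⟩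
  · apply hφ
    rw [← h0]
    simp [LiftPt.map]
  · apply hφ
    rw [ev_map, ev_map] at hα
    simpa [map_ofNat] using hα
  · apply hφ
    rw [ev_map, ev_map] at hβ
    simpa [map_ofNat] using hβ
  · apply hφ
    simpa using hαβ
  · apply hφ
    have := h1 l j
    rw [ev_map, ev_map] at this
    simpa using this
  · apply hφ
    have := h2 l j
    rw [ev_map, ev_map] at this
    simpa [map_ofNat] using this

lemma Lifts_ev_quar_scale {R : Type*} [CommRing R] (t c₀ c₁ a x z : R) :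
    ev (a * x) (a * z) (quar t c₀ c₁) = a ^ 4 * ev x z (quar t c₀ c₁) := by
  simp only [quar, ev, map_mul, map_sub, map_pow, eval_X, eval_C, Matrix.cons_val_zero,
    Matrix.cons_val_one]
  ring

lemma IsLift.scale {R : Type*} [CommRing R] (hN : 2 ≤ N) (hn : n < N) {D : EDatum N n R} {x z : R}
    {q : LiftPt n R} (h : IsLift D x z q) (a : R) : IsLift D (a * x) (a * z) (q.scale a) := by
  have hN2 : a ^ (N - 2) * a ^ 2 = a ^ N := by
    rw [← pow_add]; refine congrArg (fun k : ℕ => _ ^ k) ?_; omega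
  refine ⟨?_, ?_, ?_, ?_, fun l j => ?_, fun l j => ?_⟩
  · show (a ^ 2 * q.Y) ^ 2 = ev (a * x) (a * z) (quar D.t D.c₀ D.c₁)
    have h0 : q.Y ^ 2 = ev x z (quar D.t D.c₀ D.c₁) := h.hY
    rw [Lifts_ev_quar_scale, ← h0]
    ring
  · show 2 * (a * q.α) ^ N = ev (a * x) (a * z) D.A + ev (a * x) (a * z) D.B * (a ^ 2 * q.Y)
    rw [ev_scale D.hA, ev_scale D.hB, mul_pow]
    have h0 := h.hα
    calc 2 * (a ^ N * q.α ^ N) = a ^ N * (2 * q.α ^ N) := by ring
      _ = a ^ N * (ev x z D.A + ev x z D.B * q.Y) := by rw [h0]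
      _ = a ^ N * ev x z D.A + (a ^ (N - 2) * a ^ 2) * (ev x z D.B * q.Y) := by rw [hN2]; ring
      _ = _ := by ring
  · show 2 * (a * q.β) ^ N = ev (a * x) (a * z) D.A - ev (a * x) (a * z) D.B * (a ^ 2 * q.Y)
    rw [ev_scale D.hA, ev_scale D.hB, mul_pow]
    have h0 := h.hβ
    calc 2 * (a ^ N * q.β ^ N) = a ^ N * (2 * q.β ^ N) := by ring
      _ = a ^ N * (ev x z D.A - ev x z D.B * q.Y) := by rw [h0]
      _ = a ^ N * ev x z D.A - (a ^ (N - 2) * a ^ 2) * (ev x z D.B * q.Y) := by rw [hN2]; ring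
      _ = _ := by ring
  · show (a * q.α) * (a * q.β) = (a * x) * (a * z)
    calc (a * q.α) * (a * q.β) = a * a * (q.α * q.β) := by ring
      _ = a * a * (x * z) := by rw [h.hαβ]
      _ = _ := by ring
  · show (a * q.β) ^ (l.val + 1) * (a * q.s l j) =
      ev (a * x) (a * z) (D.P l j) + ev (a * x) (a * z) (D.Q l j) * (a ^ 2 * q.Y)
    rw [ev_scale (D.hP l j), ev_scale (D.hQ l j), mul_pow]
    have h0 := h.h1 l j
    calc a ^ (l.val + 1) * q.β ^ (l.val + 1) * (a * q.s l j)
        = a ^ (l.val + 2) * (q.β ^ (l.val + 1) * q.s l j) := by ring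
      _ = a ^ (l.val + 2) * (ev x z (D.P l j) + ev x z (D.Q l j) * q.Y) := by rw [h0]
      _ = _ := by ring
  · show 2 * (a * q.α) ^ (N - (l.val + 1)) * (a * q.s l j) =
      ev (a * x) (a * z) (D.V l j) + ev (a * x) (a * z) (D.U l j) * (a ^ 2 * q.Y)
    rw [ev_scale (D.hV l j), ev_scale (D.hU l j), mul_pow]
    have h0 := h.h2 l j
    have hl : l.val + 2 ≤ N := by have := l.2; omega
    have e1 : a ^ (N - (l.val + 1)) * a = a ^ (N - l.val) := by
      rw [← pow_succ]; refine congrArg (fun k : ℕ => _ ^ k) ?_; omega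
    have e2 : a ^ (N - (l.val + 2)) * a ^ 2 = a ^ (N - l.val) := by
      rw [← pow_add]; refine congrArg (fun k : ℕ => _ ^ k) ?_; omega
    calc 2 * (a ^ (N - (l.val + 1)) * q.α ^ (N - (l.val + 1))) * (a * q.s l j)
        = (a ^ (N - (l.val + 1)) * a) * (2 * q.α ^ (N - (l.val + 1)) * q.s l j) := by ring
      _ = a ^ (N - l.val) * (ev x z (D.V l j) + ev x z (D.U l j) * q.Y) := by rw [e1, h0]
      _ = a ^ (N - l.val) * ev x z (D.V l j) +
          a ^ (N - l.val) * (ev x z (D.U l j) * q.Y) := by ring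
      _ = a ^ (N - l.val) * ev x z (D.V l j) +
          (a ^ (N - (l.val + 2)) * a ^ 2) * (ev x z (D.U l j) * q.Y) := by rw [e2]
      _ = _ := by ring

/-- values at the coordinate points -/
lemma Lifts_A_left {R : Type*} [CommRing R] (D : EDatum N n R) (z : R) :
    ev 0 z D.A = z ^ N * ev 0 1 D.A := by
  have := ev_scale D.hA z 0 1
  rwa [mul_zero, mul_one] at this

lemma Lifts_A_right {R : Type*} [CommRing R] (D : EDatum N n R) (x : R) :
    ev x 0 D.A = x ^ N := by
  have := ev_scale D.hA x 1 0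
  rwa [mul_zero, mul_one, D.hA1, mul_one] at this

lemma Lifts_core {F : Type*} [Field F] (h2 : (2 : F) ≠ 0) (hN : 2 ≤ N) (D : EDatum N n F)
    {x z Y α β : F} (hxz : x ≠ 0 ∨ z ≠ 0)
    (hα : 2 * α ^ N = ev x z D.A + ev x z D.B * Y)
    (hβ : 2 * β ^ N = ev x z D.A - ev x z D.B * Y) (hαβ : α * β = x * z) : α ≠ 0 ∨ β ≠ 0 := by
  by_contra hcon
  push Not at hcon
  obtain ⟨h0, h1⟩ := hcon
  have hN0 : N ≠ 0 := by omega
  rw [h0, zero_pow hN0, mul_zero] at hα
  rw [h1, zero_pow hN0, mul_zero] at hβ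
  have hA : ev x z D.A = 0 := by
    have : 2 * ev x z D.A = 0 := by linear_combination -hα - hβ
    exact (mul_eq_zero.mp this).resolve_left h2
  rw [h0, zero_mul] at hαβ
  rcases mul_eq_zero.mp hαβ.symm with hx | hz
  · subst hx
    have hz : z ≠ 0 := hxz.resolve_left (fun h => h rfl)
    rw [Lifts_A_left] at hA
    rcases mul_eq_zero.mp hA with h | h
    · exact hz (pow_eq_zero_iff hN0 |>.mp h)
    · have := D.hA0
      rw [h, mul_zero] at this
      exact zero_ne_one this
  · subst hz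
    have hx : x ≠ 0 := hxz.resolve_right (fun h => h rfl)
    rw [Lifts_A_right] at hA
    exact hx (pow_eq_zero_iff hN0 |>.mp hA)

/-- The coordinates `α`, `β` do not vanish simultaneously. -/
lemma IsLift.ne_zero {F : Type*} [Field F] [CharZero F] (hN : 2 ≤ N) {D : EDatum N n F} {x z : F}
    (hxz : x ≠ 0 ∨ z ≠ 0) {q : LiftPt n F} (h : IsLift D x z q) : q.α ≠ 0 ∨ q.β ≠ 0 :=
  Lifts_core two_ne_zero hN D hxz h.hα h.hβ h.hαβ

/-- the four identities at a point -/
lemma Lifts_id_plus {R : Type*} [CommRing R] (D : EDatum N n R) {x z Y : R}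
    (hY : Y ^ 2 = ev x z D.F) (l : Fin n) (j : Fin 2) :
    (ev x z D.A + ev x z D.B * Y) * (ev x z (D.P l j) + ev x z (D.Q l j) * Y) =
      (x * z) ^ (l.val + 1) * (ev x z (D.V l j) + ev x z (D.U l j) * Y) := by
  have h1 := congrArg (ev x z) (D.id1 l j)
  have h2 := congrArg (ev x z) (D.id2 l j)
  have hF : ev x z D.F = ev x z (quar D.t D.c₀ D.c₁) := rfl
  rw [map_add, map_mul, map_mul, map_mul, map_pow, map_mul] at h1
  rw [map_add, map_mul, map_mul, map_mul, map_mul, map_pow, map_mul, ← hF, ← hY] at h2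
  have e0 : ev x z (X 0) = x := by simp [ev]
  have e1 : ev x z (X 1) = z := by simp [ev]
  rw [e0, e1] at h1 h2
  linear_combination h2 + Y * h1

lemma Lifts_id_minus {R : Type*} [CommRing R] (D : EDatum N n R) {x z Y : R}
    (hY : Y ^ 2 = ev x z D.F) (l : Fin n) (j : Fin 2) :
    (ev x z D.A - ev x z D.B * Y) * (ev x z (D.V l j) + ev x z (D.U l j) * Y) =
      4 * (x * z) ^ (N - (l.val + 1)) * (ev x z (D.P l j) + ev x z (D.Q l j) * Y) := by
  have h1 := congrArg (ev x z) (D.id4 l j)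
  have h2 := congrArg (ev x z) (D.id3 l j)
  have hF : ev x z D.F = ev x z (quar D.t D.c₀ D.c₁) := rfl
  have e0 : ev x z (X 0) = x := by simp [ev]
  have e1 : ev x z (X 1) = z := by simp [ev]
  have e4 : ev x z (4 : MvPolynomial (Fin 2) R) = 4 := map_ofNat _ 4
  rw [map_sub, map_mul, map_mul, map_mul, map_mul, map_pow, map_mul, e0, e1, e4] at h1
  rw [map_sub, map_mul, map_mul, map_mul, map_mul, map_mul, map_pow, map_mul, e0, e1, e4,
    ← hF, ← hY] at h2
  linear_combination h2 + Y * h1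

lemma Lifts_pell {R : Type*} [CommRing R] (D : EDatum N n R) {x z Y : R}
    (hY : Y ^ 2 = ev x z D.F) :
    (ev x z D.A + ev x z D.B * Y) * (ev x z D.A - ev x z D.B * Y) = 4 * (x * z) ^ N := by
  have h1 := congrArg (ev x z) D.pell
  have hF : ev x z D.F = ev x z (quar D.t D.c₀ D.c₁) := rfl
  have e0 : ev x z (X 0) = x := by simp [ev]
  have e1 : ev x z (X 1) = z := by simp [ev]
  have e4 : ev x z (4 : MvPolynomial (Fin 2) R) = 4 := map_ofNat _ 4
  rw [map_pow, map_add, map_mul, map_mul, map_pow, map_mul, map_pow, e0, e1, e4, ← hF, ← hY] at h1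
  linear_combination h1

/-- The sections exist once `Y`, `α`, `β` are given. -/
theorem exists_sections {F : Type*} [Field F] [CharZero F] (hN : 2 ≤ N) (hn : n < N)
    (D : EDatum N n F) {x z : F} (hxz : x ≠ 0 ∨ z ≠ 0) {Y α β : F} (hY : Y ^ 2 = ev x z D.F)
    (hα : 2 * α ^ N = ev x z D.A + ev x z D.B * Y)
    (hβ : 2 * β ^ N = ev x z D.A - ev x z D.B * Y) (hαβ : α * β = x * z) :
    ∃ s : Fin n → Fin 2 → F, IsLift D x z ⟨Y, α, β, s⟩ := by
  have h2 : (2 : F) ≠ 0 := two_ne_zero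
  suffices h : ∀ (l : Fin n) (j : Fin 2), ∃ s : F,
      β ^ (l.val + 1) * s = ev x z (D.P l j) + ev x z (D.Q l j) * Y ∧
      2 * α ^ (N - (l.val + 1)) * s = ev x z (D.V l j) + ev x z (D.U l j) * Y by
    choose s hs1 hs2 using h
    exact ⟨s, hY, hα, hβ, hαβ, hs1, hs2⟩
  intro l j
  have hl : l.val + 1 < N := by have := l.2; omega
  have hNl : N - (l.val + 1) ≠ 0 := by omega
  have hp := Lifts_id_plus D hY l j
  have hm := Lifts_id_minus D hY l j
  rw [← hα, ← hαβ] at hp
  rw [← hβ, ← hαβ] at hm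
  by_cases hb : β = 0
  · have ha : α ≠ 0 := (Lifts_core h2 hN D hxz hα hβ hαβ).resolve_right (fun h => h hb)
    refine ⟨(ev x z (D.V l j) + ev x z (D.U l j) * Y) / (2 * α ^ (N - (l.val + 1))), ?_, ?_⟩
    · rw [hb, zero_pow (Nat.succ_ne_zero _), zero_mul]
      rw [hb, mul_zero, zero_pow (Nat.succ_ne_zero _), zero_mul] at hp
      have h3 : 2 * α ^ N ≠ 0 := mul_ne_zero h2 (pow_ne_zero _ ha)
      exact ((mul_eq_zero.mp hp).resolve_left h3).symm
    · rw [mul_div_cancel₀]
      exact mul_ne_zero h2 (pow_ne_zero _ ha)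
  · refine ⟨(ev x z (D.P l j) + ev x z (D.Q l j) * Y) / β ^ (l.val + 1), ?_, ?_⟩
    · rw [mul_div_cancel₀]
      exact pow_ne_zero _ hb
    · have hb' : β ^ (l.val + 1) ≠ 0 := pow_ne_zero _ hb
      rw [mul_div_assoc', div_eq_iff hb']
      by_cases ha : α = 0
      · rw [ha, zero_mul, zero_pow hNl, mul_zero, zero_mul] at hm
        have h3 : 2 * β ^ N ≠ 0 := mul_ne_zero h2 (pow_ne_zero _ hb)
        have h4 := (mul_eq_zero.mp hm).resolve_left h3
        rw [ha, zero_pow hNl, h4]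
        ring
      · have ha' : α ^ (l.val + 1) ≠ 0 := pow_ne_zero _ ha
        apply mul_left_cancel₀ ha'
        have e : α ^ (l.val + 1) * α ^ (N - (l.val + 1)) = α ^ N := by
          rw [← pow_add]; refine congrArg (fun k : ℕ => _ ^ k) ?_; omega
        calc α ^ (l.val + 1) * (2 * α ^ (N - (l.val + 1)) *
              (ev x z (D.P l j) + ev x z (D.Q l j) * Y))
            = 2 * (α ^ (l.val + 1) * α ^ (N - (l.val + 1))) *
              (ev x z (D.P l j) + ev x z (D.Q l j) * Y) := by ring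
          _ = (α * β) ^ (l.val + 1) * (ev x z (D.V l j) + ev x z (D.U l j) * Y) := by
              rw [e, hp]
          _ = _ := by rw [mul_pow]; ring

/-- Over an algebraically closed field there are lifts. -/
theorem exists_lift {F : Type*} [Field F] [CharZero F] [IsAlgClosed F] (hN : 2 ≤ N) (hn : n < N)
    (D : EDatum N n F) {x z : F} (hxz : x ≠ 0 ∨ z ≠ 0) {Y : F} (hY : Y ^ 2 = ev x z D.F) :
    ∃ q : LiftPt n F, IsLift D x z q ∧ q.Y = Y := by
  have h2 : (2 : F) ≠ 0 := two_ne_zero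
  have hN0 : 0 < N := by omega
  have hpell := Lifts_pell D hY
  obtain ⟨α, hα⟩ := IsAlgClosed.exists_pow_nat_eq ((ev x z D.A + ev x z D.B * Y) / 2) hN0
  have hα' : 2 * α ^ N = ev x z D.A + ev x z D.B * Y := by
    rw [hα, mul_div_cancel₀ _ h2]
  by_cases ha : α = 0
  · obtain ⟨β, hβ⟩ := IsAlgClosed.exists_pow_nat_eq ((ev x z D.A - ev x z D.B * Y) / 2) hN0
    have hβ' : 2 * β ^ N = ev x z D.A - ev x z D.B * Y := by
      rw [hβ, mul_div_cancel₀ _ h2]
    have hxz0 : x * z = 0 := by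
      rw [← hα', ha, zero_pow hN0.ne', mul_zero, zero_mul] at hpell
      have h4 : (4 : F) ≠ 0 := by norm_num
      exact pow_eq_zero_iff hN0.ne' |>.mp ((mul_eq_zero.mp hpell.symm).resolve_left h4)
    obtain ⟨s, hs⟩ := exists_sections hN hn D hxz hY hα' hβ' (by rw [ha, zero_mul, hxz0])
    exact ⟨_, hs, rfl⟩
  · have hβ' : 2 * (x * z / α) ^ N = ev x z D.A - ev x z D.B * Y := by
      have ha' : α ^ N ≠ 0 := pow_ne_zero _ ha
      rw [← hα'] at hpell
      rw [div_pow, mul_div_assoc', div_eq_iff ha']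
      apply mul_left_cancel₀ h2
      linear_combination -hpell
    obtain ⟨s, hs⟩ := exists_sections hN hn D hxz hY hα' hβ' (mul_div_cancel₀ _ ha)
    exact ⟨_, hs, rfl⟩

/-- Two lifts with the same `Y` differ by a root of unity. -/
theorem IsLift.orbit {F : Type*} [Field F] [CharZero F] (hN : 2 ≤ N) (hn : n < N)
    {D : EDatum N n F} {x z : F} (hxz : x ≠ 0 ∨ z ≠ 0) {q q' : LiftPt n F} (h : IsLift D x z q)
    (h' : IsLift D x z q') (hY : q'.Y = q.Y) :
    ∃ ω : F, ω ^ N = 1 ∧ q'.α = ω * q.α ∧ q'.β * ω = q.β ∧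
      ∀ l j, q'.s l j = ω ^ (l.val + 1) * q.s l j := by
  have h2 : (2 : F) ≠ 0 := two_ne_zero
  have hN0 : N ≠ 0 := by omega
  have hαN : q'.α ^ N = q.α ^ N := by
    apply mul_left_cancel₀ h2
    rw [h'.hα, h.hα, hY]
  have hβN : q'.β ^ N = q.β ^ N := by
    apply mul_left_cancel₀ h2
    rw [h'.hβ, h.hβ, hY]
  have hαβ : q'.α * q'.β = q.α * q.β := by rw [h'.hαβ, h.hαβ]
  have hne := h.ne_zero hN hxz
  have hne' := h'.ne_zero hN hxz
  have key : ∃ ω : F, ω ^ N = 1 ∧ q'.α = ω * q.α ∧ q'.β * ω = q.β := by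
    by_cases ha : q.α = 0
    · have ha' : q'.α = 0 := by
        rw [ha, zero_pow hN0] at hαN
        exact pow_eq_zero_iff hN0 |>.mp hαN
      have hb : q.β ≠ 0 := hne.resolve_left (fun h => h ha)
      have hb' : q'.β ≠ 0 := hne'.resolve_left (fun h => h ha')
      refine ⟨q.β / q'.β, ?_, ?_, mul_div_cancel₀ _ hb'⟩
      · rw [div_pow, hβN, div_self (pow_ne_zero _ hb)]
      · rw [ha, ha', mul_zero]
    · have ha' : q'.α ≠ 0 := by
        intro h0
        rw [h0, zero_pow hN0] at hαN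
        exact ha (pow_eq_zero_iff hN0 |>.mp hαN.symm)
      refine ⟨q'.α / q.α, ?_, (div_mul_cancel₀ _ ha).symm, ?_⟩
      · rw [div_pow, hαN, div_self (pow_ne_zero _ ha)]
      · rw [mul_div_assoc', div_eq_iff ha]
        linear_combination hαβ
  obtain ⟨ω, hω, h3, h4⟩ := key
  have hω0 : ω ≠ 0 := by
    rintro rfl
    rw [zero_pow hN0] at hω
    exact zero_ne_one hω
  refine ⟨ω, hω, h3, h4, fun l j => ?_⟩
  have hl : l.val + 1 < N := by have := l.2; omega
  by_cases hb' : q'.β = 0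
  · have ha' : q'.α ≠ 0 := hne'.resolve_right (fun h => h hb')
    have e1 := h'.h2 l j
    rw [hY, ← h.h2 l j] at e1
    have ha : q.α ≠ 0 := by
      intro h0
      rw [h0, mul_zero] at h3
      exact ha' h3
    rw [h3, mul_pow] at e1
    have e2 : ω ^ (N - (l.val + 1)) * q'.s l j = q.s l j := by
      apply mul_left_cancel₀ (mul_ne_zero h2 (pow_ne_zero (N - (l.val + 1)) ha))
      linear_combination e1
    have e3 : ω ^ (l.val + 1) * ω ^ (N - (l.val + 1)) = 1 := by
      rw [← pow_add, ← hω]; refine congrArg (fun k : ℕ => _ ^ k) ?_; omega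
    calc q'.s l j = (ω ^ (l.val + 1) * ω ^ (N - (l.val + 1))) * q'.s l j := by rw [e3, one_mul]
      _ = ω ^ (l.val + 1) * (ω ^ (N - (l.val + 1)) * q'.s l j) := by ring
      _ = _ := by rw [e2]
  · have e1 := h'.h1 l j
    rw [hY, ← h.h1 l j, ← h4, mul_pow] at e1
    apply mul_left_cancel₀ (pow_ne_zero (l.val + 1) hb')
    linear_combination e1

/-- Lifts of unimodular points are integral. -/
theorem IsLift.integral {O F : Type*} [CommRing O] [Field F] [CharZero F] [Algebra O F]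
    (hinj : Function.Injective (algebraMap O F))
    (hcl : ∀ y : F, IsIntegral O y → ∃ a : O, algebraMap O F a = y) (h2 : IsUnit (2 : O))
    (hN : 2 ≤ N) (hn : n < N) (D : EDatum N n O) (x z : O) (hxz : ∃ a b : O, a * x + b * z = 1)
    (q : LiftPt n F)
    (hq : IsLift (D.map (algebraMap O F)) (algebraMap O F x) (algebraMap O F z) q) :
    ∃ q' : LiftPt n O, IsLift D x z q' ∧ q'.map (algebraMap O F) = q := by
  set φ := algebraMap O F with hφ
  have hN0 : 0 < N := by omega
  have h2F : (2 : F) ≠ 0 := two_ne_zero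
  obtain ⟨u2, hu2⟩ := h2.exists_right_inv
  have hu2F : (2 : F) * φ u2 = 1 := by
    have := congrArg φ hu2
    rw [map_mul, map_one, map_ofNat] at this
    exact this
  have hF : (D.map φ).F = MvPolynomial.map φ D.F := (map_quar φ _ _ _).symm
  -- `Y`
  have hYe : q.Y ^ 2 = φ (ev x z D.F) := by
    have := hq.hY
    rw [hF, ev_map] at this
    exact this
  obtain ⟨Y, hY⟩ := hcl q.Y (IsIntegral.of_pow two_pos (by rw [hYe]; exact isIntegral_algebraMap))
  have hαe : 2 * q.α ^ N = φ (ev x z D.A + ev x z D.B * Y) := by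
    have h0 : 2 * q.α ^ N = ev (φ x) (φ z) (MvPolynomial.map φ D.A) +
      ev (φ x) (φ z) (MvPolynomial.map φ D.B) * q.Y := hq.hα
    rw [ev_map, ev_map, ← hY] at h0
    rw [h0]
    simp [hφ]
  have hβe : 2 * q.β ^ N = φ (ev x z D.A - ev x z D.B * Y) := by
    have h0 : 2 * q.β ^ N = ev (φ x) (φ z) (MvPolynomial.map φ D.A) -
      ev (φ x) (φ z) (MvPolynomial.map φ D.B) * q.Y := hq.hβ
    rw [ev_map, ev_map, ← hY] at h0
    rw [h0]
    simp [hφ]
  have hαN : q.α ^ N = φ (u2 * (ev x z D.A + ev x z D.B * Y)) := by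
    rw [map_mul, ← hαe]
    linear_combination (-q.α ^ N) * hu2F
  have hβN : q.β ^ N = φ (u2 * (ev x z D.A - ev x z D.B * Y)) := by
    rw [map_mul, ← hβe]
    linear_combination (-q.β ^ N) * hu2F
  obtain ⟨α, hα⟩ := hcl q.α (IsIntegral.of_pow hN0 (by rw [hαN]; exact isIntegral_algebraMap))
  obtain ⟨β, hβ⟩ := hcl q.β (IsIntegral.of_pow hN0 (by rw [hβN]; exact isIntegral_algebraMap))
  have hαO : 2 * α ^ N = ev x z D.A + ev x z D.B * Y := by
    apply hinj
    rw [← hαe, ← hα, map_mul, map_pow, map_ofNat]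
  have hβO : 2 * β ^ N = ev x z D.A - ev x z D.B * Y := by
    apply hinj
    rw [← hβe, ← hβ, map_mul, map_pow, map_ofNat]
  have hαβO : α * β = x * z := by
    apply hinj
    have := hq.hαβ
    rw [← hα, ← hβ] at this
    simpa using this
  -- `α`, `β` are coprime
  have hcop : IsCoprime α β := by
    by_contra hne0
    have hne : Ideal.span ({α, β} : Set O) ≠ ⊤ := by
      intro htop
      apply hne0
      have h1 : (1 : O) ∈ Ideal.span ({α, β} : Set O) := by
        rw [htop]; exact Submodule.mem_top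
      exact Ideal.mem_span_pair.mp h1
    obtain ⟨m, hm, hle⟩ := Ideal.exists_le_maximal _ hne
    have hαm : α ∈ m := hle (Ideal.subset_span (by simp))
    have hβm : β ∈ m := hle (Ideal.subset_span (by simp))
    let _ : Field (O ⧸ m) := Ideal.Quotient.field m
    set π := Ideal.Quotient.mk m with hπ
    have h2π : (2 : O ⧸ m) ≠ 0 := by
      intro h0
      have := congrArg π hu2
      rw [map_mul, map_ofNat, h0, zero_mul, map_one] at this
      exact zero_ne_one this
    have hxzπ : π x ≠ 0 ∨ π z ≠ 0 := by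
      by_contra hcon
      push Not at hcon
      obtain ⟨a, b, hab⟩ := hxz
      have := congrArg π hab
      rw [map_add, map_mul, map_mul, hcon.1, hcon.2, mul_zero, mul_zero, add_zero, map_one] at this
      exact zero_ne_one this
    have h3 := Lifts_core h2π hN (D.map π) (x := π x) (z := π z) (Y := π Y) (α := π α) (β := π β)
      hxzπ (by
        show 2 * (π α) ^ N = ev (π x) (π z) (MvPolynomial.map π D.A) +
          ev (π x) (π z) (MvPolynomial.map π D.B) * π Y
        rw [ev_map, ev_map, ← map_mul, ← map_add, ← hαO, map_mul, map_pow, map_ofNat]) (by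
        show 2 * (π β) ^ N = ev (π x) (π z) (MvPolynomial.map π D.A) -
          ev (π x) (π z) (MvPolynomial.map π D.B) * π Y
        rw [ev_map, ev_map, ← map_mul, ← map_sub, ← hβO, map_mul, map_pow, map_ofNat]) (by rw [← map_mul, hαβO, map_mul])
    rcases h3 with h3 | h3
    · exact h3 (Ideal.Quotient.eq_zero_iff_mem.mpr hαm)
    · exact h3 (Ideal.Quotient.eq_zero_iff_mem.mpr hβm)
  -- the sections
  have hs : ∀ l j, ∃ s : O, φ s = q.s l j := by
    intro l j
    have h1 : (q.β) ^ (l.val + 1) * q.s l j =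
        ev (φ x) (φ z) (MvPolynomial.map φ (D.P l j)) +
        ev (φ x) (φ z) (MvPolynomial.map φ (D.Q l j)) * q.Y := hq.h1 l j
    have h3 : 2 * (q.α) ^ (N - (l.val + 1)) * q.s l j =
        ev (φ x) (φ z) (MvPolynomial.map φ (D.V l j)) +
        ev (φ x) (φ z) (MvPolynomial.map φ (D.U l j)) * q.Y := hq.h2 l j
    rw [ev_map, ev_map, ← hY, ← hβ, ← map_mul, ← map_add, ← map_pow] at h1
    rw [ev_map, ev_map, ← hY, ← hα, ← map_mul φ (ev x z (D.U l j)), ← map_add, ← map_pow] at h3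
    obtain ⟨a, b, hab⟩ := (hcop.pow (m := N - (l.val + 1)) (n := l.val + 1))
    refine ⟨a * (u2 * (ev x z (D.V l j) + ev x z (D.U l j) * Y)) +
      b * (ev x z (D.P l j) + ev x z (D.Q l j) * Y), ?_⟩
    have hab' := congrArg φ hab
    rw [map_add, map_mul, map_mul, map_one] at hab'
    rw [map_add, map_mul φ a, map_mul φ b, map_mul φ u2, ← h1, ← h3]
    linear_combination (q.s l j) * hab' + φ a * φ (α ^ (N - (l.val + 1))) * q.s l j * hu2F
  choose s hs using hs
  have hmap : (⟨Y, α, β, s⟩ : LiftPt n O).map φ = q := by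
    show (⟨φ Y, φ α, φ β, fun l j => φ (s l j)⟩ : LiftPt n F) = q
    rw [hY, hα, hβ]
    have : (fun l j => φ (s l j)) = q.s := by
      funext l j
      exact hs l j
    rw [this]
  refine ⟨⟨Y, α, β, s⟩, ?_, hmap⟩
  refine IsLift.of_map hinj ?_
  rw [hmap]
  exact hq

/-- polynomial identities for special data -/
lemma Lifts_special_F {R : Type*} [CommRing R] {D : EDatum N n R} {ζ : R} (hD : IsSpecial D ζ)
    (x z : R) : ev x z D.F = ((x - ζ * z) * (x - z)) ^ 2 := by
  show ev x z (quar D.t D.c₀ D.c₁) = _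
  rw [hD.ht, hD.hc₀, hD.hc₁]
  simp only [quar, ev, map_mul, map_sub, map_pow, eval_X, eval_C, Matrix.cons_val_zero,
    Matrix.cons_val_one]
  ring

lemma Lifts_special_VU {F : Type*} [Field F] (hn : n < N) {D : EDatum N n F} {ζ : F}
    (hD : IsSpecial D ζ) (l : Fin n) (j : Fin 2) (ε : F) (hε : ε ^ 2 = 1)
    (S W1 W2 : MvPolynomial (Fin 2) F)
    (hA : D.A + C ε * (D.B * ((X 0 - C ζ * X 1) * (X 0 - X 1))) = 2 * W1 ^ N)
    (hW : W1 * W2 = X 0 * X 1)
    (hS : D.P l j + C ε * (D.Q l j * ((X 0 - C ζ * X 1) * (X 0 - X 1))) = W2 ^ (l.val + 1) * S) :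
    D.V l j + C ε * (D.U l j * ((X 0 - C ζ * X 1) * (X 0 - X 1))) =
      2 * W1 ^ (N - (l.val + 1)) * S := by
  set qq : MvPolynomial (Fin 2) F := (X 0 - C ζ * X 1) * (X 0 - X 1) with hqq
  have hF : quar D.t D.c₀ D.c₁ = qq ^ 2 := by
    rw [hD.ht, hD.hc₀, hD.hc₁, hqq]
    simp only [quar, map_zero, map_one]
    ring
  have hεC : (C ε : MvPolynomial (Fin 2) F) ^ 2 = 1 := by
    rw [← map_pow, hε, map_one]
  have hprod : (D.A + C ε * (D.B * qq)) * (D.P l j + C ε * (D.Q l j * qq)) =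
      (X 0 * X 1) ^ (l.val + 1) * (D.V l j + C ε * (D.U l j * qq)) := by
    have h1 := D.id1 l j
    have h2 := D.id2 l j
    rw [hF] at h2
    linear_combination h2 + C ε * qq * h1 + (D.B * qq * (D.Q l j * qq)) * hεC
  rw [hA, hS] at hprod
  have h0 : (X 0 * X 1 : MvPolynomial (Fin 2) F) ^ (l.val + 1) ≠ 0 :=
    pow_ne_zero _ (mul_ne_zero (X_ne_zero _) (X_ne_zero _))
  apply mul_left_cancel₀ h0
  rw [← hprod, ← hW, mul_pow]
  have hl : l.val + 1 < N := by have := l.2; omega
  have e : W1 ^ (l.val + 1) * W1 ^ (N - (l.val + 1)) = W1 ^ N := by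
    rw [← pow_add]; refine congrArg (fun k : ℕ => _ ^ k) ?_; omega
  rw [← e]
  ring

/-- The lifts for special data. -/
theorem IsLift.special {F : Type*} [Field F] [CharZero F] (hN : 2 ≤ N) (hn : n < N)
    {D : EDatum N n F} {ζ : F} (hζ : ζ ^ N = 1) (hD : IsSpecial D ζ) {x z : F}
    (hxz : x ≠ 0 ∨ z ≠ 0) {q : LiftPt n F} (hq : IsLift D x z q) :
    ∃ ω : F, ω ^ N = 1 ∧
      ((q.Y = (x - ζ * z) * (x - z) ∧ q.α = ω * x ∧ q.β * ω = z ∧
        ∀ l : Fin n, q.s l 0 = ω ^ (l.val + 1) * (2 * ζ ^ (l.val + 1) * (x - z)) ∧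
          q.s l 1 = ω ^ (l.val + 1) * (2 * (x - ζ * z))) ∨
      (q.Y = -((x - ζ * z) * (x - z)) ∧ q.α = ω * z ∧ q.β * ω = x ∧
        ∀ l : Fin n, q.s l 0 = ω ^ (l.val + 1) * (2 * (x - z)) ∧
          q.s l 1 = ω ^ (l.val + 1) * (2 * (x - ζ * z)))) := by
  set qv := (x - ζ * z) * (x - z) with hqv
  have e0 : ev x z (X 0) = x := by simp [ev]
  have e1 : ev x z (X 1) = z := by simp [ev]
  have eq : ev x z ((X 0 - C ζ * X 1) * (X 0 - X 1)) = qv := by
    rw [map_mul, map_sub, map_sub, map_mul, e0, e1]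
    simp [ev, hqv]
  have hFv := Lifts_special_F hD x z
  have hA : ev x z D.A = x ^ N + z ^ N := by
    rw [hD.hA, map_add, map_pow, map_pow, e0, e1]
  have hB : ev x z D.B * qv = x ^ N - z ^ N := by
    have := congrArg (ev x z) hD.hB
    rw [map_mul, eq, map_sub, map_pow, map_pow, e0, e1] at this
    exact this
  have hsq : q.Y ^ 2 = qv ^ 2 := by rw [hq.hY, hFv]
  -- polynomial identities
  have hA1 : D.A + C (1:F) * (D.B * ((X 0 - C ζ * X 1) * (X 0 - X 1))) = 2 * (X 0) ^ N := by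
    rw [hD.hA, hD.hB, map_one]; ring
  have hA2 : D.A + C (-1:F) * (D.B * ((X 0 - C ζ * X 1) * (X 0 - X 1))) = 2 * (X 1) ^ N := by
    rw [hD.hA, hD.hB, map_neg, map_one]; ring
  rcases sq_eq_sq_iff_eq_or_eq_neg.mp hsq with hY | hY
  · -- first case
    set q0 : LiftPt n F := ⟨qv, x, z, fun l j => if j = 0 then 2 * ζ ^ (l.val + 1) * (x - z)
      else 2 * (x - ζ * z)⟩ with hq0
    have hlift : IsLift D x z q0 := by
      refine ⟨hFv.symm, ?_, ?_, rfl, fun l j => ?_, fun l j => ?_⟩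
      · show 2 * x ^ N = ev x z D.A + ev x z D.B * qv
        rw [hA, hB]; ring
      · show 2 * z ^ N = ev x z D.A - ev x z D.B * qv
        rw [hA, hB]; ring
      · show z ^ (l.val + 1) * (if j = 0 then 2 * ζ ^ (l.val + 1) * (x - z) else 2 * (x - ζ * z)) =
          ev x z (D.P l j) + ev x z (D.Q l j) * qv
        rw [← eq, ← map_mul, ← map_add]
        fin_cases j
        · show z ^ (l.val + 1) * (if (0 : Fin 2) = 0 then 2 * ζ ^ (l.val + 1) * (x - z)
            else 2 * (x - ζ * z)) =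
            ev x z (D.P l 0 + D.Q l 0 * ((X 0 - C ζ * X 1) * (X 0 - X 1)))
          rw [hD.h10 l, if_pos rfl]
          simp [ev]
        · show z ^ (l.val + 1) * (if (1 : Fin 2) = 0 then 2 * ζ ^ (l.val + 1) * (x - z)
            else 2 * (x - ζ * z)) =
            ev x z (D.P l 1 + D.Q l 1 * ((X 0 - C ζ * X 1) * (X 0 - X 1)))
          rw [hD.h11 l, if_neg (by decide)]
          simp [ev]
      · show 2 * x ^ (N - (l.val + 1)) *
          (if j = 0 then 2 * ζ ^ (l.val + 1) * (x - z) else 2 * (x - ζ * z)) =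
          ev x z (D.V l j) + ev x z (D.U l j) * qv
        rw [← eq, ← map_mul, ← map_add]
        fin_cases j
        · have h3 := Lifts_special_VU hn hD l 0 1 (by norm_num)
            (C (2 * ζ ^ (l.val + 1)) * (X 0 - X 1)) (X 0) (X 1) hA1 rfl
            (by rw [map_one, one_mul]; exact hD.h10 l)
          rw [map_one, one_mul] at h3
          show 2 * x ^ (N - (l.val + 1)) * (if (0 : Fin 2) = 0 then 2 * ζ ^ (l.val + 1) * (x - z)
            else 2 * (x - ζ * z)) =
            ev x z (D.V l 0 + D.U l 0 * ((X 0 - C ζ * X 1) * (X 0 - X 1)))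
          rw [h3, if_pos rfl]
          simp [ev]
        · have h3 := Lifts_special_VU hn hD l 1 1 (by norm_num)
            (2 * (X 0 - C ζ * X 1)) (X 0) (X 1) hA1 rfl
            (by rw [map_one, one_mul]; exact hD.h11 l)
          rw [map_one, one_mul] at h3
          show 2 * x ^ (N - (l.val + 1)) * (if (1 : Fin 2) = 0 then 2 * ζ ^ (l.val + 1) * (x - z)
            else 2 * (x - ζ * z)) =
            ev x z (D.V l 1 + D.U l 1 * ((X 0 - C ζ * X 1) * (X 0 - X 1)))
          rw [h3, if_neg (by decide)]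
          simp [ev]
    obtain ⟨ω, hω, h3, h4, h5⟩ := hlift.orbit hN hn hxz hq hY
    refine ⟨ω, hω, Or.inl ⟨hY, h3, h4, fun l => ⟨?_, ?_⟩⟩⟩
    · have := h5 l 0
      simpa [hq0] using this
    · have := h5 l 1
      simpa [hq0] using this
  · set q0 : LiftPt n F := ⟨-qv, z, x, fun l j => if j = 0 then 2 * (x - z)
      else 2 * (x - ζ * z)⟩ with hq0
    have hlift : IsLift D x z q0 := by
      refine ⟨?_, ?_, ?_, mul_comm z x, fun l j => ?_, fun l j => ?_⟩
      · show (-qv) ^ 2 = _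
        rw [hFv]; ring
      · show 2 * z ^ N = ev x z D.A + ev x z D.B * (-qv)
        rw [mul_neg, hA, hB]; ring
      · show 2 * x ^ N = ev x z D.A - ev x z D.B * (-qv)
        rw [mul_neg, hA, hB]; ring
      · show x ^ (l.val + 1) * (if j = 0 then 2 * (x - z) else 2 * (x - ζ * z)) =
          ev x z (D.P l j) + ev x z (D.Q l j) * (-qv)
        rw [mul_neg, ← sub_eq_add_neg, ← eq, ← map_mul, ← map_sub]
        fin_cases j
        · show x ^ (l.val + 1) * (if (0 : Fin 2) = 0 then 2 * (x - z)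
            else 2 * (x - ζ * z)) =
            ev x z (D.P l 0 - D.Q l 0 * ((X 0 - C ζ * X 1) * (X 0 - X 1)))
          rw [hD.h20 l, if_pos rfl]
          simp [ev]
        · show x ^ (l.val + 1) * (if (1 : Fin 2) = 0 then 2 * (x - z)
            else 2 * (x - ζ * z)) =
            ev x z (D.P l 1 - D.Q l 1 * ((X 0 - C ζ * X 1) * (X 0 - X 1)))
          rw [hD.h21 l, if_neg (by decide)]
          simp [ev]
      · show 2 * z ^ (N - (l.val + 1)) *
          (if j = 0 then 2 * (x - z) else 2 * (x - ζ * z)) =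
          ev x z (D.V l j) + ev x z (D.U l j) * (-qv)
        rw [mul_neg, ← sub_eq_add_neg, ← eq, ← map_mul, ← map_sub]
        fin_cases j
        · have h3 := Lifts_special_VU hn hD l 0 (-1) (by norm_num)
            (2 * (X 0 - X 1)) (X 1) (X 0) hA2 (mul_comm _ _)
            (by rw [map_neg, map_one, neg_one_mul, ← sub_eq_add_neg]; exact hD.h20 l)
          rw [map_neg, map_one, neg_one_mul, ← sub_eq_add_neg] at h3
          show 2 * z ^ (N - (l.val + 1)) * (if (0 : Fin 2) = 0 then 2 * (x - z)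
            else 2 * (x - ζ * z)) =
            ev x z (D.V l 0 - D.U l 0 * ((X 0 - C ζ * X 1) * (X 0 - X 1)))
          rw [h3, if_pos rfl]
          simp [ev]
        · have h3 := Lifts_special_VU hn hD l 1 (-1) (by norm_num)
            (2 * (X 0 - C ζ * X 1)) (X 1) (X 0) hA2 (mul_comm _ _)
            (by rw [map_neg, map_one, neg_one_mul, ← sub_eq_add_neg]; exact hD.h21 l)
          rw [map_neg, map_one, neg_one_mul, ← sub_eq_add_neg] at h3
          show 2 * z ^ (N - (l.val + 1)) * (if (1 : Fin 2) = 0 then 2 * (x - z)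
            else 2 * (x - ζ * z)) =
            ev x z (D.V l 1 - D.U l 1 * ((X 0 - C ζ * X 1) * (X 0 - X 1)))
          rw [h3, if_neg (by decide)]
          simp [ev]
    obtain ⟨ω, hω, h3, h4, h5⟩ := hlift.orbit hN hn hxz hq hY
    refine ⟨ω, hω, Or.inr ⟨hY, h3, h4, fun l => ⟨?_, ?_⟩⟩⟩
    · have := h5 l 0
      simpa [hq0] using this
    · have := h5 l 1
      simpa [hq0] using this

/-- The sections of a given character have no common zero if the data are special over the
residue field of a valuation ring. -/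
theorem IsLift.exists_ne_zero {F : Type*} [Field F] [CharZero F] (O : ValuationSubring F)
    [CharZero (ResidueField O)] (hN : 2 ≤ N) (hn : n < N) (D : EDatum N n O)
    (ζ : ResidueField O) (hζ : ζ ^ N = 1) (hζ1 : ζ ≠ 1) (hD : IsSpecial (D.map (residue O)) ζ)
    {x z : F} (hxz : x ≠ 0 ∨ z ≠ 0) {q : LiftPt n F} (hq : IsLift (D.map (algebraMap O F)) x z q)
    (l : Fin n) : ∃ j, q.s l j ≠ 0 := by
  have hinj : Function.Injective (algebraMap O F) := FaithfulSMul.algebraMap_injective O F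
  have hcl : ∀ y : F, IsIntegral O y → ∃ a : O, algebraMap O F a = y := fun y hy =>
    IsIntegrallyClosed.isIntegral_iff.mp hy
  have h2 : IsUnit (2 : O) := by
    by_contra hne
    have h0 : residue O 2 = 0 := (residue_eq_zero_iff _).mpr ((mem_maximalIdeal _).mpr hne)
    rw [map_ofNat] at h0
    exact two_ne_zero h0
  -- normalise the point
  obtain ⟨a, x', z', ha, hx', hz', hu⟩ : ∃ (a : F) (x' z' : O), a ≠ 0 ∧ algebraMap O F x' = a * x ∧
      algebraMap O F z' = a * z ∧ ∃ u v : O, u * x' + v * z' = 1 := by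
    rcases eq_or_ne x 0 with hx | hx
    · have hz : z ≠ 0 := hxz.resolve_left (fun h => h hx)
      refine ⟨z⁻¹, 0, 1, inv_ne_zero hz, ?_, ?_, 0, 1, by ring⟩
      · rw [hx, mul_zero, map_zero]
      · rw [map_one, inv_mul_cancel₀ hz]
    · rcases O.mem_or_inv_mem (z / x) with hm | hm
      · refine ⟨x⁻¹, 1, ⟨z / x, hm⟩, inv_ne_zero hx, ?_, ?_, 1, 0, by ring⟩
        · rw [map_one, inv_mul_cancel₀ hx]
        · show z / x = _
          rw [div_eq_inv_mul]
      · rcases eq_or_ne z 0 with hz | hz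
        · refine ⟨x⁻¹, 1, 0, inv_ne_zero hx, ?_, ?_, 1, 0, by ring⟩
          · rw [map_one, inv_mul_cancel₀ hx]
          · rw [hz, mul_zero, map_zero]
        · refine ⟨z⁻¹, ⟨(z / x)⁻¹, hm⟩, 1, inv_ne_zero hz, ?_, ?_, 0, 1, by ring⟩
          · show (z / x)⁻¹ = _
            rw [inv_div, div_eq_inv_mul]
          · rw [map_one, inv_mul_cancel₀ hz]
  have hq1 := hq.scale hN hn a
  rw [← hx', ← hz'] at hq1
  obtain ⟨q', hq', hmap⟩ := IsLift.integral hinj hcl h2 hN hn D x' z' hu _ hq1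
  have hres := hq'.map (residue O)
  have hxz' : residue O x' ≠ 0 ∨ residue O z' ≠ 0 := by
    by_contra hcon
    push Not at hcon
    obtain ⟨u, v, huv⟩ := hu
    have := congrArg (residue O) huv
    rw [map_add, map_mul, map_mul, hcon.1, hcon.2, mul_zero, mul_zero, add_zero, map_one] at this
    exact zero_ne_one this
  have hsp := IsLift.special hN hn hζ hD hxz' hres
  have hne : ∃ j, (q'.map (residue O)).s l j ≠ 0 := by
    by_contra hcon
    push Not at hcon
    have hN0 : N ≠ 0 := by omega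
    have hζ0 : ζ ≠ 0 := by
      rintro rfl
      rw [zero_pow hN0] at hζ
      exact zero_ne_one hζ
    obtain ⟨ω, hω, h3⟩ := hsp
    have hω0 : ω ≠ 0 := by
      rintro rfl
      rw [zero_pow hN0] at hω
      exact zero_ne_one hω
    have h4 : residue O x' - residue O z' = 0 ∧ residue O x' - ζ * residue O z' = 0 := by
      rcases h3 with ⟨_, _, _, h5⟩ | ⟨_, _, _, h5⟩
      · obtain ⟨h6, h7⟩ := h5 l
        rw [hcon 0] at h6
        rw [hcon 1] at h7
        constructor
        · have h8 := (mul_eq_zero.mp h6.symm).resolve_left (pow_ne_zero _ hω0)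
          exact (mul_eq_zero.mp h8).resolve_left (mul_ne_zero two_ne_zero (pow_ne_zero _ hζ0))
        · have h8 := (mul_eq_zero.mp h7.symm).resolve_left (pow_ne_zero _ hω0)
          exact (mul_eq_zero.mp h8).resolve_left two_ne_zero
      · obtain ⟨h6, h7⟩ := h5 l
        rw [hcon 0] at h6
        rw [hcon 1] at h7
        constructor
        · have h8 := (mul_eq_zero.mp h6.symm).resolve_left (pow_ne_zero _ hω0)
          exact (mul_eq_zero.mp h8).resolve_left two_ne_zero
        · have h8 := (mul_eq_zero.mp h7.symm).resolve_left (pow_ne_zero _ hω0)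
          exact (mul_eq_zero.mp h8).resolve_left two_ne_zero
    obtain ⟨h5, h6⟩ := h4
    have h7 : (1 - ζ) * residue O z' = 0 := by linear_combination h6 - h5
    have h8 : residue O z' = 0 :=
      (mul_eq_zero.mp h7).resolve_left (sub_ne_zero.mpr (Ne.symm hζ1))
    have h9 : residue O x' = 0 := by rw [h8, sub_zero] at h5; exact h5
    rcases hxz' with h | h
    · exact h h9
    · exact h h8
  obtain ⟨j, hj⟩ := hne
  refine ⟨j, fun h0 => hj ?_⟩
  show residue O (q'.s l j) = 0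
  have h3 : algebraMap O F (q'.s l j) = a * q.s l j := by
    have := congrArg (fun r : LiftPt n F => r.s l j) hmap
    exact this
  rw [h0, mul_zero] at h3
  have h4 : q'.s l j = 0 := hinj (by rw [h3, map_zero])
  rw [h4, map_zero]

end Pool.Agent.MultiSpec
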