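import Pool.Agent.MultiSpec.DatumAux

/-!
The residue of a lift: in a residue field of the function field `E` the lift of the slot that is
not degenerate is defined.
-/

set_option autoImplicit false

namespace Pool.Agent.MultiSpec

open MvPolynomial IsLocalRing

variable {N n : ℕ}

lemma isUnit_natCast {F : Type*} [Field F] (W : ValuationSubring F)
    [CharZero (ResidueField W)] {m : ℕ} (hm : m ≠ 0) : IsUnit (m : W) := by
  by_contra h
  have h1 : residue W (m : W) = 0 := (residue_eq_zero_iff _).2 ((mem_maximalIdeal _).2 h)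
  rw [map_natCast] at h1
  exact hm (by exact_mod_cast h1)

lemma exists_unimodular {E : Type*} [Field E] (V : ValuationSubring E) (x z : E)
    (hxz : x ≠ 0 ∨ z ≠ 0) :
    ∃ m : E, m ≠ 0 ∧ m⁻¹ * x ∈ V ∧ m⁻¹ * z ∈ V ∧ (m⁻¹ * x = 1 ∨ m⁻¹ * z = 1) := by
  by_cases hx : x = 0
  · have hz : z ≠ 0 := hxz.resolve_left (not_not.2 hx)
    refine ⟨z, hz, ?_, ?_, Or.inr (inv_mul_cancel₀ hz)⟩
    · rw [hx, mul_zero]; exact V.zero_mem
    · rw [inv_mul_cancel₀ hz]; exact V.one_mem
  by_cases hz : z = 0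
  · refine ⟨x, hx, ?_, ?_, Or.inl (inv_mul_cancel₀ hx)⟩
    · rw [inv_mul_cancel₀ hx]; exact V.one_mem
    · rw [hz, mul_zero]; exact V.zero_mem
  rcases V.mem_or_inv_mem (z⁻¹ * x) with h | h
  · exact ⟨z, hz, h, by rw [inv_mul_cancel₀ hz]; exact V.one_mem,
      Or.inr (inv_mul_cancel₀ hz)⟩
  · refine ⟨x, hx, by rw [inv_mul_cancel₀ hx]; exact V.one_mem, ?_, Or.inl (inv_mul_cancel₀ hx)⟩
    rw [mul_inv, inv_inv, mul_comm] at h
    exact h

lemma LiftPt.map_scale {R S : Type*} [CommRing R] [CommRing S] (φ : R →+* S) (a : R)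
    (q : LiftPt n R) : (q.scale a).map φ = (q.map φ).scale (φ a) := by
  simp [LiftPt.map, LiftPt.scale]

/-- **Residues of lifts.** -/
theorem typeA_residue {R₀ E Ω : Type} [CommRing R₀] [Field E] [Field Ω] [CharZero Ω]
    [Algebra E Ω] [IsGalois E Ω] (V : ValuationSubring E) (W : ValuationSubring Ω)
    (hVW : ∀ a : E, algebraMap E Ω a ∈ W ↔ a ∈ V) [CharZero (ResidueField W)]
    (φ : R₀ →+* V) (hN : 2 ≤ N) (hn : n < N) (D : Fin n → EDatum N n R₀) {lam : ℕ}
    (hlam : lam ≠ 0)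
    (hroots : ∀ ω : ResidueField W, ω ^ N = 1 →
      ω ∈ Set.range (resMap (algebraMap E Ω) V W hVW))
    (s₀ : Fin n) (ζ : ResidueField V) (hζ : ζ ^ N = 1)
    (hsp : ∀ j, j ≠ s₀ → IsSpecial ((D j).map ((residue V).comp φ)) ζ)
    (x z : Fin n → E) (hxz : ∀ j, x j ≠ 0 ∨ z j ≠ 0) (ξ : V) (hξ : residue V ξ ≠ 0)
    (hz₀ : z s₀ ≠ 0) (hx₀ : x s₀ = ξ * z s₀) (q : Fin n → LiftPt n Ω)
    (hq : ∀ j, IsLift ((D j).map ((algebraMap E Ω).comp (V.subtype.comp φ)))
      (algebraMap E Ω (x j)) (lam * algebraMap E Ω (z j)) (q j))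
    (hqY : ∀ j, (q j).Y ∈ Set.range (algebraMap E Ω))
    (hprod : ∀ (σ : Ω ≃ₐ[E] Ω) (ω : Fin n → Ω), (∀ j, ω j ^ N = 1) →
      (∀ j, σ (q j).α = ω j * (q j).α) → (∀ j, σ (q j).β * ω j = (q j).β) →
      (∀ j l j', σ ((q j).s l j') = ω j ^ (l.val + 1) * (q j).s l j') → ∏ j, ω j = 1) :
    ∃ y α : ResidueField V,
      y ^ 2 = ev (residue V ξ) lam ((D s₀).map ((residue V).comp φ)).F ∧
      2 * α ^ N = ev (residue V ξ) lam ((D s₀).map ((residue V).comp φ)).A +
        ev (residue V ξ) lam ((D s₀).map ((residue V).comp φ)).B * y := by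
  classical
  set ι := valMap (algebraMap E Ω) V W hVW with hι
  set res := resMap (algebraMap E Ω) V W hVW with hres
  have hN0 : N ≠ 0 := by omega
  -- scaling
  have hm : ∀ j, ∃ m : E, m ≠ 0 ∧ m⁻¹ * x j ∈ V ∧ m⁻¹ * z j ∈ V ∧
      (m⁻¹ * x j = 1 ∨ m⁻¹ * z j = 1) ∧ (j = s₀ → m = z j) := by
    intro j
    by_cases hj : j = s₀
    · subst hj
      refine ⟨z j, hz₀, ?_, ?_, Or.inr (inv_mul_cancel₀ hz₀), fun _ => rfl⟩
      · rw [hx₀, mul_comm, mul_assoc, mul_inv_cancel₀ hz₀, mul_one]; exact ξ.2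
      · rw [inv_mul_cancel₀ hz₀]; exact V.one_mem
    · obtain ⟨m, h1, h2, h3, h4⟩ := exists_unimodular V (x j) (z j) (hxz j)
      exact ⟨m, h1, h2, h3, h4, fun h => absurd h hj⟩
  choose m hm0 hmx hmz hm1 hms using hm
  let x' : Fin n → V := fun j => ⟨(m j)⁻¹ * x j, hmx j⟩
  let z' : Fin n → V := fun j => ⟨(m j)⁻¹ * z j, hmz j⟩
  -- the integral lifts
  have hcomp : ∀ j, ((D j).map (ι.comp φ)).map (algebraMap W Ω) =
      (D j).map ((algebraMap E Ω).comp (V.subtype.comp φ)) := by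
    intro j
    rw [EDatum.map_map]
    rfl
  have hint : ∀ j, ∃ q' : LiftPt n W,
      IsLift ((D j).map (ι.comp φ)) (ι (x' j)) ((lam : W) * ι (z' j)) q' ∧
      q'.map (algebraMap W Ω) = (q j).scale (algebraMap E Ω (m j)⁻¹) := by
    intro j
    refine IsLift.integral (O := W) (F := Ω) Subtype.val_injective ?_ ?_ hN hn _ _ _ ?_ _ ?_
    · intro y hy
      obtain ⟨a, ha⟩ := IsIntegrallyClosed.isIntegral_iff.1 hy
      exact ⟨a, ha⟩
    · have := isUnit_natCast W (m := 2) (by norm_num)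
      exact_mod_cast this
    · rcases hm1 j with h | h
      · refine ⟨1, 0, ?_⟩
        have : x' j = 1 := Subtype.ext h
        rw [this, map_one]; ring
      · obtain ⟨b, hb⟩ := (isUnit_natCast W hlam).exists_left_inv
        refine ⟨0, b, ?_⟩
        have : z' j = 1 := Subtype.ext h
        rw [this, map_one, mul_one, hb]; ring
    · have h1 := (hq j).scale hN hn (algebraMap E Ω (m j)⁻¹)
      rw [hcomp]
      have e1 : algebraMap W Ω (ι (x' j)) = algebraMap E Ω (m j)⁻¹ * algebraMap E Ω (x j) := by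
        rw [← map_mul]; rfl
      have e2 : algebraMap W Ω ((lam : W) * ι (z' j)) =
          algebraMap E Ω (m j)⁻¹ * (lam * algebraMap E Ω (z j)) := by
        rw [map_mul, map_natCast]
        have : algebraMap W Ω (ι (z' j)) = algebraMap E Ω (m j)⁻¹ * algebraMap E Ω (z j) := by
          rw [← map_mul]; rfl
        rw [this]; ring
      rw [e1, e2]
      exact h1
  choose q' hq' hqq' using hint
  have hresc : ∀ j, ((D j).map (ι.comp φ)).map (residue W) =
      ((D j).map ((residue V).comp φ)).map res := by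
    intro j
    rw [EDatum.map_map, EDatum.map_map]
    rfl
  have hqr : ∀ j, IsLift (((D j).map ((residue V).comp φ)).map res) (res (residue V (x' j)))
      (lam * res (residue V (z' j))) ((q' j).map (residue W)) := by
    intro j
    have h1 := (hq' j).map (residue W)
    rw [hresc, map_mul, map_natCast] at h1
    exact h1
  have hα' : ∀ j, ((q' j).α : Ω) = algebraMap E Ω (m j)⁻¹ * (q j).α := fun j =>
    congrArg LiftPt.α (hqq' j)
  have hβ' : ∀ j, ((q' j).β : Ω) = algebraMap E Ω (m j)⁻¹ * (q j).β := fun j =>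
    congrArg LiftPt.β (hqq' j)
  have hY' : ∀ j, ((q' j).Y : Ω) = algebraMap E Ω (m j)⁻¹ ^ 2 * (q j).Y := fun j =>
    congrArg LiftPt.Y (hqq' j)
  have hnz : ∀ j, res (residue V (x' j)) ≠ 0 ∨ (lam : ResidueField W) *
      res (residue V (z' j)) ≠ 0 := by
    intro j
    rcases hm1 j with h | h
    · left
      have : x' j = 1 := Subtype.ext h
      rw [this, map_one, map_one]; exact one_ne_zero
    · right
      have : z' j = 1 := Subtype.ext h
      rw [this, map_one, map_one, mul_one]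
      exact_mod_cast hlam
  have hab : ∀ j, residue W (q' j).α ≠ 0 ∨ residue W (q' j).β ≠ 0 := fun j =>
    (hqr j).ne_zero hN (hnz j)
  -- the residues of the degenerate lifts
  have hdeg : ∀ j, j ≠ s₀ → residue W (q' j).α ∈ Set.range res ∧
      residue W (q' j).β ∈ Set.range res := by
    intro j hj
    obtain ⟨ω, hω, h⟩ := IsLift.special hN hn (ζ := res ζ) (by rw [← map_pow, hζ, map_one])
      ((hsp j hj).map res) (hnz j) (hqr j)
    obtain ⟨ω', rfl⟩ := hroots ω hω
    have hω0 : res ω' ≠ 0 := by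
      intro h0; rw [h0, zero_pow hN0] at hω; exact zero_ne_one hω
    rcases h with ⟨_, h1, h2, _⟩ | ⟨_, h1, h2, _⟩
    · refine ⟨⟨ω' * residue V (x' j), ?_⟩, ⟨lam * residue V (z' j) / ω', ?_⟩⟩
      · rw [map_mul]; exact h1.symm
      · rw [map_div₀, map_mul, map_natCast, div_eq_iff hω0]; exact h2.symm
    · refine ⟨⟨ω' * (lam * residue V (z' j)), ?_⟩, ⟨residue V (x' j) / ω', ?_⟩⟩
      · rw [map_mul, map_mul, map_natCast]; exact h1.symm
      · rw [map_div₀, div_eq_iff hω0]; exact h2.symm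
  -- the slot
  have hxs : x' s₀ = ξ := by
    apply Subtype.ext
    change (m s₀)⁻¹ * x s₀ = ξ
    rw [hms s₀ rfl, hx₀, mul_comm, mul_assoc, mul_inv_cancel₀ hz₀, mul_one]
  have hzs : z' s₀ = 1 := by
    apply Subtype.ext
    change (m s₀)⁻¹ * z s₀ = 1
    rw [hms s₀ rfl, inv_mul_cancel₀ hz₀]
  have hαs : residue W (q' s₀).α ≠ 0 := by
    intro h0
    have h1 := (hqr s₀).hαβ
    have h2 : residue W (q' s₀).α * residue W (q' s₀).β = res (residue V (x' s₀)) *
      (lam * res (residue V (z' s₀))) := h1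
    rw [h0, zero_mul, hxs, hzs, map_one, map_one, mul_one] at h2
    have h3 : res (residue V ξ) ≠ 0 := fun h => hξ (res.injective (h.trans (map_zero _).symm))
    exact mul_ne_zero h3 (by exact_mod_cast hlam) h2.symm
  -- the units
  have hu : ∀ j, ∃ (γ : Ω) (u : W), (u : Ω) = γ ∧ residue W u ≠ 0 ∧
      (j ≠ s₀ → residue W u ∈ Set.range res) ∧ (j = s₀ → u = (q' j).α) ∧
      ∀ (σ : Ω ≃ₐ[E] Ω) (ω : Ω), ω ≠ 0 → σ (q j).α = ω * (q j).α → σ (q j).β * ω = (q j).β →
        σ γ = ω * γ := by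
    intro j
    by_cases h0 : residue W (q' j).α ≠ 0
    · refine ⟨_, (q' j).α, rfl, h0, fun hj => (hdeg j hj).1, fun _ => rfl, ?_⟩
      intro σ ω _ h1 _
      rw [hα', map_mul, AlgEquiv.commutes, h1]; ring
    · have h0' : residue W (q' j).β ≠ 0 := (hab j).resolve_left h0
      have hbu : IsUnit (q' j).β := by
        by_contra hc
        exact h0' ((residue_eq_zero_iff _).2 ((mem_maximalIdeal _).2 hc))
      obtain ⟨u, hu⟩ := hbu.exists_left_inv
      have hj : j ≠ s₀ := by
        rintro rfl; exact h0 hαs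
      have hu' : residue W u * residue W (q' j).β = 1 := by rw [← map_mul, hu, map_one]
      have hbΩ : ((q' j).β : Ω) ≠ 0 := by
        intro h
        have h1 : (u : Ω) * ((q' j).β : Ω) = 1 := congrArg Subtype.val hu
        rw [h, mul_zero] at h1; exact zero_ne_one h1
      have huΩ : (u : Ω) = ((q' j).β : Ω)⁻¹ :=
        eq_inv_of_mul_eq_one_left (congrArg Subtype.val hu)
      refine ⟨_, u, rfl, left_ne_zero_of_mul_eq_one hu', ?_, fun h => absurd h hj, ?_⟩
      · intro _
        obtain ⟨b, hb⟩ := (hdeg j hj).2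
        refine ⟨b⁻¹, ?_⟩
        rw [map_inv₀, hb]
        exact (eq_inv_of_mul_eq_one_left hu').symm
      · intro σ ω hω _ h2
        rw [huΩ, hβ', map_inv₀, map_mul, AlgEquiv.commutes]
        have hβ0 : σ (q j).β ≠ 0 := by
          intro h3
          rw [h3, zero_mul] at h2
          apply hbΩ
          rw [hβ', ← h2, mul_zero]
        have hm' : algebraMap E Ω (m j)⁻¹ ≠ 0 := by
          intro h3
          apply hbΩ
          rw [hβ', h3, zero_mul]
        have h4 : (algebraMap E Ω (m j)⁻¹ * (q j).β)⁻¹ =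
            (algebraMap E Ω (m j)⁻¹ * (σ (q j).β * ω))⁻¹ := by rw [h2]
        rw [h4]
        generalize σ (q j).β = b at hβ0 ⊢
        generalize algebraMap E Ω (m j)⁻¹ = b' at hm' ⊢
        field_simp
  choose γ u huγ hu0 huj hus hγ using hu
  -- the product is fixed
  have hfix : ∀ σ : Ω ≃ₐ[E] Ω, σ (∏ j, γ j) = ∏ j, γ j := by
    intro σ
    have horb : ∀ j, ∃ ω : Ω, ω ^ N = 1 ∧ σ (q j).α = ω * (q j).α ∧
        σ (q j).β * ω = (q j).β ∧ ∀ l j', σ ((q j).s l j') =
          ω ^ (l.val + 1) * (q j).s l j' := by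
      intro j
      have hne : algebraMap E Ω (x j) ≠ 0 ∨ (lam : Ω) * algebraMap E Ω (z j) ≠ 0 := by
        rcases hxz j with h | h
        · left; exact fun h0 => h ((algebraMap E Ω).injective (h0.trans (map_zero _).symm))
        · right
          refine mul_ne_zero (by exact_mod_cast hlam) ?_
          exact fun h0 => h ((algebraMap E Ω).injective (h0.trans (map_zero _).symm))
      have h1 := (hq j).map (σ : Ω →+* Ω)
      have e1 : ((D j).map ((algebraMap E Ω).comp (V.subtype.comp φ))).map (σ : Ω →+* Ω) =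
          (D j).map ((algebraMap E Ω).comp (V.subtype.comp φ)) := by
        rw [EDatum.map_map]
        congr 1
        ext a
        exact σ.commutes _
      have e2 : (σ : Ω →+* Ω) (algebraMap E Ω (x j)) = algebraMap E Ω (x j) := σ.commutes _
      have e3 : (σ : Ω →+* Ω) ((lam : Ω) * algebraMap E Ω (z j)) =
          (lam : Ω) * algebraMap E Ω (z j) := by
        rw [map_mul, map_natCast]
        congr 1
        exact σ.commutes _
      rw [e1, e2, e3] at h1
      refine (hq j).orbit hN hn hne h1 ?_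
      obtain ⟨b, hb⟩ := hqY j
      change σ (q j).Y = (q j).Y
      rw [← hb, σ.commutes]
    choose ω hω1 hω2 hω3 hω4 using horb
    have h1 := hprod σ ω hω1 hω2 hω3 hω4
    have hω0 : ∀ j, ω j ≠ 0 := by
      intro j h0
      have := hω1 j
      rw [h0, zero_pow hN0] at this
      exact zero_ne_one this
    rw [map_prod]
    have h2 : ∀ j, σ (γ j) = ω j * γ j := fun j => hγ j σ (ω j) (hω0 j) (hω2 j) (hω3 j)
    simp only [h2]
    rw [Finset.prod_mul_distrib, h1, one_mul]
  obtain ⟨g, hg⟩ := (InfiniteGalois.mem_range_algebraMap_iff_fixed (∏ j, γ j)).2 hfix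
  have hgW : algebraMap E Ω g = ((∏ j, u j : W) : Ω) := by
    rw [hg]
    have : ((∏ j, u j : W) : Ω) = ∏ j, (u j : Ω) := map_prod W.subtype _ _
    rw [this]
    exact Finset.prod_congr rfl fun j _ => (huγ j).symm
  have hgV : g ∈ V := by rw [← hVW, hgW]; exact (∏ j, u j : W).2
  have hgr : res (residue V ⟨g, hgV⟩) = ∏ j, residue W (u j) := by
    rw [hres, resMap_residue, ← map_prod]
    congr 1
    apply Subtype.ext
    exact hgW
  have hαr : residue W (q' s₀).α ∈ Set.range res := by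
    have h1 : ∏ j, residue W (u j) = residue W (q' s₀).α *
        ∏ j ∈ Finset.univ.erase s₀, residue W (u j) := by
      rw [← Finset.mul_prod_erase _ _ (Finset.mem_univ s₀), hus s₀ rfl]
    have h2 : ∀ j ∈ Finset.univ.erase s₀, residue W (u j) ∈ Set.range res := fun j hj =>
      huj j (Finset.ne_of_mem_erase hj)
    have h3 : ∏ j ∈ Finset.univ.erase s₀, residue W (u j) ∈ Set.range res := by
      choose! b hb using h2
      refine ⟨∏ j ∈ Finset.univ.erase s₀, b j, ?_⟩
      rw [map_prod]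
      exact Finset.prod_congr rfl fun j hj => hb j hj
    have h4 : ∏ j ∈ Finset.univ.erase s₀, residue W (u j) ≠ 0 :=
      Finset.prod_ne_zero_iff.2 fun j _ => hu0 j
    obtain ⟨b, hb⟩ := h3
    refine ⟨residue V ⟨g, hgV⟩ / b, ?_⟩
    rw [map_div₀, hb, hgr, h1, mul_div_assoc, div_self h4, mul_one]
  have hYr : residue W (q' s₀).Y ∈ Set.range res := by
    obtain ⟨b, hb⟩ := hqY s₀
    have h1 : algebraMap E Ω ((m s₀)⁻¹ ^ 2 * b) = ((q' s₀).Y : Ω) := by
      rw [hY', map_mul, map_pow, hb]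
    have h2 : (m s₀)⁻¹ ^ 2 * b ∈ V := by rw [← hVW, h1]; exact (q' s₀).Y.2
    refine ⟨residue V ⟨_, h2⟩, ?_⟩
    rw [hres, resMap_residue]
    congr 1
    apply Subtype.ext
    exact h1
  obtain ⟨α, hα⟩ := hαr
  obtain ⟨y, hy⟩ := hYr
  have hL := hqr s₀
  rw [hxs, hzs, map_one, map_one, mul_one] at hL
  have hlamr : (lam : ResidueField W) = res (lam : ResidueField V) := (map_natCast _ _).symm
  rw [hlamr] at hL
  refine ⟨y, α, ?_, ?_⟩
  · apply res.injective
    rw [map_pow, hy]
    have h1 := hL.hY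
    rw [EDatum.map_F, ev_map] at h1
    exact h1
  · apply res.injective
    have h1 := hL.hα
    change 2 * residue W (q' s₀).α ^ N = ev _ _ (MvPolynomial.map res _) +
      ev _ _ (MvPolynomial.map res _) * residue W (q' s₀).Y at h1
    rw [ev_map, ev_map, ← hα, ← hy] at h1
    rw [map_mul, map_pow, map_ofNat, map_add, map_mul]
    exact h1

end Pool.Agent.MultiSpec
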