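import Pool.Agent.MultiSpec.Lifts

/-!
Functoriality of data and residue maps.
-/

set_option autoImplicit false
set_option linter.unusedSimpArgs false

namespace Pool.Agent.MultiSpec

open MvPolynomial IsLocalRing

variable {N n : ℕ}

lemma EDatum.ext' {R : Type*} [CommRing R] {D D' : EDatum N n R} (ht : D.t = D'.t)
    (hc₀ : D.c₀ = D'.c₀) (hc₁ : D.c₁ = D'.c₁) (hinv : D.inv = D'.inv) (hA : D.A = D'.A)
    (hB : D.B = D'.B) (hP : D.P = D'.P) (hQ : D.Q = D'.Q) (hU : D.U = D'.U) (hV : D.V = D'.V) :
    D = D' := by
  cases D; cases D'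
  cases ht; cases hc₀; cases hc₁; cases hinv; cases hA; cases hB; cases hP; cases hQ; cases hU
  cases hV
  rfl

lemma EDatum.map_map {R S T : Type*} [CommRing R] [CommRing S] [CommRing T] (D : EDatum N n R)
    (φ : R →+* S) (ψ : S →+* T) : (D.map φ).map ψ = D.map (ψ.comp φ) := by
  refine EDatum.ext' rfl rfl rfl rfl ?_ ?_ ?_ ?_ ?_ ?_
  · exact MvPolynomial.map_map _ _ _
  · exact MvPolynomial.map_map _ _ _
  · funext l j; exact MvPolynomial.map_map _ _ _
  · funext l j; exact MvPolynomial.map_map _ _ _
  · funext l j; exact MvPolynomial.map_map _ _ _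
  · funext l j; exact MvPolynomial.map_map _ _ _

lemma EDatum.map_F {R S : Type*} [CommRing R] [CommRing S] (D : EDatum N n R) (φ : R →+* S) :
    (D.map φ).F = MvPolynomial.map φ D.F := (map_quar φ _ _ _).symm

lemma IsSpecial.map {R S : Type*} [CommRing R] [CommRing S] {D : EDatum N n R} {ζ : R}
    (h : IsSpecial D ζ) (φ : R →+* S) : IsSpecial (D.map φ) (φ ζ) where
  ht := by change φ D.t = 0; rw [h.ht, map_zero]
  hc₀ := by change φ D.c₀ = φ ζ; rw [h.hc₀]
  hc₁ := by change φ D.c₁ = 1; rw [h.hc₁, map_one]
  hA := by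
    change MvPolynomial.map φ D.A = _
    rw [h.hA]; simp
  hB := by
    have := congrArg (MvPolynomial.map φ) h.hB
    simp only [map_add, map_mul, map_sub, map_pow, MvPolynomial.map_X, MvPolynomial.map_C,
      map_ofNat] at this
    exact this
  h10 l := by
    have := congrArg (MvPolynomial.map φ) (h.h10 l)
    simp only [map_add, map_mul, map_sub, map_pow, MvPolynomial.map_X, MvPolynomial.map_C,
      map_ofNat] at this
    simp only [map_add, map_mul, map_sub, map_pow, map_ofNat]
    exact this
  h20 l := by
    have := congrArg (MvPolynomial.map φ) (h.h20 l)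
    simp only [map_add, map_mul, map_sub, map_pow, MvPolynomial.map_X, MvPolynomial.map_C,
      map_ofNat] at this
    exact this
  h11 l := by
    have := congrArg (MvPolynomial.map φ) (h.h11 l)
    simp only [map_add, map_mul, map_sub, map_pow, MvPolynomial.map_X, MvPolynomial.map_C,
      map_ofNat] at this
    exact this
  h21 l := by
    have := congrArg (MvPolynomial.map φ) (h.h21 l)
    simp only [map_add, map_mul, map_sub, map_pow, MvPolynomial.map_X, MvPolynomial.map_C,
      map_ofNat] at this
    exact this

section res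

variable {E Ω : Type*} [Field E] [Field Ω] (f : E →+* Ω) (V : ValuationSubring E)
  (W : ValuationSubring Ω) (h : ∀ a : E, f a ∈ W ↔ a ∈ V)

/-- The inclusion of valuation rings. -/
def valMap : V →+* W := (f.comp V.subtype).codRestrict W.toSubring fun a => (h a).2 a.2

lemma valMap_coe (a : V) : ((valMap f V W h a : W) : Ω) = f a := rfl

instance isLocalHom_valMap : IsLocalHom (valMap f V W h) := by
  constructor
  intro a ha
  have h1 : (a : E) ≠ 0 := by
    intro h0
    have : valMap f V W h a = 0 := by
      apply Subtype.ext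
      rw [valMap_coe, h0, map_zero]; rfl
    rw [this] at ha
    exact not_isUnit_zero ha
  obtain ⟨b, hb⟩ := ha.exists_right_inv
  have h2 : f a * b = 1 := congrArg (Subtype.val) hb
  have h3 : f ((a : E)⁻¹) = b := by
    rw [map_inv₀]
    exact (eq_inv_of_mul_eq_one_right h2).symm
  have h4 : ((a : E)⁻¹) ∈ V := by
    rw [← h, h3]; exact b.2
  refine IsUnit.of_mul_eq_one ⟨(a : E)⁻¹, h4⟩ ?_
  apply Subtype.ext
  exact mul_inv_cancel₀ h1

/-- The map of residue fields. -/
noncomputable def resMap : ResidueField V →+* ResidueField W :=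
  ResidueField.map (valMap f V W h)

lemma resMap_residue (a : V) : resMap f V W h (residue V a) = residue W (valMap f V W h a) := rfl

end res

end Pool.Agent.MultiSpec
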