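import Pool.Agent.CurveDeg.Multi.Embed

set_option autoImplicit false

namespace Pool.Agent.MultiSpec

open IsLocalRing

/-- A prime of a domain inside a field is the centre of a valuation ring. -/
theorem exists_valuationSubring {R F : Type*} [CommRing R] [Field F] [Algebra R F]
    (hinj : Function.Injective (algebraMap R F)) (P : Ideal R) [P.IsPrime] :
    ∃ O : ValuationSubring F, (∀ a : R, algebraMap R F a ∈ O) ∧
      ∀ a : R, a ∈ P ↔ algebraMap R F a ∈ O.nonunits := by
  have hunit : ∀ y : P.primeCompl, IsUnit (algebraMap R F y) := by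
    intro y
    refine isUnit_iff_ne_zero.2 fun h => y.2 ?_
    have h1 : (y : R) = 0 := hinj (by rw [h, map_zero])
    rw [h1]
    exact P.zero_mem
  let φ : Localization.AtPrime P →+* F := IsLocalization.lift (M := P.primeCompl) hunit
  have hφ : ∀ a : R, φ (algebraMap R _ a) = algebraMap R F a := fun a => IsLocalization.lift_eq _ _
  let A : Subring F := φ.range
  let I : Ideal A := (maximalIdeal (Localization.AtPrime P)).map φ.rangeRestrict
  have hI : I ≠ ⊤ := by
    intro h
    have h1 : (1 : A) ∈ I := by rw [h]; trivial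
    rw [Ideal.mem_map_iff_of_surjective _ φ.rangeRestrict_surjective] at h1
    obtain ⟨m, hm, hm1⟩ := h1
    have h2 : φ m = 1 := congrArg Subtype.val hm1
    have h3 : IsUnit (1 - m) := by
      by_contra hcon
      have h4 : (1 - m) + m ∈ maximalIdeal (Localization.AtPrime P) :=
        Ideal.add_mem _ ((mem_maximalIdeal _).2 hcon) hm
      rw [sub_add_cancel] at h4
      exact (maximalIdeal.isMaximal _).ne_top ((Ideal.eq_top_iff_one _).2 h4)
    have h5 : φ (1 - m) = 0 := by rw [map_sub, map_one, h2, sub_self]
    exact (h3.map φ).ne_zero h5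
  obtain ⟨O, hAO, hnon⟩ := Ideal.image_subset_nonunits_valuationSubring I hI
  have hmem : ∀ a : R, algebraMap R F a ∈ O := fun a =>
    hAO (by rw [← hφ a]; exact ⟨_, rfl⟩)
  refine ⟨O, hmem, fun a => ⟨fun ha => ?_, fun ha => ?_⟩⟩
  · refine hnon ⟨φ.rangeRestrict (algebraMap R _ a), Ideal.mem_map_of_mem _ ?_, ?_⟩
    · exact (IsLocalization.AtPrime.to_map_mem_maximal_iff _ P a).2 ha
    · exact hφ a
  · by_contra hcon
    have h1 : IsUnit (algebraMap R (Localization.AtPrime P) a) :=
      IsLocalization.map_units _ (⟨a, hcon⟩ : P.primeCompl)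
    obtain ⟨b, hb⟩ := h1.exists_right_inv
    have h2 : algebraMap R F a * φ b = 1 := by rw [← hφ, ← map_mul, hb, map_one]
    have h3 : φ b ∈ O := hAO ⟨b, rfl⟩
    have h4 := (ValuationSubring.mem_nonunits_iff (A := O)).1 ha
    have h5 := (O.valuation_le_one_iff (φ b)).2 h3
    have h6 : O.valuation (algebraMap R F a) * O.valuation (φ b) = 1 := by
      rw [← map_mul, h2, map_one]
    have h7 : O.valuation (algebraMap R F a) * O.valuation (φ b) < 1 :=
      mul_lt_one_of_lt_of_le h4 h5
    rw [h6] at h7
    exact lt_irrefl _ h7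

/-- A valuation ring extends to a valuation ring of an overfield. -/
theorem exists_extension {F E : Type*} [Field F] [Field E] [Algebra F E]
    (O : ValuationSubring F) : ∃ V : ValuationSubring E, ∀ a : F, algebraMap F E a ∈ V ↔ a ∈ O := by
  let _ : Algebra O E := ((algebraMap F E).comp (algebraMap O F)).toAlgebra
  have hinj : Function.Injective (algebraMap O E) :=
    (algebraMap F E).injective.comp (IsFractionRing.injective O F)
  obtain ⟨V, hV1, hV2⟩ := exists_valuationSubring hinj (maximalIdeal O)
  refine ⟨V, fun a => ⟨fun ha => ?_, fun ha => hV1 ⟨a, ha⟩⟩⟩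
  by_contra hcon
  have ha0 : a ≠ 0 := by
    rintro rfl
    exact hcon O.zero_mem
  have h1 : a⁻¹ ∈ O.nonunits := by
    rw [ValuationSubring.mem_nonunits_iff, map_inv₀]
    have h2 : 1 < O.valuation a := by
      rw [← not_le, O.valuation_le_one_iff]; exact hcon
    exact inv_lt_one_of_one_lt₀ h2
  have h2 : a⁻¹ ∈ O := O.nonunits_subset h1
  have h3 : (⟨a⁻¹, h2⟩ : O) ∈ maximalIdeal O :=
    (ValuationSubring.coe_mem_nonunits_iff).1 h1
  have h4 := (hV2 ⟨a⁻¹, h2⟩).1 h3
  have h5 : algebraMap F E a⁻¹ ∈ V.nonunits := h4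
  rw [ValuationSubring.mem_nonunits_iff, map_inv₀, map_inv₀] at h5
  have h6 := (V.valuation_le_one_iff _).2 ha
  have h7 : V.valuation (algebraMap F E a) ≠ 0 := by
    rw [Valuation.ne_zero_iff]
    exact (map_ne_zero _).2 ha0
  have h8 : V.valuation (algebraMap F E a) * (V.valuation (algebraMap F E a))⁻¹ = 1 :=
    mul_inv_cancel₀ h7
  have h9 : V.valuation (algebraMap F E a) * (V.valuation (algebraMap F E a))⁻¹ < 1 :=
    mul_lt_one_of_nonneg_of_lt_one_right h6 zero_le h5
  rw [h8] at h9
  exact lt_irrefl _ h9

/-- A countable field of characteristic zero embeds into the complex numbers. -/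
theorem exists_embedding (K : Type) [Field K] [CharZero K] [Countable K] :
    Nonempty (K →+* ℂ) := Pool.Agent.CurveDeg.exists_embedding K

/-- A countable algebraically closed field containing a given one and algebraically independent
elements. -/
theorem exists_generic (F : Type) [Field F] [CharZero F] [Countable F] (ι : Type) [Countable ι] :
    ∃ (K₀ : Type) (_ : Field K₀) (_ : IsAlgClosed K₀) (_ : CharZero K₀) (_ : Countable K₀)
      (_ : Algebra F K₀) (c : ι → K₀), AlgebraicIndependent F c := by
  let K := FractionRing (MvPolynomial ι F)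
  let K₀ := AlgebraicClosure K
  have hchar : CharZero K := charZero_of_injective_algebraMap (algebraMap F K).injective
  have hchar' : CharZero K₀ := charZero_of_injective_algebraMap (algebraMap K K₀).injective
  have h0 : Cardinal.mk F ≤ Cardinal.aleph0 := Cardinal.mk_le_aleph0_iff.2 inferInstance
  have h1 : Countable (MvPolynomial ι F) := by
    rw [← Cardinal.mk_le_aleph0_iff]
    refine MvPolynomial.cardinalMk_le_max.trans (max_le (max_le h0 ?_) le_rfl)
    exact Cardinal.mk_le_aleph0_iff.2 inferInstance
  have h2 : Countable K := by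
    refine Function.Surjective.countable (f := fun p : MvPolynomial ι F × MvPolynomial ι F =>
      (algebraMap _ K p.1) / (algebraMap _ K p.2)) ?_
    intro z
    obtain ⟨a, b, _, h⟩ := IsFractionRing.div_surjective (A := MvPolynomial ι F) z
    exact ⟨(a, b), h⟩
  have h3 : Countable K₀ := by
    rw [← Cardinal.mk_le_aleph0_iff]
    refine (Algebra.IsAlgebraic.cardinalMk_le_max K K₀).trans (max_le ?_ le_rfl)
    exact Cardinal.mk_le_aleph0_iff.2 h2
  refine ⟨K₀, inferInstance, inferInstance, hchar', h3, inferInstance,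
    fun i => algebraMap (MvPolynomial ι F) K₀ (MvPolynomial.X i), ?_⟩
  have h4 : Function.Injective (algebraMap (MvPolynomial ι F) K₀) := by
    rw [IsScalarTower.algebraMap_eq (MvPolynomial ι F) K K₀]
    exact (algebraMap K K₀).injective.comp (IsFractionRing.injective _ K)
  have h5 := MvPolynomial.algebraicIndependent_X ι F
  exact h5.map' (f := IsScalarTower.toAlgHom F (MvPolynomial ι F) K₀) h4

end Pool.Agent.MultiSpec
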