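import Pool.Agent.MultiSpec.DatumAux
import Pool.Agent.MultiSpec.Places

/-!
Base change of data; sections have no common zeros.
-/

set_option autoImplicit false

namespace Pool.Agent.MultiSpec

open MvPolynomial IsLocalRing

variable {N n : ℕ}

/-- The sections of a given character have no common zero. -/
theorem bpf {k R F : Type*} [Field k] [CharZero k] [CommRing R] [Algebra k R] [Field F]
    [CharZero F] (φ : R →+* F) (hφ : Function.Injective φ) (hN : 2 ≤ N) (hn : n < N)
    (D : EDatum N n R) (ζ : k) (hζ : ζ ^ N = 1) (hζ1 : ζ ≠ 1) (m : Ideal R) [m.IsPrime]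
    (hm : IsSpecial (D.map (Ideal.Quotient.mk m)) (algebraMap k (R ⧸ m) ζ))
    {x z : F} (hxz : x ≠ 0 ∨ z ≠ 0) {q : LiftPt n F} (hq : IsLift (D.map φ) x z q)
    (l : Fin n) : ∃ j, q.s l j ≠ 0 := by
  let _ : Algebra R F := φ.toAlgebra
  obtain ⟨O, hO1, hO2⟩ := exists_valuationSubring (R := R) (F := F) hφ m
  let ψ : R →+* O := (algebraMap R F).codRestrict O.toSubring hO1
  have hψ : (algebraMap O F).comp ψ = φ := RingHom.ext fun a => rfl
  let χ : R ⧸ m →+* ResidueField O := Ideal.Quotient.lift m ((residue O).comp ψ) (by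
    intro a ha
    have h1 : ((ψ a : O) : F) ∈ O.nonunits := (hO2 a).1 ha
    rw [ValuationSubring.coe_mem_nonunits_iff] at h1
    exact (residue_eq_zero_iff _).2 h1)
  have hχ : χ.comp (Ideal.Quotient.mk m) = (residue O).comp ψ :=
    Ideal.Quotient.lift_comp_mk _ _ _
  let κ : k →+* ResidueField O := χ.comp (algebraMap k (R ⧸ m))
  have hchar : CharZero (ResidueField O) := charZero_of_injective_ringHom κ.injective
  have h1 : IsSpecial ((D.map ψ).map (residue O)) (κ ζ) := by
    rw [EDatum.map_map, ← hχ, ← EDatum.map_map]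
    exact hm.map χ
  refine IsLift.exists_ne_zero O hN hn (D.map ψ) (κ ζ) ?_ ?_ h1 hxz ?_ l
  · rw [← map_pow, hζ, map_one]
  · intro h
    exact hζ1 (κ.injective (by rw [h, map_one]))
  · rw [EDatum.map_map, hψ]
    exact hq

end Pool.Agent.MultiSpec
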