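import Pool.Agent.MultiSpec.Datum

set_option autoImplicit false

namespace Pool.Agent.MultiSpec

namespace ParamsAux

open MvPolynomial

variable {N n : ℕ}

lemma isSpecial_map {R S : Type*} [CommRing R] [CommRing S] {D : EDatum N n R} {ζ : R}
    (h : IsSpecial D ζ) (φ : R →+* S) : IsSpecial (D.map φ) (φ ζ) := by
  have h2 : φ 2 = 2 := map_ofNat φ 2
  constructor
  · change φ D.t = 0
    rw [h.ht, map_zero]
  · change φ D.c₀ = φ ζ
    rw [h.hc₀]
  · change φ D.c₁ = 1
    rw [h.hc₁, map_one]
  · have := congrArg (MvPolynomial.map φ) h.hA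
    simpa [EDatum.map] using this
  · have := congrArg (MvPolynomial.map φ) h.hB
    simpa [EDatum.map] using this
  · intro l
    have := congrArg (MvPolynomial.map φ) (h.h10 l)
    simpa [EDatum.map, h2] using this
  · intro l
    have := congrArg (MvPolynomial.map φ) (h.h20 l)
    simpa [EDatum.map, h2] using this
  · intro l
    have := congrArg (MvPolynomial.map φ) (h.h11 l)
    simpa [EDatum.map, h2] using this
  · intro l
    have := congrArg (MvPolynomial.map φ) (h.h21 l)
    simpa [EDatum.map, h2] using this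

lemma isSpecial_of_map {R S : Type*} [CommRing R] [CommRing S] {D : EDatum N n R} {ζ : R}
    {φ : R →+* S} (hφ : Function.Injective φ) (h : IsSpecial (D.map φ) (φ ζ)) : IsSpecial D ζ := by
  have hinj := MvPolynomial.map_injective (σ := Fin 2) φ hφ
  have h2 : φ 2 = 2 := map_ofNat φ 2
  constructor
  · exact hφ (by rw [map_zero]; exact h.ht)
  · exact hφ h.hc₀
  · exact hφ (by rw [map_one]; exact h.hc₁)
  · apply hinj
    have := h.hA
    simpa [EDatum.map] using this
  · apply hinj
    have := h.hB
    simpa [EDatum.map] using this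
  · intro l
    apply hinj
    have := h.h10 l
    simpa [EDatum.map, h2] using this
  · intro l
    apply hinj
    have := h.h20 l
    simpa [EDatum.map, h2] using this
  · intro l
    apply hinj
    have := h.h11 l
    simpa [EDatum.map, h2] using this
  · intro l
    apply hinj
    have := h.h21 l
    simpa [EDatum.map, h2] using this

lemma map_map {R S T : Type*} [CommRing R] [CommRing S] [CommRing T] (D : EDatum N n R)
    (φ : R →+* S) (ψ : S →+* T) : (D.map φ).map ψ = D.map (ψ.comp φ) := by
  simp only [EDatum.map, MvPolynomial.map_map]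
  rfl

/-- the coefficients of a datum -/
def coeffSet {S : Type*} [CommRing S] (D : EDatum N n S) : Set S :=
  {D.t, D.c₀, D.c₁, D.inv} ∪ ((D.A.coeffs : Set S) ∪ (D.B.coeffs : Set S) ∪
    ⋃ l, ⋃ j, ((D.P l j).coeffs : Set S) ∪ ((D.Q l j).coeffs : Set S) ∪
      ((D.U l j).coeffs : Set S) ∪ ((D.V l j).coeffs : Set S))

lemma countable_coeffSet {S : Type*} [CommRing S] (D : EDatum N n S) : (coeffSet D).Countable := by
  refine (Set.Finite.countable (by simp)).union ((((Finset.countable_toSet _).union
    (Finset.countable_toSet _))).union (Set.countable_iUnion fun l => Set.countable_iUnion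
      fun j => ?_))
  exact (((Finset.countable_toSet _).union (Finset.countable_toSet _)).union
    (Finset.countable_toSet _)).union (Finset.countable_toSet _)

/-- a datum comes from any subring which contains its coefficients -/
lemma exists_restrict {R S : Type*} [CommRing R] [CommRing S] {φ : R →+* S}
    (hφ : Function.Injective φ) (D : EDatum N n S) (h : coeffSet D ⊆ Set.range φ) :
    ∃ D' : EDatum N n R, D'.map φ = D := by
  have hinj := MvPolynomial.map_injective (σ := Fin 2) φ hφ
  have hpoly : ∀ p : MvPolynomial (Fin 2) S, (p.coeffs : Set S) ⊆ coeffSet D →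
      ∃ q : MvPolynomial (Fin 2) R, MvPolynomial.map φ q = p := fun p hp =>
    mem_range_map_iff_coeffs_subset.2 (hp.trans h)
  obtain ⟨t, ht⟩ := h (show D.t ∈ coeffSet D from Or.inl (by simp))
  obtain ⟨c₀, hc₀⟩ := h (show D.c₀ ∈ coeffSet D from Or.inl (by simp))
  obtain ⟨c₁, hc₁⟩ := h (show D.c₁ ∈ coeffSet D from Or.inl (by simp))
  obtain ⟨inv, hinv⟩ := h (show D.inv ∈ coeffSet D from Or.inl (by simp))
  obtain ⟨A, hA⟩ := hpoly D.A fun x hx => Or.inr (Or.inl (Or.inl hx))
  obtain ⟨B, hB⟩ := hpoly D.B fun x hx => Or.inr (Or.inl (Or.inr hx))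
  choose P hP using fun l j => hpoly (D.P l j) fun x hx => Or.inr (Or.inr
    (Set.mem_iUnion.2 ⟨l, Set.mem_iUnion.2 ⟨j, Or.inl (Or.inl (Or.inl hx))⟩⟩))
  choose Q hQ using fun l j => hpoly (D.Q l j) fun x hx => Or.inr (Or.inr
    (Set.mem_iUnion.2 ⟨l, Set.mem_iUnion.2 ⟨j, Or.inl (Or.inl (Or.inr hx))⟩⟩))
  choose U hU using fun l j => hpoly (D.U l j) fun x hx => Or.inr (Or.inr
    (Set.mem_iUnion.2 ⟨l, Set.mem_iUnion.2 ⟨j, Or.inl (Or.inr hx)⟩⟩))
  choose V hV using fun l j => hpoly (D.V l j) fun x hx => Or.inr (Or.inr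
    (Set.mem_iUnion.2 ⟨l, Set.mem_iUnion.2 ⟨j, Or.inr hx⟩⟩))
  have hquar : MvPolynomial.map φ (quar t c₀ c₁) = quar D.t D.c₀ D.c₁ := by
    rw [map_quar, ht, hc₀, hc₁]
  refine ⟨{
    t := t
    c₀ := c₀
    c₁ := c₁
    inv := inv
    A := A
    B := B
    P := P
    Q := Q
    U := U
    V := V
    hA := IsHomogeneous.of_map hφ (by rw [hA]; exact D.hA)
    hB := IsHomogeneous.of_map hφ (by rw [hB]; exact D.hB)
    hP := fun l j => IsHomogeneous.of_map hφ (by rw [hP]; exact D.hP l j)
    hQ := fun l j => IsHomogeneous.of_map hφ (by rw [hQ]; exact D.hQ l j)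
    hU := fun l j => IsHomogeneous.of_map hφ (by rw [hU]; exact D.hU l j)
    hV := fun l j => IsHomogeneous.of_map hφ (by rw [hV]; exact D.hV l j)
    hA1 := hφ (by
      have h1 := ev_map φ 1 0 A
      rw [hA, map_one, map_zero, D.hA1] at h1
      rw [← h1, map_one])
    hA0 := hφ (by
      have h1 := ev_map φ 0 1 A
      rw [hA, map_one, map_zero] at h1
      rw [map_mul, ← h1, hinv, D.hA0, map_one])
    pell := hinj (by
      rw [map_pow, hA, D.pell, map_add, map_mul (MvPolynomial.map φ) (quar t c₀ c₁), hquar,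
        map_pow, hB]
      simp)
    id1 := fun l j => hinj (by
      rw [map_add, map_mul, map_mul, hA, hB, hQ, hP, D.id1, map_mul, hU]
      simp)
    id2 := fun l j => hinj (by
      rw [map_add, map_mul, map_mul, map_mul, hA, hB, hQ, hP, hquar, D.id2, map_mul, hV]
      simp)
    id3 := fun l j => hinj (by
      rw [map_sub, map_mul, map_mul, map_mul, hA, hB, hV, hU, hquar, D.id3, map_mul, hP]
      simp)
    id4 := fun l j => hinj (by
      rw [map_sub, map_mul, map_mul, hA, hB, hV, hU, D.id4, map_mul, hQ]
      simp) }, ?_⟩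
  cases D
  simp only [EDatum.map] at *
  simp only [EDatum.mk.injEq]
  refine ⟨ht, hc₀, hc₁, hinv, hA, hB, ?_, ?_, ?_, ?_⟩
  · funext l j
    exact hP l j
  · funext l j
    exact hQ l j
  · funext l j
    exact hU l j
  · funext l j
    exact hV l j

lemma countable_adjoin {k S : Type} [Field k] [Countable k] [CommRing S] [Algebra k S]
    {s : Set S} (hs : s.Countable) : Countable (Algebra.adjoin k s) := by
  have : Countable s := hs.to_subtype
  have h1 : Countable (MvPolynomial s k) := by
    rw [← Cardinal.mk_le_aleph0_iff]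
    refine MvPolynomial.cardinalMk_le_max.trans ?_
    simp
  have h2 : Function.Surjective (fun p : MvPolynomial s k =>
      (⟨MvPolynomial.aeval ((↑) : s → S) p, by
        rw [Algebra.adjoin_eq_range]
        exact ⟨p, rfl⟩⟩ : Algebra.adjoin k s)) := by
    rintro ⟨x, hx⟩
    have hx' := hx
    rw [Algebra.adjoin_eq_range] at hx'
    obtain ⟨p, hp⟩ := hx'
    exact ⟨p, Subtype.ext hp⟩
  exact h2.countable

/-- substitution of a variable in a power series -/
noncomputable def psi {k σ : Type} [Field k] (s : σ) : PowerSeries k →+* MvPowerSeries σ k :=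
  (PowerSeries.substAlgHom (PowerSeries.HasSubst.X s)).toRingHom

lemma psi_X {k σ : Type} [Field k] (s : σ) :
    psi (k := k) s PowerSeries.X = MvPowerSeries.X s :=
  PowerSeries.substAlgHom_X _

lemma coeff_psi {k σ : Type} [Field k] [DecidableEq σ] (s : σ) (f : PowerSeries k) (e : σ →₀ ℕ) :
    MvPowerSeries.coeff e (psi s f) =
      if e = Finsupp.single s (e s) then PowerSeries.coeff (e s) f else 0 := by
  have h : psi s f = PowerSeries.subst (MvPowerSeries.X s) f := by
    change PowerSeries.substAlgHom (PowerSeries.HasSubst.X s) f = _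
    rw [PowerSeries.coe_substAlgHom]
  rw [h]
  exact PowerSeries.coeff_subst_single s f e

lemma constantCoeff_psi {k σ : Type} [Field k] [DecidableEq σ] (s : σ) (f : PowerSeries k) :
    MvPowerSeries.constantCoeff (psi s f) = PowerSeries.constantCoeff f := by
  rw [← MvPowerSeries.coeff_zero_eq_constantCoeff_apply, coeff_psi]
  simp

/-- partial specialisation -/
noncomputable def pis {k σ : Type} [Field k] [DecidableEq σ] (T : σ → Prop) [DecidablePred T] :
    MvPowerSeries σ k →+* MvPowerSeries σ k :=
  MvPowerSeries.rescale fun s => if T s then 1 else 0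

lemma pis_psi {k σ : Type} [Field k] [DecidableEq σ] (T : σ → Prop) [DecidablePred T] {s : σ}
    (hs : ¬ T s) (f : PowerSeries k) :
    pis T (psi s f) = MvPowerSeries.C (PowerSeries.constantCoeff f) := by
  ext e
  rw [pis, MvPowerSeries.coeff_rescale, coeff_psi, MvPowerSeries.coeff_C]
  by_cases he : e = 0
  · rw [if_pos he, he]
    simp
  · rw [if_neg he]
    split_ifs with h
    · have hne : e s ≠ 0 := by
        intro h0
        rw [h0, Finsupp.single_zero] at h
        exact he h
      have h1 : (e.prod fun i m => (if T i then (1 : k) else 0) ^ m) = 0 := by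
        rw [Finsupp.prod]
        refine Finset.prod_eq_zero (Finsupp.mem_support_iff.2 hne) ?_
        rw [if_neg hs, zero_pow hne]
      rw [h1, zero_mul]
    · rw [mul_zero]

lemma pis_X {k σ : Type} [Field k] [DecidableEq σ] (T : σ → Prop) [DecidablePred T] {s : σ}
    (hs : T s) : pis (k := k) T (MvPowerSeries.X s) = MvPowerSeries.X s := by
  ext e
  rw [pis, MvPowerSeries.coeff_rescale, MvPowerSeries.coeff_X]
  split_ifs with h
  · rw [h]
    simp [hs]
  · rw [mul_zero]

lemma constantCoeff_pis {k σ : Type} [Field k] [DecidableEq σ] (T : σ → Prop) [DecidablePred T]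
    (f : MvPowerSeries σ k) :
    MvPowerSeries.constantCoeff (pis T f) = MvPowerSeries.constantCoeff f := by
  rw [← MvPowerSeries.coeff_zero_eq_constantCoeff_apply,
    ← MvPowerSeries.coeff_zero_eq_constantCoeff_apply, pis, MvPowerSeries.coeff_rescale]
  simp

end ParamsAux

open ParamsAux

/-- Independent copies of the universal data over one countable domain. -/
theorem exists_params {k : Type} [Field k] [CharZero k] [Countable k] (n r : ℕ) (N : Fin r → ℕ)
    (ζ : Fin r → k)
    (hex : ∀ i, ∃ D : EDatum (N i) n (PowerSeries k),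
      D.t = PowerSeries.X ∧ IsSpecial (D.map PowerSeries.constantCoeff) (ζ i)) :
    ∃ (R₀ : Type) (_ : CommRing R₀) (_ : IsDomain R₀) (_ : Countable R₀) (_ : Algebra k R₀)
      (D : ∀ i : Fin r, Fin n → EDatum (N i) n R₀) (m : Ideal R₀) (_ : m.IsPrime),
      (∀ i j, IsSpecial ((D i j).map (Ideal.Quotient.mk m)) (algebraMap k (R₀ ⧸ m) (ζ i))) ∧
      ∀ s : Fin r → Fin n, ∃ (P : Ideal R₀) (_ : P.IsPrime), P ≤ m ∧
        (∀ i j, j ≠ s i →
          IsSpecial ((D i j).map (Ideal.Quotient.mk P)) (algebraMap k (R₀ ⧸ P) (ζ i))) ∧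
        ∀ i, (D i (s i)).t ∉ P := by
  classical
  choose E hEt hEs using hex
  have hdom : IsDomain (MvPowerSeries (Fin r × Fin n) k) := NoZeroDivisors.to_isDomain _
  let S := MvPowerSeries (Fin r × Fin n) k
  have hdomS : IsDomain S := hdom
  set E' : ∀ i : Fin r, Fin n → EDatum (N i) n S := fun i j => (E i).map (psi (i, j)) with hE'
  set gen : Set S := ⋃ i, ⋃ j, coeffSet (E' i j) with hgen
  have hgc : gen.Countable := Set.countable_iUnion fun i => Set.countable_iUnion fun j =>
    countable_coeffSet _
  set R₀ := Algebra.adjoin k gen with hR₀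
  have hcount : Countable R₀ := countable_adjoin hgc
  set ι : R₀ →+* S := R₀.val.toRingHom with hι
  have hιinj : Function.Injective ι := Subtype.val_injective
  have hex2 : ∀ i j, ∃ D' : EDatum (N i) n R₀, D'.map ι = E' i j := by
    intro i j
    refine exists_restrict hιinj (E' i j) fun x hx => ?_
    have hx' : x ∈ gen := Set.mem_iUnion.2 ⟨i, Set.mem_iUnion.2 ⟨j, hx⟩⟩
    exact ⟨(⟨x, Algebra.subset_adjoin hx'⟩ : R₀), rfl⟩
  choose D hD using hex2
  -- a homomorphism from `R₀` and the corresponding quotient
  have key : ∀ {T : Type} [CommRing T] [IsDomain T] (φ : S →+* T) (i : Fin r) (j : Fin n),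
      IsSpecial ((E' i j).map φ) (φ (algebraMap k S (ζ i))) →
      IsSpecial ((D i j).map (Ideal.Quotient.mk (RingHom.ker (φ.comp ι))))
        (algebraMap k (R₀ ⧸ RingHom.ker (φ.comp ι)) (ζ i)) := by
    intro T _ _ φ i j h
    refine isSpecial_of_map (φ := RingHom.kerLift (φ.comp ι)) (RingHom.kerLift_injective _) ?_
    rw [map_map]
    have h1 : (RingHom.kerLift (φ.comp ι)).comp (Ideal.Quotient.mk (RingHom.ker (φ.comp ι))) =
        φ.comp ι := by
      apply RingHom.ext
      intro x
      exact RingHom.kerLift_mk (φ.comp ι) x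
    have h2 : RingHom.kerLift (φ.comp ι) (algebraMap k (R₀ ⧸ RingHom.ker (φ.comp ι)) (ζ i)) =
        φ (algebraMap k S (ζ i)) := by
      change RingHom.kerLift (φ.comp ι) (Ideal.Quotient.mk _ (algebraMap k R₀ (ζ i))) = _
      rw [RingHom.kerLift_mk]
      rfl
    rw [h1, h2, ← map_map, hD]
    exact h
  have hprime : ∀ {T : Type} [CommRing T] [IsDomain T] (φ : S →+* T),
      (RingHom.ker (φ.comp ι)).IsPrime := fun φ => RingHom.ker_isPrime _
  refine ⟨R₀, inferInstance, inferInstance, hcount, inferInstance, D,
    RingHom.ker ((MvPowerSeries.constantCoeff (σ := Fin r × Fin n) (R := k)).comp ι),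
    hprime _, ?_, ?_⟩
  · intro i j
    refine key (MvPowerSeries.constantCoeff (σ := Fin r × Fin n) (R := k)) i j ?_
    have h1 : (E' i j).map (MvPowerSeries.constantCoeff (σ := Fin r × Fin n) (R := k)) =
        (E i).map PowerSeries.constantCoeff := by
      rw [hE', map_map]
      congr 1
      apply RingHom.ext
      intro f
      exact constantCoeff_psi (i, j) f
    have h2 : MvPowerSeries.constantCoeff (algebraMap k S (ζ i)) = ζ i := by
      change MvPowerSeries.constantCoeff (algebraMap k (MvPowerSeries (Fin r × Fin n) k) (ζ i)) = _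
      rw [MvPowerSeries.algebraMap_apply]
      simp
    rw [h1, h2]
    exact hEs i
  · intro s
    set T : Fin r × Fin n → Prop := fun q => q.2 = s q.1 with hT
    refine ⟨RingHom.ker ((pis (k := k) T).comp ι), hprime _, ?_, ?_, ?_⟩
    · intro x hx
      rw [RingHom.mem_ker] at hx ⊢
      change MvPowerSeries.constantCoeff (ι x) = 0
      rw [← constantCoeff_pis T]
      change pis T (ι x) = 0 at hx
      rw [hx, map_zero]
    · intro i j hij
      refine key (pis (k := k) T) i j ?_
      have h1 : (E' i j).map (pis (k := k) T) =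
          ((E i).map PowerSeries.constantCoeff).map MvPowerSeries.C := by
        rw [hE', map_map, map_map]
        congr 1
        apply RingHom.ext
        intro f
        exact pis_psi T (s := (i, j)) hij f
      have h2 : pis (k := k) T (algebraMap k S (ζ i)) = MvPowerSeries.C (ζ i) := by
        change pis (k := k) T (algebraMap k (MvPowerSeries (Fin r × Fin n) k) (ζ i)) = _
        rw [MvPowerSeries.algebraMap_apply]
        ext e
        rw [pis, MvPowerSeries.coeff_rescale]
        simp only [Algebra.algebraMap_self, RingHom.id_apply, MvPowerSeries.coeff_C]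
        split_ifs with h
        · rw [h]
          simp
        · rw [mul_zero]
      rw [h1, h2]
      exact isSpecial_map (hEs i) _
    · intro i hi
      rw [RingHom.mem_ker] at hi
      have h1 : ι (D i (s i)).t = MvPowerSeries.X (i, s i) := by
        have h2 := congrArg EDatum.t (hD i (s i))
        change ι (D i (s i)).t = psi (i, s i) (E i).t at h2
        rw [h2, hEt, psi_X]
      change pis T (ι (D i (s i)).t) = 0 at hi
      rw [h1, pis_X T (s := (i, s i)) rfl] at hi
      have h3 := congrArg (MvPowerSeries.coeff (Finsupp.single (i, s i) 1)) hi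
      rw [MvPowerSeries.coeff_X, if_pos rfl, map_zero] at h3
      exact one_ne_zero h3

end Pool.Agent.MultiSpec
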