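import Mathlib

set_option autoImplicit false

namespace Pool.Agent.MultiSpec

open MvPolynomial

/-- The form `Σ a ^ j X j`, the value of the binary form `Σ u_j T ^ j S ^ (n - j)` at `(a, 1)`. -/
noncomputable def ell {K₀ : Type*} [CommSemiring K₀] (n : ℕ) (a : K₀) :
    MvPolynomial (Fin (n + 1)) K₀ := ∑ j : Fin (n + 1), C (a ^ (j : ℕ)) * X j

/-- Homomorphisms to an algebraically closed field extend along integral extensions. -/
theorem exists_extend {R S Ω : Type*} [CommRing R] [CommRing S] [Algebra R S]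
    [Algebra.IsIntegral R S] (hinj : Function.Injective (algebraMap R S)) [Field Ω]
    [IsAlgClosed Ω] (φ : R →+* Ω) : ∃ ψ : S →+* Ω, ψ.comp (algebraMap R S) = φ := by
  have hP : (RingHom.ker φ).IsPrime := RingHom.ker_isPrime φ
  obtain ⟨Q, -, hQ, hQP⟩ := Ideal.exists_ideal_over_prime_of_isIntegral (S := S)
    (RingHom.ker φ) ⊥ (by
      rw [← RingHom.ker_eq_comap_bot, (RingHom.injective_iff_ker_eq_bot _).1 hinj]
      exact bot_le)
  let P := RingHom.ker φ
  let f1 : (R ⧸ P) →+* Ω := Ideal.Quotient.lift P φ (fun a ha => ha)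
  let f2 : (R ⧸ P) →+* (S ⧸ Q) := Ideal.quotientMap Q (algebraMap R S) hQP.ge
  have h1 : Function.Injective f1 := by
    rw [injective_iff_map_eq_zero]
    intro x hx
    obtain ⟨y, rfl⟩ := Ideal.Quotient.mk_surjective x
    rw [Ideal.Quotient.eq_zero_iff_mem]
    exact hx
  have h2 : Function.Injective f2 := Ideal.quotientMap_injective' hQP.le
  let a1 : Algebra (R ⧸ P) Ω := f1.toAlgebra
  let a2 : Algebra (R ⧸ P) (S ⧸ Q) := f2.toAlgebra
  have t1 : Module.IsTorsionFree (R ⧸ P) Ω :=
    Module.isTorsionFree_iff_algebraMap_injective.2 h1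
  have t2 : Module.IsTorsionFree (R ⧸ P) (S ⧸ Q) :=
    Module.isTorsionFree_iff_algebraMap_injective.2 h2
  have i1 : Algebra.IsIntegral (R ⧸ P) (S ⧸ Q) := by
    constructor
    intro x
    obtain ⟨s, rfl⟩ := Ideal.Quotient.mk_surjective x
    obtain ⟨p, hp, hps⟩ := Algebra.IsIntegral.isIntegral (R := R) s
    refine ⟨p.map (Ideal.Quotient.mk P), hp.map _, ?_⟩
    rw [Polynomial.eval₂_map]
    have : (algebraMap (R ⧸ P) (S ⧸ Q)).comp (Ideal.Quotient.mk P) =
        (Ideal.Quotient.mk Q).comp (algebraMap R S) := by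
      ext r; rfl
    rw [this, ← Polynomial.hom_eval₂, hps, map_zero]
  let g : (S ⧸ Q) →ₐ[R ⧸ P] Ω := IsAlgClosed.lift
  refine ⟨(g : (S ⧸ Q) →+* Ω).comp (Ideal.Quotient.mk Q), ?_⟩
  ext r
  have := g.commutes (Ideal.Quotient.mk P r)
  exact this

theorem normForm_ell_zero {K₀ : Type*} [CommSemiring K₀] (n : ℕ) :
    ell n (0 : K₀) = X 0 := by
  rw [ell, Fin.sum_univ_succ]
  simp

theorem normForm_not_dvd {K₀ : Type*} [Field K₀] {n : ℕ} (hn : 0 < n) :
    ¬ (X 0 : MvPolynomial (Fin (n + 1)) K₀) ∣ ell n (1 : K₀) := by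
  rintro ⟨q, hq⟩
  have h := congrArg (MvPolynomial.eval
    (fun j : Fin (n + 1) => if (j : ℕ) = 1 then (1 : K₀) else 0)) hq
  simp only [ell, map_sum, map_mul, eval_C, eval_X, one_pow, one_mul, Fin.val_zero,
    zero_ne_one, if_false, zero_mul] at h
  rw [Finset.sum_eq_single (⟨1, by omega⟩ : Fin (n + 1))] at h
  · simp at h
  · intro b _ hb
    rw [if_neg]
    intro h1
    exact hb (Fin.ext h1)
  · intro h1
    exact absurd (Finset.mem_univ _) h1

theorem normForm_coeff_scale {L ι : Type*} [Field L] [Fintype ι] (b : ι → L) {A : L}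
    (hA : A ≠ 0) {k : ℕ} (hk : k ≤ Fintype.card ι) :
    (∏ i, (Polynomial.X - Polynomial.C (A * b i))).coeff k =
      A ^ (Fintype.card ι - k) * (∏ i, (Polynomial.X - Polynomial.C (b i))).coeff k := by
  have h : (∏ i, (Polynomial.X - Polynomial.C (A * b i))).comp
      (Polynomial.C A * Polynomial.X) =
      Polynomial.C (A ^ Fintype.card ι) * ∏ i, (Polynomial.X - Polynomial.C (b i)) := by
    rw [Polynomial.prod_comp, Polynomial.C_pow, ← Finset.card_univ, ← Finset.prod_const,
      ← Finset.prod_mul_distrib]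
    refine Finset.prod_congr rfl fun i _ => ?_
    rw [Polynomial.sub_comp, Polynomial.X_comp, Polynomial.C_comp, Polynomial.C_mul]
    ring
  have h2 := congrArg (fun p => Polynomial.coeff p k) h
  simp only [Polynomial.comp_C_mul_X_coeff, Polynomial.coeff_C_mul] at h2
  have h3 : A ^ Fintype.card ι = A ^ (Fintype.card ι - k) * A ^ k := by
    rw [← pow_add]; congr 1; omega
  rw [h3] at h2
  have h4 : A ^ k ≠ 0 := pow_ne_zero _ hA
  apply mul_right_cancel₀ h4
  rw [h2]
  ring

theorem normForm_integral {R L ι : Type*} [CommRing R] [Field L] [Algebra R L] [Fintype ι]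
    (b : ι → L) (hb : ∀ i, IsIntegral R (b i)) (k : ℕ) :
    IsIntegral R ((∏ i, (Polynomial.X - Polynomial.C (b i))).coeff k) := by
  let S := integralClosure R L
  let q : Polynomial S := ∏ i, (Polynomial.X - Polynomial.C (⟨b i, hb i⟩ : S))
  have h : q.map (algebraMap S L) = ∏ i, (Polynomial.X - Polynomial.C (b i)) := by
    rw [Polynomial.map_prod]
    refine Finset.prod_congr rfl fun i _ => ?_
    rw [Polynomial.map_sub, Polynomial.map_X, Polynomial.map_C]
    rfl
  rw [← h, Polynomial.coeff_map]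
  exact (q.coeff k).2

theorem normForm_coeff_scaleVar {K₀ σ : Type*} [Field K₀] (t : K₀) (r : MvPolynomial σ K₀)
    (d : σ →₀ ℕ) :
    coeff d (aeval (fun j => C t * X j : σ → MvPolynomial σ K₀) r) =
      t ^ (d.degree) * coeff d r := by
  classical
  induction r using MvPolynomial.induction_on' with
  | monomial u a =>
    have h : aeval (fun j => C t * X j : σ → MvPolynomial σ K₀) (monomial u a) =
        C (t ^ u.degree) * monomial u a := by
      rw [aeval_monomial, monomial_eq (a := a), algebraMap_eq]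
      have h1 : (u.prod fun i k => (C t * X i : MvPolynomial σ K₀) ^ k) =
          C (t ^ u.degree) * u.prod fun i k => (X i : MvPolynomial σ K₀) ^ k := by
        simp only [Finsupp.prod, mul_pow, Finset.prod_mul_distrib]
        congr 1
        rw [Finset.prod_pow_eq_pow_sum, ← C_pow]
        rfl
      rw [h1]
      ring
    rw [h, coeff_C_mul, coeff_monomial]
    split_ifs with h2
    · rw [h2]
    · simp
  | add p q hp hq => rw [map_add, coeff_add, coeff_add, hp, hq, mul_add]

theorem normForm_exists_scale {K₀ σ : Type*} [Field K₀] {t : K₀} (ht : t ≠ 0) :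
    ∃ e : MvPolynomial σ K₀ ≃ₐ[K₀] MvPolynomial σ K₀, ∀ x, e x =
      aeval (fun j => C t * X j : σ → MvPolynomial σ K₀) x := by
  have h1 : ∀ s u : K₀, s * u = 1 →
      (aeval (fun j => C s * X j : σ → MvPolynomial σ K₀)).comp
        (aeval (fun j => C u * X j : σ → MvPolynomial σ K₀)) =
      AlgHom.id K₀ (MvPolynomial σ K₀) := by
    intro s u hsu
    apply algHom_ext
    intro i
    rw [AlgHom.comp_apply, aeval_X, map_mul, aeval_X, aeval_C, algebraMap_eq, ← mul_assoc,
      ← C_mul, mul_comm u s, hsu, C_1, one_mul, AlgHom.id_apply]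
  exact ⟨AlgEquiv.ofAlgHom _ _ (h1 t t⁻¹ (mul_inv_cancel₀ ht)) (h1 t⁻¹ t (inv_mul_cancel₀ ht)),
    fun x => rfl⟩

/-- A finite family `b` of algebraic functions of `u_0, ..., u_n` that is stable up to scaling
under the automorphisms scaling the coordinates, and is integral away from each hyperplane
`ell a = 0`, is the family of roots of a form. -/
theorem exists_form {K₀ L : Type} [Field K₀] [CharZero K₀] [Field L] [IsAlgClosed L] {n : ℕ}
    (hn : 0 < n) [Algebra (MvPolynomial (Fin (n + 1)) K₀) L]
    [FaithfulSMul (MvPolynomial (Fin (n + 1)) K₀) L]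
    [Algebra.IsAlgebraic (MvPolynomial (Fin (n + 1)) K₀) L]
    [Algebra K₀ L] [IsScalarTower K₀ (MvPolynomial (Fin (n + 1)) K₀) L]
    {ι : Type} [Fintype ι] (b : ι → L)
    (hgal : ∀ (Φ : L ≃ₐ[K₀] L) (μ : L),
      (∀ j, Φ (algebraMap (MvPolynomial (Fin (n + 1)) K₀) L (X j)) =
        μ * algebraMap (MvPolynomial (Fin (n + 1)) K₀) L (X j)) →
      ∃ e : Equiv.Perm ι, ∀ i, Φ (b i) = μ * b (e i))
    (hint : ∀ (a : K₀) (i : ι), ∃ m : ℕ, IsIntegral (MvPolynomial (Fin (n + 1)) K₀)
      (algebraMap (MvPolynomial (Fin (n + 1)) K₀) L (ell n a) ^ m * b i)) :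
    ∃ G : MvPolynomial (Option (Fin (n + 1))) K₀, G.IsHomogeneous (Fintype.card ι) ∧
      aeval (fun o : Option (Fin (n + 1)) => o.elim (Polynomial.X : Polynomial L)
        fun j => Polynomial.C (algebraMap (MvPolynomial (Fin (n + 1)) K₀) L (X j))) G =
      ∏ i, (Polynomial.X - Polynomial.C (b i)) := by
  classical
  set R := MvPolynomial (Fin (n + 1)) K₀ with hR
  have hinj : Function.Injective (algebraMap R L) := FaithfulSMul.algebraMap_injective R L
  have htf : Module.IsTorsionFree R L := Module.isTorsionFree_iff_faithfulSMul.2 inferInstance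
  have hcl : IsAlgClosure R L := ⟨inferInstance, inferInstance⟩
  set p : Polynomial L := ∏ i, (Polynomial.X - Polynomial.C (b i)) with hp
  set D := Fintype.card ι with hD
  -- the action of an automorphism scaling the coordinates
  have hact : ∀ (Φ : L ≃ₐ[K₀] L) (μ : L), μ ≠ 0 →
      (∀ j, Φ (algebraMap R L (X j)) = μ * algebraMap R L (X j)) →
      ∀ k ≤ D, Φ (p.coeff k) = μ ^ (D - k) * p.coeff k := by
    intro Φ μ hμ hΦ k hk
    obtain ⟨e, he⟩ := hgal Φ μ hΦ
    have h1 : p.map (Φ : L →+* L) = ∏ i, (Polynomial.X - Polynomial.C (μ * b i)) := by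
      rw [hp, Polynomial.map_prod]
      refine Finset.prod_equiv e (by simp) fun i _ => ?_
      rw [Polynomial.map_sub, Polynomial.map_X, Polynomial.map_C]
      congr 2
      exact he i
    have h2 := congrArg (fun q => Polynomial.coeff q k) h1
    simp only [Polynomial.coeff_map] at h2
    rw [normForm_coeff_scale b hμ hk] at h2
    exact h2
  -- descent to the fraction field
  let _ : Algebra (FractionRing R) L := FractionRing.liftAlgebra R L
  have : IsScalarTower R (FractionRing R) L := FractionRing.isScalarTower_liftAlgebra R L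
  have : Algebra.IsAlgebraic (FractionRing R) L :=
    (IsFractionRing.comap_isAlgebraic_iff (A := R) (K := FractionRing R) (C := L)).1 inferInstance
  have : IsAlgClosure (FractionRing R) L := ⟨inferInstance, inferInstance⟩
  have : CharZero (FractionRing R) := inferInstance
  have : IsGalois (FractionRing R) L := IsAlgClosure.isGalois (FractionRing R) L
  have hinjK : Function.Injective (algebraMap (FractionRing R) L) :=
    (algebraMap (FractionRing R) L).injective
  have hfrac : ∀ k ≤ D, ∃ c : FractionRing R, algebraMap (FractionRing R) L c = p.coeff k := by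
    intro k hk
    have := (InfiniteGalois.mem_range_algebraMap_iff_fixed (k := FractionRing R)
      (p.coeff k)).2 ?_
    · exact this
    intro f
    let Φ : L ≃ₐ[K₀] L := AlgEquiv.ofRingEquiv (f := (f : L ≃+* L)) (fun x => by
      rw [IsScalarTower.algebraMap_apply K₀ R L, IsScalarTower.algebraMap_apply R
        (FractionRing R) L]
      exact f.commutes _)
    have h1 := hact Φ 1 one_ne_zero (fun j => by
      rw [one_mul, IsScalarTower.algebraMap_apply R (FractionRing R) L]
      exact f.commutes _) k hk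
    rw [one_pow, one_mul] at h1
    exact h1
  -- integrality
  have hcommon : ∀ a : K₀, ∃ m : ℕ, ∀ i, IsIntegral R (algebraMap R L (ell n a) ^ m * b i) := by
    intro a
    choose m hm using hint a
    refine ⟨∑ i, m i, fun i => ?_⟩
    have h1 : m i ≤ ∑ i, m i := Finset.single_le_sum (fun _ _ => Nat.zero_le _)
      (Finset.mem_univ i)
    have h2 : algebraMap R L (ell n a) ^ (∑ i, m i) * b i =
        algebraMap R L (ell n a ^ (∑ i, m i - m i)) * (algebraMap R L (ell n a) ^ m i * b i) := by
      rw [map_pow, ← mul_assoc, ← pow_add]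
      congr 2
      omega
    rw [h2]
    exact isIntegral_algebraMap.mul (hm i)
  have hell : ∀ a : K₀, ell n a ≠ 0 := by
    intro a h
    have h1 := congrArg (MvPolynomial.eval
      (fun j : Fin (n + 1) => if (j : ℕ) = 0 then (1 : K₀) else 0)) h
    simp only [ell, map_sum, map_mul, eval_C, eval_X, map_zero] at h1
    rw [Finset.sum_eq_single (0 : Fin (n + 1))] at h1
    · simp at h1
    · intro b _ hb
      rw [if_neg, mul_zero]
      intro h1
      exact hb (Fin.ext h1)
    · intro h1
      exact absurd (Finset.mem_univ _) h1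
  have hnum : ∀ a : K₀, ∃ m : ℕ, ∀ k ≤ D, ∀ c : FractionRing R,
      algebraMap (FractionRing R) L c = p.coeff k →
      ∃ r : R, algebraMap R (FractionRing R) r =
        algebraMap R (FractionRing R) (ell n a ^ m) * c := by
    intro a
    obtain ⟨m, hm⟩ := hcommon a
    refine ⟨m * D, fun k hk c hc => ?_⟩
    have hA : algebraMap R L (ell n a) ^ m ≠ 0 := by
      refine pow_ne_zero _ ?_
      rw [Ne, map_eq_zero_iff _ hinj]
      exact hell a
    have h1 := normForm_integral (R := R) (fun i => algebraMap R L (ell n a) ^ m * b i) hm k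
    rw [normForm_coeff_scale b hA hk, ← hp] at h1
    have h2 : IsIntegral R ((algebraMap R L (ell n a) ^ m) ^ D * p.coeff k) := by
      have h3 : (algebraMap R L (ell n a) ^ m) ^ D * p.coeff k =
          algebraMap R L ((ell n a ^ m) ^ k) *
            ((algebraMap R L (ell n a) ^ m) ^ (D - k) * p.coeff k) := by
        rw [map_pow, map_pow, ← mul_assoc, ← pow_add]
        congr 2
        omega
      rw [h3]
      exact isIntegral_algebraMap.mul h1
    rw [← hc, ← pow_mul, ← map_pow, IsScalarTower.algebraMap_apply R (FractionRing R) L,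
      ← map_mul, isIntegral_algebraMap_iff hinjK] at h2
    exact IsIntegrallyClosed.isIntegral_iff.1 h2
  have hcoef : ∀ k ≤ D, ∃ r : R, algebraMap R L r = p.coeff k := by
    intro k hk
    obtain ⟨c, hc⟩ := hfrac k hk
    obtain ⟨m0, h0⟩ := hnum 0
    obtain ⟨m1, h1⟩ := hnum 1
    obtain ⟨r0, hr0⟩ := h0 k hk c hc
    obtain ⟨r1, hr1⟩ := h1 k hk c hc
    have hinjF : Function.Injective (algebraMap R (FractionRing R)) :=
      IsFractionRing.injective R (FractionRing R)
    have h2 : r0 * ell n (1 : K₀) ^ m1 = ell n (0 : K₀) ^ m0 * r1 := by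
      apply hinjF
      rw [map_mul, map_mul, hr0, hr1]
      ring
    rw [normForm_ell_zero] at h2 hr0
    have h3 : (X 0 : R) ^ m0 ∣ r0 := by
      refine Prime.pow_dvd_of_dvd_mul_right (X_prime (i := (0 : Fin (n + 1)))) m0
        (b := ell n (1 : K₀) ^ m1) ?_ ⟨r1, h2⟩
      intro h
      exact normForm_not_dvd hn ((X_prime (i := (0 : Fin (n + 1)))).dvd_of_dvd_pow h)
    obtain ⟨s, hs⟩ := h3
    refine ⟨s, ?_⟩
    rw [hs, map_mul] at hr0
    have h4 : algebraMap R (FractionRing R) ((X 0 : R) ^ m0) ≠ 0 := by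
      rw [Ne, map_eq_zero_iff _ hinjF]
      exact pow_ne_zero _ (X_ne_zero _)
    have h5 := mul_left_cancel₀ h4 hr0
    rw [← hc, ← h5, ← IsScalarTower.algebraMap_apply]
  -- homogeneity
  have hhom : ∀ k ≤ D, ∀ r : R, algebraMap R L r = p.coeff k → r.IsHomogeneous (D - k) := by
    intro k hk r hr
    have h2 : (2 : K₀) ≠ 0 := two_ne_zero
    obtain ⟨σ, hσ⟩ : ∃ σ : R ≃ₐ[K₀] R, ∀ x, σ x =
        aeval (fun j => C 2 * X j : Fin (n + 1) → MvPolynomial (Fin (n + 1)) K₀) x :=
      normForm_exists_scale h2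
    let f : L ≃+* L := IsAlgClosure.equivOfEquiv L L (σ : R ≃+* R)
    have hf : ∀ x : R, f (algebraMap R L x) = algebraMap R L (σ x) := fun x =>
      IsAlgClosure.equivOfEquiv_algebraMap L L (σ : R ≃+* R) x
    let Φ : L ≃ₐ[K₀] L := AlgEquiv.ofRingEquiv (f := f) (fun x => by
      rw [IsScalarTower.algebraMap_apply K₀ R L, hf, σ.commutes])
    have hΦ : ∀ x : R, Φ (algebraMap R L x) = algebraMap R L (σ x) := hf
    have hσX : ∀ j, σ (X j) = C 2 * X j := fun j => by
      rw [hσ, aeval_X]
    have h3 := hact Φ (algebraMap R L (C 2)) (by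
      rw [Ne, map_eq_zero_iff _ hinj, C_eq_zero]
      exact h2) (fun j => by rw [hΦ, hσX, map_mul]) k hk
    rw [← hr, hΦ, ← map_pow, ← map_mul] at h3
    have h4 := hinj h3
    intro d hd
    have h5 := congrArg (coeff d) h4
    have h6 : coeff d (σ r) = 2 ^ d.degree * coeff d r := by
      rw [hσ]
      exact normForm_coeff_scaleVar 2 r d
    rw [h6, ← C_pow, coeff_C_mul] at h5
    have h7 : (2 : K₀) ^ d.degree = 2 ^ (D - k) := mul_right_cancel₀ hd h5
    have h8 : ((2 ^ d.degree : ℕ) : K₀) = ((2 ^ (D - k) : ℕ) : K₀) := by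
      push_cast
      exact h7
    have h9 := Nat.pow_right_injective (le_refl 2) (Nat.cast_injective h8)
    rw [← h9]
    rw [Finsupp.degree_eq_weight_one]
    rfl
  choose! r hr using hcoef
  refine ⟨∑ k ∈ Finset.range (D + 1), rename some (r k) * X none ^ k, ?_, ?_⟩
  · refine IsHomogeneous.sum _ _ _ fun k hk => ?_
    have hk' : k ≤ D := by
      have := Finset.mem_range.1 hk
      omega
    have h1 := (hhom k hk' (r k) (hr k hk')).rename_isHomogeneous (f := some)
    have h2 := h1.mul (isHomogeneous_X_pow (R := K₀) (none : Option (Fin (n + 1))) k)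
    have h3 : D - k + k = D := by omega
    rwa [h3] at h2
  · have hdeg : p.natDegree < D + 1 := by
      rw [hp, Polynomial.natDegree_finsetProd_X_sub_C_eq_card, Finset.card_univ]
      exact Nat.lt_succ_self _
    rw [Polynomial.as_sum_range_C_mul_X_pow' p hdeg, map_sum]
    refine Finset.sum_congr rfl fun k hk => ?_
    have hk' : k ≤ D := by
      have := Finset.mem_range.1 hk
      omega
    rw [map_mul, map_pow, aeval_X, aeval_rename, ← hr k hk']
    congr 1
    have h1 : (aeval ((fun o : Option (Fin (n + 1)) => o.elim (Polynomial.X : Polynomial L)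
        fun j => Polynomial.C (algebraMap R L (X j))) ∘ some) : R →ₐ[K₀] Polynomial L) =
        (IsScalarTower.toAlgHom K₀ L (Polynomial L)).comp (IsScalarTower.toAlgHom K₀ R L) := by
      apply algHom_ext
      intro i
      rw [aeval_X]
      rfl
    rw [h1]
    rfl

end Pool.Agent.MultiSpec
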