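import Pool.Agent.MultiSpec.Datum
import Pool.Agent.MultiSpec.NormForm
import Pool.Agent.MultiSpec.Lifts

set_option autoImplicit false

namespace Pool.Agent.MultiSpec

open MvPolynomial

/-- Families with the same multiset of values differ by a permutation. -/
lemma blockA_exists_perm {ι α : Type*} [Fintype ι] (f g : ι → α)
    (h : Multiset.map f Finset.univ.val = Multiset.map g Finset.univ.val) :
    ∃ e : Equiv.Perm ι, ∀ i, f i = g (e i) := by
  classical
  have hc : ∀ a : α, Nonempty ({i // f i = a} ≃ {i // g i = a}) := by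
    intro a
    have h1 := congrArg (Multiset.count a) h
    rw [Multiset.count_map, Multiset.count_map] at h1
    refine ⟨Fintype.equivOfCardEq ?_⟩
    rw [Fintype.card_subtype, Fintype.card_subtype]
    have h2 : ∀ k : ι → α, (Finset.univ.filter fun i => k i = a).card =
        Multiset.card (Finset.univ.val.filter fun i => a = k i) := by
      intro k
      rw [Finset.card_def, Finset.filter_val]
      congr 1
      exact Multiset.filter_congr fun i _ => eq_comm
    rw [h2, h2, h1]
  choose e _ using fun a => (hc a).elim (fun e => (⟨e, trivial⟩ : ∃ _ : {i // f i = a} ≃ {i // g i = a}, True))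
  refine ⟨(Equiv.sigmaFiberEquiv f).symm.trans
    ((Equiv.sigmaCongrRight e).trans (Equiv.sigmaFiberEquiv g)), fun i => ?_⟩
  have : g ((Equiv.sigmaFiberEquiv g) ((Equiv.sigmaCongrRight e)
      ((Equiv.sigmaFiberEquiv f).symm i))) = f i := by
    simp [Equiv.sigmaFiberEquiv]
    exact (e (f i) ⟨i, rfl⟩).2
  exact this.symm

/-- The roots of a binary form over an algebraically closed field with nonzero leading
coefficient. -/
lemma blockA_roots {L : Type*} [Field L] [IsAlgClosed L] {n : ℕ} (u : Fin (n + 1) → L)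
    (hu : u (Fin.last n) ≠ 0) :
    ∃ r : Fin n → L, ∀ T S : L, ∑ j : Fin (n + 1), u j * T ^ (j : ℕ) * S ^ (n - j) =
      u (Fin.last n) * ∏ k, (T - r k * S) := by
  classical
  set f : Polynomial L := ∑ j : Fin (n + 1), Polynomial.C (u j) * Polynomial.X ^ (j : ℕ) with hf
  have hcoef : f.coeff n = u (Fin.last n) := by
    rw [hf, Polynomial.finsetSum_coeff, Finset.sum_eq_single (Fin.last n)]
    · simp
    · intro j _ hj
      have : n ≠ (j : ℕ) := by
        intro h
        apply hj
        ext
        simpa using h.symm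
      simp [Polynomial.coeff_X_pow, this]
    · simp
  have hdeg : f.natDegree ≤ n := by
    rw [hf]
    refine Polynomial.natDegree_sum_le_of_forall_le _ _ fun j _ => ?_
    refine (Polynomial.natDegree_C_mul_X_pow_le _ _).trans (by omega)
  have hdeg' : f.natDegree = n :=
    Polynomial.natDegree_eq_of_le_of_coeff_ne_zero hdeg (by rw [hcoef]; exact hu)
  have hlead : f.leadingCoeff = u (Fin.last n) := by
    rw [Polynomial.leadingCoeff, hdeg', hcoef]
  have hsp : f.Splits := IsAlgClosed.splits f
  have hcard : Multiset.card f.roots = n := by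
    rw [← hdeg']
    exact (Polynomial.splits_iff_card_roots.1 hsp)
  obtain ⟨l, hl⟩ := Quot.exists_rep f.roots
  have hl' : (l : Multiset L) = f.roots := hl
  have hlen : l.length = n := by
    rw [← hcard, ← hl']
    simp
  have hprod : f = Polynomial.C (u (Fin.last n)) *
      (f.roots.map fun a => Polynomial.X - Polynomial.C a).prod := by
    conv_lhs => rw [hsp.eq_prod_roots, hlead]
  subst hlen
  refine ⟨fun k => l[k.1], fun T S => ?_⟩
  have hev : ∀ T : L, ∑ j : Fin (l.length + 1), u j * T ^ (j : ℕ) =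
      u (Fin.last l.length) * ∏ k : Fin l.length, (T - l[k.1]) := by
    intro T
    have h1 : f.eval T = ∑ j : Fin (l.length + 1), u j * T ^ (j : ℕ) := by
      rw [hf, Polynomial.eval_finsetSum]
      simp
    rw [← h1, hprod, Polynomial.eval_mul, Polynomial.eval_C]
    congr 1
    rw [← hl', Multiset.map_coe, Multiset.prod_coe, Polynomial.eval_list_prod]
    rw [List.map_map]
    have h2 : ∀ l : List L, (List.map ((fun p => Polynomial.eval T p) ∘
      fun a => Polynomial.X - Polynomial.C a) l).prod = ∏ k : Fin l.length, (T - l[k.1]) := by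
      intro l
      induction l with
      | nil => simp
      | cons a l ih =>
        rw [List.map_cons, List.prod_cons, ih]
        simp [Fin.prod_univ_succ]
    exact h2 l
  by_cases hS : S = 0
  · subst hS
    rw [Finset.sum_eq_single (Fin.last l.length)]
    · simp
    · intro j _ hj
      have : l.length - (j : ℕ) ≠ 0 := by
        intro h
        apply hj
        ext
        simp only [Fin.val_last]
        omega
      simp [this]
    · simp
  · have h3 := hev (T / S)
    have h4 : ∑ j : Fin (l.length + 1), u j * T ^ (j : ℕ) * S ^ (l.length - j) =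
        S ^ l.length * ∑ j : Fin (l.length + 1), u j * (T / S) ^ (j : ℕ) := by
      rw [Finset.mul_sum]
      refine Finset.sum_congr rfl fun j _ => ?_
      have h5 : S ^ l.length = S ^ (l.length - (j : ℕ)) * S ^ (j : ℕ) := by
        rw [← pow_add]
        congr 1
        omega
      rw [h5, div_pow]
      field_simp
    rw [h4, h3]
    have h6 : ∏ k : Fin l.length, (T - l[k.1] * S) =
        S ^ l.length * ∏ k : Fin l.length, (T / S - l[k.1]) := by
      have : S ^ l.length = ∏ _k : Fin l.length, S := by simp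
      rw [this, ← Finset.prod_mul_distrib]
      refine Finset.prod_congr rfl fun k _ => ?_
      field_simp
    rw [h6]
    ring


/-- Automorphisms scaling the coefficients permute the roots. -/
lemma blockA_perm_roots {L : Type*} [Field L] [Infinite L] {n : ℕ} (u : Fin (n + 1) → L)
    (hu : u (Fin.last n) ≠ 0) (r : Fin n → L)
    (hr : ∀ T S : L, ∑ j : Fin (n + 1), u j * T ^ (j : ℕ) * S ^ (n - j) =
      u (Fin.last n) * ∏ k, (T - r k * S)) (Φ : L →+* L) (μ : L)
    (hΦ : ∀ j, Φ (u j) = μ * u j) : ∃ ρ : Equiv.Perm (Fin n), ∀ k, Φ (r k) = r (ρ k) := by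
  classical
  set P : Polynomial L := ∏ k, (Polynomial.X - Polynomial.C (r k)) with hP
  have h1 : Polynomial.C (u (Fin.last n)) * P =
      ∑ j : Fin (n + 1), Polynomial.C (u j) * Polynomial.X ^ (j : ℕ) := by
    refine Polynomial.funext fun T => ?_
    have := hr T 1
    rw [hP]
    simp only [one_pow, mul_one] at this
    simp only [Polynomial.eval_mul, Polynomial.eval_C, Polynomial.eval_prod, Polynomial.eval_sub,
      Polynomial.eval_X, Polynomial.eval_finsetSum, Polynomial.eval_pow]
    exact this.symm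
  have hμ : μ ≠ 0 := by
    intro h
    have h2 := hΦ (Fin.last n)
    rw [h, zero_mul] at h2
    exact hu ((map_eq_zero Φ).1 h2)
  have h2 := congrArg (Polynomial.map Φ) h1
  have h3 : Polynomial.C μ * Polynomial.C (u (Fin.last n)) * P.map Φ =
      Polynomial.C μ * Polynomial.C (u (Fin.last n)) * P := by
    rw [Polynomial.map_mul, Polynomial.map_C, hΦ, Polynomial.map_sum] at h2
    simp only [Polynomial.map_mul, Polynomial.map_C, Polynomial.map_pow, Polynomial.map_X,
      hΦ] at h2
    rw [mul_assoc, mul_assoc, h1, Finset.mul_sum]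
    simp only [Polynomial.C_mul] at h2
    rw [← mul_assoc (Polynomial.C μ), h2]
    refine Finset.sum_congr rfl fun j _ => ?_
    ring
  have h4 : P.map Φ = P := by
    refine mul_left_cancel₀ (mul_ne_zero ?_ ?_) h3
    · exact Polynomial.C_ne_zero.2 hμ
    · exact Polynomial.C_ne_zero.2 hu
  have h5 : P.map Φ = ∏ k, (Polynomial.X - Polynomial.C (Φ (r k))) := by
    rw [hP, Polynomial.map_prod]
    simp
  have h6 : ∀ g : Fin n → L, (∏ k, (Polynomial.X - Polynomial.C (g k))).roots =
      Multiset.map g Finset.univ.val := by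
    intro g
    have : ∏ k, (Polynomial.X - Polynomial.C (g k)) =
        ((Multiset.map g Finset.univ.val).map fun a => Polynomial.X - Polynomial.C a).prod := by
      rw [Multiset.map_map]
      rfl
    rw [this, Polynomial.roots_multiset_prod_X_sub_C]
  refine blockA_exists_perm _ _ ?_
  rw [← h6, ← h6, ← h5, h4]

/-- Twist of a lift by a root of unity. -/
def blockATw {n : ℕ} {R : Type*} [CommRing R] (ω ω' : R) (q : LiftPt n R) : LiftPt n R :=
  ⟨q.Y, ω * q.α, ω' * q.β, fun l j => ω ^ (l.val + 1) * q.s l j⟩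

lemma blockA_isLift_tw {N n : ℕ} {R : Type*} [CommRing R] (hn : n < N) {D : EDatum N n R}
    {x z : R} {q : LiftPt n R} (h : IsLift D x z q) {ω ω' : R} (hω : ω ^ N = 1)
    (hωω : ω * ω' = 1) : IsLift D x z (blockATw ω ω' q) where
  hY := h.hY
  hα := by
    have h0 := h.hα
    simp only [blockATw, mul_pow, hω, one_mul]
    exact h0
  hβ := by
    have h1 : ω' ^ N = 1 := by
      have h2 : (ω * ω') ^ N = 1 := by rw [hωω, one_pow]
      rwa [mul_pow, hω, one_mul] at h2
    have h0 := h.hβ
    simp only [blockATw, mul_pow, h1, one_mul]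
    exact h0
  hαβ := by
    have h0 := h.hαβ
    simp only [blockATw]
    linear_combination h0 + q.α * q.β * hωω
  h1 l j := by
    have h0 := h.h1 l j
    simp only [blockATw]
    have h2 : (ω * ω') ^ (l.val + 1) = 1 := by rw [hωω, one_pow]
    rw [mul_pow] at h2
    rw [mul_pow]
    linear_combination h0 + q.β ^ (l.val + 1) * q.s l j * h2
  h2 l j := by
    have h0 := h.h2 l j
    simp only [blockATw]
    have h2 : ω ^ (N - (l.val + 1)) * ω ^ (l.val + 1) = 1 := by
      rw [← pow_add, Nat.sub_add_cancel (by omega), hω]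
    rw [mul_pow]
    linear_combination h0 + 2 * q.α ^ (N - (l.val + 1)) * q.s l j * h2

/-- The twisted generic section. -/
def blockAW {n : ℕ} {R : Type*} [CommRing R] (c : Fin n × (Fin n → Fin 2) → R) (ω : R)
    (s : Fin n → Fin n → Fin 2 → R) : R :=
  ∑ l : Fin n, ∑ j : Fin n → Fin 2, c (l, j) * ω ^ (l.val + 1) * ∏ i, s i l (j i)

lemma blockAW_mul {n : ℕ} {R : Type*} [CommRing R] (c : Fin n × (Fin n → Fin 2) → R) (ω : R)
    (s s' : Fin n → Fin n → Fin 2 → R) (a : Fin n → R)
    (h : ∀ i l j, s' i l j = a i ^ (l.val + 1) * s i l j) :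
    blockAW c ω s' = blockAW c (ω * ∏ i, a i) s := by
  unfold blockAW
  refine Finset.sum_congr rfl fun l _ => Finset.sum_congr rfl fun j _ => ?_
  simp only [h, Finset.prod_mul_distrib, mul_pow, Finset.prod_pow]
  ring

lemma blockAW_scale {n : ℕ} {R : Type*} [CommRing R] (c : Fin n × (Fin n → Fin 2) → R) (ω : R)
    (s s' : Fin n → Fin n → Fin 2 → R) (a : Fin n → R)
    (h : ∀ i l j, s' i l j = a i * s i l j) :
    blockAW c ω s' = (∏ i, a i) * blockAW c ω s := by
  unfold blockAW
  rw [Finset.mul_sum]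
  refine Finset.sum_congr rfl fun l _ => ?_
  rw [Finset.mul_sum]
  refine Finset.sum_congr rfl fun j _ => ?_
  simp only [h, Finset.prod_mul_distrib]
  ring

lemma blockAW_map {n : ℕ} {R S : Type*} [CommRing R] [CommRing S] (φ : R →+* S)
    (c : Fin n × (Fin n → Fin 2) → R) (ω : R) (s : Fin n → Fin n → Fin 2 → R) :
    φ (blockAW c ω s) = blockAW (fun e => φ (c e)) (φ ω) (fun i l j => φ (s i l j)) := by
  simp only [blockAW, map_sum, map_mul, map_pow, map_prod]

lemma blockA_Wsum_tw {n : ℕ} {R : Type*} [CommRing R] (c : Fin n × (Fin n → Fin 2) → R)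
    (ω ω' : R) (q : Fin n → LiftPt n R) (i₀ : Fin n) :
    Wsum c (fun i => if i = i₀ then blockATw ω ω' (q i) else q i) =
      blockAW c ω fun i => (q i).s := by
  classical
  have h := blockAW_mul c 1 (fun i => (q i).s)
    (fun i => (if i = i₀ then blockATw ω ω' (q i) else q i).s)
    (fun i => if i = i₀ then ω else 1) ?_
  · rw [Finset.prod_ite_eq' Finset.univ i₀ (fun _ => ω), if_pos (Finset.mem_univ _), one_mul] at h
    rw [← h]
    simp [Wsum, blockAW]
  · intro i l j
    by_cases hi : i = i₀
    · simp [hi, blockATw]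
    · simp [hi]

lemma blockA_map_map {N n : ℕ} {R S T : Type*} [CommRing R] [CommRing S] [CommRing T]
    (D : EDatum N n R) (φ : R →+* S) (ψ : S →+* T) :
    (D.map φ).map ψ = D.map (ψ.comp φ) := by
  simp [EDatum.map, MvPolynomial.map_map]


lemma blockA_F_map {N n : ℕ} {R S : Type*} [CommRing R] [CommRing S]
    (D : EDatum N n R) (φ : R →+* S) : (D.map φ).F = MvPolynomial.map φ D.F := by
  rw [EDatum.F, EDatum.F, map_quar]
  rfl


section

variable {K₀ L : Type} [Field K₀] [IsAlgClosed K₀] [CharZero K₀] [Field L] [IsAlgClosed L]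
  [CharZero L] [Algebra K₀ L] {n N : ℕ}

omit [IsAlgClosed L] [CharZero L] in
/-- The roots of unity of `L` are in `K₀`. -/
lemma blockA_mu (hN : 2 ≤ N) :
    Nat.card (rootsOfUnity N K₀) = N ∧ ∀ ω : L, ω ^ N = 1 →
      ∃ ζ : rootsOfUnity N K₀, algebraMap K₀ L ((ζ : K₀ˣ) : K₀) = ω := by
  have : NeZero N := ⟨by omega⟩
  have : NeZero (N : K₀) := ⟨by exact_mod_cast (by omega : N ≠ 0)⟩
  obtain ⟨ζ, hζ⟩ := HasEnoughRootsOfUnity.exists_primitiveRoot K₀ N
  refine ⟨?_, fun ω hω => ?_⟩
  · exact hζ.card_rootsOfUnity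
  · have hζ' : IsPrimitiveRoot (algebraMap K₀ L ζ) N :=
      hζ.map_of_injective (algebraMap K₀ L).injective
    obtain ⟨i, _, hi⟩ := hζ'.eq_pow_of_pow_eq_one hω
    have h1 : (ζ ^ i) ^ N = 1 := by rw [← pow_mul, mul_comm, pow_mul, hζ.pow_eq_one, one_pow]
    refine ⟨rootsOfUnity.mkOfPowEq (ζ ^ i) h1, ?_⟩
    rw [rootsOfUnity.coe_mkOfPowEq, map_pow, hi]

/-- The family of the values of the section. -/
noncomputable def blockAb (c : Fin n × (Fin n → Fin 2) → K₀) (v : L)
    (q : Fin n → Fin n → ℤˣ → LiftPt n L)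
    (p : Equiv.Perm (Fin n) × (Fin n → ℤˣ) × rootsOfUnity N K₀) : L :=
  v * blockAW (fun e => algebraMap K₀ L (c e)) (algebraMap K₀ L ((p.2.2 : K₀ˣ) : K₀))
    fun i => (q i (p.1 i) (p.2.1 i)).s

lemma blockA_gal (hN : 2 ≤ N) (hnN : n < N) (D : Fin n → EDatum N n K₀) (lam : K₀)
    (hlam : lam ≠ 0) (c : Fin n × (Fin n → Fin 2) → K₀) (U : Fin (n + 1) → L)
    (hU : U (Fin.last n) ≠ 0) (r : Fin n → L)
    (hr : ∀ T S : L, ∑ j : Fin (n + 1), U j * T ^ (j : ℕ) * S ^ (n - j) =
      U (Fin.last n) * ∏ k, (T - r k * S))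
    (Y : Fin n → Fin n → L)
    (hY : ∀ i k, Y i k ^ 2 = ev (r k) (algebraMap K₀ L lam) ((D i).map (algebraMap K₀ L)).F)
    (q : Fin n → Fin n → ℤˣ → LiftPt n L)
    (hq : ∀ i k ε, IsLift ((D i).map (algebraMap K₀ L)) (r k) (algebraMap K₀ L lam) (q i k ε))
    (hqY : ∀ i k ε, (q i k ε).Y = ((ε : ℤ) : L) * Y i k)
    (Φ : L ≃ₐ[K₀] L) (μ : L) (hΦ : ∀ j, Φ (U j) = μ * U j) :
    ∃ e : Equiv.Perm (Equiv.Perm (Fin n) × (Fin n → ℤˣ) × rootsOfUnity N K₀),
      ∀ p, Φ (blockAb c (U (Fin.last n)) q p) = μ * blockAb c (U (Fin.last n)) q (e p) := by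
  classical
  have : NeZero N := ⟨by omega⟩
  obtain ⟨ρ, hρ⟩ := blockA_perm_roots U hU r hr (Φ : L →+* L) μ hΦ
  have hρ' : ∀ k, Φ (r k) = r (ρ k) := hρ
  have hcomp : ((Φ : L →+* L)).comp (algebraMap K₀ L) = algebraMap K₀ L := by
    ext x
    simp
  have hD : ∀ i, ((D i).map (algebraMap K₀ L)).map (Φ : L →+* L) =
      (D i).map (algebraMap K₀ L) := by
    intro i
    rw [blockA_map_map, hcomp]
  have hF : ∀ i k, Φ (ev (r k) (algebraMap K₀ L lam) ((D i).map (algebraMap K₀ L)).F) =
      ev (r (ρ k)) (algebraMap K₀ L lam) ((D i).map (algebraMap K₀ L)).F := by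
    intro i k
    have h1 := ev_map (Φ : L →+* L) (r k) (algebraMap K₀ L lam) ((D i).map (algebraMap K₀ L)).F
    have h2 : map (Φ : L →+* L) ((D i).map (algebraMap K₀ L)).F =
        ((D i).map (algebraMap K₀ L)).F := by
      rw [← blockA_F_map, hD]
    rw [h2] at h1
    have h4 : (Φ : L →+* L) (algebraMap K₀ L lam) = algebraMap K₀ L lam := by simp
    rw [h4, hρ] at h1
    exact h1.symm
  have hδ : ∀ i k, ∃ δ : ℤˣ, Φ (Y i k) = ((δ : ℤ) : L) * Y i (ρ k) := by
    intro i k
    have h1 : Φ (Y i k) ^ 2 = Y i (ρ k) ^ 2 := by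
      rw [← map_pow, hY, hF, hY]
    rcases sq_eq_sq_iff_eq_or_eq_neg.1 h1 with h | h
    · exact ⟨1, by simp [h]⟩
    · exact ⟨-1, by simp [h]⟩
  choose δ hδ using hδ
  have hw : ∀ i k (ε : ℤˣ), ∃ ζ : rootsOfUnity N K₀, ∀ l j,
      Φ ((q i k ε).s l j) = (algebraMap K₀ L ((ζ : K₀ˣ) : K₀)) ^ (l.val + 1) *
        (q i (ρ k) (ε * δ i k)).s l j := by
    intro i k ε
    have h1 := (hq i k ε).map (Φ : L →+* L)
    have h4 : (Φ : L →+* L) (algebraMap K₀ L lam) = algebraMap K₀ L lam := by simp
    rw [hD, hρ, h4] at h1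
    have h2 : ((q i k ε).map (Φ : L →+* L)).Y = (q i (ρ k) (ε * δ i k)).Y := by
      rw [hqY]
      change Φ ((q i k ε).Y) = _
      rw [hqY, map_mul, hδ]
      push_cast
      simp only [map_intCast]
      ring
    obtain ⟨ω, hω, -, -, h5⟩ := (hq i (ρ k) (ε * δ i k)).orbit hN hnN
      (Or.inr ((map_ne_zero _).2 hlam)) h1 h2
    obtain ⟨ζ, hζ⟩ := (blockA_mu (K₀ := K₀) (L := L) hN).2 ω hω
    exact ⟨ζ, fun l j => by rw [hζ]; exact h5 l j⟩
  choose w hw using hw
  let f : Equiv.Perm (Fin n) × (Fin n → ℤˣ) × rootsOfUnity N K₀ →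
      Equiv.Perm (Fin n) × (Fin n → ℤˣ) × rootsOfUnity N K₀ := fun p =>
    (p.1.trans ρ, fun i => p.2.1 i * δ i (p.1 i), p.2.2 * ∏ i, w i (p.1 i) (p.2.1 i))
  have hf : Function.Injective f := by
    rintro ⟨π, ε, ω⟩ ⟨π', ε', ω'⟩ h
    simp only [f, Prod.mk.injEq] at h
    obtain ⟨h1, h2, h3⟩ := h
    have hπ : π = π' := by
      ext i
      have h4 := Equiv.congr_fun h1 i
      simp only [Equiv.trans_apply] at h4
      rw [ρ.injective h4]
    subst hπ
    have hε : ε = ε' := by
      funext i
      have h4 := congrFun h2 i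
      exact mul_right_cancel h4
    subst hε
    have hω : ω = ω' := mul_right_cancel h3
    rw [hω]
  refine ⟨Equiv.ofBijective f (Finite.injective_iff_bijective.1 hf), fun p => ?_⟩
  rw [Equiv.ofBijective_apply]
  obtain ⟨π, ε, ω⟩ := p
  simp only [blockAb, f, Equiv.trans_apply]
  rw [map_mul, hΦ]
  have h1 := blockAW_map (Φ : L →+* L) (fun e => algebraMap K₀ L (c e))
    (algebraMap K₀ L ((ω : K₀ˣ) : K₀)) (fun i => (q i (π i) (ε i)).s)
  have h2 : Φ (blockAW (fun e => algebraMap K₀ L (c e)) (algebraMap K₀ L ((ω : K₀ˣ) : K₀))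
      (fun i => (q i (π i) (ε i)).s)) = blockAW (fun e => algebraMap K₀ L (c e))
      (algebraMap K₀ L ((ω : K₀ˣ) : K₀))
        (fun i l j => Φ ((q i (π i) (ε i)).s l j)) := by
    refine Eq.trans h1 ?_
    simp
  rw [h2, blockAW_mul (fun e => algebraMap K₀ L (c e)) (algebraMap K₀ L ((ω : K₀ˣ) : K₀))
    (fun i => (q i (ρ (π i)) (ε i * δ i (π i))).s) _
    (fun i => algebraMap K₀ L ((w i (π i) (ε i) : K₀ˣ) : K₀)) (fun i l j => hw i (π i) (ε i) l j)]
  rw [mul_assoc]
  congr 3
  rw [← map_prod, ← map_mul]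
  congr 1
  push_cast
  rfl

end


/-- Normalised roots are integral. -/
lemma blockA_z_integral {R' L : Type*} [CommRing R'] [Field L] [Algebra R' L] {n : ℕ}
    (u' : Fin (n + 1) → R') (a : R') (he : IsUnit (∑ j : Fin (n + 1), a ^ (j : ℕ) * u' j))
    (r : Fin n → L)
    (hr : ∀ T S : L, ∑ j : Fin (n + 1), algebraMap R' L (u' j) * T ^ (j : ℕ) * S ^ (n - j) =
      algebraMap R' L (u' (Fin.last n)) * ∏ k, (T - r k * S)) (k : Fin n) :
    algebraMap R' L a - r k ≠ 0 ∧ IsIntegral R' ((algebraMap R' L a - r k)⁻¹) := by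
  classical
  have h1 : algebraMap R' L (∑ j : Fin (n + 1), a ^ (j : ℕ) * u' j) =
      algebraMap R' L (u' (Fin.last n)) * ∏ k, (algebraMap R' L a - r k) := by
    have := hr (algebraMap R' L a) 1
    simp only [one_pow, mul_one] at this
    rw [← this]
    simp only [map_sum, map_mul, map_pow]
    exact Finset.sum_congr rfl fun j _ => mul_comm _ _
  have h2 : algebraMap R' L a - r k ≠ 0 := by
    intro h
    have h3 : ∏ k, (algebraMap R' L a - r k) = 0 :=
      Finset.prod_eq_zero (Finset.mem_univ k) h
    rw [h3, mul_zero] at h1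
    exact (he.map (algebraMap R' L)).ne_zero h1
  refine ⟨h2, ?_⟩
  obtain ⟨v, hv⟩ := he
  set z := (algebraMap R' L a - r k)⁻¹ with hz
  have hz1 : z * (algebraMap R' L a - r k) = 1 := inv_mul_cancel₀ h2
  set p : Polynomial R' := Polynomial.C ((v⁻¹ : R'ˣ) : R') * ∑ j : Fin (n + 1),
    Polynomial.C (u' j) * ((Polynomial.C a * Polynomial.X - 1) ^ (j : ℕ) *
      Polynomial.X ^ (n - (j : ℕ))) with hp
  have hdeg1 : (Polynomial.C a * Polynomial.X - 1 : Polynomial R').natDegree ≤ 1 := by
    compute_degree
  have hdeg : p.natDegree ≤ n := by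
    refine (Polynomial.natDegree_C_mul_le _ _).trans ?_
    refine Polynomial.natDegree_sum_le_of_forall_le _ _ fun j _ => ?_
    refine (Polynomial.natDegree_C_mul_le _ _).trans ?_
    refine Polynomial.natDegree_mul_le.trans ?_
    have h3 : ((Polynomial.C a * Polynomial.X - 1 : Polynomial R') ^ (j : ℕ)).natDegree ≤ j := by
      refine Polynomial.natDegree_pow_le.trans ?_
      calc (j : ℕ) * _ ≤ (j : ℕ) * 1 := Nat.mul_le_mul_left _ hdeg1
        _ = j := mul_one _
    have h4 : (Polynomial.X ^ (n - (j : ℕ)) : Polynomial R').natDegree ≤ n - j :=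
      Polynomial.natDegree_X_pow_le _
    have := j.2
    omega
  have hcoef : p.coeff n = 1 := by
    rw [hp, Polynomial.coeff_C_mul, Polynomial.finsetSum_coeff]
    have h3 : ∀ j : Fin (n + 1), (Polynomial.C (u' j) *
        ((Polynomial.C a * Polynomial.X - 1) ^ (j : ℕ) *
          Polynomial.X ^ (n - (j : ℕ)))).coeff n = a ^ (j : ℕ) * u' j := by
      intro j
      have hj := j.2
      rw [Polynomial.coeff_C_mul, Polynomial.coeff_mul_X_pow', if_pos (by omega)]
      have h4 : n - (n - (j : ℕ)) = (j : ℕ) * 1 := by omega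
      rw [h4, Polynomial.coeff_pow_of_natDegree_le hdeg1]
      have h5 : (Polynomial.C a * Polynomial.X - 1 : Polynomial R').coeff 1 = a := by
        simp [Polynomial.coeff_one]
      rw [h5, mul_comm]
    rw [Finset.sum_congr rfl fun j _ => h3 j, ← hv]
    exact v.inv_mul
  refine ⟨p, Polynomial.monic_of_natDegree_le_of_coeff_eq_one n hdeg hcoef, ?_⟩
  rw [hp, Polynomial.eval₂_mul, Polynomial.eval₂_finsetSum]
  have h3 := hr (algebraMap R' L a * z - 1) z
  have h4 : ∏ i, (algebraMap R' L a * z - 1 - r i * z) = 0 := by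
    refine Finset.prod_eq_zero (Finset.mem_univ k) ?_
    linear_combination hz1
  rw [h4, mul_zero] at h3
  have h5 : ∑ j : Fin (n + 1), Polynomial.eval₂ (algebraMap R' L) z (Polynomial.C (u' j) *
      ((Polynomial.C a * Polynomial.X - 1) ^ (j : ℕ) * Polynomial.X ^ (n - (j : ℕ)))) = 0 := by
    rw [← h3]
    refine Finset.sum_congr rfl fun j _ => ?_
    simp only [Polynomial.eval₂_mul, Polynomial.eval₂_pow, Polynomial.eval₂_sub,
      Polynomial.eval₂_C, Polynomial.eval₂_X, Polynomial.eval₂_one]
    ring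
  rw [h5, mul_zero]

/-- Normalised lifts are integral. -/
lemma blockA_lift_int {O L K₀ : Type*} [CommRing O] [Field L] [CharZero L] [Algebra O L]
    [Field K₀] [CharZero K₀] [Algebra K₀ L] {n N : ℕ}
    (hinj : Function.Injective (algebraMap O L))
    (hcl : ∀ y : L, IsIntegral O y → ∃ a : O, algebraMap O L a = y)
    (ι : K₀ →+* O) (hι : (algebraMap O L).comp ι = algebraMap K₀ L) (hN : 2 ≤ N) (hn : n < N)
    (D : EDatum N n K₀) (lam a : K₀) (hlam : lam ≠ 0) (rk : L) (zO : O)
    (hz : algebraMap O L zO * (algebraMap K₀ L a - rk) = 1) (q : LiftPt n L)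
    (hq : IsLift (D.map (algebraMap K₀ L)) rk (algebraMap K₀ L lam) q) :
    ∃ q' : LiftPt n O, IsLift (D.map ι) (ι a * zO - 1) (ι lam * zO) q' ∧
      q'.map (algebraMap O L) = q.scale (algebraMap O L zO) := by
  have hι' : ∀ x, algebraMap O L (ι x) = algebraMap K₀ L x := fun x => by
    rw [← hι]; rfl
  refine IsLift.integral hinj hcl ?_ hN hn (D.map ι) (ι a * zO - 1) (ι lam * zO) ?_
    (q.scale (algebraMap O L zO)) ?_
  · have h2 : IsUnit (2 : K₀) := (two_ne_zero).isUnit
    have := h2.map ι
    rwa [map_ofNat] at this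
  · refine ⟨-1, ι (a * lam⁻¹), ?_⟩
    have h1 : ι (a * lam⁻¹) * (ι lam * zO) = ι a * zO := by
      rw [← mul_assoc, ← map_mul, mul_assoc a, inv_mul_cancel₀ hlam, mul_one]
    rw [h1]
    ring
  · have h1 := hq.scale hN hn (algebraMap O L zO)
    have h2 : algebraMap O L (ι a * zO - 1) = algebraMap O L zO * rk := by
      rw [map_sub, map_mul, hι', map_one]
      linear_combination hz
    have h3 : algebraMap O L (ι lam * zO) = algebraMap O L zO * algebraMap K₀ L lam := by
      rw [map_mul, hι', mul_comm]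
    rw [h2, h3, blockA_map_map, hι]
    exact h1

lemma blockA_hcl {R' L : Type*} [CommRing R'] [Field L] [Algebra R' L] (y : L)
    (hy : IsIntegral (integralClosure R' L) y) :
    ∃ a : integralClosure R' L, algebraMap (integralClosure R' L) L a = y := by
  have h1 : IsIntegral R' y := isIntegral_trans (A := integralClosure R' L) y hy
  exact ⟨⟨y, h1⟩, rfl⟩


/-- The family of values in an integrally closed subring. -/
lemma blockA_bO {K₀ L O : Type} [Field K₀] [Field L] [Algebra K₀ L] [CommRing O] [Algebra O L]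
    {n N : ℕ} (ι : K₀ →+* O) (hι : (algebraMap O L).comp ι = algebraMap K₀ L)
    (c : Fin n × (Fin n → Fin 2) → K₀) (uO : Fin (n + 1) → O) (a : K₀) (r : Fin n → L)
    (hr : ∀ T S : L, ∑ j : Fin (n + 1), algebraMap O L (uO j) * T ^ (j : ℕ) * S ^ (n - j) =
      algebraMap O L (uO (Fin.last n)) * ∏ k, (T - r k * S)) (zO : Fin n → O)
    (hz : ∀ k, algebraMap O L (zO k) * (algebraMap K₀ L a - r k) = 1)
    (q : Fin n → Fin n → ℤˣ → LiftPt n L) (qO : Fin n → Fin n → ℤˣ → LiftPt n O)
    (hq : ∀ i k ε, (qO i k ε).map (algebraMap O L) = (q i k ε).scale (algebraMap O L (zO k)))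
    (p : Equiv.Perm (Fin n) × (Fin n → ℤˣ) × rootsOfUnity N K₀) :
    algebraMap O L ((∑ j : Fin (n + 1), ι a ^ (j : ℕ) * uO j) *
      blockAW (fun e => ι (c e)) (ι ((p.2.2 : K₀ˣ) : K₀))
        fun i => (qO i (p.1 i) (p.2.1 i)).s) =
      blockAb c (algebraMap O L (uO (Fin.last n))) q p := by
  have hι' : ∀ x, algebraMap O L (ι x) = algebraMap K₀ L x := fun x => by
    rw [← hι]; rfl
  have h1 : algebraMap O L (∑ j : Fin (n + 1), ι a ^ (j : ℕ) * uO j) =
      algebraMap O L (uO (Fin.last n)) * ∏ k, (algebraMap K₀ L a - r k) := by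
    have := hr (algebraMap K₀ L a) 1
    simp only [one_pow, mul_one] at this
    rw [← this]
    simp only [map_sum, map_mul, map_pow, hι']
    exact Finset.sum_congr rfl fun j _ => mul_comm _ _
  rw [map_mul, h1, blockAW_map]
  simp only [hι']
  have h2 : ∀ i (l : Fin n) j, algebraMap O L ((qO i (p.1 i) (p.2.1 i)).s l j) =
      algebraMap O L (zO (p.1 i)) * (q i (p.1 i) (p.2.1 i)).s l j := by
    intro i l j
    have h3 := congrArg (fun q : LiftPt n L => q.s l j) (hq i (p.1 i) (p.2.1 i))
    exact h3
  rw [blockAW_scale _ _ (fun i => (q i (p.1 i) (p.2.1 i)).s) _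
    (fun i => algebraMap O L (zO (p.1 i))) h2, blockAb]
  have h4 : (∏ k, (algebraMap K₀ L a - r k)) * ∏ i, algebraMap O L (zO (p.1 i)) = 1 := by
    rw [Equiv.prod_comp p.1 (fun k => algebraMap O L (zO k)), ← Finset.prod_mul_distrib]
    refine Finset.prod_eq_one fun k _ => ?_
    rw [mul_comm]
    exact hz k
  linear_combination (algebraMap O L (uO (Fin.last n)) * blockAW (fun e => algebraMap K₀ L (c e))
    (algebraMap K₀ L ((p.2.2 : K₀ˣ) : K₀)) fun i => (q i (p.1 i) (p.2.1 i)).s) * h4

/-- The factorisation over an integrally closed subring. -/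
lemma blockA_fact {L O Ω : Type} [Field L] [Infinite L] [CommRing O] [Algebra O L] [Field Ω]
    {n : ℕ} (hinj : Function.Injective (algebraMap O L)) (ψ : O →+* Ω)
    (uO : Fin (n + 1) → O) (a : O) (r : Fin n → L)
    (hr : ∀ T S : L, ∑ j : Fin (n + 1), algebraMap O L (uO j) * T ^ (j : ℕ) * S ^ (n - j) =
      algebraMap O L (uO (Fin.last n)) * ∏ k, (T - r k * S)) (zO : Fin n → O)
    (hz : ∀ k, algebraMap O L (zO k) * (algebraMap O L a - r k) = 1) (T S : Ω) :
    ∑ j : Fin (n + 1), ψ (uO j) * T ^ (j : ℕ) * S ^ (n - j) =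
      ψ (∑ j : Fin (n + 1), a ^ (j : ℕ) * uO j) *
        ∏ k, (ψ (zO k) * T - ψ (a * zO k - 1) * S) := by
  have h1 : algebraMap O L (∑ j : Fin (n + 1), a ^ (j : ℕ) * uO j) =
      algebraMap O L (uO (Fin.last n)) * ∏ k, (algebraMap O L a - r k) := by
    have := hr (algebraMap O L a) 1
    simp only [one_pow, mul_one] at this
    rw [← this]
    simp only [map_sum, map_mul, map_pow]
    exact Finset.sum_congr rfl fun j _ => mul_comm _ _
  have h2 : (∑ j : Fin (n + 1), C (uO j) * X 0 ^ (j : ℕ) * X 1 ^ (n - (j : ℕ)) :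
      MvPolynomial (Fin 2) O) = C (∑ j : Fin (n + 1), a ^ (j : ℕ) * uO j) *
        ∏ k, (C (zO k) * X 0 - C (a * zO k - 1) * X 1) := by
    refine map_injective (algebraMap O L) hinj (MvPolynomial.funext fun v => ?_)
    simp only [map_sum, map_mul, map_pow, map_C, map_X, map_prod, map_sub, eval_C, eval_X,
      map_one]
    have h3 := hr (v 0) (v 1)
    rw [h3]
    have h4 : ∏ k, (algebraMap O L (zO k) * v 0 -
        (algebraMap O L a * algebraMap O L (zO k) - 1) * v 1) =
        (∏ k, algebraMap O L (zO k)) * ∏ k, (v 0 - r k * v 1) := by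
      rw [← Finset.prod_mul_distrib]
      refine Finset.prod_congr rfl fun k _ => ?_
      linear_combination -v 1 * hz k
    have h5 : (∏ k, (algebraMap O L a - r k)) * ∏ k, algebraMap O L (zO k) = 1 := by
      rw [← Finset.prod_mul_distrib]
      refine Finset.prod_eq_one fun k _ => ?_
      rw [mul_comm]
      exact hz k
    rw [h4]
    have h6 := h1
    simp only [map_sum, map_mul, map_pow] at h6
    rw [h6]
    linear_combination (-(algebraMap O L (uO (Fin.last n)) * ∏ k, (v 0 - r k * v 1))) * h5
  have h3 := congrArg (eval₂ ψ ![T, S]) h2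
  simpa only [eval₂_sum, eval₂_mul, eval₂_pow, eval₂_C, eval₂_X, eval₂_prod, eval₂_sub,
    Matrix.cons_val_zero, Matrix.cons_val_one] using h3

/-- Transport of the roots of the form. -/
lemma blockA_root {K₀ L O Ω ι' : Type} [Field K₀] [Field L] [Algebra K₀ L] [CommRing O]
    [Algebra O L] [Field Ω] [Algebra K₀ Ω] [Fintype ι'] {n : ℕ}
    (hinj : Function.Injective (algebraMap O L)) (ι : K₀ →+* O)
    (hι : (algebraMap O L).comp ι = algebraMap K₀ L) (ψ : O →+* Ω)
    (hψ : ψ.comp ι = algebraMap K₀ Ω) (uO : Fin (n + 1) → O) (bO : ι' → O)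
    (G : MvPolynomial (Option (Fin (n + 1))) K₀)
    (hG : aeval (fun o : Option (Fin (n + 1)) => o.elim (Polynomial.X : Polynomial L)
        fun j => Polynomial.C (algebraMap O L (uO j))) G =
      ∏ i, (Polynomial.X - Polynomial.C (algebraMap O L (bO i)))) (w : Ω)
    (hw : aeval (fun o : Option (Fin (n + 1)) => o.elim w fun j => ψ (uO j)) G = 0) :
    ∃ i, w = ψ (bO i) := by
  have h1 : eval₂ ((Polynomial.C : O →+* Polynomial O).comp ι)
      (fun o : Option (Fin (n + 1)) => o.elim (Polynomial.X : Polynomial O)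
        fun j => Polynomial.C (uO j)) G = ∏ i, (Polynomial.X - Polynomial.C (bO i)) := by
    refine Polynomial.map_injective (algebraMap O L) hinj ?_
    rw [Polynomial.map_prod]
    simp only [Polynomial.map_sub, Polynomial.map_X, Polynomial.map_C]
    rw [← hG]
    have h2 := eval₂_comp_left (Polynomial.mapRingHom (algebraMap O L))
      ((Polynomial.C : O →+* Polynomial O).comp ι)
      (fun o : Option (Fin (n + 1)) => o.elim (Polynomial.X : Polynomial O)
        fun j => Polynomial.C (uO j)) G
    rw [Polynomial.coe_mapRingHom] at h2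
    rw [h2, aeval_def]
    congr 1
    · ext x
      simp [← hι]
    · funext o
      cases o <;> simp
  have h3 := congrArg (Polynomial.eval₂ ψ w) h1
  rw [Polynomial.eval₂_finsetProd] at h3
  simp only [Polynomial.eval₂_sub, Polynomial.eval₂_X, Polynomial.eval₂_C] at h3
  have h4 := eval₂_comp_left (Polynomial.eval₂RingHom ψ w)
    ((Polynomial.C : O →+* Polynomial O).comp ι)
    (fun o : Option (Fin (n + 1)) => o.elim (Polynomial.X : Polynomial O)
      fun j => Polynomial.C (uO j)) G
  rw [Polynomial.coe_eval₂RingHom, h3] at h4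
  have h5 : eval₂ ((Polynomial.eval₂RingHom ψ w).comp ((Polynomial.C : O →+* Polynomial O).comp ι))
      ((Polynomial.eval₂ ψ w) ∘ fun o : Option (Fin (n + 1)) =>
        o.elim (Polynomial.X : Polynomial O) fun j => Polynomial.C (uO j)) G =
      aeval (fun o : Option (Fin (n + 1)) => o.elim w fun j => ψ (uO j)) G := by
    rw [aeval_def]
    congr 1
    · rw [← hψ]
      ext x
      simp
    · funext o
      cases o <;> simp
  rw [h5, hw] at h4
  obtain ⟨i, _, hi⟩ := Finset.prod_eq_zero_iff.1 h4
  exact ⟨i, sub_eq_zero.1 hi⟩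

/-- A form that is monic in the first variable has no zeros with the other variables zero. -/
lemma blockA_monic {K₀ L Ω ι' : Type} [Field K₀] [Field L] [Algebra K₀ L] [Field Ω]
    [Algebra K₀ Ω] [Fintype ι'] {n : ℕ} (U : Fin (n + 1) → L) (b : ι' → L)
    (G : MvPolynomial (Option (Fin (n + 1))) K₀) (hhom : G.IsHomogeneous (Fintype.card ι'))
    (hG : aeval (fun o : Option (Fin (n + 1)) => o.elim (Polynomial.X : Polynomial L)
        fun j => Polynomial.C (U j)) G = ∏ i, (Polynomial.X - Polynomial.C (b i))) (w : Ω)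
    (hw : aeval (fun o : Option (Fin (n + 1)) => o.elim w fun _ => 0) G = 0) : w = 0 := by
  classical
  set m := Fintype.card ι' with hm
  have hkey : ∀ d ∈ G.support, d none = m → d = Finsupp.single none m := by
    intro d hd hdn
    have h1 : d.degree = m := by
      by_contra hc
      exact (mem_support_iff.1 hd) (IsHomogeneous.coeff_eq_zero hhom hc)
    have h2 : d.degree = d none + ∑ j, d (some j) := by
      rw [Finsupp.degree_eq_sum, Fintype.sum_option]
    have h3 : ∀ j, d (some j) = 0 := by
      have h4 : ∑ j, d (some j) = 0 := by omega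
      intro j
      exact (Finset.sum_eq_zero_iff.1 h4) j (Finset.mem_univ j)
    ext o
    cases o with
    | none => simp [hdn]
    | some j => simp [h3 j]
  have hcoef : coeff (Finsupp.single none m) G = 1 := by
    have h1 := congrArg (fun p : Polynomial L => p.coeff m) hG
    have h2 : (∏ i, (Polynomial.X - Polynomial.C (b i))).coeff m = 1 := by
      have h3 : (∏ i, (Polynomial.X - Polynomial.C (b i))).Monic :=
        Polynomial.monic_prod_of_monic _ _ fun i _ => Polynomial.monic_X_sub_C _
      have h4 : (∏ i, (Polynomial.X - Polynomial.C (b i))).natDegree = m := by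
        rw [Polynomial.natDegree_finsetProd_X_sub_C_eq_card]
        simp [hm]
      rw [← h4]
      exact h3
    simp only [h2] at h1
    rw [aeval_def, eval₂_eq', Polynomial.finsetSum_coeff] at h1
    have h5 : ∀ d ∈ G.support, (algebraMap K₀ (Polynomial L) (coeff d G) *
        ∏ o : Option (Fin (n + 1)), (o.elim (Polynomial.X : Polynomial L)
          fun j => Polynomial.C (U j)) ^ d o).coeff m =
        if d = Finsupp.single none m then algebraMap K₀ L (coeff d G) else 0 := by
      intro d hd
      have h6 : algebraMap K₀ (Polynomial L) (coeff d G) =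
          Polynomial.C (algebraMap K₀ L (coeff d G)) := rfl
      have h7 : (∏ o : Option (Fin (n + 1)), (o.elim (Polynomial.X : Polynomial L)
          fun j => Polynomial.C (U j)) ^ d o) =
          Polynomial.C (∏ j, U j ^ d (some j)) * Polynomial.X ^ (d none) := by
        rw [Fintype.prod_option]
        simp only [Option.elim_none, Option.elim_some, map_prod, map_pow]
        ring
      rw [h6, h7, Polynomial.coeff_C_mul, Polynomial.coeff_C_mul_X_pow]
      by_cases hd1 : d = Finsupp.single none m
      · rw [if_pos hd1, if_pos (by rw [hd1]; simp)]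
        have : ∏ j, U j ^ d (some j) = 1 := by
          refine Finset.prod_eq_one fun j _ => ?_
          rw [hd1]
          simp
        rw [this, mul_one]
      · rw [if_neg hd1, if_neg, mul_zero]
        intro h8
        exact hd1 (hkey d hd h8.symm)
    rw [Finset.sum_congr rfl h5, Finset.sum_ite_eq'] at h1
    by_cases hs : Finsupp.single none m ∈ G.support
    · rw [if_pos hs] at h1
      exact (algebraMap K₀ L).injective (by rw [h1, map_one])
    · rw [if_neg hs] at h1
      exact absurd h1 (by simp)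
  rw [aeval_def, eval₂_eq'] at hw
  rw [Finset.sum_eq_single (Finsupp.single none m)] at hw
  · rw [hcoef, map_one, one_mul, Fintype.prod_option] at hw
    simp only [Option.elim_none, Finsupp.single_eq_same, Option.elim_some] at hw
    have h1 : ∏ j : Fin (n + 1), (0 : Ω) ^ ((Finsupp.single (none : Option (Fin (n + 1))) m)
        (some j)) = 1 := by
      refine Finset.prod_eq_one fun j _ => ?_
      simp
    rw [h1, mul_one] at hw
    by_contra h0
    exact pow_ne_zero _ h0 hw
  · intro d hd hd1
    have h1 : d none ≠ m := fun h => hd1 (hkey d hd h)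
    have h2 : ∃ j, d (some j) ≠ 0 := by
      by_contra hc
      push Not at hc
      apply h1
      have h3 : d.degree = m := by
        by_contra hc'
        exact (mem_support_iff.1 hd) (IsHomogeneous.coeff_eq_zero hhom hc')
      rw [Finsupp.degree_eq_sum, Fintype.sum_option] at h3
      simpa [hc] using h3
    obtain ⟨j, hj⟩ := h2
    rw [Fintype.prod_option]
    have h3 : ∏ i : Fin (n + 1), ((some i : Option (Fin (n + 1))).elim w fun _ => (0 : Ω)) ^
        d (some i) = 0 :=
      Finset.prod_eq_zero (Finset.mem_univ j) (by simp [hj])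
    rw [h3, mul_zero, mul_zero]
  · intro hs
    exact absurd (notMem_support_iff.1 hs) (by rw [hcoef]; exact one_ne_zero)

lemma blockA_coe_int {R' L : Type*} [CommRing R'] [Field L] [Algebra R' L]
    (y : integralClosure R' L) : IsIntegral R' (algebraMap (integralClosure R' L) L y) := y.2


/-- The form of type A: its zeros `(u, w)` come from `w = Λ * Wsum c (lifts)` where `u` is `Λ`
times the vector of coefficients of `Π (z_i T - x_i S)` and the lifts are over `(x_i, lam z_i)`. -/
theorem blockA (K₀ : Type) [Field K₀] [IsAlgClosed K₀] [CharZero K₀] {n N : ℕ} (hn : 0 < n)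
    (hN : 2 ≤ N) (hnN : n < N) (D : Fin n → EDatum N n K₀) (lam : K₀) (hlam : lam ≠ 0)
    (c : Fin n × (Fin n → Fin 2) → K₀) :
    ∃ G : MvPolynomial (Option (Fin (n + 1))) K₀,
      G.IsHomogeneous (Nat.factorial n * 2 ^ n * N) ∧
      (∀ (Ω : Type) [Field Ω] [Algebra K₀ Ω] (w : Ω),
        aeval (fun o : Option (Fin (n + 1)) => o.elim w fun _ => 0) G = 0 → w = 0) ∧
      ∀ (Ω : Type) [Field Ω] [IsAlgClosed Ω] [Algebra K₀ Ω] (u : Fin (n + 1) → Ω) (w : Ω),
        u ≠ 0 → aeval (fun o : Option (Fin (n + 1)) => o.elim w u) G = 0 →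
        ∃ (Λ : Ω) (x z : Fin n → Ω) (q : Fin n → LiftPt n Ω), Λ ≠ 0 ∧
          (∀ i, x i ≠ 0 ∨ z i ≠ 0) ∧
          (∀ T S : Ω, ∑ j : Fin (n + 1), u j * T ^ (j : ℕ) * S ^ (n - j) =
            Λ * ∏ i, (z i * T - x i * S)) ∧
          (∀ i, IsLift ((D i).map (algebraMap K₀ Ω)) (x i) (algebraMap K₀ Ω lam * z i) (q i)) ∧
          w = Λ * Wsum (fun e => algebraMap K₀ Ω (c e)) q := by
  classical
  have : NeZero N := ⟨by omega⟩
  let R := MvPolynomial (Fin (n + 1)) K₀
  let L := AlgebraicClosure (FractionRing R)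
  have hRL : Function.Injective (algebraMap R L) := by
    have h1 : algebraMap R L = (algebraMap (FractionRing R) L).comp
        (algebraMap R (FractionRing R)) := IsScalarTower.algebraMap_eq R (FractionRing R) L
    rw [h1, RingHom.coe_comp]
    exact (algebraMap (FractionRing R) L).injective.comp (IsFractionRing.injective R _)
  have hfaith : FaithfulSMul R L := (faithfulSMul_iff_algebraMap_injective R L).2 hRL
  have hchar : CharZero L := charZero_of_injective_algebraMap (algebraMap K₀ L).injective
  have halg : Algebra.IsAlgebraic R L :=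
    (IsFractionRing.comap_isAlgebraic_iff (A := R) (K := FractionRing R) (C := L)).2
      (AlgebraicClosure.isAlgebraic _)
  let U : Fin (n + 1) → L := fun j => algebraMap R L (X j)
  have hU : U (Fin.last n) ≠ 0 := by
    intro h
    exact MvPolynomial.X_ne_zero (R := K₀) (Fin.last n) (hRL (by rw [map_zero]; exact h))
  obtain ⟨r, hr⟩ := blockA_roots U hU
  have hKL : ∀ x : K₀, algebraMap R L (C x) = algebraMap K₀ L x := fun x => by
    rw [IsScalarTower.algebraMap_apply K₀ R L]
    rfl
  choose Y hY using fun (i k : Fin n) => IsAlgClosed.exists_pow_nat_eq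
    (ev (r k) (algebraMap K₀ L lam) ((D i).map (algebraMap K₀ L)).F) (n := 2) (by norm_num)
  have hqex : ∀ (i k : Fin n) (ε : ℤˣ), ∃ q : LiftPt n L,
      IsLift ((D i).map (algebraMap K₀ L)) (r k) (algebraMap K₀ L lam) q ∧
        q.Y = ((ε : ℤ) : L) * Y i k := by
    intro i k ε
    refine exists_lift hN hnN _ (Or.inr ((map_ne_zero _).2 hlam)) ?_
    rw [mul_pow, hY]
    have h1 : (((ε : ℤ) : L)) ^ 2 = 1 := by
      rcases Int.units_eq_one_or ε with h | h <;> simp [h]
    rw [h1, one_mul]
  choose q hq hqY using hqex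
  let ι' := Equiv.Perm (Fin n) × (Fin n → ℤˣ) × rootsOfUnity N K₀
  have : Finite (rootsOfUnity N K₀) := inferInstance
  let _ : Fintype (rootsOfUnity N K₀) := Fintype.ofFinite _
  let b : ι' → L := blockAb c (U (Fin.last n)) q
  have hcard : Fintype.card ι' = Nat.factorial n * 2 ^ n * N := by
    have h1 : Fintype.card (rootsOfUnity N K₀) = N := by
      rw [← Nat.card_eq_fintype_card]
      exact (blockA_mu (K₀ := K₀) (L := L) hN).1
    simp only [ι', Fintype.card_prod, Fintype.card_perm, Fintype.card_fin, Fintype.card_pi,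
      Fintype.card_units_int, Finset.prod_const, Finset.card_univ, h1]
    ring
  -- the integrality package
  have hpack : ∀ (a : K₀) (R' : Type) [CommRing R'] [Algebra R R'] [Algebra R' L]
      [IsScalarTower R R' L], IsUnit (algebraMap R R' (ell n a)) →
      ∃ (zO : Fin n → integralClosure R' L) (qO : Fin n → Fin n → ℤˣ →
        LiftPt n (integralClosure R' L)),
        (∀ k, algebraMap (integralClosure R' L) L (zO k) * (algebraMap K₀ L a - r k) = 1) ∧
        (∀ i k ε, (qO i k ε).map (algebraMap (integralClosure R' L) L) =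
          (q i k ε).scale (algebraMap (integralClosure R' L) L (zO k))) ∧
        (∀ i k ε, IsLift ((D i).map (((algebraMap R' (integralClosure R' L)).comp
          (algebraMap R R')).comp C)) (((algebraMap R' (integralClosure R' L)).comp
          (algebraMap R R')).comp C a * zO k - 1) (((algebraMap R' (integralClosure R' L)).comp
          (algebraMap R R')).comp C lam * zO k) (qO i k ε)) ∧
        (∀ p : ι', algebraMap (integralClosure R' L) L ((∑ j : Fin (n + 1),
          ((algebraMap R' (integralClosure R' L)).comp (algebraMap R R')).comp C a ^ (j : ℕ) *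
            algebraMap R' (integralClosure R' L) (algebraMap R R' (X j))) *
          blockAW (fun e => ((algebraMap R' (integralClosure R' L)).comp
            (algebraMap R R')).comp C (c e)) (((algebraMap R' (integralClosure R' L)).comp
            (algebraMap R R')).comp C ((p.2.2 : K₀ˣ) : K₀))
            fun i => (qO i (p.1 i) (p.2.1 i)).s) = b p) := by
    intro a R' _ _ _ _ hunit
    have hLR : ∀ x : R, algebraMap R' L (algebraMap R R' x) = algebraMap R L x := fun x =>
      (IsScalarTower.algebraMap_apply R R' L x).symm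
    have h1 : algebraMap R R' (ell n a) = ∑ j : Fin (n + 1),
        (algebraMap R R' (C a)) ^ (j : ℕ) * algebraMap R R' (X j) := by
      rw [ell, map_sum]
      refine Finset.sum_congr rfl fun j _ => ?_
      rw [map_mul, C_pow, map_pow]
    rw [h1] at hunit
    have h2 := blockA_z_integral (L := L) (fun j => algebraMap R R' (X j))
      (algebraMap R R' (C a)) hunit r (by simpa only [hLR] using hr)
    simp only [hLR, hKL] at h2
    choose h3 h4 using h2
    let zO : Fin n → integralClosure R' L := fun k => ⟨_, h4 k⟩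
    have hz : ∀ k, algebraMap (integralClosure R' L) L (zO k) * (algebraMap K₀ L a - r k) = 1 :=
      fun k => inv_mul_cancel₀ (h3 k)
    have h5 : ∀ i k ε, ∃ q' : LiftPt n (integralClosure R' L),
        IsLift ((D i).map (((algebraMap R' (integralClosure R' L)).comp
          (algebraMap R R')).comp C)) (((algebraMap R' (integralClosure R' L)).comp
          (algebraMap R R')).comp C a * zO k - 1) (((algebraMap R' (integralClosure R' L)).comp
          (algebraMap R R')).comp C lam * zO k) q' ∧
        q'.map (algebraMap (integralClosure R' L) L) =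
          (q i k ε).scale (algebraMap (integralClosure R' L) L (zO k)) := by
      intro i k ε
      refine blockA_lift_int Subtype.val_injective blockA_hcl _ ?_ hN hnN (D i) lam a hlam (r k)
        (zO k) (hz k) (q i k ε) (hq i k ε)
      ext x
      change algebraMap R' L (algebraMap R R' (C x)) = _
      rw [hLR, hKL]
    choose qO h6 h7 using h5
    refine ⟨zO, qO, hz, h7, h6, fun p => ?_⟩
    have hUj : ∀ j : Fin (n + 1), algebraMap (integralClosure R' L) L
        (algebraMap R' (integralClosure R' L) (algebraMap R R' (X j))) = U j := by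
      intro j
      change algebraMap R' L (algebraMap R R' (X j)) = _
      rw [hLR]
    have h8 := blockA_bO (O := integralClosure R' L)
      (((algebraMap R' (integralClosure R' L)).comp (algebraMap R R')).comp C)
      (by
        ext x
        change algebraMap R' L (algebraMap R R' (C x)) = _
        rw [hLR, hKL]) c
      (fun j => algebraMap R' (integralClosure R' L) (algebraMap R R' (X j))) a r
      (by simp only [hUj]; exact hr) zO hz q qO h7 p
    simp only [hUj] at h8
    exact h8
  have hell : ∀ a : K₀, ell n a ≠ (0 : R) := by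
    intro a h
    have h1 := congrArg (eval fun j : Fin (n + 1) => if j = 0 then (1 : K₀) else 0) h
    rw [ell, map_sum, map_zero] at h1
    simp at h1
  obtain ⟨G, hGhom, hG⟩ := exists_form (K₀ := K₀) (L := L) hn b
    (fun Φ μ hΦ => blockA_gal hN hnN D lam hlam c U hU r hr Y hY q hq hqY Φ μ hΦ)
    (by
      intro a p
      let R' := Localization.Away (ell n a : R)
      let _ : Algebra R' L := (IsLocalization.Away.lift (S := R') (ell n a : R)
        (g := algebraMap R L) (IsUnit.mk0 _ (fun h => hell a (hRL (by rw [h, map_zero]))))).toAlgebra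
      have : IsScalarTower R R' L := IsScalarTower.of_algebraMap_eq' (by
        rw [RingHom.algebraMap_toAlgebra]
        exact (IsLocalization.Away.lift_comp (S := R') (ell n a : R) _).symm)
      obtain ⟨zO, qO, -, -, -, hb⟩ := hpack a R' (IsLocalization.Away.algebraMap_isUnit _)
      have h2 : IsIntegral R' (b p) := by
        rw [← hb p]
        exact blockA_coe_int _
      obtain ⟨⟨_, m, rfl⟩, hm⟩ := h2.exists_multiple_integral_of_isLocalization
        (Submonoid.powers (ell n a : R))
      refine ⟨m, ?_⟩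
      rw [Submonoid.smul_def, Algebra.smul_def, map_pow] at hm
      exact hm)
  rw [hcard] at hGhom
  refine ⟨G, hGhom, fun Ω _ _ w hw => blockA_monic U b G (by rw [hcard]; exact hGhom) hG w hw, ?_⟩
  intro Ω _ _ _ u w hu hw
  -- a point where the linear form does not vanish
  obtain ⟨a, ha⟩ : ∃ a : K₀, ∑ j : Fin (n + 1), (algebraMap K₀ Ω a) ^ (j : ℕ) * u j ≠ 0 := by
    by_contra hc
    push Not at hc
    apply hu
    set f : Polynomial Ω := ∑ j : Fin (n + 1), Polynomial.C (u j) * Polynomial.X ^ (j : ℕ) with hf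
    have hf0 : f = 0 := by
      refine Polynomial.eq_zero_of_infinite_isRoot f ?_
      refine Set.Infinite.mono ?_ (Set.infinite_range_of_injective (algebraMap K₀ Ω).injective)
      rintro _ ⟨a, rfl⟩
      change f.eval _ = 0
      rw [hf, Polynomial.eval_finsetSum, ← hc a]
      refine Finset.sum_congr rfl fun j _ => ?_
      simp only [Polynomial.eval_mul, Polynomial.eval_C, Polynomial.eval_pow, Polynomial.eval_X]
      ring
    funext j
    have h1 := congrArg (fun p : Polynomial Ω => p.coeff (j : ℕ)) hf0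
    simp only [hf, Polynomial.finsetSum_coeff, Polynomial.coeff_C_mul, Polynomial.coeff_X_pow,
      Polynomial.coeff_zero] at h1
    rw [Finset.sum_eq_single j] at h1
    · simpa using h1
    · intro i _ hij
      rw [if_neg (fun h => hij (Fin.ext h.symm)), mul_zero]
    · simp
  let R' := Localization.Away (ell n a : R)
  let _ : Algebra R' L := (IsLocalization.Away.lift (S := R') (ell n a : R)
    (g := algebraMap R L) (IsUnit.mk0 _ (fun h => hell a (hRL (by rw [h, map_zero]))))).toAlgebra
  have : IsScalarTower R R' L := IsScalarTower.of_algebraMap_eq' (by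
    rw [RingHom.algebraMap_toAlgebra]
    exact (IsLocalization.Away.lift_comp (S := R') (ell n a : R) _).symm)
  have hR'L : Function.Injective (algebraMap R' L) := by
    rw [injective_iff_map_eq_zero]
    intro y hy
    obtain ⟨⟨y₁, s⟩, hs⟩ := IsLocalization.surj (Submonoid.powers (ell n a : R)) y
    simp only at hs
    have h1 := congrArg (algebraMap R' L) hs
    rw [map_mul, hy, zero_mul, ← IsScalarTower.algebraMap_apply R R' L] at h1
    have h2 : y₁ = 0 := hRL (by rw [map_zero]; exact h1.symm)
    rw [h2, map_zero] at hs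
    have h3 : IsUnit (algebraMap R R' (s : R)) := IsLocalization.map_units R' s
    exact (h3.mul_left_eq_zero).1 hs
  obtain ⟨zO, qO, hz, hqO, hlift, hb⟩ := hpack a R' (IsLocalization.Away.algebraMap_isUnit _)
  have hφu : IsUnit ((aeval u : R →ₐ[K₀] Ω).toRingHom (ell n a)) := by
    refine IsUnit.mk0 _ ?_
    have : (aeval u : R →ₐ[K₀] Ω).toRingHom (ell n a) =
        ∑ j : Fin (n + 1), (algebraMap K₀ Ω a) ^ (j : ℕ) * u j := by
      change aeval u (ell n a) = _
      rw [ell, map_sum]
      refine Finset.sum_congr rfl fun j _ => ?_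
      rw [map_mul, aeval_C, aeval_X, map_pow]
    rw [this]
    exact ha
  let φ : R' →+* Ω := IsLocalization.Away.lift (S := R') (ell n a : R)
    (g := (aeval u : R →ₐ[K₀] Ω).toRingHom) hφu
  have hφ : ∀ y : R, φ (algebraMap R R' y) = aeval u y := fun y =>
    RingHom.congr_fun (IsLocalization.Away.lift_comp (S := R') (ell n a : R) hφu) y
  obtain ⟨ψ, hψ⟩ := exists_extend (R := R') (S := integralClosure R' L)
    (fun x y h => hR'L (congrArg Subtype.val h)) φ
  have hψ' : ∀ y : R, ψ (algebraMap R' (integralClosure R' L) (algebraMap R R' y)) = aeval u y := by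
    intro y
    rw [← hφ, ← hψ]
    rfl
  have hψC : ∀ y : K₀, ψ (((algebraMap R' (integralClosure R' L)).comp
      (algebraMap R R')).comp C y) = algebraMap K₀ Ω y := by
    intro y
    change ψ (algebraMap R' (integralClosure R' L) (algebraMap R R' (C y))) = _
    rw [hψ', aeval_C]
  have hψX : ∀ j, ψ (algebraMap R' (integralClosure R' L) (algebraMap R R' (X j))) = u j := by
    intro j
    rw [hψ', aeval_X]
  have hUj : ∀ j : Fin (n + 1), algebraMap (integralClosure R' L) L
      (algebraMap R' (integralClosure R' L) (algebraMap R R' (X j))) = U j := by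
    intro j
    change algebraMap R' L (algebraMap R R' (X j)) = _
    rw [← IsScalarTower.algebraMap_apply R R' L]
  obtain ⟨p, hp⟩ := blockA_root (L := L) (O := integralClosure R' L) Subtype.val_injective
    (((algebraMap R' (integralClosure R' L)).comp (algebraMap R R')).comp C)
    (by
      ext x
      change algebraMap R' L (algebraMap R R' (C x)) = _
      rw [← IsScalarTower.algebraMap_apply R R' L, hKL]) ψ (RingHom.ext hψC)
    (fun j => algebraMap R' (integralClosure R' L) (algebraMap R R' (X j)))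
    (fun p : ι' => _) G (by
      rw [show (∏ i : ι', (Polynomial.X - Polynomial.C (b i))) =
        ∏ i : ι', (Polynomial.X - Polynomial.C (algebraMap (integralClosure R' L) L _)) from
        Finset.prod_congr rfl fun p _ => by rw [← hb p]] at hG
      simp only [hUj]
      exact hG) w (by simp only [hψX]; exact hw)
  let ω : Ω := algebraMap K₀ Ω ((p.2.2 : K₀ˣ) : K₀)
  let ω' : Ω := algebraMap K₀ Ω (((p.2.2 : K₀ˣ)⁻¹ : K₀ˣ) : K₀)
  have hωω : ω * ω' = 1 := by
    rw [← map_mul, Units.mul_inv, map_one]
  have hωN : ω ^ N = 1 := by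
    have h1 : ((p.2.2 : K₀ˣ) : K₀) ^ N = 1 := (mem_rootsOfUnity' N _).1 p.2.2.2
    rw [← map_pow, h1, map_one]
  have hΛ : ψ (∑ j : Fin (n + 1), ((algebraMap R' (integralClosure R' L)).comp
      (algebraMap R R')).comp C a ^ (j : ℕ) *
        algebraMap R' (integralClosure R' L) (algebraMap R R' (X j))) =
      ∑ j : Fin (n + 1), (algebraMap K₀ Ω a) ^ (j : ℕ) * u j := by
    rw [map_sum]
    refine Finset.sum_congr rfl fun j _ => ?_
    rw [map_mul, map_pow, hψC, hψX]
  have hlift' : ∀ i, IsLift ((D i).map (algebraMap K₀ Ω)) (algebraMap K₀ Ω a * ψ (zO (p.1 i)) - 1)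
      (algebraMap K₀ Ω lam * ψ (zO (p.1 i))) ((qO i (p.1 i) (p.2.1 i)).map ψ) := by
    intro i
    have h1 := (hlift i (p.1 i) (p.2.1 i)).map ψ
    rw [blockA_map_map, show ψ.comp (((algebraMap R' (integralClosure R' L)).comp
      (algebraMap R R')).comp C) = algebraMap K₀ Ω from RingHom.ext hψC, map_sub, map_mul,
      map_mul, map_one, hψC, hψC] at h1
    exact h1
  refine ⟨∑ j : Fin (n + 1), (algebraMap K₀ Ω a) ^ (j : ℕ) * u j,
    fun i => algebraMap K₀ Ω a * ψ (zO (p.1 i)) - 1, fun i => ψ (zO (p.1 i)),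
    fun i => if i = ⟨0, hn⟩ then blockATw ω ω' ((qO i (p.1 i) (p.2.1 i)).map ψ)
      else (qO i (p.1 i) (p.2.1 i)).map ψ, ha, fun i => ?_, fun T S => ?_, fun i => ?_, ?_⟩
  · by_contra hc
    push Not at hc
    have h1 := hc.1
    rw [hc.2] at h1
    simp at h1
  · have h1 := blockA_fact (L := L) (O := integralClosure R' L) Subtype.val_injective ψ
      (fun j => algebraMap R' (integralClosure R' L) (algebraMap R R' (X j)))
      (((algebraMap R' (integralClosure R' L)).comp (algebraMap R R')).comp C a) r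
      (by simp only [hUj]; exact hr) zO
      (by
        intro k
        rw [show algebraMap (integralClosure R' L) L (((algebraMap R' (integralClosure R' L)).comp
          (algebraMap R R')).comp C a) = algebraMap K₀ L a from by
          change algebraMap R' L (algebraMap R R' (C a)) = _
          rw [← IsScalarTower.algebraMap_apply R R' L, hKL]]
        exact hz k) T S
    simp only [hψX] at h1
    rw [h1, hΛ]
    congr 1
    rw [← Equiv.prod_comp p.1]
    refine Finset.prod_congr rfl fun k _ => ?_
    rw [map_sub, map_mul, map_one, hψC]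
  · by_cases hi : i = ⟨0, hn⟩
    · simp only [if_pos hi]
      exact blockA_isLift_tw hnN (hlift' i) hωN hωω
    · simp only [if_neg hi]
      exact hlift' i
  · rw [blockA_Wsum_tw, hp, map_mul, hΛ, blockAW_map]
    simp only [hψC]
    rfl


end Pool.Agent.MultiSpec
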