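import Pool.Agent.MultiSpec.Datum
import Pool.Agent.MultiSpec.NormForm

/-! The form of type K. -/

set_option autoImplicit false
set_option linter.unusedSectionVars false
set_option linter.style.haveILetI false

namespace Pool.Agent.MultiSpec

open MvPolynomial

namespace BlockKAux

section cf
variable {A B : Type*} [CommRing A] [CommRing B]

/-- coefficients of `∏ (t_i X - s_i)` -/
noncomputable def cf {n : ℕ} (t s : Fin n → A) (j : ℕ) : A :=
  (∏ i, (Polynomial.C (t i) * Polynomial.X - Polynomial.C (s i))).coeff j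

lemma cf_map {n : ℕ} (φ : A →+* B) (t s : Fin n → A) (j : ℕ) :
    φ (cf t s j) = cf (fun i => φ (t i)) (fun i => φ (s i)) j := by
  simp [cf, ← Polynomial.coeff_map, Polynomial.map_prod]

lemma natDegree_prod_le {n : ℕ} (t s : Fin n → A) :
    (∏ i, (Polynomial.C (t i) * Polynomial.X - Polynomial.C (s i))).natDegree ≤ n := by
  refine (Polynomial.natDegree_prod_le _ _).trans ?_
  refine (Finset.sum_le_card_nsmul _ _ 1 fun i _ => ?_).trans (by simp)
  refine (Polynomial.natDegree_sub_le _ _).trans ?_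
  simp only [Polynomial.natDegree_C, max_le_iff, zero_le, and_true]
  exact (Polynomial.natDegree_C_mul_le _ _).trans Polynomial.natDegree_X_le

lemma cf_eq_zero {n : ℕ} (t s : Fin n → A) (j : ℕ) (hj : n < j) : cf t s j = 0 :=
  Polynomial.coeff_eq_zero_of_natDegree_lt ((natDegree_prod_le t s).trans_lt hj)

lemma cf_succ_zero {n : ℕ} (t s : Fin (n + 1) → A) :
    cf t s 0 = -(s 0 * cf (fun i => t i.succ) (fun i => s i.succ) 0) := by
  unfold cf
  rw [Fin.prod_univ_succ, sub_mul, Polynomial.coeff_sub, mul_assoc, Polynomial.coeff_C_mul,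
    Polynomial.coeff_C_mul, Polynomial.coeff_X_mul_zero]
  ring

lemma cf_succ_succ {n : ℕ} (t s : Fin (n + 1) → A) (j : ℕ) :
    cf t s (j + 1) = t 0 * cf (fun i => t i.succ) (fun i => s i.succ) j -
      s 0 * cf (fun i => t i.succ) (fun i => s i.succ) (j + 1) := by
  unfold cf
  rw [Fin.prod_univ_succ, sub_mul, Polynomial.coeff_sub, mul_assoc, Polynomial.coeff_C_mul,
    Polynomial.coeff_C_mul, Polynomial.coeff_X_mul]

lemma cf_sum_range {n : ℕ} (t s : Fin n → A) (T S : A) :
    ∑ j ∈ Finset.range (n + 1), cf t s j * T ^ j * S ^ (n - j) = ∏ i, (t i * T - s i * S) := by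
  induction n with
  | zero => simp [cf]
  | succ n ih =>
    have h := ih (fun i => t i.succ) (fun i => s i.succ)
    rw [Fin.prod_univ_succ, ← h, Finset.sum_range_succ']
    simp only [cf_succ_succ, cf_succ_zero]
    set g := cf (fun i => t i.succ) (fun i => s i.succ) with hg
    have hg0 : g (n + 1) = 0 := cf_eq_zero _ _ _ (Nat.lt_succ_self n)
    have e1 : ∑ k ∈ Finset.range (n + 1), (t 0 * g k - s 0 * g (k + 1)) * T ^ (k + 1) *
        S ^ (n + 1 - (k + 1)) = t 0 * T * ∑ k ∈ Finset.range (n + 1), g k * T ^ k * S ^ (n - k) -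
        s 0 * ∑ k ∈ Finset.range (n + 1), g (k + 1) * T ^ (k + 1) * S ^ (n - k) := by
      rw [Finset.mul_sum, Finset.mul_sum, ← Finset.sum_sub_distrib]
      refine Finset.sum_congr rfl fun k _ => ?_
      rw [Nat.add_sub_add_right]; ring
    have e2 : ∑ k ∈ Finset.range (n + 1), g (k + 1) * T ^ (k + 1) * S ^ (n - k) + g 0 * S ^ (n + 1)
        = S * ∑ k ∈ Finset.range (n + 1), g k * T ^ k * S ^ (n - k) := by
      rw [Finset.sum_range_succ, hg0, zero_mul, zero_mul, add_zero, Finset.sum_range_succ',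
        mul_add, Finset.mul_sum]
      congr 1
      · refine Finset.sum_congr rfl fun k hk => ?_
        have hk' := Finset.mem_range.1 hk
        have : n - k = (n - (k + 1)) + 1 := by omega
        rw [this, pow_succ]; ring
      · simp only [Nat.sub_zero, pow_zero, pow_succ]; ring
    rw [e1]
    simp only [Nat.sub_zero, pow_zero]
    linear_combination -s 0 * e2

lemma cf_sum {n : ℕ} (t s : Fin n → A) (T S : A) :
    ∑ j : Fin (n + 1), cf t s j * T ^ (j : ℕ) * S ^ (n - j) = ∏ i, (t i * T - s i * S) := by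
  rw [← cf_sum_range t s T S, Finset.sum_range]

end cf

section fc
variable {K₀ : Type*} [Field K₀] {n N : ℕ}

theorem finite_idx : Finite {e : Fin (n + 1) →₀ ℕ // e.degree = N} :=
  ((Finsupp.finite_of_degree_le (σ := Fin (n + 1)) N).subset (fun _ h => le_of_eq h)).to_subtype

attribute [local instance] finite_idx

/-- value of the form with coefficients `c` -/
noncomputable def fc (c : {e : Fin (n + 1) →₀ ℕ // e.degree = N} → K₀) {A : Type*} [CommRing A]
    [Algebra K₀ A] (v : Fin (n + 1) → A) : A :=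
  ∑ᶠ e : {e : Fin (n + 1) →₀ ℕ // e.degree = N}, algebraMap K₀ A (c e) * ∏ j, v j ^ e.1 j

lemma fc_map (c : {e : Fin (n + 1) →₀ ℕ // e.degree = N} → K₀) {A B : Type*} [CommRing A]
    [CommRing B] [Algebra K₀ A] [Algebra K₀ B] (φ : A →+* B)
    (hφ : ∀ x, φ (algebraMap K₀ A x) = algebraMap K₀ B x) (v : Fin (n + 1) → A) :
    φ (fc c v) = fc c (fun j => φ (v j)) := by
  cases nonempty_fintype {e : Fin (n + 1) →₀ ℕ // e.degree = N}
  unfold fc
  rw [finsum_eq_sum_of_fintype, finsum_eq_sum_of_fintype, map_sum]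
  refine Finset.sum_congr rfl fun e _ => ?_
  rw [map_mul, hφ, map_prod]
  simp only [map_pow]

lemma fc_smul (c : {e : Fin (n + 1) →₀ ℕ // e.degree = N} → K₀) {A : Type*} [CommRing A]
    [Algebra K₀ A] (x : A) (v : Fin (n + 1) → A) : fc c (fun j => x * v j) = x ^ N * fc c v := by
  cases nonempty_fintype {e : Fin (n + 1) →₀ ℕ // e.degree = N}
  unfold fc
  rw [finsum_eq_sum_of_fintype, finsum_eq_sum_of_fintype, Finset.mul_sum]
  refine Finset.sum_congr rfl fun e _ => ?_
  have h1 : ∑ j, e.1 j = N := by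
    have h2 := e.2
    rwa [Finsupp.degree_eq_sum] at h2
  simp_rw [mul_pow, Finset.prod_mul_distrib, Finset.prod_pow_eq_pow_sum, h1]
  ring

end fc

section roots
variable {L : Type*} [Field L]

lemma exists_perm {n : ℕ} (f g : Fin n → L)
    (h : ∏ i, (Polynomial.X - Polynomial.C (f i)) = ∏ i, (Polynomial.X - Polynomial.C (g i))) :
    ∃ σ : Equiv.Perm (Fin n), ∀ i, g (σ i) = f i := by
  classical
  have hr : ∀ f : Fin n → L, (∏ i, (Polynomial.X - Polynomial.C (f i))).roots =
      Finset.univ.val.map f := by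
    intro f
    have : ∏ i, (Polynomial.X - Polynomial.C (f i)) =
        ((Finset.univ.val.map f).map (fun a => Polynomial.X - Polynomial.C a)).prod := by
      rw [Multiset.map_map]; rfl
    rw [this, Polynomial.roots_multiset_prod_X_sub_C]
  have h1 : Finset.univ.val.map f = Finset.univ.val.map g := by rw [← hr, ← hr, h]
  have h2 : ∀ c : L, Nonempty ({a // f a = c} ≃ {b // g b = c}) := by
    intro c
    rw [← Fintype.card_eq]
    have h3 := congrArg (Multiset.count c) h1
    rw [Multiset.count_map, Multiset.count_map] at h3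
    rw [Fintype.card_subtype, Fintype.card_subtype]
    have h4 : ∀ f : Fin n → L, (Finset.univ.filter fun a => f a = c).card =
        Multiset.card (Multiset.filter (fun a => c = f a) Finset.univ.val) := by
      intro f
      rw [Finset.card_def, Finset.filter_val]
      congr 1
      exact Multiset.filter_congr fun a _ => eq_comm
    rw [h4, h4, h3]
  exact ⟨Equiv.ofFiberEquiv fun c => (h2 c).some,
    fun i => Equiv.ofFiberEquiv_map (fun c => (h2 c).some) i⟩

lemma exists_roots [IsAlgClosed L] {n : ℕ} (p : Polynomial L) (hp : p.natDegree = n) :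
    ∃ x : Fin n → L, p = Polynomial.C p.leadingCoeff *
      ∏ i, (Polynomial.X - Polynomial.C (x i)) := by
  classical
  have hs := IsAlgClosed.splits p
  obtain ⟨l, hl⟩ := Quot.exists_rep p.roots
  have hl : (l : Multiset L) = p.roots := hl
  have hc : l.length = n := by
    have := hs.natDegree_eq_card_roots
    rw [← hl, hp] at this
    simpa using this.symm
  subst hc
  refine ⟨l.get, ?_⟩
  conv_lhs => rw [hs.eq_prod_roots]
  congr 1
  rw [← hl, Multiset.map_coe, Multiset.prod_coe]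
  rw [← List.prod_ofFn]
  congr 1
  apply List.ext_getElem <;> simp

end roots

section scaling

lemma aeval_scale {K₀ A σ : Type*} [Field K₀] [CommRing A] [Algebra K₀ A] [Fintype σ]
    {G : MvPolynomial σ K₀} {D : ℕ} (hG : G.IsHomogeneous D) (r : A) (v : σ → A) :
    aeval (fun o => r * v o) G = r ^ D * aeval v G := by
  rw [aeval_def, aeval_def, eval₂_eq', eval₂_eq', Finset.mul_sum]
  refine Finset.sum_congr rfl fun m hm => ?_
  have h1 : m.degree = D := hG.degree_eq_sum_deg_support hm |>.symm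
  rw [Finsupp.degree_eq_sum] at h1
  simp_rw [mul_pow, Finset.prod_mul_distrib, Finset.prod_pow_eq_pow_sum, h1]
  ring

end scaling

section perm
variable {A : Type*} [CommRing A]

lemma cf_perm {n : ℕ} (σ : Equiv.Perm (Fin n)) (t s : Fin n → A) (j : ℕ) :
    cf (fun i => t (σ i)) (fun i => s (σ i)) j = cf t s j := by
  unfold cf
  rw [Equiv.prod_comp σ fun i => Polynomial.C (t i) * Polynomial.X - Polynomial.C (s i)]

lemma cf_mul {n : ℕ} (y t s : Fin n → A) (j : ℕ) :
    cf (fun i => y i * t i) (fun i => y i * s i) j = (∏ i, y i) * cf t s j := by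
  unfold cf
  rw [← Polynomial.coeff_C_mul, map_prod, ← Finset.prod_mul_distrib]
  congr 1
  refine Finset.prod_congr rfl fun i _ => ?_
  rw [map_mul, map_mul]; ring

end perm

/-- the ring of integral elements -/
noncomputable abbrev SK (K₀ L : Type) [Field K₀] [Field L] (n : ℕ)
    [Algebra (MvPolynomial (Fin (n + 1)) K₀) L] :
    Subalgebra (MvPolynomial (Fin (n + 1)) K₀) L :=
  integralClosure (MvPolynomial (Fin (n + 1)) K₀) L

section main
variable {K₀ L : Type} [Field K₀] [IsAlgClosed K₀] [CharZero K₀] [Field L] [IsAlgClosed L]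
  {n N : ℕ} [Algebra (MvPolynomial (Fin (n + 1)) K₀) L]
  [FaithfulSMul (MvPolynomial (Fin (n + 1)) K₀) L]
  [Algebra K₀ L] [IsScalarTower K₀ (MvPolynomial (Fin (n + 1)) K₀) L]

lemma root_unity (hN : 0 < N) {y z : L} (h : y ^ N = z ^ N) :
    ∃ g : rootsOfUnity N K₀, y = algebraMap K₀ L ((g : K₀ˣ) : K₀) * z := by
  haveI : NeZero N := ⟨hN.ne'⟩
  haveI : NeZero (N : K₀) := ⟨by exact_mod_cast hN.ne'⟩
  by_cases hz : z = 0
  · refine ⟨1, ?_⟩
    rw [hz, zero_pow hN.ne'] at h
    rw [hz, mul_zero]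
    exact pow_eq_zero_iff hN.ne' |>.1 h
  obtain ⟨ζ, hζ⟩ := HasEnoughRootsOfUnity.exists_primitiveRoot K₀ N
  have hζL : IsPrimitiveRoot (algebraMap K₀ L ζ) N :=
    hζ.map_of_injective (algebraMap K₀ L).injective
  have h1 : (y / z) ^ N = 1 := by rw [div_pow, h, div_self (pow_ne_zero _ hz)]
  obtain ⟨i, -, hi⟩ := hζL.eq_pow_of_pow_eq_one h1
  refine ⟨(hζ.toRootsOfUnity) ^ i, ?_⟩
  have h2 : (((hζ.toRootsOfUnity ^ i : rootsOfUnity N K₀) : K₀ˣ) : K₀) = ζ ^ i := by
    simp
  rw [h2, map_pow, hi]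
  field_simp

/-- a nonzero element -/
lemma ell_ne_zero (a : K₀) : ell n a ≠ 0 := by
  intro h
  have h1 := congrArg (eval fun j : Fin (n + 1) => if j = 0 then (1 : K₀) else 0) h
  rw [ell, map_sum, map_zero] at h1
  simp at h1

variable (K₀ L) in
/-- the generic coordinates -/
noncomputable def uu (n : ℕ) [Algebra (MvPolynomial (Fin (n + 1)) K₀) L] (j : Fin (n + 1)) : L :=
  algebraMap (MvPolynomial (Fin (n + 1)) K₀) L (X j)

lemma algebraMap_ell (a : K₀) :
    algebraMap (MvPolynomial (Fin (n + 1)) K₀) L (ell n a) =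
      ∑ j : Fin (n + 1), uu K₀ L n j * algebraMap K₀ L a ^ (j : ℕ) := by
  rw [ell, map_sum]
  refine Finset.sum_congr rfl fun j _ => ?_
  rw [map_mul, uu, mul_comm]
  congr 1
  rw [← map_pow, IsScalarTower.algebraMap_apply K₀ (MvPolynomial (Fin (n + 1)) K₀) L]
  rfl

/-- `ell_a / (a - x)` is integral for a root `x` -/
lemma int_root (a : K₀) (x : L) (hx : ∑ j : Fin (n + 1), uu K₀ L n j * x ^ (j : ℕ) = 0)
    (hax : algebraMap K₀ L a - x ≠ 0) :
    IsIntegral (MvPolynomial (Fin (n + 1)) K₀)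
      (algebraMap (MvPolynomial (Fin (n + 1)) K₀) L (ell n a) * (algebraMap K₀ L a - x)⁻¹) := by
  set Q : Polynomial (MvPolynomial (Fin (n + 1)) K₀) := ∑ j : Fin (n + 1),
    Polynomial.C (X j) * (Polynomial.X ^ (n - (j : ℕ)) *
      (Polynomial.C (C a) * Polynomial.X - 1) ^ (j : ℕ)) with hQ
  have hlin : (Polynomial.C (C a : MvPolynomial (Fin (n + 1)) K₀) * Polynomial.X - 1).natDegree
      ≤ 1 := by
    refine (Polynomial.natDegree_sub_le _ _).trans ?_
    simp only [Polynomial.natDegree_one, max_le_iff, zero_le, and_true]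
    exact (Polynomial.natDegree_C_mul_le _ _).trans Polynomial.natDegree_X_le
  have hdeg : Q.natDegree ≤ n := by
    rw [hQ]
    refine Polynomial.natDegree_sum_le_of_forall_le _ _ fun j _ => ?_
    refine (Polynomial.natDegree_C_mul_le _ _).trans ?_
    refine Polynomial.natDegree_mul_le.trans ?_
    have h1 : ((Polynomial.C (C a : MvPolynomial (Fin (n + 1)) K₀) * Polynomial.X - 1)
        ^ (j : ℕ)).natDegree ≤ (j : ℕ) := by
      refine Polynomial.natDegree_pow_le.trans ?_
      calc (j : ℕ) * _ ≤ (j : ℕ) * 1 := Nat.mul_le_mul_left _ hlin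
        _ = (j : ℕ) := mul_one _
    have h2 : (Polynomial.X ^ (n - (j : ℕ)) :
      Polynomial (MvPolynomial (Fin (n + 1)) K₀)).natDegree ≤ n - (j : ℕ) :=
      Polynomial.natDegree_X_pow_le _
    have h3 := j.2
    omega
  have hcoeff : Q.coeff n = ell n a := by
    rw [hQ, Polynomial.finsetSum_coeff, ell]
    refine Finset.sum_congr rfl fun j _ => ?_
    rw [Polynomial.coeff_C_mul, Polynomial.coeff_X_pow_mul', if_pos (Nat.sub_le _ _)]
    have h3 : n - (n - (j : ℕ)) = j * 1 := by have := j.2; omega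
    have h4 : (Polynomial.C (C a : MvPolynomial (Fin (n + 1)) K₀) * Polynomial.X - 1).coeff 1
        = C a := by
      rw [Polynomial.coeff_sub, Polynomial.coeff_C_mul, Polynomial.coeff_X_one,
        Polynomial.coeff_one, if_neg one_ne_zero, mul_one, sub_zero]
    rw [h3, Polynomial.coeff_pow_of_natDegree_le hlin, h4, map_pow, mul_comm]
  have hQdeg : Q.natDegree = n := by
    refine le_antisymm hdeg (Polynomial.le_natDegree_of_ne_zero ?_)
    rw [hcoeff]; exact ell_ne_zero a
  have hlead : Q.leadingCoeff = ell n a := by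
    rw [Polynomial.leadingCoeff, hQdeg, hcoeff]
  have hroot : Polynomial.aeval (algebraMap K₀ L a - x)⁻¹ Q = 0 := by
    rw [hQ, map_sum]
    have hz : algebraMap K₀ L a * (algebraMap K₀ L a - x)⁻¹ - 1 =
        (algebraMap K₀ L a - x)⁻¹ * x := by
      field_simp; ring
    have hCa : algebraMap (MvPolynomial (Fin (n + 1)) K₀) L (C a) = algebraMap K₀ L a := by
      rw [IsScalarTower.algebraMap_apply K₀ (MvPolynomial (Fin (n + 1)) K₀) L]; rfl
    have h1 : ∀ j : Fin (n + 1), Polynomial.aeval (algebraMap K₀ L a - x)⁻¹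
        (Polynomial.C (X j) * (Polynomial.X ^ (n - (j : ℕ)) *
          (Polynomial.C (C a : MvPolynomial (Fin (n + 1)) K₀) * Polynomial.X - 1) ^ (j : ℕ))) =
        (algebraMap K₀ L a - x)⁻¹ ^ n * (uu K₀ L n j * x ^ (j : ℕ)) := by
      intro j
      simp only [map_mul, map_pow, map_sub, map_one, Polynomial.aeval_C, Polynomial.aeval_X]
      rw [hCa, hz, mul_pow, uu]
      have h3 : (algebraMap K₀ L a - x)⁻¹ ^ n = (algebraMap K₀ L a - x)⁻¹ ^ (n - (j : ℕ)) *
          (algebraMap K₀ L a - x)⁻¹ ^ (j : ℕ) := by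
        rw [← pow_add, Nat.sub_add_cancel (by have := j.2; omega)]
      rw [h3]; ring
    rw [Finset.sum_congr rfl fun j _ => h1 j, ← Finset.mul_sum, hx, mul_zero]
  have := isIntegral_leadingCoeff_smul _ _ hroot
  rw [hlead, Algebra.smul_def] at this
  exact this

/-- the roots of the form -/
noncomputable def bb (c : {e : Fin (n + 1) →₀ ℕ // e.degree = N} → K₀) (s : Fin n → L)
    (ε : Fin n → rootsOfUnity N K₀) : L :=
  uu K₀ L n (Fin.last n) * fc c (fun j : Fin (n + 1) =>
    cf (fun _ => (1 : L)) (fun i => algebraMap K₀ L ((ε i : K₀ˣ) : K₀) * s i) j)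

lemma uu_last_ne_zero : uu K₀ L n (Fin.last n) ≠ 0 := by
  rw [uu, Ne, FaithfulSMul.algebraMap_eq_zero_iff]
  exact X_ne_zero _

variable (L n) in
/-- `ell` as an integral element -/
noncomputable def lam (a : K₀) : SK K₀ L n :=
  algebraMap (MvPolynomial (Fin (n + 1)) K₀) (SK K₀ L n) (ell n a)

variable (K₀ L) in
/-- the coordinates as integral elements -/
noncomputable def us (j : Fin (n + 1)) : SK K₀ L n :=
  algebraMap (MvPolynomial (Fin (n + 1)) K₀) (SK K₀ L n) (X j)

/-- the key computation -/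
lemma key (hN : 0 < N) (c₀ : K₀) (c : {e : Fin (n + 1) →₀ ℕ // e.degree = N} → K₀)
    (x s : Fin n → L)
    (hx : ∑ j : Fin (n + 1), Polynomial.C (uu K₀ L n j) * Polynomial.X ^ (j : ℕ) =
      Polynomial.C (uu K₀ L n (Fin.last n)) * ∏ i, (Polynomial.X - Polynomial.C (x i)))
    (hs : ∀ i, s i ^ N = x i - algebraMap K₀ L c₀) (a : K₀) :
    ∃ τ σ : Fin n → SK K₀ L n,
      (∀ j : Fin (n + 1), lam L n a * cf (fun i => τ i ^ N)
          (fun i => σ i ^ N + algebraMap K₀ (SK K₀ L n) c₀ * τ i ^ N) j =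
        lam L n a ^ (n * N) * us K₀ L j) ∧
      (∀ i, σ i ^ N + algebraMap K₀ (SK K₀ L n) c₀ * τ i ^ N =
        algebraMap K₀ (SK K₀ L n) a * τ i ^ N - lam L n a ^ N) ∧
      ∀ ε : Fin n → rootsOfUnity N K₀,
        (lam L n a : L) ^ (n * N) * bb c s ε =
        ((lam L n a * fc c (fun j : Fin (n + 1) => cf τ
          (fun i => algebraMap K₀ (SK K₀ L n) ((ε i : K₀ˣ) : K₀) * σ i) j) : SK K₀ L n) : L) := by
  obtain ⟨Λ, hΛ⟩ : ∃ Λ : L, Λ = (lam L n a : L) := ⟨_, rfl⟩
  have hΛ1 : Λ = algebraMap (MvPolynomial (Fin (n + 1)) K₀) L (ell n a) := hΛ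
  have hΛ0 : Λ ≠ 0 := by
    rw [hΛ1, Ne, FaithfulSMul.algebraMap_eq_zero_iff]
    exact ell_ne_zero a
  have hev : ∀ y : L, ∑ j : Fin (n + 1), uu K₀ L n j * y ^ (j : ℕ) =
      uu K₀ L n (Fin.last n) * ∏ i, (y - x i) := by
    intro y
    have := congrArg (Polynomial.eval y) hx
    simpa [Polynomial.eval_finsetSum, Polynomial.eval_prod] using this
  have hΛ2 : Λ = uu K₀ L n (Fin.last n) * ∏ i, (algebraMap K₀ L a - x i) := by
    rw [hΛ1, algebraMap_ell, hev]
  have hax : ∀ i, algebraMap K₀ L a - x i ≠ 0 := by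
    intro i hi
    apply hΛ0
    rw [hΛ2, Finset.prod_eq_zero (Finset.mem_univ i) hi, mul_zero]
  have hxr : ∀ i, ∑ j : Fin (n + 1), uu K₀ L n j * x i ^ (j : ℕ) = 0 := by
    intro i
    rw [hev, Finset.prod_eq_zero (Finset.mem_univ i) (sub_self _), mul_zero]
  have hint : ∀ i, IsIntegral (MvPolynomial (Fin (n + 1)) K₀)
      (Λ * (algebraMap K₀ L a - x i)⁻¹) := fun i => by
    rw [hΛ1]; exact int_root a (x i) (hxr i) (hax i)
  have hΛi : IsIntegral (MvPolynomial (Fin (n + 1)) K₀) Λ := by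
    rw [hΛ1]; exact isIntegral_algebraMap
  have hKi : ∀ r : K₀, IsIntegral (MvPolynomial (Fin (n + 1)) K₀) (algebraMap K₀ L r) := by
    intro r
    rw [IsScalarTower.algebraMap_apply K₀ (MvPolynomial (Fin (n + 1)) K₀) L]
    exact isIntegral_algebraMap
  choose t ht using fun i => IsAlgClosed.exists_pow_nat_eq (algebraMap K₀ L a - x i)⁻¹ hN
  have hτN : ∀ i, (Λ * t i) ^ N = Λ ^ N * (algebraMap K₀ L a - x i)⁻¹ := fun i => by
    rw [mul_pow, ht]
  have hτ : ∀ i, IsIntegral (MvPolynomial (Fin (n + 1)) K₀) (Λ * t i) := by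
    intro i
    refine IsIntegral.of_pow hN ?_
    rw [hτN]
    have h1 : Λ ^ N * (algebraMap K₀ L a - x i)⁻¹ =
        Λ ^ (N - 1) * (Λ * (algebraMap K₀ L a - x i)⁻¹) := by
      rw [← mul_assoc, ← pow_succ, Nat.sub_add_cancel hN]
    rw [h1]
    exact (hΛi.pow _).mul (hint i)
  have hσN : ∀ i, (Λ * t i * s i) ^ N = algebraMap K₀ L a * (Λ * t i) ^ N - Λ ^ N -
      algebraMap K₀ L c₀ * (Λ * t i) ^ N := by
    intro i
    rw [mul_pow (Λ * t i), hs, hτN]
    have := hax i
    field_simp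
    ring
  have hσ : ∀ i, IsIntegral (MvPolynomial (Fin (n + 1)) K₀) (Λ * t i * s i) := by
    intro i
    refine IsIntegral.of_pow hN ?_
    rw [hσN]
    exact (((hKi a).mul ((hτ i).pow N)).sub (hΛi.pow N)).sub ((hKi c₀).mul ((hτ i).pow N))
  have hprod : Λ * ∏ i, (Λ ^ N * (algebraMap K₀ L a - x i)⁻¹) =
      Λ ^ (n * N) * uu K₀ L n (Fin.last n) := by
    rw [Finset.prod_mul_distrib, Finset.prod_const, Finset.card_univ, Fintype.card_fin,
      Finset.prod_inv_distrib, ← pow_mul, mul_comm N n]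
    have h2 : ∏ i, (algebraMap K₀ L a - x i) ≠ 0 :=
      Finset.prod_ne_zero_iff.2 fun i _ => hax i
    have h3 : Λ * (∏ i, (algebraMap K₀ L a - x i))⁻¹ = uu K₀ L n (Fin.last n) := by
      rw [hΛ2]; field_simp
    rw [← h3]; ring
  have hcoeff : ∀ j : Fin (n + 1), uu K₀ L n (Fin.last n) * cf (fun _ => (1 : L)) x j =
      uu K₀ L n j := by
    intro j
    have h1 := congrArg (fun p => Polynomial.coeff p (j : ℕ)) hx
    simp only [Polynomial.finsetSum_coeff, Polynomial.coeff_C_mul, Polynomial.coeff_X_pow] at h1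
    rw [Finset.sum_eq_single j] at h1
    · rw [if_pos rfl, mul_one] at h1
      rw [h1, cf]
      simp only [map_one, one_mul]
    · intro k _ hk
      rw [if_neg (fun h => hk (Fin.ext h.symm)), mul_zero]
    · intro h; exact absurd (Finset.mem_univ j) h
  refine ⟨fun i => ⟨Λ * t i, hτ i⟩, fun i => ⟨Λ * t i * s i, hσ i⟩, ?_, ?_, ?_⟩
  · intro j
    apply Subtype.ext
    have e1 : ((lam L n a * cf (fun i => (⟨Λ * t i, hτ i⟩ : SK K₀ L n) ^ N)
          (fun i => (⟨Λ * t i * s i, hσ i⟩ : SK K₀ L n) ^ N +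
            algebraMap K₀ (SK K₀ L n) c₀ * (⟨Λ * t i, hτ i⟩ : SK K₀ L n) ^ N) j :
              SK K₀ L n) : L) =
        Λ * cf (fun i => (Λ ^ N * (algebraMap K₀ L a - x i)⁻¹) * 1)
          (fun i => (Λ ^ N * (algebraMap K₀ L a - x i)⁻¹) * x i) j := by
      have h2 := cf_map (algebraMap (SK K₀ L n) L) (fun i => (⟨Λ * t i, hτ i⟩ : SK K₀ L n) ^ N)
          (fun i => (⟨Λ * t i * s i, hσ i⟩ : SK K₀ L n) ^ N +
            algebraMap K₀ (SK K₀ L n) c₀ * (⟨Λ * t i, hτ i⟩ : SK K₀ L n) ^ N) j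
      rw [MulMemClass.coe_mul, ← hΛ]
      congr 1
      refine h2.trans ?_
      congr 1
      · funext i
        change (Λ * t i) ^ N = _
        rw [hτN, mul_one]
      · funext i
        change (Λ * t i * s i) ^ N + algebraMap K₀ L c₀ * (Λ * t i) ^ N = _
        rw [hσN, hτN]
        have := hax i
        field_simp
        ring
    rw [e1, cf_mul, ← mul_assoc, hprod, mul_assoc, hcoeff, MulMemClass.coe_mul,
      SubmonoidClass.coe_pow, ← hΛ]
    rfl
  · intro i
    apply Subtype.ext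
    change (Λ * t i * s i) ^ N + algebraMap K₀ L c₀ * (Λ * t i) ^ N =
      algebraMap K₀ L a * (Λ * t i) ^ N - (lam L n a : L) ^ N
    rw [hσN, ← hΛ]; ring
  · intro ε
    have e1 : ((lam L n a * fc c (fun j : Fin (n + 1) => cf (fun i => (⟨Λ * t i, hτ i⟩ : SK K₀ L n))
          (fun i => algebraMap K₀ (SK K₀ L n) ((ε i : K₀ˣ) : K₀) *
            (⟨Λ * t i * s i, hσ i⟩ : SK K₀ L n)) j) : SK K₀ L n) : L) =
        Λ * fc c (fun j : Fin (n + 1) => (∏ i, (Λ * t i)) * cf (fun _ => (1 : L))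
          (fun i => algebraMap K₀ L ((ε i : K₀ˣ) : K₀) * s i) j) := by
      rw [MulMemClass.coe_mul, ← hΛ]
      congr 1
      refine (fc_map c (algebraMap (SK K₀ L n) L) (fun r => rfl) _).trans ?_
      congr 1
      funext j
      rw [cf_map, ← cf_mul]
      congr 1
      · funext i
        change Λ * t i = _
        rw [mul_one]
      · funext i
        change algebraMap K₀ L ((ε i : K₀ˣ) : K₀) * (Λ * t i * s i) = _
        ring
    rw [e1, fc_smul, ← Finset.prod_pow, Finset.prod_congr rfl fun i _ => hτN i, ← mul_assoc,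
      hprod, ← hΛ, bb, mul_assoc]

end main

section main2
variable {K₀ L : Type} [Field K₀] [IsAlgClosed K₀] [CharZero K₀] [Field L] [IsAlgClosed L]
  {n N : ℕ} [Algebra (MvPolynomial (Fin (n + 1)) K₀) L]
  [FaithfulSMul (MvPolynomial (Fin (n + 1)) K₀) L]
  [Algebra K₀ L] [IsScalarTower K₀ (MvPolynomial (Fin (n + 1)) K₀) L]

/-- the automorphisms permute the roots -/
lemma galois (hN : 0 < N) (c₀ : K₀) (c : {e : Fin (n + 1) →₀ ℕ // e.degree = N} → K₀)
    (x s : Fin n → L)
    (hx : ∑ j : Fin (n + 1), Polynomial.C (uu K₀ L n j) * Polynomial.X ^ (j : ℕ) =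
      Polynomial.C (uu K₀ L n (Fin.last n)) * ∏ i, (Polynomial.X - Polynomial.C (x i)))
    (hs : ∀ i, s i ^ N = x i - algebraMap K₀ L c₀) (Φ : L ≃ₐ[K₀] L) (μ : L)
    (hΦ : ∀ j, Φ (uu K₀ L n j) = μ * uu K₀ L n j) :
    ∃ e : Equiv.Perm (Fin n → rootsOfUnity N K₀), ∀ ε, Φ (bb c s ε) = μ * bb c s (e ε) := by
  have hu := uu_last_ne_zero (K₀ := K₀) (L := L) (n := n)
  have hμ : μ ≠ 0 := by
    rintro rfl
    have h1 := hΦ (Fin.last n)
    rw [zero_mul] at h1
    exact hu (by simpa using h1)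
  have hpoly : ∏ i, (Polynomial.X - Polynomial.C (Φ (x i))) =
      ∏ i, (Polynomial.X - Polynomial.C (x i)) := by
    have h1 := congrArg (Polynomial.map (Φ : L →+* L)) hx
    have h2 : Polynomial.map (Φ : L →+* L)
        (∑ j : Fin (n + 1), Polynomial.C (uu K₀ L n j) * Polynomial.X ^ (j : ℕ)) =
        Polynomial.C μ *
          ∑ j : Fin (n + 1), Polynomial.C (uu K₀ L n j) * Polynomial.X ^ (j : ℕ) := by
      rw [Polynomial.map_sum, Finset.mul_sum]
      refine Finset.sum_congr rfl fun j _ => ?_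
      rw [Polynomial.map_mul, Polynomial.map_C, Polynomial.map_pow, Polynomial.map_X]
      change Polynomial.C (Φ (uu K₀ L n j)) * _ = _
      rw [hΦ, Polynomial.C_mul, mul_assoc]
    have h3 : Polynomial.map (Φ : L →+* L) (Polynomial.C (uu K₀ L n (Fin.last n)) *
        ∏ i, (Polynomial.X - Polynomial.C (x i))) =
        Polynomial.C μ * (Polynomial.C (uu K₀ L n (Fin.last n)) *
          ∏ i, (Polynomial.X - Polynomial.C (Φ (x i)))) := by
      rw [Polynomial.map_mul, Polynomial.map_C, Polynomial.map_prod]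
      change Polynomial.C (Φ (uu K₀ L n (Fin.last n))) * _ = _
      rw [hΦ, Polynomial.C_mul, mul_assoc]
      congr 2
      refine Finset.prod_congr rfl fun i _ => ?_
      rw [Polynomial.map_sub, Polynomial.map_X, Polynomial.map_C]
      rfl
    rw [h2, h3, hx] at h1
    have h4 := mul_left_cancel₀ (Polynomial.C_ne_zero.2 hμ) h1
    exact (mul_left_cancel₀ (Polynomial.C_ne_zero.2 hu) h4).symm
  obtain ⟨σ, hσ⟩ := exists_perm (fun i => Φ (x i)) x hpoly
  have hg : ∀ i, ∃ g : rootsOfUnity N K₀,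
      Φ (s i) = algebraMap K₀ L ((g : K₀ˣ) : K₀) * s (σ i) := by
    intro i
    refine root_unity hN ?_
    rw [← map_pow, hs, hs, map_sub, AlgEquiv.commutes, hσ]
  choose g hg using hg
  refine ⟨⟨fun ε k => g (σ.symm k) * ε (σ.symm k), fun δ i => (g i)⁻¹ * δ (σ i),
    fun ε => ?_, fun δ => ?_⟩, fun ε => ?_⟩
  · funext i; simp
  · funext k; simp
  · rw [bb, bb, map_mul, hΦ, mul_assoc]
    congr 2
    refine (fc_map c (Φ : L →+* L) (fun r => AlgEquiv.commutes Φ r) _).trans ?_
    congr 1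
    funext j
    rw [cf_map]
    refine Eq.trans ?_ (cf_perm σ _ _ _)
    congr 1
    · funext i
      exact map_one (Φ : L →+* L)
    · funext i
      change Φ (algebraMap K₀ L ((ε i : K₀ˣ) : K₀) * s i) =
        algebraMap K₀ L ((((g (σ.symm (σ i)) * ε (σ.symm (σ i)) : rootsOfUnity N K₀) : K₀ˣ)) : K₀)
          * s (σ i)
      have h1 : ((((g (σ.symm (σ i)) * ε (σ.symm (σ i)) : rootsOfUnity N K₀) : K₀ˣ)) : K₀) =
          ((g i : K₀ˣ) : K₀) * ((ε i : K₀ˣ) : K₀) := by
        rw [Equiv.symm_apply_apply]; rfl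
      rw [map_mul, AlgEquiv.commutes, hg, h1, map_mul]
      ring

/-- the leading coefficient -/
lemma aeval_zero {D : ℕ} (G : MvPolynomial (Option (Fin (n + 1))) K₀) (hG : G.IsHomogeneous D)
    (P : Polynomial L) (hP : P.coeff D = 1) (hGP : aeval (fun o : Option (Fin (n + 1)) =>
      o.elim (Polynomial.X : Polynomial L) fun j => Polynomial.C (uu K₀ L n j)) G = P)
    (Ω : Type) [Field Ω] [Algebra K₀ Ω] (w : Ω) :
    aeval (fun o : Option (Fin (n + 1)) => o.elim w fun _ => 0) G = w ^ D := by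
  classical
  have hdeg : ∀ m ∈ G.support, m none + ∑ j, m (some j) = D := by
    intro m hm
    have h1 : m.degree = D := hG.degree_eq_sum_deg_support hm |>.symm
    rw [Finsupp.degree_eq_sum, Fintype.sum_option] at h1
    exact h1
  have hsingle : ∀ m ∈ G.support, m ≠ Finsupp.single none D → ∃ j, m (some j) ≠ 0 := by
    intro m hm hne
    by_contra hcon
    push Not at hcon
    apply hne
    have h1 := hdeg m hm
    rw [Finset.sum_eq_zero fun j _ => hcon j, add_zero] at h1
    ext o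
    cases o with
    | none => simpa using h1
    | some j => simp [hcon j]
  have hc : G.coeff (Finsupp.single none D) = 1 := by
    have h1 : (aeval (fun o : Option (Fin (n + 1)) =>
      o.elim (Polynomial.X : Polynomial L) fun j => Polynomial.C (uu K₀ L n j)) G).coeff D =
        algebraMap K₀ L (G.coeff (Finsupp.single none D)) := by
      rw [aeval_def, eval₂_eq', Polynomial.finsetSum_coeff]
      rw [Finset.sum_eq_single (Finsupp.single none D)]
      · rw [Fintype.prod_option]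
        simp only [Option.elim_none, Option.elim_some, Finsupp.single_eq_same]
        have h2 : ∀ j : Fin (n + 1), (Finsupp.single (none : Option (Fin (n + 1))) D) (some j) = 0 :=
          fun j => by simp
        simp only [h2, pow_zero, Finset.prod_const_one, mul_one]
        rw [Polynomial.algebraMap_apply, Polynomial.coeff_C_mul, Polynomial.coeff_X_pow_self,
          mul_one]
      · intro m hm hne
        rw [Fintype.prod_option]
        simp only [Option.elim_none, Option.elim_some]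
        have h3 : ∏ j : Fin (n + 1), Polynomial.C (uu K₀ L n j) ^ m (some j) =
            Polynomial.C (∏ j : Fin (n + 1), uu K₀ L n j ^ m (some j)) := by
          rw [map_prod]; simp only [map_pow]
        obtain ⟨j, hj⟩ := hsingle m hm hne
        have h4 := hdeg m hm
        have h5 : m (some j) ≤ ∑ j, m (some j) :=
          Finset.single_le_sum (f := fun j => m (some j)) (fun _ _ => Nat.zero_le _)
            (Finset.mem_univ j)
        rw [h3, Polynomial.algebraMap_apply, Polynomial.coeff_C_mul, Polynomial.coeff_mul_C,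
          Polynomial.coeff_X_pow, if_neg (by omega)]
        simp
      · intro hm
        rw [notMem_support_iff.1 hm]
        simp
    rw [hGP, hP] at h1
    have h2 : algebraMap K₀ L (G.coeff (Finsupp.single none D)) = algebraMap K₀ L 1 := by
      rw [← h1, map_one]
    exact (algebraMap K₀ L).injective h2
  rw [aeval_def, eval₂_eq', Finset.sum_eq_single (Finsupp.single none D)]
  · rw [Fintype.prod_option, hc]
    simp
  · intro m hm hne
    obtain ⟨j, hj⟩ := hsingle m hm hne
    rw [Fintype.prod_option]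
    simp only [Option.elim_none, Option.elim_some]
    rw [Finset.prod_eq_zero (Finset.mem_univ j) (zero_pow hj), mul_zero, mul_zero]
  · intro hm
    rw [notMem_support_iff.1 hm]
    simp

variable (L) in
theorem blockK_abs [Algebra.IsAlgebraic (MvPolynomial (Fin (n + 1)) K₀) L] (hn : 0 < n)
    (hN : 0 < N) (c₀ : K₀) (c : {e : Fin (n + 1) →₀ ℕ // e.degree = N} → K₀) :
    ∃ G : MvPolynomial (Option (Fin (n + 1))) K₀, G.IsHomogeneous (N ^ n) ∧
      (∀ (Ω : Type) [Field Ω] [Algebra K₀ Ω] (w : Ω),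
        aeval (fun o : Option (Fin (n + 1)) => o.elim w fun _ => 0) G = 0 → w = 0) ∧
      ∀ (Ω : Type) [Field Ω] [IsAlgClosed Ω] [Algebra K₀ Ω] (u : Fin (n + 1) → Ω) (w : Ω),
        u ≠ 0 → aeval (fun o : Option (Fin (n + 1)) => o.elim w u) G = 0 →
        ∃ (Λ : Ω) (s t : Fin n → Ω) (v : Fin (n + 1) → Ω), Λ ≠ 0 ∧
          (∀ i, s i ≠ 0 ∨ t i ≠ 0) ∧
          (∀ T S : Ω, ∑ j : Fin (n + 1), u j * T ^ (j : ℕ) * S ^ (n - j) =
            Λ * ∏ i, (t i ^ N * T - (s i ^ N + algebraMap K₀ Ω c₀ * t i ^ N) * S)) ∧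
          (∀ T S : Ω, ∑ j : Fin (n + 1), v j * T ^ (j : ℕ) * S ^ (n - j) =
            ∏ i, (t i * T - s i * S)) ∧
          w = Λ * ∑ᶠ e : {e : Fin (n + 1) →₀ ℕ // e.degree = N},
            algebraMap K₀ Ω (c e) * ∏ j, v j ^ e.1 j := by
  classical
  haveI : NeZero N := ⟨hN.ne'⟩
  haveI : NeZero (N : K₀) := ⟨by exact_mod_cast hN.ne'⟩
  cases nonempty_fintype (rootsOfUnity N K₀)
  -- the roots
  have hp : (∑ j : Fin (n + 1), Polynomial.C (uu K₀ L n j) * Polynomial.X ^ (j : ℕ)).natDegree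
      = n := by
    refine le_antisymm (Polynomial.natDegree_sum_le_of_forall_le _ _ fun j _ =>
      (Polynomial.natDegree_C_mul_X_pow_le _ _).trans (Nat.lt_succ_iff.1 j.2))
      (Polynomial.le_natDegree_of_ne_zero ?_)
    rw [Polynomial.finsetSum_coeff, Finset.sum_eq_single (Fin.last n)]
    · simpa using uu_last_ne_zero (K₀ := K₀) (L := L) (n := n)
    · intro j _ hj
      rw [Polynomial.coeff_C_mul, Polynomial.coeff_X_pow, if_neg, mul_zero]
      intro h; exact hj (Fin.ext (by simpa using h.symm))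
    · intro h; exact absurd (Finset.mem_univ _) h
  have hlead : (∑ j : Fin (n + 1), Polynomial.C (uu K₀ L n j) *
      Polynomial.X ^ (j : ℕ)).leadingCoeff = uu K₀ L n (Fin.last n) := by
    rw [Polynomial.leadingCoeff, hp, Polynomial.finsetSum_coeff,
      Finset.sum_eq_single (Fin.last n)]
    · simp
    · intro j _ hj
      rw [Polynomial.coeff_C_mul, Polynomial.coeff_X_pow, if_neg, mul_zero]
      intro h; exact hj (Fin.ext (by simpa using h.symm))
    · intro h; exact absurd (Finset.mem_univ _) h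
  obtain ⟨x, hx⟩ := exists_roots _ hp
  rw [hlead] at hx
  choose s hs using fun i => IsAlgClosed.exists_pow_nat_eq (x i - algebraMap K₀ L c₀) hN
  have hkey := key hN c₀ c x s hx hs
  obtain ⟨G, hG, hGb⟩ := exists_form hn (bb c s)
    (fun Φ μ hΦ => galois hN c₀ c x s hx hs Φ μ hΦ)
    (fun a ε => ⟨n * N, by
      obtain ⟨τ, σ, -, -, h3⟩ := hkey a
      have h4 := h3 ε
      have h5 : (algebraMap (MvPolynomial (Fin (n + 1)) K₀) L) (ell n a) ^ (n * N) * bb c s ε =
        (lam L n a : L) ^ (n * N) * bb c s ε := rfl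
      rw [h5, h4]
      exact Subtype.property _⟩)
  have hcard : Fintype.card (Fin n → rootsOfUnity N K₀) = N ^ n := by
    rw [Fintype.card_fun, Fintype.card_fin, ← Nat.card_eq_fintype_card,
      HasEnoughRootsOfUnity.natCard_rootsOfUnity K₀ N]
  rw [hcard] at hG
  have hmon : (∏ ε, (Polynomial.X - Polynomial.C (bb c s ε)) : Polynomial L).coeff (N ^ n) = 1 := by
    have h1 : (∏ ε : Fin n → rootsOfUnity N K₀,
        (Polynomial.X - Polynomial.C (bb c s ε)) : Polynomial L).Monic :=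
      Polynomial.monic_prod_of_monic _ _ fun _ _ => Polynomial.monic_X_sub_C _
    have h2 : (∏ ε : Fin n → rootsOfUnity N K₀,
        (Polynomial.X - Polynomial.C (bb c s ε)) : Polynomial L).natDegree = N ^ n := by
      rw [Polynomial.natDegree_prod_of_monic _ _ fun _ _ => Polynomial.monic_X_sub_C _]
      simp [hcard]
    rw [← h2]; exact h1
  refine ⟨G, hG, ?_, ?_⟩
  · intro Ω _ _ w h
    rw [aeval_zero G hG _ hmon hGb Ω w] at h
    exact pow_eq_zero_iff (pow_pos hN n).ne' |>.1 h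
  intro Ω _ _ _ u w hu0 hGw
  -- choice of a
  obtain ⟨a, ha⟩ : ∃ a : K₀, (aeval u (ell n a) : Ω) ≠ 0 := by
    by_contra hcon
    push Not at hcon
    apply hu0
    have h1 : (∑ j : Fin (n + 1), Polynomial.C (u j) * Polynomial.X ^ (j : ℕ)) = 0 := by
      refine Polynomial.eq_zero_of_infinite_isRoot _
        ((Set.infinite_range_of_injective (algebraMap K₀ Ω).injective).mono ?_)
      rintro _ ⟨a, rfl⟩
      have h2 := hcon a
      rw [ell, map_sum] at h2
      change Polynomial.eval _ _ = 0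
      rw [Polynomial.eval_finsetSum, ← h2]
      refine Finset.sum_congr rfl fun j _ => ?_
      rw [Polynomial.eval_mul, Polynomial.eval_C, Polynomial.eval_pow, Polynomial.eval_X,
        map_mul, aeval_C, aeval_X, map_pow, mul_comm]
    funext j
    have h3 := congrArg (fun p => Polynomial.coeff p (j : ℕ)) h1
    simp only [Polynomial.finsetSum_coeff, Polynomial.coeff_C_mul, Polynomial.coeff_X_pow,
      Polynomial.coeff_zero] at h3
    rw [Finset.sum_eq_single j] at h3
    · simpa using h3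
    · intro k _ hk
      rw [if_neg (fun h => hk (Fin.ext h.symm)), mul_zero]
    · intro h; exact absurd (Finset.mem_univ j) h
  obtain ⟨τ, σ, hk1, hk2, hk3⟩ := hkey a
  -- extension of the evaluation
  have hinj : Function.Injective (algebraMap (MvPolynomial (Fin (n + 1)) K₀) (SK K₀ L n)) := by
    intro p q h
    have h1 := congrArg (fun z : SK K₀ L n => (z : L)) h
    exact FaithfulSMul.algebraMap_injective (MvPolynomial (Fin (n + 1)) K₀) L h1
  obtain ⟨ψ, hψ⟩ := exists_extend hinj ((aeval u : MvPolynomial (Fin (n + 1)) K₀ →ₐ[K₀] Ω) :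
    MvPolynomial (Fin (n + 1)) K₀ →+* Ω)
  have hψR : ∀ p, ψ (algebraMap (MvPolynomial (Fin (n + 1)) K₀) (SK K₀ L n) p) = aeval u p :=
    fun p => congrArg (fun f : MvPolynomial (Fin (n + 1)) K₀ →+* Ω => f p) hψ
  have hψK : ∀ r : K₀, ψ (algebraMap K₀ (SK K₀ L n) r) = algebraMap K₀ Ω r := by
    intro r
    have h1 : algebraMap K₀ (SK K₀ L n) r =
        algebraMap (MvPolynomial (Fin (n + 1)) K₀) (SK K₀ L n) (C r) := by
      apply Subtype.ext
      change algebraMap K₀ L r = algebraMap (MvPolynomial (Fin (n + 1)) K₀) L (C r)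
      rw [IsScalarTower.algebraMap_apply K₀ (MvPolynomial (Fin (n + 1)) K₀) L]
      rfl
    rw [h1, hψR, aeval_C]
  obtain ⟨lm, hlm⟩ : ∃ lm : Ω, lm = ψ (lam L n a) := ⟨_, rfl⟩
  have hlm0 : lm ≠ 0 := by
    rw [hlm, lam, hψR]; exact ha
  have hψu : ∀ j, ψ (us K₀ L j) = u j := fun j => by rw [us, hψR, aeval_X]
  obtain ⟨M, hM⟩ : ∃ M : SK K₀ L n, M = lam L n a ^ (n * N) := ⟨_, rfl⟩
  obtain ⟨β, hβ⟩ : ∃ β : (Fin n → rootsOfUnity N K₀) → SK K₀ L n, ∀ ε, β ε =
      lam L n a * fc c (fun j : Fin (n + 1) => cf τ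
        (fun i => algebraMap K₀ (SK K₀ L n) ((ε i : K₀ˣ) : K₀) * σ i) j) := ⟨_, fun ε => rfl⟩
  have hβL : ∀ ε, (β ε : L) = (M : L) * bb c s ε := by
    intro ε
    rw [hβ, hM, ← hk3 ε]
    rfl
  have hM0 : (M : L) ≠ 0 := by
    rw [hM, SubmonoidClass.coe_pow]
    refine pow_ne_zero _ ?_
    change algebraMap (MvPolynomial (Fin (n + 1)) K₀) L (ell n a) ≠ 0
    rw [Ne, FaithfulSMul.algebraMap_eq_zero_iff]
    exact ell_ne_zero a
  -- the polynomial identity over `L`
  have hpolyL : aeval (fun o : Option (Fin (n + 1)) => o.elim (Polynomial.X : Polynomial L)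
      fun j => Polynomial.C ((M : L) * uu K₀ L n j)) G =
      ∏ ε, (Polynomial.X - Polynomial.C ((M : L) * bb c s ε)) := by
    obtain ⟨E, hEX, hEC⟩ : ∃ E : Polynomial L →ₐ[K₀] Polynomial L,
        E Polynomial.X = Polynomial.C (M : L)⁻¹ * Polynomial.X ∧
        ∀ r, E (Polynomial.C r) = Polynomial.C r := by
      refine ⟨(Polynomial.aeval (Polynomial.C (M : L)⁻¹ * Polynomial.X) :
        Polynomial L →ₐ[L] Polynomial L).restrictScalars K₀, ?_, ?_⟩
      · simp
      · intro r; simp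
    have h1 := congrArg E hGb
    rw [comp_aeval_apply] at h1
    have h2 : (fun o : Option (Fin (n + 1)) => o.elim (Polynomial.X : Polynomial L)
        fun j => Polynomial.C ((M : L) * uu K₀ L n j)) = fun o : Option (Fin (n + 1)) =>
        Polynomial.C (M : L) * E (o.elim (Polynomial.X : Polynomial L)
          fun j => Polynomial.C (uu K₀ L n j)) := by
      funext o
      cases o with
      | none =>
        simp only [Option.elim_none]
        rw [hEX, ← mul_assoc, ← Polynomial.C_mul, mul_inv_cancel₀ hM0, Polynomial.C_1, one_mul]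
      | some j =>
        simp only [Option.elim_some]
        rw [hEC, Polynomial.C_mul]
    rw [h2, aeval_scale hG]
    change _ * aeval (fun o : Option (Fin (n + 1)) => E (o.elim (Polynomial.X : Polynomial L)
      fun j => Polynomial.C (algebraMap (MvPolynomial (Fin (n + 1)) K₀) L (X j)))) G = _
    rw [h1, map_prod, ← hcard, ← Finset.card_univ, ← Finset.prod_const,
      ← Finset.prod_mul_distrib]
    refine Finset.prod_congr rfl fun ε _ => ?_
    rw [map_sub, hEX, hEC, mul_sub, ← mul_assoc, ← Polynomial.C_mul, mul_inv_cancel₀ hM0,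
      Polynomial.C_1, one_mul, ← Polynomial.C_mul]
  have hpolyS : aeval (fun o : Option (Fin (n + 1)) =>
      o.elim (Polynomial.X : Polynomial (SK K₀ L n)) fun j => Polynomial.C (M * us K₀ L j)) G =
      ∏ ε, (Polynomial.X - Polynomial.C (β ε)) := by
    have hinjL : Function.Injective (algebraMap (SK K₀ L n) L) := Subtype.coe_injective
    apply Polynomial.map_injective _ hinjL
    let fL : SK K₀ L n →ₐ[K₀] L := { algebraMap (SK K₀ L n) L with commutes' := fun r => rfl }
    have h1 : ∀ p : Polynomial (SK K₀ L n), Polynomial.map (algebraMap (SK K₀ L n) L) p =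
      Polynomial.mapAlgHom fL p := fun p => rfl
    rw [h1, comp_aeval_apply]
    have h2 : (fun o : Option (Fin (n + 1)) => Polynomial.mapAlgHom fL
        (o.elim (Polynomial.X : Polynomial (SK K₀ L n))
          fun j => Polynomial.C (M * us K₀ L j))) = fun o : Option (Fin (n + 1)) =>
        o.elim (Polynomial.X : Polynomial L)
          fun j => Polynomial.C ((M : L) * uu K₀ L n j) := by
      funext o
      cases o with
      | none => exact Polynomial.map_X _
      | some j => exact Polynomial.map_C _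
    rw [h2, hpolyL, Polynomial.map_prod]
    refine Finset.prod_congr rfl fun ε _ => ?_
    rw [Polynomial.map_sub, Polynomial.map_X, Polynomial.map_C]
    change _ = Polynomial.X - Polynomial.C (β ε : L)
    rw [hβL]
  -- specialisation
  obtain ⟨ε, hε⟩ : ∃ ε, lm ^ (n * N) * w = ψ (β ε) := by
    let eΩ : Polynomial (SK K₀ L n) →ₐ[K₀] Ω :=
      { Polynomial.eval₂RingHom ψ (lm ^ (n * N) * w) with
        commutes' := fun r => by
          change Polynomial.eval₂ ψ (lm ^ (n * N) * w)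
            (Polynomial.C (algebraMap K₀ (SK K₀ L n) r)) = _
          rw [Polynomial.eval₂_C, hψK] }
    have h1 := congrArg eΩ hpolyS
    rw [comp_aeval_apply] at h1
    have h2 : (fun o : Option (Fin (n + 1)) => eΩ
        (o.elim (Polynomial.X : Polynomial (SK K₀ L n))
          fun j => Polynomial.C (M * us K₀ L j))) = fun o : Option (Fin (n + 1)) =>
        lm ^ (n * N) * o.elim w u := by
      funext o
      cases o with
      | none => exact Polynomial.eval₂_X _ _
      | some j =>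
        refine (Polynomial.eval₂_C _ _).trans ?_
        rw [map_mul, hψu, hM, map_pow, ← hlm]
        rfl
    rw [h2, aeval_scale hG, hGw, mul_zero, map_prod] at h1
    obtain ⟨ε, -, hε⟩ := Finset.prod_eq_zero_iff.1 h1.symm
    refine ⟨ε, ?_⟩
    have h3 : eΩ (Polynomial.X - Polynomial.C (β ε)) = lm ^ (n * N) * w - ψ (β ε) := by
      change Polynomial.eval₂ ψ (lm ^ (n * N) * w) (Polynomial.X - Polynomial.C (β ε)) = _
      rw [Polynomial.eval₂_sub, Polynomial.eval₂_X, Polynomial.eval₂_C]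
    rw [h3] at hε
    exact sub_eq_zero.1 hε
  have hψβ : ψ (β ε) = lm * fc c (fun j : Fin (n + 1) => cf (fun i => ψ (τ i))
      (fun i => algebraMap K₀ Ω ((ε i : K₀ˣ) : K₀) * ψ (σ i)) j) := by
    rw [hβ, map_mul, ← hlm, fc_map c ψ hψK]
    congr 2
    funext j
    rw [cf_map]
    congr 1
    funext i
    rw [map_mul, hψK]
  have hεN : ∀ i, algebraMap K₀ Ω ((ε i : K₀ˣ) : K₀) ^ N = 1 := by
    intro i
    have h1 : ((ε i : K₀ˣ) : K₀) ^ N = 1 := by
      have h2 := (mem_rootsOfUnity N (ε i : K₀ˣ)).1 (ε i).2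
      rw [← Units.val_pow_eq_pow_val, h2, Units.val_one]
    rw [← map_pow, h1, map_one]
  have hε0 : ∀ i, algebraMap K₀ Ω ((ε i : K₀ˣ) : K₀) ≠ 0 := by
    intro i h
    have := hεN i
    rw [h, zero_pow hN.ne'] at this
    exact zero_ne_one this
  have hp0 : lm ^ (n * N) ≠ 0 := pow_ne_zero _ hlm0
  refine ⟨(lm ^ (n * N))⁻¹ * lm, fun i => algebraMap K₀ Ω ((ε i : K₀ˣ) : K₀) * ψ (σ i),
    fun i => ψ (τ i), fun j => cf (fun i => ψ (τ i))
      (fun i => algebraMap K₀ Ω ((ε i : K₀ˣ) : K₀) * ψ (σ i)) j,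
    mul_ne_zero (inv_ne_zero hp0) hlm0, ?_, ?_, ?_, ?_⟩
  · intro i
    by_contra hcon
    push Not at hcon
    obtain ⟨h1, h2⟩ := hcon
    have h3 : ψ (σ i) = 0 := (mul_eq_zero.1 h1).resolve_left (hε0 i)
    have h4 := congrArg ψ (hk2 i)
    simp only [map_add, map_sub, map_mul, map_pow, h2, h3, zero_pow hN.ne', mul_zero, add_zero,
      zero_sub, ← hlm] at h4
    exact pow_ne_zero N hlm0 (neg_eq_zero.1 h4.symm)
  · intro T S
    have h1 : ∀ j : Fin (n + 1), u j = (lm ^ (n * N))⁻¹ * lm * cf (fun i => ψ (τ i) ^ N)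
        (fun i => ψ (σ i) ^ N + algebraMap K₀ Ω c₀ * ψ (τ i) ^ N) j := by
      intro j
      have h2 := congrArg ψ (hk1 j)
      rw [map_mul, map_mul, cf_map, map_pow, hψu, ← hlm] at h2
      simp only [map_add, map_mul, map_pow, hψK] at h2
      rw [mul_assoc, h2, ← mul_assoc, inv_mul_cancel₀ hp0, one_mul]
    have h3 : ∀ i, ψ (τ i) ^ N * T - ((algebraMap K₀ Ω ((ε i : K₀ˣ) : K₀) * ψ (σ i)) ^ N +
        algebraMap K₀ Ω c₀ * ψ (τ i) ^ N) * S = ψ (τ i) ^ N * T - (ψ (σ i) ^ N +
        algebraMap K₀ Ω c₀ * ψ (τ i) ^ N) * S := by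
      intro i
      rw [mul_pow, hεN, one_mul]
    rw [Finset.prod_congr rfl fun i _ => h3 i,
      ← cf_sum (fun i => ψ (τ i) ^ N) (fun i => ψ (σ i) ^ N + algebraMap K₀ Ω c₀ * ψ (τ i) ^ N),
      Finset.mul_sum]
    refine Finset.sum_congr rfl fun j _ => ?_
    rw [h1 j]; ring
  · intro T S
    exact cf_sum _ _ T S
  · change w = (lm ^ (n * N))⁻¹ * lm * fc c (fun j : Fin (n + 1) => cf (fun i => ψ (τ i))
      (fun i => algebraMap K₀ Ω ((ε i : K₀ˣ) : K₀) * ψ (σ i)) j)
    rw [mul_assoc, ← hψβ, ← hε, ← mul_assoc, inv_mul_cancel₀ hp0, one_mul]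

end main2

end BlockKAux

/-- The form of type K: its zeros `(u, w)` come from `w = Λ * form_c (v)` where
`Π (t_i T - s_i S)` has coefficients `v` and `u` is `Λ` times the vector of coefficients of
`Π (t_i ^ N T - (s_i ^ N + c₀ t_i ^ N) S)`. -/
theorem blockK (K₀ : Type) [Field K₀] [IsAlgClosed K₀] [CharZero K₀] {n N : ℕ} (hn : 0 < n)
    (hN : 0 < N) (c₀ : K₀) (c : {e : Fin (n + 1) →₀ ℕ // e.degree = N} → K₀) :
    ∃ G : MvPolynomial (Option (Fin (n + 1))) K₀, G.IsHomogeneous (N ^ n) ∧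
      (∀ (Ω : Type) [Field Ω] [Algebra K₀ Ω] (w : Ω),
        aeval (fun o : Option (Fin (n + 1)) => o.elim w fun _ => 0) G = 0 → w = 0) ∧
      ∀ (Ω : Type) [Field Ω] [IsAlgClosed Ω] [Algebra K₀ Ω] (u : Fin (n + 1) → Ω) (w : Ω),
        u ≠ 0 → aeval (fun o : Option (Fin (n + 1)) => o.elim w u) G = 0 →
        ∃ (Λ : Ω) (s t : Fin n → Ω) (v : Fin (n + 1) → Ω), Λ ≠ 0 ∧
          (∀ i, s i ≠ 0 ∨ t i ≠ 0) ∧
          (∀ T S : Ω, ∑ j : Fin (n + 1), u j * T ^ (j : ℕ) * S ^ (n - j) =
            Λ * ∏ i, (t i ^ N * T - (s i ^ N + algebraMap K₀ Ω c₀ * t i ^ N) * S)) ∧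
          (∀ T S : Ω, ∑ j : Fin (n + 1), v j * T ^ (j : ℕ) * S ^ (n - j) =
            ∏ i, (t i * T - s i * S)) ∧
          w = Λ * ∑ᶠ e : {e : Fin (n + 1) →₀ ℕ // e.degree = N},
            algebraMap K₀ Ω (c e) * ∏ j, v j ^ e.1 j := by
  haveI hF : FaithfulSMul (MvPolynomial (Fin (n + 1)) K₀)
      (AlgebraicClosure (FractionRing (MvPolynomial (Fin (n + 1)) K₀))) := by
    rw [faithfulSMul_iff_algebraMap_injective]
    rw [IsScalarTower.algebraMap_eq (MvPolynomial (Fin (n + 1)) K₀)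
      (FractionRing (MvPolynomial (Fin (n + 1)) K₀))
      (AlgebraicClosure (FractionRing (MvPolynomial (Fin (n + 1)) K₀)))]
    exact (algebraMap (FractionRing (MvPolynomial (Fin (n + 1)) K₀))
      (AlgebraicClosure (FractionRing (MvPolynomial (Fin (n + 1)) K₀)))).injective.comp
      (IsFractionRing.injective _ _)
  haveI hA : Algebra.IsAlgebraic (MvPolynomial (Fin (n + 1)) K₀)
      (AlgebraicClosure (FractionRing (MvPolynomial (Fin (n + 1)) K₀))) :=
    (IsFractionRing.comap_isAlgebraic_iff (A := MvPolynomial (Fin (n + 1)) K₀)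
      (K := FractionRing (MvPolynomial (Fin (n + 1)) K₀))).2 inferInstance
  exact BlockKAux.blockK_abs
    (AlgebraicClosure (FractionRing (MvPolynomial (Fin (n + 1)) K₀))) hn hN c₀ c

end Pool.Agent.MultiSpec
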