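import Mathlib

set_option autoImplicit false

namespace Pool.Agent.MultiSpec

open MvPolynomial

private theorem Hensel_eval_sub {R ι : Type*} [CommRing R] (a : R) (x y : ι → R)
    (h : ∀ j, a ∣ x j - y j) (G : MvPolynomial ι R) : a ∣ eval x G - eval y G := by
  induction G using MvPolynomial.induction_on with
  | C c => simp
  | add p q hp hq =>
    have : eval x (p + q) - eval y (p + q) = (eval x p - eval y p) + (eval x q - eval y q) := by
      rw [map_add, map_add]
      ring
    rw [this]
    exact dvd_add hp hq
  | mul_X p n hp =>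
    have : eval x (p * X n) - eval y (p * X n) =
        (eval x p - eval y p) * x n + eval y p * (x n - y n) := by
      rw [map_mul, map_mul, eval_X, eval_X]
      ring
    rw [this]
    exact dvd_add (hp.mul_right _) ((h n).mul_left _)

/-- Taylor formula of order one -/
private theorem Hensel_taylor {R ι : Type*} [CommRing R] [Fintype ι] (a : R) (x δ : ι → R)
    (h : ∀ j, a ∣ δ j) (G : MvPolynomial ι R) :
    a ^ 2 ∣ eval (fun j => x j + δ j) G - eval x G - ∑ j, eval x (pderiv j G) * δ j := by
  classical
  induction G using MvPolynomial.induction_on with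
  | C c => simp
  | add p q hp hq =>
    have : eval (fun j => x j + δ j) (p + q) - eval x (p + q)
        - ∑ j, eval x (pderiv j (p + q)) * δ j =
        (eval (fun j => x j + δ j) p - eval x p - ∑ j, eval x (pderiv j p) * δ j) +
        (eval (fun j => x j + δ j) q - eval x q - ∑ j, eval x (pderiv j q) * δ j) := by
      have h1 : ∑ j, eval x (pderiv j (p + q)) * δ j =
          ∑ j, eval x (pderiv j p) * δ j + ∑ j, eval x (pderiv j q) * δ j := by
        rw [← Finset.sum_add_distrib]
        refine Finset.sum_congr rfl fun j _ => ?_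
        rw [map_add, map_add, add_mul]
      rw [h1, map_add, map_add]
      ring
    rw [this]
    exact dvd_add hp hq
  | mul_X p n hp =>
    have h1 : ∑ j, eval x (pderiv j (p * X n)) * δ j =
        (∑ j, eval x (pderiv j p) * δ j) * x n + eval x p * δ n := by
      have h2 : ∀ j, eval x (pderiv j (p * X n)) * δ j =
          eval x (pderiv j p) * δ j * x n + (if n = j then eval x p * δ j else 0) := by
        intro j
        rw [pderiv_mul, map_add, map_mul, map_mul, eval_X, pderiv_X]
        by_cases hnj : n = j
        · subst hnj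
          rw [if_pos rfl, Pi.single_eq_same, map_one]
          ring
        · rw [if_neg hnj, Pi.single_eq_of_ne hnj, map_zero]
          ring
      rw [Finset.sum_congr rfl fun j _ => h2 j, Finset.sum_add_distrib, Finset.sum_mul,
        Finset.sum_ite_eq Finset.univ n (fun j => eval x p * δ j), if_pos (Finset.mem_univ n)]
    have : eval (fun j => x j + δ j) (p * X n) - eval x (p * X n)
        - ∑ j, eval x (pderiv j (p * X n)) * δ j =
        (eval (fun j => x j + δ j) p - eval x p - ∑ j, eval x (pderiv j p) * δ j) * (x n + δ n)
          + (∑ j, eval x (pderiv j p) * δ j) * δ n := by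
      rw [h1, map_mul, map_mul, eval_X, eval_X]
      ring
    rw [this]
    refine dvd_add (hp.mul_right _) ?_
    rw [pow_two]
    exact mul_dvd_mul (Finset.dvd_sum fun j _ => (h j).mul_left _) (h n)

/-- the Newton iteration with constant inverse matrix -/
private noncomputable def Hensel_seq {k ι : Type*} [Field k] [Fintype ι]
    (G : ι → MvPolynomial ι (PowerSeries k)) (x₀ : ι → k) (M : Matrix ι ι k) :
    ℕ → ι → PowerSeries k
  | 0 => fun j => PowerSeries.C (x₀ j)
  | m + 1 => fun j => Hensel_seq G x₀ M m j +
      -∑ l, PowerSeries.C (M j l) * eval (Hensel_seq G x₀ M m) (G l)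

private theorem Hensel_seq_spec {k ι : Type*} [Field k] [Fintype ι] [DecidableEq ι]
    (G : ι → MvPolynomial ι (PowerSeries k)) (x₀ : ι → k) (M : Matrix ι ι k)
    (h0 : ∀ i, PowerSeries.constantCoeff (eval (fun j => PowerSeries.C (x₀ j)) (G i)) = 0)
    (hM : ∀ i l, ∑ j, PowerSeries.constantCoeff
      (eval (fun j => PowerSeries.C (x₀ j)) (pderiv j (G i))) * M j l = if i = l then 1 else 0)
    (m : ℕ) :
    (∀ i, (PowerSeries.X : PowerSeries k) ^ (m + 1) ∣ eval (Hensel_seq G x₀ M m) (G i)) ∧
      ∀ i, (PowerSeries.X : PowerSeries k) ∣ Hensel_seq G x₀ M m i - PowerSeries.C (x₀ i) := by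
  induction m with
  | zero =>
    refine ⟨fun i => ?_, fun i => by simp [Hensel_seq]⟩
    rw [zero_add, pow_one, PowerSeries.X_dvd_iff]
    exact h0 i
  | succ m ih =>
    obtain ⟨ih1, ih2⟩ := ih
    have hδ : ∀ j, (PowerSeries.X : PowerSeries k) ^ (m + 1) ∣
        -∑ l, PowerSeries.C (M j l) * eval (Hensel_seq G x₀ M m) (G l) := fun j =>
      (Finset.dvd_sum fun l _ => (ih1 l).mul_left _).neg_right
    refine ⟨fun i => ?_, fun i => ?_⟩
    · have ht := Hensel_taylor _ (Hensel_seq G x₀ M m) _ hδ (G i)
      change _ ∣ eval (Hensel_seq G x₀ M (m + 1)) (G i) - _ - _ at ht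
      have h1 : eval (Hensel_seq G x₀ M (m + 1)) (G i) =
          (eval (Hensel_seq G x₀ M (m + 1)) (G i) - eval (Hensel_seq G x₀ M m) (G i)
            - ∑ j, eval (Hensel_seq G x₀ M m) (pderiv j (G i)) *
              (-∑ l, PowerSeries.C (M j l) * eval (Hensel_seq G x₀ M m) (G l)))
          + (eval (Hensel_seq G x₀ M m) (G i)
            + ∑ j, eval (Hensel_seq G x₀ M m) (pderiv j (G i)) *
              (-∑ l, PowerSeries.C (M j l) * eval (Hensel_seq G x₀ M m) (G l))) := by ring
      rw [h1]
      refine dvd_add ?_ ?_
      · refine dvd_trans ?_ ht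
        rw [← pow_mul]
        exact pow_dvd_pow _ (by omega)
      · have h2 : ∀ j, (PowerSeries.X : PowerSeries k) ∣
            eval (Hensel_seq G x₀ M m) (pderiv j (G i)) -
              PowerSeries.C (PowerSeries.constantCoeff
                (eval (fun j => PowerSeries.C (x₀ j)) (pderiv j (G i)))) := by
          intro j
          have h3 := Hensel_eval_sub _ (Hensel_seq G x₀ M m) (fun j => PowerSeries.C (x₀ j)) ih2
            (pderiv j (G i))
          have h4 : (PowerSeries.X : PowerSeries k) ∣
              eval (fun j => PowerSeries.C (x₀ j)) (pderiv j (G i)) -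
              PowerSeries.C (PowerSeries.constantCoeff
                (eval (fun j => PowerSeries.C (x₀ j)) (pderiv j (G i)))) := by
            rw [PowerSeries.X_dvd_iff, map_sub, PowerSeries.constantCoeff_C, sub_self]
          have h5 := dvd_add h3 h4
          rwa [sub_add_sub_cancel] at h5
        have h6 : eval (Hensel_seq G x₀ M m) (G i)
            + ∑ j, eval (Hensel_seq G x₀ M m) (pderiv j (G i)) *
              (-∑ l, PowerSeries.C (M j l) * eval (Hensel_seq G x₀ M m) (G l)) =
            -∑ l, (∑ j, (eval (Hensel_seq G x₀ M m) (pderiv j (G i)) -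
              PowerSeries.C (PowerSeries.constantCoeff
                (eval (fun j => PowerSeries.C (x₀ j)) (pderiv j (G i))))) *
                  PowerSeries.C (M j l)) * eval (Hensel_seq G x₀ M m) (G l) := by
          have h7 : ∑ j, eval (Hensel_seq G x₀ M m) (pderiv j (G i)) *
              (-∑ l, PowerSeries.C (M j l) * eval (Hensel_seq G x₀ M m) (G l)) =
              -∑ l, (∑ j, eval (Hensel_seq G x₀ M m) (pderiv j (G i)) *
                PowerSeries.C (M j l)) * eval (Hensel_seq G x₀ M m) (G l) := by
            simp only [mul_neg, Finset.sum_neg_distrib, Finset.mul_sum, Finset.sum_mul]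
            rw [Finset.sum_comm]
            congr 1
            refine Finset.sum_congr rfl fun l _ => Finset.sum_congr rfl fun j _ => ?_
            ring
          have h8 : ∀ l, (∑ j, (eval (Hensel_seq G x₀ M m) (pderiv j (G i)) -
              PowerSeries.C (PowerSeries.constantCoeff
                (eval (fun j => PowerSeries.C (x₀ j)) (pderiv j (G i))))) *
                  PowerSeries.C (M j l)) =
              (∑ j, eval (Hensel_seq G x₀ M m) (pderiv j (G i)) *
                PowerSeries.C (M j l)) - (if i = l then 1 else 0) := by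
            intro l
            have h9 : (PowerSeries.C (∑ j, PowerSeries.constantCoeff
              (eval (fun j => PowerSeries.C (x₀ j)) (pderiv j (G i))) * M j l) :
                PowerSeries k) = if i = l then 1 else 0 := by
              rw [hM i l]
              split_ifs
              · exact map_one _
              · exact map_zero _
            rw [← h9, map_sum, ← Finset.sum_sub_distrib]
            refine Finset.sum_congr rfl fun j _ => ?_
            rw [map_mul, sub_mul]
          have h11 : ∑ l, (∑ j, (eval (Hensel_seq G x₀ M m) (pderiv j (G i)) -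
              PowerSeries.C (PowerSeries.constantCoeff
                (eval (fun j => PowerSeries.C (x₀ j)) (pderiv j (G i))))) *
                  PowerSeries.C (M j l)) * eval (Hensel_seq G x₀ M m) (G l) =
              ∑ l, (∑ j, eval (Hensel_seq G x₀ M m) (pderiv j (G i)) *
                PowerSeries.C (M j l)) * eval (Hensel_seq G x₀ M m) (G l) -
              ∑ l, (if i = l then (1 : PowerSeries k) else 0) *
                eval (Hensel_seq G x₀ M m) (G l) := by
            rw [← Finset.sum_sub_distrib]
            refine Finset.sum_congr rfl fun l _ => ?_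
            rw [h8 l, sub_mul]
          have h10 : ∑ l, (if i = l then (1 : PowerSeries k) else 0) *
              eval (Hensel_seq G x₀ M m) (G l) = eval (Hensel_seq G x₀ M m) (G i) := by
            simp
          rw [h7, h11, h10]
          ring
        rw [h6]
        refine (Finset.dvd_sum fun l _ => ?_).neg_right
        rw [pow_succ' (PowerSeries.X : PowerSeries k) (m + 1)]
        exact mul_dvd_mul (Finset.dvd_sum fun j _ => (h2 j).mul_right _) (ih1 l)
    · have h1 : Hensel_seq G x₀ M (m + 1) i - PowerSeries.C (x₀ i) =
          (Hensel_seq G x₀ M m i - PowerSeries.C (x₀ i)) +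
          -∑ l, PowerSeries.C (M i l) * eval (Hensel_seq G x₀ M m) (G l) := by
        change Hensel_seq G x₀ M m i +
          -∑ l, PowerSeries.C (M i l) * eval (Hensel_seq G x₀ M m) (G l) - _ = _
        ring
      rw [h1]
      exact dvd_add (ih2 i) ((dvd_pow_self _ (Nat.succ_ne_zero m)).trans (hδ i))

/-- Hensel's lemma for a square system of polynomial equations over `k⟦t⟧`. -/
theorem exists_root_powerSeries {k : Type*} [Field k] {ι : Type*} [Fintype ι]
    (G : ι → MvPolynomial ι (PowerSeries k)) (x₀ : ι → k)
    (h0 : ∀ i, PowerSeries.constantCoeff (eval (fun j => PowerSeries.C (x₀ j)) (G i)) = 0)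
    (hJ : ∀ d : ι → k, (∀ i, ∑ j, PowerSeries.constantCoeff
      (eval (fun j => PowerSeries.C (x₀ j)) (pderiv j (G i))) * d j = 0) → d = 0) :
    ∃ x : ι → PowerSeries k, (∀ i, eval x (G i) = 0) ∧
      ∀ i, PowerSeries.constantCoeff (x i) = x₀ i := by
  classical
  obtain ⟨M, hM⟩ : ∃ M : Matrix ι ι k, ∀ i l, ∑ j, PowerSeries.constantCoeff
      (eval (fun j => PowerSeries.C (x₀ j)) (pderiv j (G i))) * M j l =
        if i = l then 1 else 0 := by
    let J0 : Matrix ι ι k := Matrix.of fun i j => PowerSeries.constantCoeff
      (eval (fun j => PowerSeries.C (x₀ j)) (pderiv j (G i)))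
    have hinj : Function.Injective J0.mulVec := by
      have hlin : Function.Injective J0.mulVecLin := by
        rw [injective_iff_map_eq_zero J0.mulVecLin]
        intro d hd
        refine hJ d fun i => ?_
        exact congrFun hd i
      exact hlin
    have hunit := Matrix.mulVec_injective_iff_isUnit.mp hinj
    have hdet := (Matrix.isUnit_iff_isUnit_det _).mp hunit
    refine ⟨J0⁻¹, fun i l => ?_⟩
    have h1 := congrFun (congrFun (Matrix.mul_nonsing_inv J0 hdet) i) l
    rw [Matrix.mul_apply, Matrix.one_apply] at h1
    exact h1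
  have hspec := Hensel_seq_spec G x₀ M h0 hM
  have hstep : ∀ m i, ∀ l < m + 1, PowerSeries.coeff l (Hensel_seq G x₀ M (m + 1) i) =
      PowerSeries.coeff l (Hensel_seq G x₀ M m i) := by
    intro m i l hl
    have h1 : (PowerSeries.X : PowerSeries k) ^ (m + 1) ∣
        -∑ l, PowerSeries.C (M i l) * eval (Hensel_seq G x₀ M m) (G l) :=
      (Finset.dvd_sum fun l _ => ((hspec m).1 l).mul_left _).neg_right
    have h2 := PowerSeries.X_pow_dvd_iff.mp h1 l hl
    change PowerSeries.coeff l (Hensel_seq G x₀ M m i +
      -∑ l, PowerSeries.C (M i l) * eval (Hensel_seq G x₀ M m) (G l)) = _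
    rw [map_add, h2, add_zero]
  have hstab : ∀ (i : ι) (l n : ℕ), l ≤ n → PowerSeries.coeff l (Hensel_seq G x₀ M n i) =
      PowerSeries.coeff l (Hensel_seq G x₀ M l i) := by
    intro i l n hln
    induction n, hln using Nat.le_induction with
    | base => rfl
    | succ n hn ih => rw [hstep n i l (by omega), ih]
  refine ⟨fun i => PowerSeries.mk fun n => PowerSeries.coeff n (Hensel_seq G x₀ M n i), ?_, ?_⟩
  · intro i
    have hdvd : ∀ n, (PowerSeries.X : PowerSeries k) ^ (n + 1) ∣
        eval (fun i => PowerSeries.mk fun n => PowerSeries.coeff n (Hensel_seq G x₀ M n i))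
          (G i) := by
      intro n
      have h1 := Hensel_eval_sub ((PowerSeries.X : PowerSeries k) ^ (n + 1))
        (fun i => PowerSeries.mk fun n => PowerSeries.coeff n (Hensel_seq G x₀ M n i))
        (Hensel_seq G x₀ M n) (fun j => by
          rw [PowerSeries.X_pow_dvd_iff]
          intro l hl
          rw [map_sub, PowerSeries.coeff_mk, hstab j l n (by omega), sub_self]) (G i)
      have h2 := dvd_add h1 ((hspec n).1 i)
      rwa [sub_add_cancel] at h2
    ext n
    rw [map_zero]
    exact PowerSeries.X_pow_dvd_iff.mp (hdvd n) n (Nat.lt_succ_self n)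
  · intro i
    rw [← PowerSeries.coeff_zero_eq_constantCoeff_apply, PowerSeries.coeff_mk]
    change PowerSeries.coeff 0 (PowerSeries.C (x₀ i)) = x₀ i
    rw [PowerSeries.coeff_zero_C]

end Pool.Agent.MultiSpec
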