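import Mathlib
import Pool.Agent.MultiSpec.Hensel

set_option autoImplicit false

namespace Pool.Agent.MultiSpec

open Polynomial

namespace PellAux

/-- An additive map applied to the coefficients of a polynomial. -/
noncomputable def mapAdd {R S : Type*} [CommRing R] [CommRing S] (D : R →+ S) (P : R[X]) : S[X] :=
  ∑ i ∈ P.support, monomial i (D (P.coeff i))

theorem coeff_mapAdd {R S : Type*} [CommRing R] [CommRing S] (D : R →+ S) (P : R[X]) (n : ℕ) :
    (mapAdd D P).coeff n = D (P.coeff n) := by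
  unfold mapAdd
  rw [finsetSum_coeff]
  simp only [coeff_monomial]
  rw [Finset.sum_ite_eq']
  split_ifs with h
  · rfl
  · rw [notMem_support_iff.mp h, map_zero]

theorem mapAdd_add {R S : Type*} [CommRing R] [CommRing S] (D : R →+ S) (P Q : R[X]) :
    mapAdd D (P + Q) = mapAdd D P + mapAdd D Q := by
  ext n; simp [coeff_mapAdd]

theorem mapAdd_sub {R S : Type*} [CommRing R] [CommRing S] (D : R →+ S) (P Q : R[X]) :
    mapAdd D (P - Q) = mapAdd D P - mapAdd D Q := by
  ext n; simp [coeff_mapAdd]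

theorem mapAdd_C {R S : Type*} [CommRing R] [CommRing S] (D : R →+ S) (a : R) :
    mapAdd D (C a) = C (D a) := by
  ext n; rw [coeff_mapAdd, coeff_C, coeff_C]; split_ifs <;> simp

theorem mapAdd_X_pow {R S : Type*} [CommRing R] [CommRing S] (D : R →+ S) (h1 : D 1 = 0) (m : ℕ) :
    mapAdd D (X ^ m) = 0 := by
  ext n; rw [coeff_mapAdd, coeff_X_pow]; split_ifs <;> simp [h1]

theorem mapAdd_mul {R S : Type*} [CommRing R] [CommRing S] (D : R →+ S) (ε : R →+* S)
    (hD : ∀ a b, D (a * b) = ε a * D b + D a * ε b) (P Q : R[X]) :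
    mapAdd D (P * Q) = P.map ε * mapAdd D Q + mapAdd D P * Q.map ε := by
  ext n
  rw [coeff_mapAdd, coeff_mul, map_sum, coeff_add, coeff_mul, coeff_mul, ← Finset.sum_add_distrib]
  refine Finset.sum_congr rfl fun x _ => ?_
  rw [hD, coeff_mapAdd, coeff_mapAdd, coeff_map, coeff_map]

/-- index type of the unknowns -/
abbrev Idx (N : ℕ) := Fin N ⊕ (Fin (N - 2) ⊕ Fin 2)

/-- the ring of polynomials in the unknowns -/
abbrev RR (k : Type*) [Field k] (N : ℕ) := MvPolynomial (Idx N) (PowerSeries k)

/-- the polynomial `A` with coefficients `x` -/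
noncomputable def pA {R : Type*} [CommRing R] {N : ℕ} (x : Idx N → R) : R[X] :=
  X ^ N + ∑ i : Fin N, C (x (Sum.inl i)) * X ^ (i : ℕ)

/-- the polynomial `B` with coefficients `x` -/
noncomputable def pB {R : Type*} [CommRing R] {N : ℕ} (x : Idx N → R) : R[X] :=
  X ^ (N - 2) + ∑ i : Fin (N - 2), C (x (Sum.inr (Sum.inl i))) * X ^ (i : ℕ)

/-- the first factor -/
noncomputable def pU {R : Type*} [CommRing R] {N : ℕ} (t : R) (x : Idx N → R) : R[X] :=
  (X - C (x (Sum.inr (Sum.inr 0)))) ^ 2 - C t

/-- the second factor -/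
noncomputable def pV {R : Type*} [CommRing R] {N : ℕ} (t : R) (x : Idx N → R) : R[X] :=
  (X - C (x (Sum.inr (Sum.inr 1)))) ^ 2 - C t

/-- the difference of the two sides of the equation -/
noncomputable def pE {R : Type*} [CommRing R] {N : ℕ} (t : R) (x : Idx N → R) : R[X] :=
  pA x ^ 2 - (4 * X ^ N + pU t x * pV t x * pB x ^ 2)

theorem pA_map {R S : Type*} [CommRing R] [CommRing S] {N : ℕ} (f : R →+* S) (x : Idx N → R) :
    (pA x).map f = pA (fun i => f (x i)) := by
  simp [pA, Polynomial.map_sum]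

theorem pB_map {R S : Type*} [CommRing R] [CommRing S] {N : ℕ} (f : R →+* S) (x : Idx N → R) :
    (pB x).map f = pB (fun i => f (x i)) := by
  simp [pB, Polynomial.map_sum]

theorem pU_map {R S : Type*} [CommRing R] [CommRing S] {N : ℕ} (f : R →+* S) (t : R)
    (x : Idx N → R) : (pU t x).map f = pU (f t) (fun i => f (x i)) := by
  simp [pU]

theorem pV_map {R S : Type*} [CommRing R] [CommRing S] {N : ℕ} (f : R →+* S) (t : R)
    (x : Idx N → R) : (pV t x).map f = pV (f t) (fun i => f (x i)) := by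
  simp [pV]

theorem pE_map {R S : Type*} [CommRing R] [CommRing S] {N : ℕ} (f : R →+* S) (t : R)
    (x : Idx N → R) : (pE t x).map f = pE (f t) (fun i => f (x i)) := by
  simp [pE, pA_map, pB_map, pU_map, pV_map]

theorem degree_sum_lt {R : Type*} [CommRing R] (n : ℕ) (y : Fin n → R) :
    (∑ i : Fin n, C (y i) * X ^ (i : ℕ) : R[X]).degree < (n : WithBot ℕ) := by
  refine (degree_sum_le _ _).trans_lt ?_
  refine (Finset.sup_lt_iff (by exact WithBot.bot_lt_coe n)).mpr ?_
  intro i _
  exact (degree_C_mul_X_pow_le _ _).trans_lt (by exact_mod_cast i.2)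

theorem monic_pA {R : Type*} [CommRing R] {N : ℕ} (x : Idx N → R) : (pA x).Monic :=
  monic_X_pow_add (degree_sum_lt _ _)

theorem monic_pB {R : Type*} [CommRing R] {N : ℕ} (x : Idx N → R) : (pB x).Monic :=
  monic_X_pow_add (degree_sum_lt _ _)

theorem degree_pA {R : Type*} [CommRing R] [Nontrivial R] {N : ℕ} (x : Idx N → R) :
    (pA x).natDegree = N := by
  have := degree_sum_lt N (fun i => x (Sum.inl i))
  unfold pA
  rw [natDegree_add_eq_left_of_degree_lt (by rwa [degree_X_pow]), natDegree_X_pow]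

theorem degree_pB {R : Type*} [CommRing R] [Nontrivial R] {N : ℕ} (x : Idx N → R) :
    (pB x).natDegree = N - 2 := by
  have := degree_sum_lt (N - 2) (fun i => x (Sum.inr (Sum.inl i)))
  unfold pB
  rw [natDegree_add_eq_left_of_degree_lt (by rwa [degree_X_pow]), natDegree_X_pow]

theorem monic_pU {R : Type*} [CommRing R] [Nontrivial R] {N : ℕ} (t : R) (x : Idx N → R) :
    (pU t x).Monic ∧ (pU t x).natDegree = 2 := by
  have h : ∀ c : R, ((X - C c) ^ 2).Monic ∧ ((X - C c) ^ 2).natDegree = 2 := fun c =>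
    ⟨(monic_X_sub_C c).pow 2, by rw [(monic_X_sub_C c).natDegree_pow, natDegree_X_sub_C]⟩
  refine ⟨(h _).1.sub_of_left ?_, ?_⟩
  · rw [degree_eq_natDegree (h _).1.ne_zero, (h _).2]
    exact degree_C_le.trans_lt (by norm_num)
  · unfold pU
    rw [natDegree_sub_C, (h _).2]

theorem monic_pV {R : Type*} [CommRing R] [Nontrivial R] {N : ℕ} (t : R) (x : Idx N → R) :
    (pV t x).Monic ∧ (pV t x).natDegree = 2 := by
  have h : ∀ c : R, ((X - C c) ^ 2).Monic ∧ ((X - C c) ^ 2).natDegree = 2 := fun c =>
    ⟨(monic_X_sub_C c).pow 2, by rw [(monic_X_sub_C c).natDegree_pow, natDegree_X_sub_C]⟩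
  refine ⟨(h _).1.sub_of_left ?_, ?_⟩
  · rw [degree_eq_natDegree (h _).1.ne_zero, (h _).2]
    exact degree_C_le.trans_lt (by norm_num)
  · unfold pV
    rw [natDegree_sub_C, (h _).2]

theorem degree_pE {R : Type*} [CommRing R] [Nontrivial R] {N : ℕ} (hN : 3 ≤ N) (t : R)
    (x : Idx N → R) : (pE t x).degree < ((2 * N : ℕ) : WithBot ℕ) := by
  have h1 : (pA x ^ 2).Monic ∧ (pA x ^ 2).degree = ((2 * N : ℕ) : WithBot ℕ) := by
    refine ⟨(monic_pA x).pow 2, ?_⟩
    rw [degree_eq_natDegree ((monic_pA x).pow 2).ne_zero, (monic_pA x).natDegree_pow, degree_pA]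
  have hm : (pU t x * pV t x * pB x ^ 2).Monic :=
    ((monic_pU t x).1.mul (monic_pV t x).1).mul ((monic_pB x).pow 2)
  have h2 : (pU t x * pV t x * pB x ^ 2).degree = ((2 * N : ℕ) : WithBot ℕ) := by
    rw [degree_eq_natDegree hm.ne_zero, ((monic_pU t x).1.mul (monic_pV t x).1).natDegree_mul
      ((monic_pB x).pow 2), (monic_pU t x).1.natDegree_mul (monic_pV t x).1,
      (monic_pB x).natDegree_pow, degree_pB, (monic_pU t x).2, (monic_pV t x).2]
    congr 1
    omega
  have h3 : (4 * X ^ N : R[X]).degree < ((2 * N : ℕ) : WithBot ℕ) := by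
    have : (4 * X ^ N : R[X]) = C 4 * X ^ N := by rw [map_ofNat]
    rw [this]
    exact (degree_C_mul_X_pow_le _ _).trans_lt (by exact_mod_cast (by omega : N < 2 * N))
  unfold pE
  have h4 : (pA x ^ 2 - pU t x * pV t x * pB x ^ 2).degree < ((2 * N : ℕ) : WithBot ℕ) := by
    have := degree_sub_lt_left (p := pA x ^ 2) (q := pU t x * pV t x * pB x ^ 2)
      (by rw [h1.2, h2]) h1.1.ne_zero (by rw [h1.1.leadingCoeff, hm.leadingCoeff])
    rwa [h1.2] at this
  have e : pA x ^ 2 - (4 * X ^ N + pU t x * pV t x * pB x ^ 2) =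
      (pA x ^ 2 - pU t x * pV t x * pB x ^ 2) - 4 * X ^ N := by ring
  rw [e]
  exact (degree_sub_le _ _).trans_lt (max_lt h4 h3)

/-- a monic polynomial of degree `n` is `X^n` plus the sum over `Fin n`. -/
theorem as_sum_fin {R : Type*} [CommRing R] {n : ℕ} {p : R[X]} (hp : p.Monic)
    (hn : p.natDegree = n) : X ^ n + ∑ i : Fin n, C (p.coeff i) * X ^ (i : ℕ) = p := by
  rw [Fin.sum_univ_eq_sum_range (fun i => C (p.coeff i) * X ^ i) n]
  conv_rhs => rw [hp.as_sum]
  rw [hn]

/-- The linear algebra: the equation mod `t` has an invertible Jacobian. -/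
theorem lin_key {k : Type*} [Field k] [CharZero k] {N : ℕ} (hN : 3 ≤ N) (ζ : k) (hζ : ζ ≠ 1)
    (a b B0 : k[X]) (e0 e1 : k) (ha : a.degree < N)
    (hB : B0 * ((X - C ζ) * (X - 1)) = X ^ N - 1)
    (hB1 : B0.eval ζ ≠ 0) (hB2 : B0.eval 1 ≠ 0)
    (h : 2 * (X ^ N + 1) * a = (X - C ζ) * (X - 1) * B0 *
      (2 * ((X - C ζ) * (X - 1)) * b - 2 * B0 * (C e0 * (X - 1) + C e1 * (X - C ζ)))) :
    a = 0 ∧ b = 0 ∧ e0 = 0 ∧ e1 = 0 := by
  have hmon : (X ^ N - 1 : k[X]).Monic := by
    have := monic_X_pow_sub_C (1 : k) (n := N) (by omega)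
    simpa using this
  have hdeg : (X ^ N - 1 : k[X]).degree = N := by
    have := degree_X_pow_sub_C (n := N) (by omega) (1 : k)
    simpa using this
  have hdvd : (X ^ N - 1 : k[X]) ∣ 4 * a := by
    refine ⟨(2 * ((X - C ζ) * (X - 1)) * b - 2 * B0 * (C e0 * (X - 1) + C e1 * (X - C ζ))) - 2 * a,
      ?_⟩
    rw [← hB]
    have e : (2 * (X ^ N + 1) * a : k[X]) = 2 * (X ^ N - 1) * a + 4 * a := by ring
    rw [e, ← hB] at h
    linear_combination h
  have ha0 : a = 0 := by
    by_contra hne
    have h4 : (4 * a : k[X]) = C 4 * a := by rw [map_ofNat]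
    have hne4 : (4 * a : k[X]) ≠ 0 := by
      rw [h4]; exact mul_ne_zero (by simp) hne
    have := degree_le_of_dvd hdvd hne4
    rw [hdeg, h4, degree_C_mul (by norm_num : (4 : k) ≠ 0)] at this
    exact absurd ha (not_lt.mpr this)
  have hprod : ((X - C ζ) * (X - 1) * B0 : k[X]) ≠ 0 := by
    have : ((X - C ζ) * (X - 1) * B0 : k[X]) = X ^ N - 1 := by rw [← hB]; ring
    rw [this]; exact hmon.ne_zero
  have h2 : (((X - C ζ) * (X - 1)) * b : k[X]) = B0 * (C e0 * (X - 1) + C e1 * (X - C ζ)) := by
    rw [ha0, mul_zero] at h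
    have h' := (mul_eq_zero.mp h.symm).resolve_left hprod
    have h2 : (2 : k[X]) ≠ 0 := two_ne_zero
    apply mul_left_cancel₀ h2
    linear_combination h'
  have he0 : e0 = 0 := by
    have := congrArg (Polynomial.eval ζ) h2
    simp only [eval_mul, eval_sub, eval_X, eval_C, eval_add, eval_one, sub_self, zero_mul,
      mul_zero, add_zero] at this
    have h3 := (mul_eq_zero.mp this.symm).resolve_left hB1
    exact (mul_eq_zero.mp h3).resolve_right (sub_ne_zero.mpr hζ)
  have he1 : e1 = 0 := by
    have := congrArg (Polynomial.eval 1) h2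
    simp only [eval_mul, eval_sub, eval_X, eval_C, eval_add, eval_one, sub_self, zero_mul,
      mul_zero, zero_add] at this
    have h3 := (mul_eq_zero.mp this.symm).resolve_left hB2
    exact (mul_eq_zero.mp h3).resolve_right (sub_ne_zero.mpr hζ.symm)
  refine ⟨ha0, ?_, he0, he1⟩
  rw [he0, he1] at h2
  simp only [map_zero, zero_mul, add_zero, mul_zero] at h2
  exact (mul_eq_zero.mp h2).resolve_left (fun h0 => hprod (by rw [h0, zero_mul]))

end PellAux

open PellAux

/-- The solution of the Pell equation over `k⟦t⟧` (from Hensel's lemma, module Hensel). -/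
theorem exists_pell {k : Type*} [Field k] [CharZero k] {N : ℕ} (hN : 3 ≤ N) (ζ : k)
    (hζ : IsPrimitiveRoot ζ N) : ∃ (c₀ c₁ : PowerSeries k) (A B : Polynomial (PowerSeries k)),
      A.Monic ∧ A.natDegree = N ∧ B.Monic ∧ B.natDegree = N - 2 ∧
      A ^ 2 = 4 * X ^ N + ((X - C c₀) ^ 2 - C PowerSeries.X) *
        ((X - C c₁) ^ 2 - C PowerSeries.X) * B ^ 2 ∧
      PowerSeries.constantCoeff c₀ = ζ ∧ PowerSeries.constantCoeff c₁ = 1 ∧
      A.map PowerSeries.constantCoeff = X ^ N + 1 ∧
      B.map PowerSeries.constantCoeff * ((X - C ζ) * (X - 1)) = X ^ N - 1 := by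
  classical
  have hζ1 : ζ ≠ 1 := hζ.ne_one (by omega)
  -- the polynomial B0
  have hmonN : (X ^ N - 1 : k[X]).Monic := by
    have := monic_X_pow_sub_C (1 : k) (n := N) (by omega)
    simpa using this
  have hdegN : (X ^ N - 1 : k[X]).natDegree = N := by
    have := natDegree_X_pow_sub_C (n := N) (r := (1 : k))
    simpa using this
  have hcop : IsCoprime (X - C ζ : k[X]) (X - 1) := by
    have := isCoprime_X_sub_C_of_isUnit_sub (a := ζ) (b := (1 : k))
      (sub_ne_zero.mpr hζ1).isUnit
    simpa using this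
  have hd1 : (X - C ζ : k[X]) ∣ X ^ N - 1 := by
    rw [dvd_iff_isRoot]; simp [hζ.pow_eq_one]
  have hd2 : (X - 1 : k[X]) ∣ X ^ N - 1 := by
    have : (X - C 1 : k[X]) ∣ X ^ N - 1 := by
      rw [dvd_iff_isRoot]; simp
    simpa using this
  obtain ⟨B0, hB0⟩ := hcop.mul_dvd hd1 hd2
  have hB0' : B0 * ((X - C ζ) * (X - 1)) = X ^ N - 1 := by rw [hB0]; ring
  have hq : ((X - C ζ) * (X - 1) : k[X]).Monic ∧ ((X - C ζ) * (X - 1) : k[X]).natDegree = 2 := by
    have h1 : (X - 1 : k[X]).Monic := by simpa using monic_X_sub_C (1 : k)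
    have h2 : (X - 1 : k[X]).natDegree = 1 := by simpa using natDegree_X_sub_C (1 : k)
    refine ⟨(monic_X_sub_C ζ).mul h1, ?_⟩
    rw [(monic_X_sub_C ζ).natDegree_mul h1, natDegree_X_sub_C, h2]
  have hB0m : B0.Monic := by
    have h := hmonN
    rw [hB0] at h
    exact hq.1.of_mul_monic_left h
  have hB0d : B0.natDegree = N - 2 := by
    have h := hdegN
    rw [hB0, hq.1.natDegree_mul hB0m, hq.2] at h
    omega
  -- simple roots
  have hsep : ∀ z : k, z ^ N = 1 → (derivative (X ^ N - 1 : k[X])).eval z ≠ 0 := by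
    intro z hz
    have hz0 : z ≠ 0 := by
      rintro rfl
      rw [zero_pow (by omega)] at hz
      exact zero_ne_one hz
    have hNk : (N : k) ≠ 0 := by exact_mod_cast (by omega : N ≠ 0)
    simp [derivative_sub, derivative_X_pow, hz0, hNk]
  have hBζ : B0.eval ζ ≠ 0 := by
    intro h0
    apply hsep ζ hζ.pow_eq_one
    rw [hB0]
    simp [h0]
  have hB1 : B0.eval 1 ≠ 0 := by
    intro h0
    apply hsep 1 (one_pow _)
    rw [hB0]
    simp [h0]
  -- A0
  have hA0m : (X ^ N + 1 : k[X]).Monic := by
    have := monic_X_pow_add_C (1 : k) (n := N) (by omega)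
    simpa using this
  have hA0d : (X ^ N + 1 : k[X]).natDegree = N := by
    have := natDegree_X_pow_add_C (n := N) (r := (1 : k))
    simpa using this
  set x₀ : Idx N → k := Sum.elim (fun i => (X ^ N + 1 : k[X]).coeff i)
    (Sum.elim (fun i => B0.coeff i) ![ζ, 1]) with hx₀
  have hpA0 : pA x₀ = X ^ N + 1 := by
    have := as_sum_fin hA0m hA0d
    exact this
  have hpB0 : pB x₀ = B0 := by
    have := as_sum_fin hB0m hB0d
    exact this
  have hpU0 : pU 0 x₀ = (X - C ζ) ^ 2 := by
    simp [pU, hx₀]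
  have hpV0 : pV 0 x₀ = (X - 1) ^ 2 := by
    simp [pV, hx₀]
  have hpE0 : pE 0 x₀ = 0 := by
    unfold pE
    rw [hpA0, hpB0, hpU0, hpV0]
    linear_combination (-(B0 * ((X - C ζ) * (X - 1)) + (X ^ N - 1))) * hB0'
  -- the equivalence of index types
  have hcard : Fintype.card (Idx N) = 2 * N := by
    simp [Idx]
    omega
  let e : Idx N ≃ Fin (2 * N) := Fintype.equivFinOfCardEq hcard
  -- the equations
  let E : (RR k N)[X] := pE (MvPolynomial.C PowerSeries.X) (fun i => MvPolynomial.X i)
  let G : Idx N → RR k N := fun i => E.coeff (e i : ℕ)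
  let ev : RR k N →+* k := (PowerSeries.constantCoeff).comp
    (MvPolynomial.eval (fun j => PowerSeries.C (x₀ j)))
  have hevX : ∀ i, ev (MvPolynomial.X i) = x₀ i := by
    intro i
    change PowerSeries.constantCoeff (MvPolynomial.eval _ (MvPolynomial.X i)) = _
    rw [MvPolynomial.eval_X, PowerSeries.constantCoeff_C]
  have hevt : ev (MvPolynomial.C PowerSeries.X) = 0 := by
    change PowerSeries.constantCoeff (MvPolynomial.eval _ (MvPolynomial.C PowerSeries.X)) = _
    rw [MvPolynomial.eval_C, PowerSeries.constantCoeff_X]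
  have hevfun : (fun i : Idx N => ev (MvPolynomial.X i)) = x₀ := funext hevX
  obtain ⟨x, hx, hx0⟩ := exists_root_powerSeries G x₀ (by
      intro i
      change ev (E.coeff (e i : ℕ)) = 0
      rw [← coeff_map, pE_map, hevt, hevfun, hpE0, coeff_zero]) (by
      intro d hd
      let D : RR k N →+ k :=
        { toFun := fun g => ∑ j, ev (MvPolynomial.pderiv j g) * d j
          map_zero' := by simp
          map_add' := by
            intro g h
            rw [← Finset.sum_add_distrib]
            refine Finset.sum_congr rfl fun j _ => ?_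
            rw [map_add, map_add, add_mul] }
      have hDdef : ∀ g, D g = ∑ j, ev (MvPolynomial.pderiv j g) * d j := fun _ => rfl
      have hDmul : ∀ g h, D (g * h) = ev g * D h + D g * ev h := by
        intro g h
        rw [hDdef, hDdef, hDdef, Finset.mul_sum, Finset.sum_mul, ← Finset.sum_add_distrib]
        refine Finset.sum_congr rfl fun j _ => ?_
        rw [MvPolynomial.pderiv_mul, map_add, map_mul, map_mul]
        ring
      have hD1 : D 1 = 0 := by
        rw [hDdef]
        refine Finset.sum_eq_zero fun j _ => ?_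
        rw [MvPolynomial.pderiv_one, map_zero, zero_mul]
      have hDC : ∀ s : PowerSeries k, D (MvPolynomial.C s) = 0 := by
        intro s
        rw [hDdef]
        refine Finset.sum_eq_zero fun j _ => ?_
        rw [MvPolynomial.pderiv_C, map_zero, zero_mul]
      have hDX : ∀ i, D (MvPolynomial.X i) = d i := by
        intro i
        rw [hDdef, Finset.sum_eq_single i]
        · rw [MvPolynomial.pderiv_X_self, map_one, one_mul]
        · intro j _ hj
          rw [MvPolynomial.pderiv_X_of_ne (Ne.symm hj), map_zero, zero_mul]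
        · intro h; exact absurd (Finset.mem_univ i) h
      have hDX4 : D (4 : RR k N) = 0 := by
        have : (4 : RR k N) = MvPolynomial.C 4 := by rw [map_ofNat]
        rw [this, hDC]
      have hmul := mapAdd_mul D ev hDmul
      -- vanishing of D E
      have hDE : mapAdd D E = 0 := by
        ext n
        rw [coeff_mapAdd, coeff_zero]
        by_cases hn : n < 2 * N
        · have := hd (e.symm ⟨n, hn⟩)
          have h2 : G (e.symm ⟨n, hn⟩) = E.coeff n := by
            simp [G]
          rw [h2] at this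
          exact this
        · have : E.coeff n = 0 := by
            apply coeff_eq_zero_of_degree_lt
            exact (degree_pE hN _ _).trans_le (by exact_mod_cast not_lt.mp hn)
          rw [this, map_zero]
      -- the pieces
      set a : k[X] := ∑ i : Fin N, C (d (Sum.inl i)) * X ^ (i : ℕ) with ha
      set b : k[X] := ∑ i : Fin (N - 2), C (d (Sum.inr (Sum.inl i))) * X ^ (i : ℕ) with hb
      have hsum : ∀ (n : ℕ) (y : Fin n → Idx N),
          mapAdd D (X ^ n + ∑ i : Fin n, C (MvPolynomial.X (y i) : RR k N) * X ^ (i : ℕ)) =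
            ∑ i : Fin n, C (d (y i)) * X ^ (i : ℕ) := by
        intro n y
        ext m
        rw [coeff_mapAdd, coeff_add, map_add, finsetSum_coeff, map_sum, finsetSum_coeff]
        have h0 : D ((X ^ n : (RR k N)[X]).coeff m) = 0 := by
          rw [coeff_X_pow]; split_ifs <;> simp [hD1]
        rw [h0, zero_add]
        refine Finset.sum_congr rfl fun i _ => ?_
        rw [coeff_C_mul_X_pow, coeff_C_mul_X_pow]
        split_ifs <;> simp [hDX]
      have hDA : mapAdd D (pA (fun i : Idx N => (MvPolynomial.X i : RR k N))) = a :=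
        hsum N (fun i => Sum.inl i)
      have hDB : mapAdd D (pB (fun i : Idx N => (MvPolynomial.X i : RR k N))) = b :=
        hsum (N - 2) (fun i => Sum.inr (Sum.inl i))
      have hDlin : ∀ i : Idx N, mapAdd D (X - C (MvPolynomial.X i : RR k N)) = - C (d i) := by
        intro i
        rw [mapAdd_sub, mapAdd_C, hDX]
        have := mapAdd_X_pow D hD1 1
        rw [pow_one] at this
        rw [this, zero_sub]
      have hmaplin : ∀ i : Idx N, (X - C (MvPolynomial.X i : RR k N)).map ev = X - C (x₀ i) := by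
        intro i
        simp [hevX]
      have hDU : mapAdd D (pU (MvPolynomial.C PowerSeries.X)
          (fun i : Idx N => (MvPolynomial.X i : RR k N))) =
          - (2 * (X - C ζ) * C (d (Sum.inr (Sum.inr 0)))) := by
        unfold pU
        rw [mapAdd_sub, mapAdd_C, hDC, pow_two, hmul, hDlin, hmaplin]
        simp [hx₀]
        ring
      have hDV : mapAdd D (pV (MvPolynomial.C PowerSeries.X)
          (fun i : Idx N => (MvPolynomial.X i : RR k N))) =
          - (2 * (X - 1) * C (d (Sum.inr (Sum.inr 1)))) := by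
        unfold pV
        rw [mapAdd_sub, mapAdd_C, hDC, pow_two, hmul, hDlin, hmaplin]
        simp [hx₀]
        ring
      have hD4 : mapAdd D (4 * X ^ N : (RR k N)[X]) = 0 := by
        have : (4 * X ^ N : (RR k N)[X]) = C 4 * X ^ N := by rw [map_ofNat]
        rw [this, hmul, mapAdd_C, mapAdd_X_pow D hD1, hDX4]
        simp
      have hmA : (pA (fun i : Idx N => (MvPolynomial.X i : RR k N))).map ev = X ^ N + 1 := by
        rw [pA_map, hevfun, hpA0]
      have hmB : (pB (fun i : Idx N => (MvPolynomial.X i : RR k N))).map ev = B0 := by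
        rw [pB_map, hevfun, hpB0]
      have hmU : (pU (MvPolynomial.C PowerSeries.X)
          (fun i : Idx N => (MvPolynomial.X i : RR k N))).map ev = (X - C ζ) ^ 2 := by
        rw [pU_map, hevfun, hevt, hpU0]
      have hmV : (pV (MvPolynomial.C PowerSeries.X)
          (fun i : Idx N => (MvPolynomial.X i : RR k N))).map ev = (X - 1) ^ 2 := by
        rw [pV_map, hevfun, hevt, hpV0]
      have hkey := hDE
      simp only [E, pE] at hkey
      rw [mapAdd_sub, mapAdd_add, hD4, pow_two (pA _), hmul, hmul, hmul, pow_two (pB _), hmul,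
        hDA, hDB, hDU, hDV, hmA, Polynomial.map_mul, Polynomial.map_mul, hmB, hmU, hmV] at hkey
      obtain ⟨ha0, hb0, he0, he1⟩ := lin_key hN ζ hζ1 a b B0 (d (Sum.inr (Sum.inr 0)))
        (d (Sum.inr (Sum.inr 1))) (degree_sum_lt _ _) hB0' hBζ hB1 (by
          linear_combination hkey)
      have hcoef : ∀ (n : ℕ) (y : Fin n → k), ∑ i : Fin n, C (y i) * X ^ (i : ℕ) = 0 →
          ∀ i, y i = 0 := by
        intro n y hy i
        have := congrArg (fun p : k[X] => p.coeff (i : ℕ)) hy
        simp only [finsetSum_coeff, coeff_C_mul_X_pow, coeff_zero] at this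
        rw [Finset.sum_eq_single i] at this
        · simpa using this
        · intro j _ hj
          rw [if_neg]
          intro h
          exact hj (Fin.ext h.symm)
        · intro h; exact absurd (Finset.mem_univ i) h
      funext i
      rcases i with i | i | i
      · exact hcoef N (fun i => d (Sum.inl i)) ha0 i
      · exact hcoef (N - 2) (fun i => d (Sum.inr (Sum.inl i))) hb0 i
      · fin_cases i
        · exact he0
        · exact he1)
  -- conclusion
  have hxE : pE PowerSeries.X x = 0 := by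
    ext1 n
    rw [coeff_zero]
    by_cases hn : n < 2 * N
    · have h1 := hx (e.symm ⟨n, hn⟩)
      have h2 : G (e.symm ⟨n, hn⟩) = E.coeff n := by
        simp [G]
      rw [h2, ← coeff_map, pE_map] at h1
      simpa using h1
    · exact coeff_eq_zero_of_degree_lt ((degree_pE hN _ _).trans_le
        (by exact_mod_cast not_lt.mp hn))
  have hx0' : (fun i => PowerSeries.constantCoeff (x i)) = x₀ := funext hx0
  refine ⟨x (Sum.inr (Sum.inr 0)), x (Sum.inr (Sum.inr 1)), pA x, pB x, monic_pA x, degree_pA x,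
    monic_pB x, degree_pB x, ?_, ?_, ?_, ?_, ?_⟩
  · exact sub_eq_zero.mp hxE
  · rw [hx0]; simp [hx₀]
  · rw [hx0]; simp [hx₀]
  · rw [pA_map, hx0', hpA0]
  · rw [pB_map, hx0', hpB0, hB0']

end Pool.Agent.MultiSpec
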