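import Mathlib

set_option autoImplicit false

namespace Pool.Agent.MultiSpec

open Polynomial

namespace Sections

/-- The polynomial with coefficients `a`. -/
noncomputable def pol {S : Type*} [CommRing S] (n : ℕ) : (Fin n → S) →ₗ[S] S[X] where
  toFun a := ∑ i : Fin n, monomial (i : ℕ) (a i)
  map_add' a b := by simp [Finset.sum_add_distrib]
  map_smul' c a := by
    simp only [Pi.smul_apply, smul_eq_mul, RingHom.id_apply, Finset.smul_sum, smul_monomial]

theorem pol_coeff {S : Type*} [CommRing S] (n : ℕ) (a : Fin n → S) (i : ℕ) :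
    (pol n a).coeff i = if h : i < n then a ⟨i, h⟩ else 0 := by
  show (∑ j : Fin n, monomial (j : ℕ) (a j)).coeff i = _
  rw [finsetSum_coeff]
  simp only [coeff_monomial]
  by_cases h : i < n
  · rw [dif_pos h, Finset.sum_eq_single ⟨i, h⟩]
    · simp
    · intro j _ hj
      rw [if_neg]
      intro hji
      exact hj (Fin.ext hji)
    · simp
  · rw [dif_neg h]
    refine Finset.sum_eq_zero fun j _ => ?_
    rw [if_neg]
    intro hji
    exact h (hji ▸ j.2)

theorem pol_map {S S' : Type*} [CommRing S] [CommRing S'] (f : S →+* S') (n : ℕ)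
    (a : Fin n → S) : (pol n a).map f = pol n (fun i => f (a i)) := by
  ext i
  rw [coeff_map, pol_coeff, pol_coeff]
  split_ifs <;> simp

theorem pol_of {S : Type*} [CommRing S] (n : ℕ) (p : S[X]) (hp : p.degree < n) :
    pol n (fun i => p.coeff i) = p := by
  ext i
  rw [pol_coeff]
  split_ifs with h
  · rfl
  · exact (coeff_eq_zero_of_degree_lt (lt_of_lt_of_le hp (by exact_mod_cast not_lt.mp h))).symm

theorem pol_degree {S : Type*} [CommRing S] (n : ℕ) (a : Fin n → S) :
    (pol n a).degree < n := by
  rw [degree_lt_iff_coeff_zero]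
  intro i hi
  rw [pol_coeff, dif_neg (not_lt.mpr hi)]

/-- The equations. -/
noncomputable def L {S : Type*} [CommRing S] (N m : ℕ) (A B : S[X]) :
    ((Fin (m + 2) → S) × (Fin m → S)) →ₗ[S] ((Fin m → S) × (Fin m → S)) where
  toFun x := (fun i => (A * pol m x.2 + B * pol (m + 2) x.1).coeff i,
    fun i => (A * pol m x.2 + B * pol (m + 2) x.1).coeff (N + i))
  map_add' x y := by
    refine Prod.ext (funext fun i => ?_) (funext fun i => ?_)
    · simp only [Prod.fst_add, Prod.snd_add, map_add, mul_add, coeff_add, Pi.add_apply]; ring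
    · simp only [Prod.fst_add, Prod.snd_add, map_add, mul_add, coeff_add, Pi.add_apply]; ring
  map_smul' c x := by
    refine Prod.ext (funext fun i => ?_) (funext fun i => ?_)
    · simp only [Prod.smul_fst, Prod.smul_snd, map_smul, mul_smul_comm, coeff_add, coeff_smul,
        Pi.smul_apply, smul_eq_mul, RingHom.id_apply]; ring
    · simp only [Prod.smul_fst, Prod.smul_snd, map_smul, mul_smul_comm, coeff_add, coeff_smul,
        Pi.smul_apply, smul_eq_mul, RingHom.id_apply]; ring

theorem L_fst {S : Type*} [CommRing S] (N m : ℕ) (A B : S[X])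
    (x : (Fin (m + 2) → S) × (Fin m → S)) (i : Fin m) :
    (L N m A B x).1 i = (A * pol m x.2 + B * pol (m + 2) x.1).coeff i := rfl

theorem L_snd {S : Type*} [CommRing S] (N m : ℕ) (A B : S[X])
    (x : (Fin (m + 2) → S) × (Fin m → S)) (i : Fin m) :
    (L N m A B x).2 i = (A * pol m x.2 + B * pol (m + 2) x.1).coeff (N + i) := rfl

theorem L_map {S S' : Type*} [CommRing S] [CommRing S'] (f : S →+* S') (N m : ℕ) (A B : S[X])
    (x : (Fin (m + 2) → S) × (Fin m → S)) :
    L N m (A.map f) (B.map f) (fun i => f (x.1 i), fun i => f (x.2 i)) =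
      (fun i => f ((L N m A B x).1 i), fun i => f ((L N m A B x).2 i)) := by
  refine Prod.ext (funext fun i => ?_) (funext fun i => ?_)
  · rw [L_fst]
    simp only [L_fst]
    rw [← coeff_map, Polynomial.map_add, Polynomial.map_mul, Polynomial.map_mul, pol_map, pol_map]
  · rw [L_snd]
    simp only [L_snd]
    rw [← coeff_map, Polynomial.map_add, Polynomial.map_mul, Polynomial.map_mul, pol_map, pol_map]

theorem pol_inj {S : Type*} [CommRing S] (n : ℕ) (a : Fin n → S) (h : pol n a = 0) : a = 0 := by
  funext i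
  have h1 : (pol n a).coeff i = 0 := by rw [h, coeff_zero]
  rw [pol_coeff, dif_pos i.2] at h1
  exact h1

/-- The projection detecting the kernel. -/
noncomputable def pr {k : Type*} [Field k] (m : ℕ) (q : k[X]) :
    ((Fin (m + 2) → k) × (Fin m → k)) →ₗ[k] (k × k) where
  toFun x := ((pol (m + 2) x.1 + q * pol m x.2).coeff 0,
    (pol (m + 2) x.1 + q * pol m x.2).coeff 1)
  map_add' x y := by
    refine Prod.ext ?_ ?_
    · simp only [Prod.fst_add, Prod.snd_add, map_add, mul_add, coeff_add]; ring
    · simp only [Prod.fst_add, Prod.snd_add, map_add, mul_add, coeff_add]; ring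
  map_smul' c x := by
    refine Prod.ext ?_ ?_
    · simp only [Prod.smul_fst, Prod.smul_snd, map_smul, mul_smul_comm, coeff_add, coeff_smul,
        smul_eq_mul, RingHom.id_apply]; ring
    · simp only [Prod.smul_fst, Prod.smul_snd, map_smul, mul_smul_comm, coeff_add, coeff_smul,
        smul_eq_mul, RingHom.id_apply]; ring

theorem degree_q {k : Type*} [Field k] (ζ : k) :
    ((X - C ζ) * (X - 1) : k[X]).degree = 2 := by
  have h1 : (X - 1 : k[X]) = X - C 1 := by simp
  rw [h1, degree_mul, degree_X_sub_C, degree_X_sub_C]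
  norm_num

theorem ker_inj {k : Type*} [Field k] [CharZero k] {N m : ℕ} (hm : 0 < m) (hmN : m < N)
    (ζ : k) (hζ : IsPrimitiveRoot ζ N) (B : k[X])
    (hB0 : B * ((X - C ζ) * (X - 1)) = X ^ N - 1)
    (x : (Fin (m + 2) → k) × (Fin m → k)) (hx : L N m (X ^ N + 1) B x = 0)
    (hpr : pr m ((X - C ζ) * (X - 1)) x = 0) : x = 0 := by
  classical
  set q : k[X] := (X - C ζ) * (X - 1) with hq
  set P := pol (m + 2) x.1 with hP
  set Q := pol m x.2 with hQ
  have hdq : q.degree = 2 := degree_q ζ
  have hq0 : q ≠ 0 := by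
    intro h
    rw [h] at hdq
    simp at hdq
  have hdP : P.degree < ((m + 2 : ℕ) : WithBot ℕ) := pol_degree _ _
  have hdQ : Q.degree < (m : WithBot ℕ) := pol_degree _ _
  have hdqQ : (q * Q).degree < ((m + 2 : ℕ) : WithBot ℕ) := by
    by_cases hQ0 : Q = 0
    · rw [hQ0, mul_zero, degree_zero]; exact WithBot.bot_lt_coe _
    · rw [degree_mul, hdq, degree_eq_natDegree hQ0]
      rw [degree_eq_natDegree hQ0] at hdQ
      have h1 : Q.natDegree < m := by exact_mod_cast hdQ
      have h2 : (2 + Q.natDegree : ℕ) < m + 2 := by omega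
      exact_mod_cast h2
  have hΦ1 : (P + q * Q).degree < ((m + 2 : ℕ) : WithBot ℕ) :=
    lt_of_le_of_lt (degree_add_le _ _) (max_lt hdP hdqQ)
  have hΦ2 : (P - q * Q).degree < ((m + 2 : ℕ) : WithBot ℕ) :=
    lt_of_le_of_lt (degree_sub_le _ _) (max_lt hdP hdqQ)
  have hqB : q * B = X ^ N - 1 := by rw [mul_comm]; exact hB0
  set Ee := (X ^ N + 1) * Q + B * P with hE
  have hqE : q * Ee = X ^ N * (P + q * Q) - (P - q * Q) := by
    calc q * Ee = (X ^ N + 1) * (q * Q) + (q * B) * P := by rw [hE]; ring
      _ = X ^ N * (P + q * Q) - (P - q * Q) := by rw [hqB]; ring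
  have hE1 : ∀ i : Fin m, Ee.coeff i = 0 := by
    intro i
    have := congrFun (congrArg Prod.fst hx) i
    rwa [L_fst] at this
  have hE2 : ∀ i : Fin m, Ee.coeff (N + i) = 0 := by
    intro i
    have := congrFun (congrArg Prod.snd hx) i
    rwa [L_snd] at this
  have hBdeg : B.natDegree + 2 = N := by
    have h1 : (B * q).natDegree = N := by
      rw [hB0]
      exact natDegree_X_pow_sub_C (n := N) (r := (1 : k))
    have hB0' : B ≠ 0 := by
      rintro rfl
      rw [zero_mul, natDegree_zero] at h1
      omega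
    rw [natDegree_mul hB0' hq0] at h1
    have h2 : q.natDegree = 2 := natDegree_eq_of_degree_eq_some hdq
    omega
  have hEdeg : Ee.degree < (N : WithBot ℕ) := by
    rw [degree_lt_iff_coeff_zero]
    intro i hi
    by_cases hi2 : i < N + m
    · have := hE2 ⟨i - N, by omega⟩
      simpa [Nat.add_sub_cancel' hi] using this
    · apply coeff_eq_zero_of_natDegree_lt
      have h1 : ((X ^ N + 1 : k[X]) * Q).natDegree ≤ N + (m - 1) := by
        refine natDegree_mul_le.trans ?_
        have h2 : (X ^ N + 1 : k[X]).natDegree ≤ N := by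
          compute_degree
        have h3 : Q.natDegree ≤ m - 1 := by
          by_cases hQ0 : Q = 0
          · rw [hQ0, natDegree_zero]; omega
          · rw [degree_eq_natDegree hQ0] at hdQ
            have h1 : Q.natDegree < m := by exact_mod_cast hdQ
            omega
        omega
      have h2 : (B * P).natDegree ≤ N + (m - 1) := by
        refine natDegree_mul_le.trans ?_
        have h3 : P.natDegree ≤ m + 1 := by
          by_cases hP0 : P = 0
          · rw [hP0, natDegree_zero]; omega
          · rw [degree_eq_natDegree hP0] at hdP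
            have h1 : P.natDegree < m + 2 := by exact_mod_cast hdP
            omega
        omega
      have h3 : Ee.natDegree ≤ N + (m - 1) :=
        (natDegree_add_le _ _).trans (max_le h1 h2)
      omega
  have hΦ1z : P + q * Q = 0 := by
    ext j
    rw [coeff_zero]
    by_cases hj0 : j = 0
    · subst hj0; exact congrArg Prod.fst hpr
    by_cases hj1 : j = 1
    · subst hj1; exact congrArg Prod.snd hpr
    have h1 : (X ^ N * (P + q * Q)).coeff (j + N) = (P + q * Q).coeff j := by
      rw [coeff_X_pow_mul]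
    rw [← h1]
    have h2 : X ^ N * (P + q * Q) = q * Ee + (P - q * Q) := by rw [hqE]; ring
    rw [h2, coeff_add]
    have h3 : (q * Ee).coeff (j + N) = 0 := by
      by_cases hE0 : Ee = 0
      · rw [hE0, mul_zero, coeff_zero]
      · apply coeff_eq_zero_of_degree_lt
        rw [degree_mul, hdq, degree_eq_natDegree hE0]
        rw [degree_eq_natDegree hE0] at hEdeg
        have h4 : Ee.natDegree < N := by exact_mod_cast hEdeg
        have h5 : 2 + Ee.natDegree < j + N := by omega
        exact_mod_cast h5
    have h4 : (P - q * Q).coeff (j + N) = 0 := by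
      apply coeff_eq_zero_of_degree_lt
      refine lt_of_lt_of_le hΦ2 ?_
      have h5 : m + 2 ≤ j + N := by omega
      exact_mod_cast h5
    rw [h3, h4, add_zero]
  have hqE' : q * Ee = -(P - q * Q) := by rw [hqE, hΦ1z]; ring
  have hdvdE : X ^ m ∣ Ee := by
    rw [X_pow_dvd_iff]
    intro d hd
    exact hE1 ⟨d, hd⟩
  obtain ⟨s, hs⟩ : X ^ m ∣ P - q * Q := by
    have h1 : P - q * Q = -(q * Ee) := by rw [hqE']; ring
    rw [h1]
    exact (dvd_neg).mpr (dvd_mul_of_dvd_right hdvdE _)
  have hN2 : 1 < N := by omega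
  have hζ1 : ζ ≠ 1 := hζ.ne_one hN2
  have hζ0 : ζ ≠ 0 := hζ.ne_zero (by omega)
  have hev1 : P.eval 1 = 0 := by
    have := congrArg (eval 1) hΦ1z
    simpa [hq] using this
  have hevζ : P.eval ζ = 0 := by
    have := congrArg (eval ζ) hΦ1z
    simpa [hq] using this
  have hs1 : s.eval 1 = 0 := by
    have := congrArg (eval 1) hs
    simp only [eval_sub, eval_mul, hev1, eval_pow, eval_X, one_pow, one_mul] at this
    rw [← this, hq]
    simp
  have hsζ : s.eval ζ = 0 := by
    have := congrArg (eval ζ) hs
    simp only [eval_sub, eval_mul, hevζ, eval_pow, eval_X] at this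
    have h2 : q.eval ζ = 0 := by rw [hq]; simp
    rw [h2, zero_mul, sub_zero] at this
    exact (mul_eq_zero.mp this.symm).resolve_left (pow_ne_zero _ hζ0)
  have hs0 : s = 0 := by
    by_contra hsne
    have hdeg : s.degree < 2 := by
      have h1 := hΦ2
      rw [hs, degree_mul, degree_X_pow, degree_eq_natDegree hsne] at h1
      have h2 : m + s.natDegree < m + 2 := by exact_mod_cast h1
      rw [degree_eq_natDegree hsne]
      have h3 : s.natDegree < 2 := by omega
      exact_mod_cast h3
    apply hsne
    apply eq_zero_of_degree_lt_of_eval_finset_eq_zero ({1, ζ} : Finset k)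
    · rw [Finset.card_pair hζ1.symm]; exact hdeg
    · intro y hy
      rw [Finset.mem_insert, Finset.mem_singleton] at hy
      rcases hy with rfl | rfl
      · exact hs1
      · exact hsζ
  have hΦ2z : P - q * Q = 0 := by rw [hs, hs0, mul_zero]
  have hP0 : P = 0 := by
    have h1 : (2 : k[X]) * P = 0 := by linear_combination hΦ1z + hΦ2z
    have h2 : (2 : k[X]) ≠ 0 := two_ne_zero
    exact (mul_eq_zero.mp h1).resolve_left h2
  have hQ0 : Q = 0 := by
    rw [hP0, zero_add] at hΦ1z
    exact (mul_eq_zero.mp hΦ1z).resolve_left hq0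
  exact Prod.ext (pol_inj _ _ hP0) (pol_inj _ _ hQ0)

theorem L_surj {k : Type*} [Field k] [CharZero k] {N m : ℕ} (hm : 0 < m) (hmN : m < N)
    (ζ : k) (hζ : IsPrimitiveRoot ζ N) (B : k[X])
    (hB0 : B * ((X - C ζ) * (X - 1)) = X ^ N - 1) :
    Function.Surjective (L N m (X ^ N + 1) B) := by
  set f := L N m (X ^ N + 1) B with hf
  have h1 : Module.finrank k (LinearMap.ker f) ≤ 2 := by
    have h2 : Function.Injective ((pr m ((X - C ζ) * (X - 1))).domRestrict (LinearMap.ker f)) := by
      rw [← LinearMap.ker_eq_bot, LinearMap.ker_eq_bot']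
      intro x hx
      have := ker_inj hm hmN ζ hζ B hB0 x.1 x.2 hx
      exact Subtype.ext this
    have h3 := LinearMap.finrank_le_finrank_of_injective h2
    simpa using h3
  have h4 := LinearMap.finrank_range_add_finrank_ker f
  rw [← LinearMap.range_eq_top]
  apply Submodule.eq_top_of_finrank_eq
  have h5 : Module.finrank k ((Fin (m + 2) → k) × (Fin m → k)) = 2 * m + 2 := by
    rw [Module.finrank_prod]; simp; omega
  have h6 : Module.finrank k ((Fin m → k) × (Fin m → k)) = 2 * m := by
    rw [Module.finrank_prod]; simp; omega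
  have h7 := Submodule.finrank_le (LinearMap.range f)
  rw [h6] at h7 ⊢
  rw [h5] at h4
  omega

theorem prod_X_smul {k : Type*} [Field k] {m : ℕ}
    (z : (Fin m → PowerSeries k) × (Fin m → PowerSeries k))
    (h1 : ∀ i, PowerSeries.constantCoeff (z.1 i) = 0)
    (h2 : ∀ i, PowerSeries.constantCoeff (z.2 i) = 0) :
    ∃ z' : (Fin m → PowerSeries k) × (Fin m → PowerSeries k),
      z = (PowerSeries.X : PowerSeries k) • z' := by
  choose a ha using fun i => PowerSeries.X_dvd_iff.mpr (h1 i)
  choose b hb using fun i => PowerSeries.X_dvd_iff.mpr (h2 i)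
  exact ⟨(a, b), Prod.ext (funext ha) (funext hb)⟩

theorem L_surj' {k : Type*} [Field k] [CharZero k] {N m : ℕ} (hm : 0 < m) (hmN : m < N)
    (ζ : k) (hζ : IsPrimitiveRoot ζ N) (A B : Polynomial (PowerSeries k))
    (hA0 : A.map PowerSeries.constantCoeff = X ^ N + 1)
    (hB0 : B.map PowerSeries.constantCoeff * ((X - C ζ) * (X - 1)) = X ^ N - 1) :
    Function.Surjective (L N m A B) := by
  rw [← LinearMap.range_eq_top, ← top_le_iff]
  have hloc : IsLocalRing.maximalIdeal (PowerSeries k) ≤ Ideal.jacobson ⊥ :=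
    IsLocalRing.maximalIdeal_le_jacobson _
  refine Submodule.le_of_le_smul_of_le_jacobson_bot Module.Finite.fg_top hloc ?_
  intro z _
  have hs := L_surj hm hmN ζ hζ _ hB0
  obtain ⟨x₀, hx₀⟩ := hs (fun i => PowerSeries.constantCoeff (z.1 i),
    fun i => PowerSeries.constantCoeff (z.2 i))
  set x : (Fin (m + 2) → PowerSeries k) × (Fin m → PowerSeries k) :=
    (fun i => PowerSeries.C (x₀.1 i), fun i => PowerSeries.C (x₀.2 i)) with hx
  have hmap := L_map (PowerSeries.constantCoeff (R := k)) N m A B x
  rw [hA0] at hmap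
  have hx' : ((fun i => PowerSeries.constantCoeff (x.1 i)),
      (fun i => PowerSeries.constantCoeff (x.2 i))) = x₀ := by
    refine Prod.ext (funext fun i => ?_) (funext fun i => ?_)
    · simp [hx]
    · simp [hx]
  rw [hx', hx₀] at hmap
  obtain ⟨z', hz'⟩ := prod_X_smul (z - L N m A B x)
    (by
      intro i
      have := congrFun (congrArg Prod.fst hmap) i
      simp only at this
      rw [Prod.fst_sub, Pi.sub_apply, map_sub, this, sub_self])
    (by
      intro i
      have := congrFun (congrArg Prod.snd hmap) i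
      simp only at this
      rw [Prod.snd_sub, Pi.sub_apply, map_sub, this, sub_self])
  have hz : z = L N m A B x + (PowerSeries.X : PowerSeries k) • z' := by
    rw [← hz']; abel
  rw [hz]
  refine Submodule.add_mem_sup ⟨x, rfl⟩ ?_
  refine Submodule.smul_mem_smul ?_ Submodule.mem_top
  rw [IsLocalRing.mem_maximalIdeal, mem_nonunits_iff, PowerSeries.isUnit_iff_constantCoeff,
    PowerSeries.constantCoeff_X]
  exact not_isUnit_zero

end Sections

/-- The sections of character `m`, `1 ≤ m < N`, over `k⟦t⟧`: the space of pairs `(P, Q)` with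
`deg P ≤ m + 1`, `deg Q ≤ m - 1` such that `A Q + B P` is divisible by `X ^ m` and has degree
`< N` is free of rank two, and reduces to the corresponding space over `k`. -/
theorem exists_section {k : Type*} [Field k] [CharZero k] {N m : ℕ} (hm : 0 < m) (hmN : m < N)
    (ζ : k) (hζ : IsPrimitiveRoot ζ N) (A B : Polynomial (PowerSeries k))
    (hA : A.natDegree ≤ N) (hB : B.natDegree ≤ N - 2)
    (hA0 : A.map PowerSeries.constantCoeff = X ^ N + 1)
    (hB0 : B.map PowerSeries.constantCoeff * ((X - C ζ) * (X - 1)) = X ^ N - 1)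
    (P₀ Q₀ : Polynomial k) (hP₀ : P₀.natDegree ≤ m + 1) (hQ₀ : Q₀.degree < m)
    (hdvd : X ^ m ∣ (X ^ N + 1) * Q₀ + B.map PowerSeries.constantCoeff * P₀)
    (hdeg : ((X ^ N + 1) * Q₀ + B.map PowerSeries.constantCoeff * P₀).degree < (N : WithBot ℕ)) :
    ∃ P Q : Polynomial (PowerSeries k), P.natDegree ≤ m + 1 ∧ Q.degree < m ∧
      X ^ m ∣ A * Q + B * P ∧ (A * Q + B * P).degree < (N : WithBot ℕ) ∧
      P.map PowerSeries.constantCoeff = P₀ ∧ Q.map PowerSeries.constantCoeff = Q₀ := by
  have hP₀' : P₀.degree < ((m + 2 : ℕ) : WithBot ℕ) := by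
    by_cases h : P₀ = 0
    · rw [h, degree_zero]; exact WithBot.bot_lt_coe _
    · rw [degree_eq_natDegree h]
      have h1 : P₀.natDegree < m + 2 := by omega
      exact_mod_cast h1
  set x : (Fin (m + 2) → PowerSeries k) × (Fin m → PowerSeries k) :=
    (fun i => PowerSeries.C (P₀.coeff i), fun i => PowerSeries.C (Q₀.coeff i)) with hx
  have hmap := Sections.L_map (PowerSeries.constantCoeff (R := k)) N m A B x
  rw [hA0] at hmap
  have hx' : ((fun i => PowerSeries.constantCoeff (x.1 i)),
      (fun i => PowerSeries.constantCoeff (x.2 i))) =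
      ((fun i : Fin (m + 2) => P₀.coeff i), (fun i : Fin m => Q₀.coeff i)) := by
    refine Prod.ext (funext fun i => ?_) (funext fun i => ?_)
    · simp [hx]
    · simp [hx]
  rw [hx'] at hmap
  have hzero : Sections.L N m (X ^ N + 1) (B.map PowerSeries.constantCoeff)
      ((fun i : Fin (m + 2) => P₀.coeff i), (fun i : Fin m => Q₀.coeff i)) = 0 := by
    refine Prod.ext (funext fun i => ?_) (funext fun i => ?_)
    · rw [Sections.L_fst]
      simp only
      rw [Sections.pol_of _ _ hP₀', Sections.pol_of _ _ hQ₀]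
      exact X_pow_dvd_iff.mp hdvd i i.2
    · rw [Sections.L_snd]
      simp only
      rw [Sections.pol_of _ _ hP₀', Sections.pol_of _ _ hQ₀]
      refine coeff_eq_zero_of_degree_lt (lt_of_lt_of_le hdeg ?_)
      have h1 : N ≤ N + (i : ℕ) := by omega
      exact_mod_cast h1
  rw [hzero] at hmap
  obtain ⟨z', hz'⟩ := Sections.prod_X_smul (Sections.L N m A B x)
    (by
      intro i
      have := congrFun (congrArg Prod.fst hmap) i
      exact this.symm)
    (by
      intro i
      have := congrFun (congrArg Prod.snd hmap) i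
      exact this.symm)
  obtain ⟨y, hy⟩ := Sections.L_surj' hm hmN ζ hζ A B hA0 hB0 z'
  set w := x - (PowerSeries.X : PowerSeries k) • y with hw
  have hLw : Sections.L N m A B w = 0 := by
    rw [hw, map_sub, map_smul, hy, ← hz', sub_self]
  have hPd := Sections.pol_degree (m + 2) w.1
  have hQd := Sections.pol_degree m w.2
  have hPn : (Sections.pol (m + 2) w.1).natDegree ≤ m + 1 := by
    rw [natDegree_le_iff_coeff_eq_zero]
    intro i hi
    rw [Sections.pol_coeff, dif_neg (by omega)]
  refine ⟨Sections.pol (m + 2) w.1, Sections.pol m w.2, hPn, hQd, ?_, ?_, ?_, ?_⟩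
  · rw [X_pow_dvd_iff]
    intro d hd
    exact congrFun (congrArg Prod.fst hLw) ⟨d, hd⟩
  · rw [degree_lt_iff_coeff_zero]
    intro i hi
    by_cases hi2 : i < N + m
    · have := congrFun (congrArg Prod.snd hLw) ⟨i - N, by omega⟩
      rw [Sections.L_snd] at this
      simpa [Nat.add_sub_cancel' hi] using this
    · apply coeff_eq_zero_of_natDegree_lt
      have hQn : (Sections.pol m w.2).natDegree ≤ m - 1 := by
        rw [natDegree_le_iff_coeff_eq_zero]
        intro i hi
        rw [Sections.pol_coeff, dif_neg (by omega)]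
      have h1 : (A * Sections.pol m w.2).natDegree ≤ N + (m - 1) :=
        natDegree_mul_le.trans (by omega)
      have h2 : (B * Sections.pol (m + 2) w.1).natDegree ≤ N + (m - 1) :=
        natDegree_mul_le.trans (by omega)
      have h3 := (natDegree_add_le (A * Sections.pol m w.2) (B * Sections.pol (m + 2) w.1)).trans
        (max_le h1 h2)
      omega
  · rw [Sections.pol_map]
    have h1 : (fun i => PowerSeries.constantCoeff (w.1 i)) =
        (fun i : Fin (m + 2) => P₀.coeff i) := by
      funext i
      simp [hw, hx]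
    rw [h1, Sections.pol_of _ _ hP₀']
  · rw [Sections.pol_map]
    have h1 : (fun i => PowerSeries.constantCoeff (w.2 i)) =
        (fun i : Fin m => Q₀.coeff i) := by
      funext i
      simp [hw, hx]
    rw [h1, Sections.pol_of _ _ hQ₀]

end Pool.Agent.MultiSpec
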