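import Pool.Agent.MultiSpec.Datum
import Pool.Agent.MultiSpec.Pell
import Pool.Agent.MultiSpec.Sections

set_option autoImplicit false

namespace Pool.Agent.MultiSpec

open MvPolynomial

namespace PowDatum

section gen

variable {R : Type*} [CommRing R]

/-- Dehomogenisation. -/
noncomputable abbrev dh : MvPolynomial (Fin 2) R →ₐ[R] Polynomial R :=
  MvPolynomial.aeval ![Polynomial.X, 1]

lemma form_ext {p q : MvPolynomial (Fin 2) R} {m : ℕ} (hp : p.IsHomogeneous m)
    (hq : q.IsHomogeneous m) (h : dh p = dh q) : p = q := by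
  rw [← Polynomial.homogenize_eq_of_isHomogeneous hp rfl,
    ← Polynomial.homogenize_eq_of_isHomogeneous hq rfl]
  exact congrArg (fun s => Polynomial.homogenize s m) h

lemma dh_X0 : dh (X 0 : MvPolynomial (Fin 2) R) = Polynomial.X := by
  simp [dh]

lemma dh_X1 : dh (X 1 : MvPolynomial (Fin 2) R) = 1 := by
  simp [dh]

lemma dh_C (a : R) : dh (C a : MvPolynomial (Fin 2) R) = Polynomial.C a := by
  simp [dh]

lemma dh_hom {p : Polynomial R} {m : ℕ} (hp : p.natDegree ≤ m) :
    dh (p.homogenize m) = p := Polynomial.aeval_homogenize_X_one p hp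

lemma hom_of_eq {p : MvPolynomial (Fin 2) R} {m m' : ℕ} (h : p.IsHomogeneous m) (e : m = m') :
    p.IsHomogeneous m' := e ▸ h

lemma hom_X0 : (X 0 : MvPolynomial (Fin 2) R).IsHomogeneous 1 := isHomogeneous_X _ _
lemma hom_X1 : (X 1 : MvPolynomial (Fin 2) R).IsHomogeneous 1 := isHomogeneous_X _ _

lemma hom_CX1 (a : R) : (C a * X 1 : MvPolynomial (Fin 2) R).IsHomogeneous 1 :=
  hom_of_eq ((isHomogeneous_C (Fin 2) a).mul hom_X1) (by omega)

lemma hom_quar (t c₀ c₁ : R) : (quar t c₀ c₁).IsHomogeneous 4 := by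
  have h1 : ∀ c : R, ((X 0 - C c * X 1) ^ 2 - C t * X 1 ^ 2 :
      MvPolynomial (Fin 2) R).IsHomogeneous 2 := fun c =>
    ((hom_X0.sub (hom_CX1 c)).pow 2).sub
      (hom_of_eq ((isHomogeneous_C (Fin 2) t).mul (hom_X1.pow 2)) (by omega))
  exact (h1 c₀).mul (h1 c₁)

lemma dh_quar (t c₀ c₁ : R) : dh (quar t c₀ c₁) =
    ((Polynomial.X - Polynomial.C c₀) ^ 2 - Polynomial.C t) *
      ((Polynomial.X - Polynomial.C c₁) ^ 2 - Polynomial.C t) := by
  simp [quar]

lemma ev_one_zero (p : Polynomial R) (m : ℕ) : ev 1 0 (p.homogenize m) = p.coeff m := by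
  unfold ev
  rw [Polynomial.homogenize, map_sum, Finset.sum_eq_single (m, 0)]
  · simp [eval_monomial, Finsupp.update_eq_add_single]
  · rintro ⟨a, b⟩ hab hne
    replace hab : a + b = m := by simpa using hab
    have hb : b ≠ 0 := by
      rintro rfl
      exact hne (by rw [← hab, add_zero])
    simp [eval_monomial, Finsupp.update_eq_add_single, Finsupp.prod_add_index', pow_add, hb]
  · simp

lemma ev_zero_one {p : Polynomial R} {m : ℕ} (hp : p.natDegree ≤ m) :
    ev 0 1 (p.homogenize m) = p.coeff 0 := by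
  have := Polynomial.eval₂_homogenize_of_eq_one hp (RingHom.id R) ![0, 1] (by simp)
  unfold ev
  rw [MvPolynomial.eval, coe_eval₂Hom, this]
  simp [Polynomial.coeff_zero_eq_eval_zero]

end gen

section sec

variable {k : Type*} [Field k]

/-- The identities that the sections over the special fibre have to satisfy. -/
lemma special_section {N m : ℕ} (hmN : m < N) {ζ : k} (hζ : ζ ≠ 0)
    {B₀ : Polynomial k}
    (hB0 : B₀ * ((Polynomial.X - Polynomial.C ζ) * (Polynomial.X - 1)) = Polynomial.X ^ N - 1)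
    {P Q s : Polynomial k} {e : k} (hs : s.natDegree ≤ 1)
    (h1 : P + Q * ((Polynomial.X - Polynomial.C ζ) * (Polynomial.X - 1)) = Polynomial.C e * s)
    (h2 : P - Q * ((Polynomial.X - Polynomial.C ζ) * (Polynomial.X - 1)) =
      Polynomial.X ^ m * (2 * s)) :
    Polynomial.X ^ m ∣ (Polynomial.X ^ N + 1) * Q + B₀ * P ∧
      ((Polynomial.X ^ N + 1) * Q + B₀ * P).degree < (N : WithBot ℕ) := by
  set q : Polynomial k := (Polynomial.X - Polynomial.C ζ) * (Polynomial.X - 1) with hq
  set W := (Polynomial.X ^ N + 1) * Q + B₀ * P with hW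
  have hqm : q.Monic := (Polynomial.monic_X_sub_C ζ).mul (Polynomial.monic_X_sub_C 1)
  have hqd : q.natDegree = 2 := by
    rw [hq, ← Polynomial.C_1, (Polynomial.monic_X_sub_C ζ).natDegree_mul
      (Polynomial.monic_X_sub_C 1), Polynomial.natDegree_X_sub_C, Polynomial.natDegree_X_sub_C]
  have hXN : (Polynomial.X : Polynomial k) ^ N = Polynomial.X ^ m * Polynomial.X ^ (N - m) := by
    rw [← pow_add]; congr 1; omega
  have key : W * q = Polynomial.X ^ m * (s * (Polynomial.C e * Polynomial.X ^ (N - m) - 2)) := by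
    have : W * q = Polynomial.X ^ N * (P + Q * q) - (P - Q * q) := by
      rw [hW, show ((Polynomial.X ^ N + 1) * Q + B₀ * P) * q =
        (Polynomial.X ^ N + 1) * Q * q + (B₀ * q) * P by ring, hB0]
      ring
    rw [this, h1, h2, hXN]
    ring
  have hcop : IsCoprime (Polynomial.X ^ m : Polynomial k) q := by
    apply IsCoprime.pow_left
    rw [hq]
    have hc : ∀ a : k, a ≠ 0 →
        IsCoprime (Polynomial.X : Polynomial k) (Polynomial.X - Polynomial.C a) := fun a ha => by
      refine ⟨Polynomial.C a⁻¹, -Polynomial.C a⁻¹, ?_⟩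
      have : Polynomial.C a⁻¹ * Polynomial.C a = 1 := by
        rw [← Polynomial.C_mul, inv_mul_cancel₀ ha, Polynomial.C_1]
      linear_combination this
    exact IsCoprime.mul_right (hc ζ hζ) (by simpa using hc 1 one_ne_zero)
  refine ⟨hcop.dvd_of_dvd_mul_right ⟨_, key⟩, ?_⟩
  by_cases hW0 : W = 0
  · rw [hW0, Polynomial.degree_zero]; exact WithBot.bot_lt_coe N
  rw [Polynomial.degree_eq_natDegree hW0]
  have h3 : (W * q).natDegree = W.natDegree + 2 := by
    rw [Polynomial.natDegree_mul hW0 hqm.ne_zero, hqd]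
  have h4 : (W * q).natDegree ≤ m + (1 + (N - m)) := by
    rw [key]
    refine (Polynomial.natDegree_mul_le).trans ?_
    rw [Polynomial.natDegree_X_pow]
    gcongr
    refine (Polynomial.natDegree_mul_le).trans ?_
    gcongr
    refine (Polynomial.natDegree_sub_le _ _).trans (max_le ?_ ?_)
    · exact Polynomial.natDegree_C_mul_X_pow_le _ _
    · rw [show (2 : Polynomial k) = Polynomial.C 2 from rfl, Polynomial.natDegree_C]
      omega
  have : W.natDegree < N := by omega
  exact_mod_cast this

lemma exists_sec0 {m : ℕ} (a : k) {s q : Polynomial k} (hs : s.natDegree ≤ 1)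
    (hq : s * (Polynomial.X - Polynomial.C a) = q) :
    ∃ P Q : Polynomial k, P.natDegree ≤ m + 1 ∧ Q.degree < m ∧
      P + Q * q = Polynomial.C (2 * a ^ m) * s ∧ P - Q * q = Polynomial.X ^ m * (2 * s) := by
  have h1 := geom_sum₂_mul (Polynomial.X : Polynomial k) (Polynomial.C a) m
  have h2 : (-∑ i ∈ Finset.range m, (Polynomial.X : Polynomial k) ^ i *
      Polynomial.C a ^ (m - 1 - i)) * q = -(Polynomial.X ^ m - Polynomial.C a ^ m) * s := by
    rw [← h1, ← hq]; ring
  refine ⟨s * (Polynomial.C a ^ m + Polynomial.X ^ m),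
    -∑ i ∈ Finset.range m, Polynomial.X ^ i * Polynomial.C a ^ (m - 1 - i), ?_, ?_, ?_, ?_⟩
  · refine (Polynomial.natDegree_mul_le).trans ?_
    rw [add_comm m 1]
    refine add_le_add hs ((Polynomial.natDegree_add_le _ _).trans (max_le ?_ ?_))
    · rw [← Polynomial.C_pow, Polynomial.natDegree_C]; exact Nat.zero_le _
    · rw [Polynomial.natDegree_X_pow]
  · rw [Polynomial.degree_neg, Polynomial.degree_lt_iff_coeff_zero]
    intro d hd
    rw [Polynomial.finsetSum_coeff]
    refine Finset.sum_eq_zero fun i hi => ?_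
    rw [← Polynomial.C_pow, Polynomial.coeff_mul_C, Polynomial.coeff_X_pow,
      if_neg (by have := Finset.mem_range.1 hi; omega), zero_mul]
  · rw [h2]
    simp only [map_mul, map_pow, map_ofNat]
    ring
  · rw [h2]; ring

end sec

section UV

variable {R : Type*} [CommRing R] [IsDomain R]

lemma exists_UV {N m : ℕ} (hm : 0 < m) (hmN : m < N) {A B f P Q : Polynomial R}
    (hA : A.natDegree ≤ N) (hB : B.Monic) (hBd : B.natDegree = N - 2)
    (hB0 : IsUnit (B.coeff 0)) (hpell : A ^ 2 = 4 * Polynomial.X ^ N + f * B ^ 2)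
    (hQ : Q.degree < m) (hd : Polynomial.X ^ m ∣ A * Q + B * P)
    (hdeg : (A * Q + B * P).degree < (N : WithBot ℕ)) :
    ∃ U V : Polynomial R, U.natDegree ≤ N - (m + 1) ∧ V.natDegree ≤ N + 1 - m ∧
      A * Q + B * P = Polynomial.X ^ m * U ∧ A * P + B * Q * f = Polynomial.X ^ m * V ∧
      A * V - B * U * f = 4 * Polynomial.X ^ (N - m) * P ∧
      A * U - B * V = 4 * Polynomial.X ^ (N - m) * Q := by
  obtain ⟨U, hU⟩ := hd
  have hXN : (Polynomial.X : Polynomial R) ^ N = Polynomial.X ^ m * Polynomial.X ^ (N - m) := by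
    rw [← pow_add]; congr 1; omega
  have hmon : (Polynomial.X ^ m : Polynomial R).Monic := Polynomial.monic_X_pow m
  have hQn : Q.natDegree ≤ m - 1 := by
    by_cases hQ0 : Q = 0
    · simp [hQ0]
    · rw [Polynomial.degree_eq_natDegree hQ0] at hQ
      have : Q.natDegree < m := by exact_mod_cast hQ
      omega
  have hWn : (A * Q + B * P).natDegree ≤ N - 1 := by
    by_cases hW0 : A * Q + B * P = 0
    · simp [hW0]
    · rw [Polynomial.degree_eq_natDegree hW0] at hdeg
      have : (A * Q + B * P).natDegree < N := by exact_mod_cast hdeg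
      omega
  have key : B * (A * P + B * Q * f) = A * (A * Q + B * P) - 4 * Polynomial.X ^ N * Q := by
    linear_combination -Q * hpell
  have hcop : IsCoprime (Polynomial.X ^ m : Polynomial R) B := by
    apply IsCoprime.pow_left
    obtain ⟨b, hb⟩ := hB0.exists_left_inv
    refine ⟨-Polynomial.C b * B.divX, Polynomial.C b, ?_⟩
    have h1 : Polynomial.C b * Polynomial.C (B.coeff 0) = 1 := by
      rw [← Polynomial.C_mul, hb, Polynomial.C_1]
    have h2 := Polynomial.divX_mul_X_add B
    calc -Polynomial.C b * B.divX * Polynomial.X + Polynomial.C b * B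
        = Polynomial.C b * (B - B.divX * Polynomial.X) := by ring
      _ = Polynomial.C b * Polynomial.C (B.coeff 0) := by
          congr 1
          linear_combination -h2
      _ = 1 := h1
  have hdT : Polynomial.X ^ m ∣ A * P + B * Q * f := by
    refine hcop.dvd_of_dvd_mul_left ?_
    rw [key, hU, hXN]
    exact ⟨A * U - 4 * Polynomial.X ^ (N - m) * Q, by ring⟩
  obtain ⟨V, hV⟩ := hdT
  have hTn : (A * P + B * Q * f).natDegree ≤ N + 1 := by
    by_cases hT0 : A * P + B * Q * f = 0
    · simp [hT0]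
    have h1 : (B * (A * P + B * Q * f)).natDegree = N - 2 + (A * P + B * Q * f).natDegree := by
      rw [hB.natDegree_mul' hT0, hBd]
    have h2 : (B * (A * P + B * Q * f)).natDegree ≤ N + (N - 1) := by
      rw [key]
      refine (Polynomial.natDegree_sub_le _ _).trans (max_le ?_ ?_)
      · exact (Polynomial.natDegree_mul_le).trans (add_le_add hA hWn)
      · refine (Polynomial.natDegree_mul_le).trans (add_le_add ?_ (hQn.trans (by omega)))
        refine (Polynomial.natDegree_mul_le).trans ?_
        rw [show (4 : Polynomial R) = Polynomial.C 4 from rfl, Polynomial.natDegree_C,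
          Polynomial.natDegree_X_pow]
        omega
    omega
  refine ⟨U, V, ?_, ?_, hU, hV, ?_, ?_⟩
  · by_cases hU0 : U = 0
    · simp [hU0]
    have := hmon.natDegree_mul' hU0
    rw [← hU, Polynomial.natDegree_X_pow] at this
    omega
  · by_cases hV0 : V = 0
    · simp [hV0]
    have := hmon.natDegree_mul' hV0
    rw [← hV, Polynomial.natDegree_X_pow] at this
    omega
  · refine mul_left_cancel₀ hmon.ne_zero ?_
    linear_combination -A * hV + B * f * hU + P * hpell + 4 * P * hXN
  · refine mul_left_cancel₀ hmon.ne_zero ?_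
    linear_combination -A * hU + B * hV + Q * hpell + 4 * Q * hXN

end UV

/-- All the univariate data for one section. -/
lemma exists_all {k : Type*} [Field k] [CharZero k] {N m : ℕ} (hm : 0 < m) (hmN : m < N)
    (ζ : k) (hζ : IsPrimitiveRoot ζ N) {A B f : Polynomial (PowerSeries k)}
    (hA : A.natDegree ≤ N) (hB : B.Monic) (hBd : B.natDegree = N - 2)
    (hpell : A ^ 2 = 4 * Polynomial.X ^ N + f * B ^ 2)
    (hA0 : A.map PowerSeries.constantCoeff = Polynomial.X ^ N + 1)
    (hB0 : B.map PowerSeries.constantCoeff *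
      ((Polynomial.X - Polynomial.C ζ) * (Polynomial.X - 1)) = Polynomial.X ^ N - 1)
    (a : k) {s : Polynomial k} (hs : s.natDegree ≤ 1)
    (hq : s * (Polynomial.X - Polynomial.C a) =
      (Polynomial.X - Polynomial.C ζ) * (Polynomial.X - 1)) :
    ∃ P Q U V : Polynomial (PowerSeries k), P.natDegree ≤ m + 1 ∧ Q.natDegree ≤ m - 1 ∧
      U.natDegree ≤ N - (m + 1) ∧ V.natDegree ≤ N + 1 - m ∧
      A * Q + B * P = Polynomial.X ^ m * U ∧ A * P + B * Q * f = Polynomial.X ^ m * V ∧
      A * V - B * U * f = 4 * Polynomial.X ^ (N - m) * P ∧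
      A * U - B * V = 4 * Polynomial.X ^ (N - m) * Q ∧
      P.map PowerSeries.constantCoeff + Q.map PowerSeries.constantCoeff *
        ((Polynomial.X - Polynomial.C ζ) * (Polynomial.X - 1)) =
        Polynomial.C (2 * a ^ m) * s ∧
      P.map PowerSeries.constantCoeff - Q.map PowerSeries.constantCoeff *
        ((Polynomial.X - Polynomial.C ζ) * (Polynomial.X - 1)) =
        Polynomial.X ^ m * (2 * s) := by
  have hζ0 : ζ ≠ 0 := hζ.ne_zero (by omega)
  obtain ⟨P₀, Q₀, hP₀, hQ₀, h1, h2⟩ := exists_sec0 (m := m) a hs hq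
  obtain ⟨hd, hdeg⟩ := special_section hmN hζ0 hB0 hs h1 h2
  obtain ⟨P, Q, hP, hQ, hd', hdeg', hPm, hQm⟩ := exists_section hm hmN ζ hζ A B hA hBd.le hA0 hB0
    P₀ Q₀ hP₀ hQ₀ hd hdeg
  have hBu : IsUnit (B.coeff 0) := by
    rw [PowerSeries.isUnit_iff_constantCoeff, isUnit_iff_ne_zero]
    intro h0
    have h3 := congrArg (fun r => Polynomial.coeff r 0) hB0
    simp only [Polynomial.mul_coeff_zero, Polynomial.coeff_map, h0, zero_mul,
      Polynomial.coeff_sub, Polynomial.coeff_X_pow, Polynomial.coeff_one_zero] at h3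
    rw [if_neg (by omega)] at h3
    simp at h3
  obtain ⟨U, V, hU, hV, e1, e2, e3, e4⟩ := exists_UV hm hmN hA hB hBd hBu hpell hQ hd' hdeg'
  have hQn : Q.natDegree ≤ m - 1 := by
    by_cases hQ0 : Q = 0
    · simp [hQ0]
    · rw [Polynomial.degree_eq_natDegree hQ0] at hQ
      have : Q.natDegree < m := by exact_mod_cast hQ
      omega
  exact ⟨P, Q, U, V, hP, hQn, hU, hV, e1, e2, e3, e4, by rw [hPm, hQm, h1],
    by rw [hPm, hQm, h2]⟩

end PowDatum

open PowDatum in
/-- The universal degenerating datum (from modules Pell and Sections by homogenisation). -/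
theorem exists_datum {k : Type} [Field k] [CharZero k] {N n : ℕ} (hN : 3 ≤ N) (hn : n < N)
    (ζ : k) (hζ : IsPrimitiveRoot ζ N) : ∃ D : EDatum N n (PowerSeries k),
      D.t = PowerSeries.X ∧ IsSpecial (D.map PowerSeries.constantCoeff) ζ := by
  obtain ⟨c₀, c₁, A, B, hAm, hAd, hBm, hBd, hpell, hc₀, hc₁, hA0, hB0⟩ := exists_pell hN ζ hζ
  set f : Polynomial (PowerSeries k) := ((Polynomial.X - Polynomial.C c₀) ^ 2 -
    Polynomial.C PowerSeries.X) * ((Polynomial.X - Polynomial.C c₁) ^ 2 -
    Polynomial.C PowerSeries.X) with hf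
  -- the two families of sections
  have hroot : ∀ j : Fin 2, ((![Polynomial.X - 1, Polynomial.X - Polynomial.C ζ] :
      Fin 2 → Polynomial k) j).natDegree ≤ 1 ∧ (![Polynomial.X - 1, Polynomial.X - Polynomial.C ζ] :
      Fin 2 → Polynomial k) j * (Polynomial.X - Polynomial.C ((![ζ, 1] : Fin 2 → k) j)) =
      (Polynomial.X - Polynomial.C ζ) * (Polynomial.X - 1) := by
    intro j
    fin_cases j
    · refine ⟨?_, ?_⟩
      · exact (Polynomial.natDegree_X_sub_C (1 : k)).le
      · simp; ring
    · refine ⟨?_, ?_⟩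
      · exact (Polynomial.natDegree_X_sub_C (ζ : k)).le
      · simp
  have hall : ∀ (l : Fin n) (j : Fin 2), _ := fun l j =>
    exists_all (m := l.val + 1) (Nat.succ_pos _) (by omega) ζ hζ hAd.le hBm hBd hpell hA0 hB0
      ((![ζ, 1] : Fin 2 → k) j) (hroot j).1 (hroot j).2
  choose P Q U V hP hQ hU hV e1 e2 e3 e4 s1 s2 using hall
  have hAu : IsUnit (A.coeff 0) := by
    rw [PowerSeries.isUnit_iff_constantCoeff, ← Polynomial.coeff_map, hA0]
    simp [Polynomial.coeff_X_pow, show (0 : ℕ) ≠ N by omega]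
  obtain ⟨inv, hinv⟩ := hAu.exists_left_inv
  have hfd : dh (quar (PowerSeries.X : PowerSeries k) c₀ c₁) = f := dh_quar _ _ _
  have hQ' : ∀ l j, (Q l j).natDegree ≤ l := fun l j => (hQ l j).trans (by omega)
  have hU' : ∀ l j, (U l j).natDegree ≤ N - (l + 2) := fun l j => (hU l j).trans (by omega)
  have hV' : ∀ (l : Fin n) j, (V l j).natDegree ≤ N - l := fun l j => (hV l j).trans (by omega)
  have hP' : ∀ (l : Fin n) j, (P l j).natDegree ≤ l + 2 := fun l j => (hP l j).trans (by omega)
  have gA := Polynomial.isHomogeneous_homogenize (n := N) A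
  have gB := Polynomial.isHomogeneous_homogenize (n := N - 2) B
  have gP := fun (l : Fin n) j => Polynomial.isHomogeneous_homogenize (n := l + 2) (P l j)
  have gQ := fun (l : Fin n) j => Polynomial.isHomogeneous_homogenize (n := l) (Q l j)
  have gU := fun (l : Fin n) j => Polynomial.isHomogeneous_homogenize (n := N - (l + 2)) (U l j)
  have gV := fun (l : Fin n) j => Polynomial.isHomogeneous_homogenize (n := N - l) (V l j)
  have gq := hom_quar (PowerSeries.X : PowerSeries k) c₀ c₁
  have g4 : (4 : MvPolynomial (Fin 2) (PowerSeries k)).IsHomogeneous 0 :=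
    isHomogeneous_C (Fin 2) (4 : PowerSeries k)
  have gXX : ∀ i : ℕ, ((X 0 * X 1) ^ i : MvPolynomial (Fin 2) (PowerSeries k)).IsHomogeneous
      (2 * i) := fun i => (hom_X0.mul hom_X1).pow i
  let D : EDatum N n (PowerSeries k) :=
    { t := PowerSeries.X
      c₀ := c₀
      c₁ := c₁
      inv := inv
      A := A.homogenize N
      B := B.homogenize (N - 2)
      P := fun l j => (P l j).homogenize (l + 2)
      Q := fun l j => (Q l j).homogenize l
      U := fun l j => (U l j).homogenize (N - (l + 2))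
      V := fun l j => (V l j).homogenize (N - l)
      hA := gA
      hB := gB
      hP := gP
      hQ := gQ
      hU := gU
      hV := gV
      hA1 := by
        rw [ev_one_zero, ← hAd]
        exact hAm.coeff_natDegree
      hA0 := by rw [ev_zero_one hAd.le, hinv]
      pell := by
        refine form_ext (m := 2 * N) (hom_of_eq (gA.pow 2) (by ring)) ?_ ?_
        · refine (hom_of_eq (g4.mul (gXX N)) (by ring)).add
            (hom_of_eq (gq.mul (gB.pow 2)) (by omega))
        · simp only [map_pow, map_mul, map_add, hfd, dh_hom hAd.le, dh_hom hBd.le, dh_X0, dh_X1,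
            map_ofNat, mul_one]
          rw [hpell]
      id1 := fun l j => by
        refine form_ext (m := N + l) (((gA.mul (gQ l j)).add
          (hom_of_eq (gB.mul (gP l j)) (by omega)))) (hom_of_eq ((gXX _).mul (gU l j)) (by omega)) ?_
        simp only [map_pow, map_mul, map_add, dh_hom hAd.le, dh_hom hBd.le, dh_X0, dh_X1,
          dh_hom (hQ' l j), dh_hom (hP' l j), dh_hom (hU' l j), mul_one]
        exact e1 l j
      id2 := fun l j => by
        refine form_ext (m := N + (l + 2)) (((gA.mul (gP l j)).add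
          (hom_of_eq ((gB.mul (gQ l j)).mul gq) (by omega))))
          (hom_of_eq ((gXX _).mul (gV l j)) (by omega)) ?_
        simp only [map_pow, map_mul, map_add, dh_hom hAd.le, dh_hom hBd.le, dh_X0, dh_X1,
          dh_hom (hQ' l j), dh_hom (hP' l j), dh_hom (hV' l j), mul_one, hfd]
        exact e2 l j
      id3 := fun l j => by
        refine form_ext (m := N + (N - l)) (((gA.mul (gV l j)).sub
          (hom_of_eq ((gB.mul (gU l j)).mul gq) (by omega))))
          (hom_of_eq ((g4.mul (gXX _)).mul (gP l j)) (by omega)) ?_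
        simp only [map_pow, map_mul, map_sub, dh_hom hAd.le, dh_hom hBd.le, dh_X0, dh_X1,
          dh_hom (hU' l j), dh_hom (hP' l j), dh_hom (hV' l j), mul_one, hfd, map_ofNat]
        exact e3 l j
      id4 := fun l j => by
        refine form_ext (m := N + (N - (l + 2))) (((gA.mul (gU l j)).sub
          (hom_of_eq (gB.mul (gV l j)) (by omega))))
          (hom_of_eq ((g4.mul (gXX _)).mul (gQ l j)) (by omega)) ?_
        simp only [map_pow, map_mul, map_sub, dh_hom hAd.le, dh_hom hBd.le, dh_X0, dh_X1,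
          dh_hom (hU' l j), dh_hom (hQ' l j), dh_hom (hV' l j), mul_one, map_ofNat]
        exact e4 l j }
  refine ⟨D, rfl, ?_⟩
  have hAd' : (A.map PowerSeries.constantCoeff).natDegree ≤ N :=
    (Polynomial.natDegree_map_le).trans hAd.le
  have hBd' : (B.map PowerSeries.constantCoeff).natDegree ≤ N - 2 :=
    (Polynomial.natDegree_map_le).trans hBd.le
  have hPd' : ∀ (l : Fin n) j, ((P l j).map PowerSeries.constantCoeff).natDegree ≤ l + 2 :=
    fun l j => (Polynomial.natDegree_map_le).trans (hP' l j)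
  have hQd' : ∀ (l : Fin n) j, ((Q l j).map PowerSeries.constantCoeff).natDegree ≤ l :=
    fun l j => (Polynomial.natDegree_map_le).trans (hQ' l j)
  have g2 : (2 : MvPolynomial (Fin 2) k).IsHomogeneous 0 := isHomogeneous_C (Fin 2) (2 : k)
  have gz : (X 0 - C ζ * X 1 : MvPolynomial (Fin 2) k).IsHomogeneous 1 :=
    hom_X0.sub (hom_CX1 ζ)
  have g1 : (X 0 - X 1 : MvPolynomial (Fin 2) k).IsHomogeneous 1 := hom_X0.sub hom_X1
  have kP := fun (l : Fin n) j => Polynomial.isHomogeneous_homogenize (n := l + 2)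
    ((P l j).map PowerSeries.constantCoeff)
  have kQ := fun (l : Fin n) j => Polynomial.isHomogeneous_homogenize (n := l)
    ((Q l j).map PowerSeries.constantCoeff)
  have kPQ : ∀ (l : Fin n) j, (((Q l j).map PowerSeries.constantCoeff).homogenize l *
      ((X 0 - C ζ * X 1) * (X 0 - X 1)) : MvPolynomial (Fin 2) k).IsHomogeneous (l + 2) :=
    fun l j => (kQ l j).mul (gz.mul g1)
  refine ⟨PowerSeries.constantCoeff_X, hc₀, hc₁, ?_, ?_, ?_, ?_, ?_, ?_⟩
  · change MvPolynomial.map _ (A.homogenize N) = _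
    rw [← Polynomial.homogenize_map]
    refine form_ext (m := N) (Polynomial.isHomogeneous_homogenize _)
      ((hom_of_eq (hom_X0.pow N) (one_mul N)).add (hom_of_eq (hom_X1.pow N) (one_mul N))) ?_
    rw [dh_hom hAd', hA0]
    simp only [map_pow, map_add, dh_X0, dh_X1, one_pow]
  · change MvPolynomial.map _ (B.homogenize (N - 2)) * _ = _
    rw [← Polynomial.homogenize_map]
    refine form_ext (m := N) (hom_of_eq ((Polynomial.isHomogeneous_homogenize _).mul
      (gz.mul g1)) (by omega))
      ((hom_of_eq (hom_X0.pow N) (one_mul N)).sub (hom_of_eq (hom_X1.pow N) (one_mul N))) ?_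
    simp only [map_pow, map_mul, map_sub, dh_X0, dh_X1, dh_C, one_pow, mul_one, dh_hom hBd']
    exact hB0
  · intro l
    change MvPolynomial.map _ ((P l 0).homogenize (l + 2)) +
      MvPolynomial.map _ ((Q l 0).homogenize l) * _ = _
    rw [← Polynomial.homogenize_map, ← Polynomial.homogenize_map]
    refine form_ext (m := l + 2) ((kP l 0).add (kPQ l 0)) (hom_of_eq ((hom_X1.pow (l.val + 1)).mul
      ((isHomogeneous_C (Fin 2) _).mul g1)) (by omega)) ?_
    simp only [map_pow, map_mul, map_sub, map_add, dh_X0, dh_X1, dh_C, one_pow, one_mul, mul_one,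
      dh_hom (hPd' l 0), dh_hom (hQd' l 0), map_ofNat]
    have := s1 l 0
    simp only [map_pow, map_mul, map_ofNat, Matrix.cons_val_zero] at this
    exact this
  · intro l
    change MvPolynomial.map _ ((P l 0).homogenize (l + 2)) -
      MvPolynomial.map _ ((Q l 0).homogenize l) * _ = _
    rw [← Polynomial.homogenize_map, ← Polynomial.homogenize_map]
    refine form_ext (m := l + 2) ((kP l 0).sub (kPQ l 0)) (hom_of_eq ((hom_X0.pow (l.val + 1)).mul
      (g2.mul g1)) (by omega)) ?_
    simp only [map_pow, map_mul, map_sub, map_add, dh_X0, dh_X1, dh_C, one_pow, one_mul, mul_one,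
      dh_hom (hPd' l 0), dh_hom (hQd' l 0), map_ofNat]
    have := s2 l 0
    simp only [Matrix.cons_val_zero] at this
    exact this
  · intro l
    change MvPolynomial.map _ ((P l 1).homogenize (l + 2)) +
      MvPolynomial.map _ ((Q l 1).homogenize l) * _ = _
    rw [← Polynomial.homogenize_map, ← Polynomial.homogenize_map]
    refine form_ext (m := l + 2) ((kP l 1).add (kPQ l 1)) (hom_of_eq ((hom_X1.pow (l.val + 1)).mul
      (g2.mul gz)) (by omega)) ?_
    simp only [map_pow, map_mul, map_sub, map_add, dh_X0, dh_X1, dh_C, one_pow, one_mul, mul_one,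
      dh_hom (hPd' l 1), dh_hom (hQd' l 1), map_ofNat]
    have := s1 l 1
    simp only [Matrix.cons_val_one, one_pow, mul_one, map_ofNat, Matrix.cons_val_fin_one] at this
    exact this
  · intro l
    change MvPolynomial.map _ ((P l 1).homogenize (l + 2)) -
      MvPolynomial.map _ ((Q l 1).homogenize l) * _ = _
    rw [← Polynomial.homogenize_map, ← Polynomial.homogenize_map]
    refine form_ext (m := l + 2) ((kP l 1).sub (kPQ l 1)) (hom_of_eq ((hom_X0.pow (l.val + 1)).mul
      (g2.mul gz)) (by omega)) ?_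
    simp only [map_pow, map_mul, map_sub, map_add, dh_X0, dh_X1, dh_C, one_pow, one_mul, mul_one,
      dh_hom (hPd' l 1), dh_hom (hQd' l 1), map_ofNat]
    have := s2 l 1
    simp only [Matrix.cons_val_one, Matrix.cons_val_fin_one] at this
    exact this

end Pool.Agent.MultiSpec
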