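import Pool.Agent.MultiSpec.AsExt
import Pool.Agent.MultiSpec.BlockA
import Pool.Agent.MultiSpec.BlockK
import Pool.Agent.MultiSpec.Params
import Pool.Agent.MultiSpec.PowDatum
import Pool.Agent.CurveDeg.Multi.SlopeRoots
import Pool.Agent.CurveDeg.Multi.Reduction

/-!
The special forms.
-/

set_option autoImplicit false

namespace Pool.Agent.MultiSpec

open MvPolynomial CurveDeg

/-- The coordinates `u`. -/
def uu (n r : ℕ) : Fin (n + 1) → Fin (n + r + 1) := fun j => ⟨j, by omega⟩

/-- The coordinates `w`. -/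
def ww (n r : ℕ) : Fin r → Fin (n + r + 1) := fun i => ⟨n + 1 + i, by omega⟩

lemma uw_cases {n r : ℕ} (i : Fin (n + r + 1)) : (∃ j, i = uu n r j) ∨ ∃ j, i = ww n r j := by
  by_cases h : i.val < n + 1
  · exact Or.inl ⟨⟨i, h⟩, rfl⟩
  · refine Or.inr ⟨⟨i - (n + 1), by omega⟩, ?_⟩
    apply Fin.ext
    change i.val = n + 1 + (i.val - (n + 1))
    omega

/-- The embedding of the variables of one equation. -/
def emb {n r : ℕ} (i : Fin r) : Option (Fin (n + 1)) → Fin (n + r + 1) :=
  fun o => o.elim (ww n r i) (uu n r)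

lemma aeval_rename_emb {n r : ℕ} {K₀ L : Type*} [Field K₀] [Field L] [Algebra K₀ L] (i : Fin r)
    (x : Fin (n + r + 1) → L) (G : MvPolynomial (Option (Fin (n + 1))) K₀) :
    aeval x (rename (emb i) G) =
      aeval (fun o : Option (Fin (n + 1)) => o.elim (x (ww n r i)) fun j => x (uu n r j)) G := by
  rw [aeval_rename]
  congr 1
  apply congrArg
  funext o
  cases o <;> rfl

lemma eq_zero_of_pow_eq_zero' {L : Type*} [Field L] {b : L} {k : ℕ} (h : b ^ k = 0) : b = 0 := by
  by_contra hb
  exact pow_ne_zero k hb h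

/-- Case `n = 0`. -/
theorem hasSpecial_zero (r : ℕ) (d : Fin r → ℕ) (M : ℕ) : HasSpecial 0 r d M := by
  refine ⟨ℚ, inferInstance, inferInstance, inferInstance, fun i => X (ww 0 r i) ^ d i,
    fun i => ?_, ?_⟩
  · have := (isHomogeneous_X ℚ (ww 0 r i)).pow (d i)
    rw [one_mul] at this
    exact this
  intro κ _ _ _ _ P hP hPp hg e he
  refine dvd_slope_of_roots (uu 0 r) P hP hPp ?_ M ?_ e he
  · intro Q hQ hQp hPQ hu i
    rcases uw_cases i with ⟨j, rfl⟩ | ⟨j, rfl⟩
    · exact hu j
    · have h1 := hPQ (hg j)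
      rw [map_pow, map_X] at h1
      exact hQp.mem_of_pow_mem _ h1
  · intro E _ _ x hone hx
    refine ⟨E, inferInstance, inferInstance, inferInstance, inferInstance, inferInstance, ?_,
      0, 0, x (uu 0 r 0), fun c => ?_, fun i => i.elim0⟩
    · rw [Module.finrank_self]; exact Nat.coprime_one_right M
    · simp

/-- From forms over an algebraically closed field with the block properties. -/
theorem hasSpecial_of_blocks {k0 R0 F K₀ : Type} [Field k0] [CharZero k0] [CommRing R0]
    [IsDomain R0] [Algebra k0 R0] [Field F] [Algebra R0 F]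
    (hRF : Function.Injective (algebraMap R0 F)) [Field K₀] [IsAlgClosed K₀] [CharZero K₀]
    [Countable K₀] [Algebra F K₀] {p n r : ℕ} (hp : p.Prime) (hp2 : p ≠ 2) (hn : 0 < n)
    (hnp : n < p) (a : Fin r → ℕ) (d : Fin r → ℕ)
    (hd : ∀ i, a i = 0 ∨ 2 ^ n * Nat.factorial n * p ^ a i ∣ d i ∨
      (p ^ a i ∣ d i ∧ 2 ^ n * Nat.factorial n * (p ^ a i) ^ n ≤ d i))
    (N : Fin r → ℕ) (hN : ∀ i, a i ≠ 0 → N i = p ^ a i)
    (hN' : ∀ i, p ≤ N i) (D : ∀ i : Fin r, Fin n → EDatum (N i) n R0)
    (ζ : Fin r → k0) (hζ : ∀ i, IsPrimitiveRoot (ζ i) (N i)) (m : Ideal R0) [m.IsPrime]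
    (hm : ∀ i j, IsSpecial ((D i j).map (Ideal.Quotient.mk m)) (algebraMap k0 (R0 ⧸ m) (ζ i)))
    (hP : ∀ s : Fin r → Fin n, ∃ (P : Ideal R0) (_ : P.IsPrime), P ≤ m ∧
        (∀ i j, j ≠ s i →
          IsSpecial ((D i j).map (Ideal.Quotient.mk P)) (algebraMap k0 (R0 ⧸ P) (ζ i))) ∧
        ∀ i, (D i (s i)).t ∉ P)
    (cA : Fin n × (Fin n → Fin 2) → K₀) (hcA : AlgebraicIndependent F cA)
    (cK : ∀ i : Fin r, {e : Fin (n + 1) →₀ ℕ // e.degree = N i} → K₀)
    (hcK : ∀ i, AlgebraicIndependent F (cK i)) : HasSpecial n r d (p ^ ∑ i, a i) := by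
  classical
  have hA := fun i : Fin r => blockA K₀ hn (by have := hN' i; have := hp.two_le; omega : 2 ≤ N i)
    (by have := hN' i; omega : n < N i)
    (fun j => (D i j).map ((algebraMap F K₀).comp (algebraMap R0 F)))
    (((i : ℕ) + 1 : ℕ) : K₀) (Nat.cast_ne_zero.2 (Nat.succ_ne_zero _)) cA
  have hK := fun i : Fin r => blockK K₀ hn (by have := hN' i; have := hp.two_le; omega : 0 < N i)
    (((i : ℕ) + 1 : ℕ) : K₀) (cK i)
  choose GA hGA1 hGA2 hGA3 using hA
  choose GK hGK1 hGK2 hGK3 using hK
  have hcoin : ∀ i, ∃ s t : ℕ, a i ≠ 0 →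
      d i = s * (Nat.factorial n * 2 ^ n * N i) + t * (N i) ^ n := by
    intro i
    by_cases ha : a i = 0
    · exact ⟨0, 0, fun h => absurd ha h⟩
    · obtain ⟨s, t, h⟩ := exists_coins hp hp2 hn hnp ((hd i).resolve_left ha)
      exact ⟨s, t, fun h' => by rw [hN i h']; exact h⟩
  choose s t hst using hcoin
  let g : Fin r → MvPolynomial (Fin (n + r + 1)) K₀ := fun i =>
    if a i = 0 then X (ww n r i) ^ d i else rename (emb i) (GA i ^ s i * GK i ^ t i)
  have hg1 : ∀ i, a i = 0 → g i = X (ww n r i) ^ d i := fun i h => if_pos h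
  have hg2 : ∀ i, a i ≠ 0 → g i = rename (emb i) (GA i ^ s i * GK i ^ t i) := fun i h => if_neg h
  have hghom : ∀ i, g i ∈ homogeneousSubmodule (Fin (n + r + 1)) K₀ (d i) := by
    intro i
    by_cases ha : a i = 0
    · rw [hg1 i ha]
      have := (isHomogeneous_X K₀ (ww n r i)).pow (d i)
      rw [one_mul] at this
      exact this
    · rw [hg2 i ha, mem_homogeneousSubmodule]
      refine IsHomogeneous.rename_isHomogeneous ?_
      have h1 := ((hGA1 i).pow (s i)).mul ((hGK1 i).pow (t i))
      have h2 : d i = Nat.factorial n * 2 ^ n * N i * s i + N i ^ n * t i := by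
        rw [hst i ha]; ring
      rw [h2]
      exact h1
  refine ⟨K₀, inferInstance, inferInstance, inferInstance, g, hghom, ?_⟩
  intro κ _ _ _ _ P hP' hPp hgP e he
  have hcast : ((p ^ ∑ i, a i : ℕ) : ℤ) = ((p ^ ∑ i, a i : ℕ) : ℤ) := rfl
  refine dvd_slope_of_roots (uu n r) P hP' hPp ?_ (p ^ ∑ i, a i) ?_ e he
  · intro Q hQ hQp hPQ hu i
    rcases uw_cases i with ⟨j, rfl⟩ | ⟨j, rfl⟩
    · exact hu j
    by_cases ha : a j = 0
    · have h1 := hPQ (hgP j)
      rw [hg1 j ha, map_pow, map_X] at h1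
      exact hQp.mem_of_pow_mem _ h1
    · let B := MvPolynomial (Fin (n + r + 1)) κ ⧸ Q
      let L := FractionRing B
      have htow : IsScalarTower K₀ κ L := inferInstance
      let xL : Fin (n + r + 1) → L := fun i => algebraMap B L (Ideal.Quotient.mk Q (X i))
      have hxL : ∀ f : MvPolynomial (Fin (n + r + 1)) κ, aeval xL f =
          algebraMap B L (Ideal.Quotient.mk Q f) := by
        intro f
        have h1 : (aeval xL : MvPolynomial (Fin (n + r + 1)) κ →ₐ[κ] L) =
            (IsScalarTower.toAlgHom κ B L).comp (Ideal.Quotient.mkₐ κ Q) := by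
          apply MvPolynomial.algHom_ext
          intro i
          rw [aeval_X]
          rfl
        rw [h1]
        rfl
      have h0 : aeval xL (g j) = 0 := by
        rw [← aeval_map_algebraMap κ xL (g j), hxL, Ideal.Quotient.eq_zero_iff_mem.2 (hPQ (hgP j)),
          map_zero]
      have hu0 : ∀ l, xL (uu n r l) = 0 := by
        intro l
        change algebraMap B L (Ideal.Quotient.mk Q (X _)) = 0
        rw [Ideal.Quotient.eq_zero_iff_mem.2 (hu l), map_zero]
      rw [hg2 j ha, aeval_rename_emb, map_mul, map_pow, map_pow] at h0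
      have hfun : (fun o : Option (Fin (n + 1)) => o.elim (xL (ww n r j)) fun l => xL (uu n r l)) =
          fun o : Option (Fin (n + 1)) => o.elim (xL (ww n r j)) fun _ => 0 := by
        funext o
        cases o
        · rfl
        · exact hu0 _
      rw [hfun] at h0
      have hw0 : xL (ww n r j) = 0 := by
        rcases mul_eq_zero.1 h0 with h | h
        · exact hGA2 j L _ (eq_zero_of_pow_eq_zero' h)
        · exact hGK2 j L _ (eq_zero_of_pow_eq_zero' h)
      have h2 : Ideal.Quotient.mk Q (X (ww n r j)) = 0 :=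
        (IsFractionRing.injective B L) (by rw [map_zero]; exact hw0)
      exact Ideal.Quotient.eq_zero_iff_mem.1 h2
  · intro E _ _ x hone hx
    by_cases hall : ∀ j, x (uu n r j) = 0
    · refine ⟨E, inferInstance, inferInstance, inferInstance, inferInstance, inferInstance, ?_,
        0, 0, 0, fun c => ?_, fun i h => absurd rfl h⟩
      · rw [Module.finrank_self]; exact Nat.coprime_one_right _
      · rw [zero_mul]
        refine Finset.sum_eq_zero fun j _ => ?_
        rw [hall j, map_zero, zero_mul]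
    · let _ : Algebra K₀ E := ((algebraMap κ E).comp (algebraMap K₀ κ)).toAlgebra
      let _ : Algebra F E := ((algebraMap K₀ E).comp (algebraMap F K₀)).toAlgebra
      have htow : IsScalarTower K₀ κ E := IsScalarTower.of_algebraMap_eq fun _ => rfl
      have htow2 : IsScalarTower F K₀ E := IsScalarTower.of_algebraMap_eq fun _ => rfl
      have hcharE : CharZero E := charZero_of_injective_algebraMap (algebraMap κ E).injective
      refine exists_ext (k0 := k0) (R0 := R0) (F := F) (K₀ := K₀) (κ := κ) hRF hp hp2 hnp a N hN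
        hN' D ζ hζ m hm hP cA hcA cK hcK hone (fun j => x (uu n r j))
        (fun h => hall fun j => congrFun h j) (fun i => x (ww n r i)) ?_
      intro i ha
      set Ω := AlgebraicClosure E with hΩ
      have huΩ : (fun j => algebraMap E Ω (x (uu n r j))) ≠ 0 := by
        intro h0
        apply hall
        intro j
        exact (algebraMap E Ω).injective (by rw [congrFun h0 j]; simp)
      have h0 : aeval x (g i) = 0 := by
        rw [← aeval_map_algebraMap κ x (g i)]
        refine (hx (d i) _ ?_).2 (hgP i)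
        exact IsHomogeneous.map ((mem_homogeneousSubmodule _ _).1 (hghom i)) _
      have h1 : aeval (fun l => algebraMap E Ω (x l)) (g i) = 0 := by
        have h2 := congrArg (algebraMap E Ω) h0
        rw [map_zero, ← aeval_algebraMap_apply] at h2
        exact h2
      rw [hg2 i ha, aeval_rename_emb, map_mul, map_pow, map_pow] at h1
      rcases mul_eq_zero.1 h1 with h | h
      · left
        obtain ⟨Λ, xx, zz, q, h3, h4, h5, h6, h7⟩ := hGA3 i Ω
          (fun j => algebraMap E Ω (x (uu n r j))) (algebraMap E Ω (x (ww n r i))) huΩ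
          (eq_zero_of_pow_eq_zero' h)
        refine ⟨Λ, xx, zz, q, h3, h4, h5, fun l => ?_, h7⟩
        have h8 := h6 l
        rw [EDatum.map_map, map_natCast] at h8
        exact h8
      · right
        obtain ⟨Λ, ss, tt, v, h3, h4, h5, h6, h7⟩ := hGK3 i Ω
          (fun j => algebraMap E Ω (x (uu n r j))) (algebraMap E Ω (x (ww n r i))) huΩ
          (eq_zero_of_pow_eq_zero' h)
        refine ⟨Λ, ss, tt, v, h3, h4, fun T S => ?_, h6, h7⟩
        have h8 := h5 T S
        rw [map_natCast] at h8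
        exact h8

end Pool.Agent.MultiSpec
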