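import Pool.Agent.MultiSpec.AsForms

/-!
The theorem.
-/

set_option autoImplicit false

namespace Pool.Agent.MultiSpec

open MvPolynomial CurveDeg

/-- Special forms exist. -/
theorem hasSpecial {p n r : ℕ} (hp : p.Prime) (hp2 : p ≠ 2) (hnp : n < p) (a : Fin r → ℕ)
    (d : Fin r → ℕ)
    (hd : ∀ i, a i = 0 ∨ 2 ^ n * Nat.factorial n * p ^ a i ∣ d i ∨
      (p ^ a i ∣ d i ∧ 2 ^ n * Nat.factorial n * (p ^ a i) ^ n ≤ d i)) :
    HasSpecial n r d (p ^ ∑ i, a i) := by
  classical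
  rcases Nat.eq_zero_or_pos n with hn0 | hn
  · subst hn0
    exact hasSpecial_zero r d _
  have hp3 : 3 ≤ p := by
    have := hp.two_le
    omega
  obtain ⟨k, _, _, _, _⟩ : ∃ (k : Type) (_ : Field k) (_ : IsAlgClosed k) (_ : CharZero k),
      Countable k := by
    obtain ⟨k, h1, h2, h3, h4, _, _, _⟩ := exists_generic ℚ Empty
    exact ⟨k, h1, h2, h3, h4⟩
  let N : Fin r → ℕ := fun i => p ^ (max (a i) 1)
  have hN : ∀ i, a i ≠ 0 → N i = p ^ a i := by
    intro i hi
    change p ^ (max (a i) 1) = _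
    rw [max_eq_left (by omega)]
  have hN' : ∀ i, p ≤ N i := by
    intro i
    calc p = p ^ 1 := (pow_one p).symm
      _ ≤ p ^ (max (a i) 1) := Nat.pow_le_pow_right hp.pos (le_max_right _ _)
  have hζ : ∀ i, ∃ ζ : k, IsPrimitiveRoot ζ (N i) := by
    intro i
    have : NeZero ((N i : ℕ) : k) := ⟨Nat.cast_ne_zero.2 (by have := hN' i; omega)⟩
    exact HasEnoughRootsOfUnity.exists_primitiveRoot k (N i)
  choose ζ hζ using hζ
  obtain ⟨R₀, _, _, _, _, D, m, _, hm, hP⟩ := exists_params n r N ζ (fun i =>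
    exists_datum (by have := hN' i; omega) (by have := hN' i; omega) (ζ i) (hζ i))
  let F := FractionRing R₀
  have hchar : CharZero R₀ := charZero_of_injective_algebraMap (algebraMap k R₀).injective
  have hcharF : CharZero F := inferInstance
  have hcountF : Countable F := by
    refine Function.Surjective.countable (f := fun p : R₀ × R₀ =>
      (algebraMap _ F p.1) / (algebraMap _ F p.2)) ?_
    intro z
    obtain ⟨a, b, _, h⟩ := IsFractionRing.div_surjective (A := R₀) z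
    exact ⟨(a, b), h⟩
  obtain ⟨K₀, _, _, _, _, _, c, hc⟩ := exists_generic F
    ((Fin n × (Fin n → Fin 2)) ⊕ (Fin (n + 1) →₀ ℕ))
  refine hasSpecial_of_blocks (k0 := k) (R0 := R₀) (F := F) (K₀ := K₀)
    (IsFractionRing.injective R₀ F) hp hp2 hn hnp a d hd N hN hN' D ζ hζ m hm hP
    (fun e => c (Sum.inl e)) (hc.comp _ Sum.inl_injective) (fun i e => c (Sum.inr e.1))
    (fun i => hc.comp (fun e : {e : Fin (n + 1) →₀ ℕ // e.degree = N i} => Sum.inr e.1)
      (Sum.inr_injective.comp Subtype.val_injective))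

/-- **Theorem.**  Off countably many proper closed sets of forms: the degree of every curve on the
complete intersection is divisible by `p ^ ∑ a i` whenever `p > n` is an odd prime and for every
`i` with `a i ≠ 0` either `2 ^ n n! p ^ a i` divides `d i`, or `p ^ a i` divides `d i` and
`2 ^ n n! p ^ (n a i) ≤ d i`. -/
theorem main_multi (n r : ℕ) (d : Fin r → ℕ) :
    ∃ bad : ℕ → MvPolynomial (Σ i : Fin r, {m : Fin (n + r + 1) →₀ ℕ // m.degree = d i}) ℂ,
      (∀ j, bad j ≠ 0) ∧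
      ∀ f : Fin r → MvPolynomial (Fin (n + r + 1)) ℂ,
        (∀ i, f i ∈ homogeneousSubmodule (Fin (n + r + 1)) ℂ (d i)) →
        (∀ j, eval (fun x => coeff x.2.1 (f x.1)) (bad j) ≠ 0) →
        ∀ I : Ideal (MvPolynomial (Fin (n + r + 1)) ℂ), Homog I → I.IsPrime →
          ringKrullDim (MvPolynomial (Fin (n + r + 1)) ℂ ⧸ I) = 2 →
          (∀ i, f i ∈ I) →
          ∃ e : ℕ, (∃ K : ℕ, ∀ k : ℕ, K ≤ k → hilb I (k + 1) = hilb I k + e) ∧
            ∀ (p : ℕ) (a : Fin r → ℕ), p.Prime → p ≠ 2 → n < p →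
              (∀ i, a i = 0 ∨ 2 ^ n * Nat.factorial n * p ^ a i ∣ d i ∨
                (p ^ a i ∣ d i ∧ 2 ^ n * Nat.factorial n * (p ^ a i) ^ n ≤ d i)) →
              p ^ (∑ i, a i) ∣ e := by
  obtain ⟨bad, h1, h2⟩ := main_of_special n r d
  refine ⟨bad, h1, fun f hf hb I hI hIp hdim hfI => ?_⟩
  obtain ⟨e, he, h3⟩ := h2 f hf hb I hI hIp hdim hfI
  exact ⟨e, he, fun p a hp hp2 hnp hd => h3 _ (hasSpecial hp hp2 hnp a d hd)⟩

end Pool.Agent.MultiSpec
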