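import Mathlib

/-!
Adjoining elements of small degree; Frobenius coins.
-/

set_option autoImplicit false

namespace Pool.Agent.MultiSpec

open IntermediateField

/-- Adjoining finitely many elements of degree less than `p` gives an extension of degree prime
to `p`. -/
theorem coprime_finrank_adjoin {E Ω : Type*} [Field E] [Field Ω] [Algebra E Ω] {p : ℕ}
    (hp : p.Prime) (S : Finset Ω)
    (h : ∀ x ∈ S, ∃ f : Polynomial E, f ≠ 0 ∧ f.natDegree < p ∧ Polynomial.aeval x f = 0) :
    FiniteDimensional E (adjoin E (S : Set Ω)) ∧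
      Nat.Coprime p (Module.finrank E (adjoin E (S : Set Ω))) := by
  classical
  induction S using Finset.induction_on with
  | empty =>
    rw [Finset.coe_empty, adjoin_empty]
    refine ⟨inferInstance, ?_⟩
    rw [IntermediateField.finrank_bot]
    exact Nat.coprime_one_right p
  | insert x S hx ih =>
    obtain ⟨h1, h2⟩ := ih fun y hy => h y (Finset.mem_insert_of_mem hy)
    obtain ⟨f, hf0, hfd, hf⟩ := h x (Finset.mem_insert_self x S)
    set K := adjoin E (S : Set Ω) with hK
    have hx1 : IsAlgebraic E x := ⟨f, hf0, hf⟩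
    have hx2 : IsIntegral K x := hx1.isIntegral.tower_top
    have h3 : FiniteDimensional K K⟮x⟯ := adjoin.finiteDimensional hx2
    have h4 : (K⟮x⟯).restrictScalars E = adjoin E ((insert x S : Finset Ω) : Set Ω) := by
      rw [hK, adjoin_adjoin_left, Finset.coe_insert, Set.union_comm, Set.singleton_union]
    have h5 : Module.finrank K K⟮x⟯ < p := by
      rw [adjoin.finrank hx2]
      have h6 : (minpoly K x).natDegree ≤ (f.map (algebraMap E K)).natDegree := by
        refine Polynomial.natDegree_le_of_dvd (minpoly.dvd K x ?_) ?_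
        · rw [Polynomial.aeval_map_algebraMap]; exact hf
        · exact (Polynomial.map_ne_zero_iff (algebraMap E K).injective).2 hf0
      rw [Polynomial.natDegree_map] at h6
      exact h6.trans_lt hfd
    have h7 : 0 < Module.finrank K K⟮x⟯ := Module.finrank_pos
    have h8 : Nat.Coprime p (Module.finrank K K⟮x⟯) :=
      Nat.coprime_of_lt_prime h7.ne' h5 hp
    have h9 : FiniteDimensional E K⟮x⟯ := Module.Finite.trans K K⟮x⟯
    have hfr : Module.Free K K⟮x⟯ := Module.Free.of_divisionRing K K⟮x⟯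
    have hfr' : Module.Free E K := Module.Free.of_divisionRing E K
    have h10 : Module.finrank E K⟮x⟯ = Module.finrank E K * Module.finrank K K⟮x⟯ :=
      (Module.finrank_mul_finrank E K K⟮x⟯).symm
    rw [← h4]
    refine ⟨h9, ?_⟩
    change Nat.Coprime p (Module.finrank E K⟮x⟯)
    rw [h10]
    exact h2.mul_right h8

/-- Two steps. -/
theorem coprime_finrank_adjoin_two {E Ω : Type*} [Field E] [Field Ω] [Algebra E Ω] {p : ℕ}
    (hp : p.Prime) (S T : Finset Ω)
    (hS : ∀ x ∈ S, ∃ f : Polynomial E, f ≠ 0 ∧ f.natDegree < p ∧ Polynomial.aeval x f = 0)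
    (hT : ∀ y ∈ T, ∃ f : Polynomial (adjoin E (S : Set Ω)), f ≠ 0 ∧ f.natDegree < p ∧
      Polynomial.aeval y f = 0) :
    FiniteDimensional E (adjoin E ((S : Set Ω) ∪ T)) ∧
      Nat.Coprime p (Module.finrank E (adjoin E ((S : Set Ω) ∪ T))) := by
  classical
  obtain ⟨h1, h2⟩ := coprime_finrank_adjoin hp S hS
  set K := adjoin E (S : Set Ω) with hK
  obtain ⟨h3, h4⟩ := coprime_finrank_adjoin hp T hT
  set L := adjoin K (T : Set Ω) with hL
  have h5 : L.restrictScalars E = adjoin E ((S : Set Ω) ∪ T) := by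
    rw [hL, hK, adjoin_adjoin_left]
  have h9 : FiniteDimensional E L := Module.Finite.trans K L
  have hfr : Module.Free K L := Module.Free.of_divisionRing K L
  have hfr' : Module.Free E K := Module.Free.of_divisionRing E K
  have h10 : Module.finrank E L = Module.finrank E K * Module.finrank K L :=
    (Module.finrank_mul_finrank E K L).symm
  rw [← h5]
  refine ⟨h9, ?_⟩
  change Nat.Coprime p (Module.finrank E L)
  rw [h10]
  exact h2.mul_right h4

/-- Frobenius coins. -/
theorem exists_coins {p n a d : ℕ} (hp : p.Prime) (hp2 : p ≠ 2) (hn : 0 < n) (hnp : n < p)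
    (hd : (2 ^ n * Nat.factorial n * p ^ a ∣ d) ∨
      (p ^ a ∣ d ∧ 2 ^ n * Nat.factorial n * (p ^ a) ^ n ≤ d)) :
    ∃ s t : ℕ, d = s * (Nat.factorial n * 2 ^ n * p ^ a) + t * (p ^ a) ^ n := by
  rcases hd with ⟨s, hs⟩ | ⟨⟨m, hm⟩, hle⟩
  · exact ⟨s, 0, by rw [hs]; ring⟩
  · have hcop : Nat.Coprime (2 ^ n * Nat.factorial n) ((p ^ a) ^ (n - 1)) := by
      refine Nat.Coprime.pow_right _ (Nat.Coprime.pow_right _ ?_)
      refine Nat.Coprime.mul_left ?_ ?_
      · refine Nat.Coprime.pow_left _ ?_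
        exact ((Nat.coprime_primes Nat.prime_two hp).2 (Ne.symm hp2))
      · exact ((Nat.Prime.coprime_iff_not_dvd hp).2 fun h =>
          (hp.dvd_factorial.1 h).not_gt hnp).symm
    obtain ⟨n', rfl⟩ : ∃ n', n = n' + 1 := ⟨n - 1, by omega⟩
    rw [Nat.add_sub_cancel] at hcop
    have hpos : 0 < p ^ a := pow_pos hp.pos _
    have hm2 : 2 ^ (n' + 1) * Nat.factorial (n' + 1) * (p ^ a) ^ n' ≤ m := by
      have h1 : p ^ a * (2 ^ (n' + 1) * Nat.factorial (n' + 1) * (p ^ a) ^ n') ≤ p ^ a * m := by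
        rw [← hm]
        refine le_trans (le_of_eq ?_) hle
        ring
      exact Nat.le_of_mul_le_mul_left h1 hpos
    obtain ⟨s, t, hst⟩ := Nat.exists_add_mul_eq_of_gcd_dvd_of_mul_pred_le
      (2 ^ (n' + 1) * Nat.factorial (n' + 1)) ((p ^ a) ^ n') m
      (by rw [hcop]; exact one_dvd m)
      ((Nat.mul_le_mul (Nat.pred_le _) (Nat.pred_le _)).trans hm2)
    refine ⟨s, t, ?_⟩
    rw [hm, ← hst]
    ring

end Pool.Agent.MultiSpec
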