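import Pool.Agent.MultiSpec.Count
import Pool.Agent.CurveDeg.Kummer

set_option autoImplicit false

namespace Pool.Agent.MultiSpec

open Polynomial

/-- A subfamily with a nontrivial Galois action: after passing to a power, the automorphism acts
on all `s i` through `p`-th roots of unity, not all trivial. -/
lemma claimK_aut {K₀ E Ω : Type*} [Field K₀] [IsAlgClosed K₀] [Field E] [Field Ω]
    [Algebra K₀ E] [Algebra K₀ Ω] [Algebra E Ω] [IsGalois E Ω] [IsScalarTower K₀ E Ω]
    {p n N a : ℕ} (hN : N = p ^ a) (hp : p.Prime) (s : Fin n → Ω)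
    (hsE : ∀ i, s i ^ N ∈ Set.range (algebraMap E Ω))
    (hne : ¬ ∀ i, s i ∈ Set.range (algebraMap E Ω)) :
    ∃ (σ : Ω ≃ₐ[E] Ω) (z : Fin n → Ω), (∀ i, z i ^ p = 1) ∧
      (∀ i, σ (z i) = z i) ∧ (∀ i, σ (s i) = z i * s i) ∧ ∃ i, z i ≠ 1 ∧ s i ≠ 0 := by
  classical
  have hNpos : 0 < N := by rw [hN]; exact pow_pos hp.pos a
  push Not at hne
  obtain ⟨i₀, hi₀⟩ := hne
  have : ∃ τ : Ω ≃ₐ[E] Ω, τ (s i₀) ≠ s i₀ := by
    by_contra hcon
    push Not at hcon
    exact hi₀ ((InfiniteGalois.mem_range_algebraMap_iff_fixed (k := E) (s i₀)).2 hcon)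
  obtain ⟨τ, hτ⟩ := this
  have hy : ∀ i, ∃ y : Ω, y ^ N = 1 ∧ τ (s i) = y * s i ∧ (s i = 0 → y = 1) := by
    intro i
    by_cases h0 : s i = 0
    · exact ⟨1, one_pow _, by simp [h0], fun _ => rfl⟩
    · refine ⟨τ (s i) / s i, ?_, ?_, fun h => absurd h h0⟩
      · obtain ⟨e, he⟩ := hsE i
        rw [div_pow, ← map_pow, ← he, AlgEquiv.commutes, he, div_self (pow_ne_zero _ h0)]
      · rw [div_mul_cancel₀ _ h0]
  choose y hy1 hy2 hy3 using hy
  have hyK : ∀ i, y i ∈ Set.range (algebraMap K₀ Ω) := by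
    intro i
    apply Pool.Agent.CurveDeg.mem_range_of_isAlgebraic
    exact (IsIntegral.of_pow hNpos (by rw [hy1 i]; exact isIntegral_one)).isAlgebraic
  have hyτ : ∀ i, τ (y i) = y i := by
    intro i
    obtain ⟨k, hk⟩ := hyK i
    rw [← hk, IsScalarTower.algebraMap_apply K₀ E Ω, AlgEquiv.commutes]
  have hP : ∃ k, ∀ i, y i ^ p ^ k = 1 := ⟨a, fun i => by rw [← hN]; exact hy1 i⟩
  obtain ⟨k, hk, hkmin⟩ : ∃ k, (∀ i, y i ^ p ^ k = 1) ∧ ∀ k' < k, ¬ ∀ i, y i ^ p ^ k' = 1 :=
    ⟨Nat.find hP, Nat.find_spec hP, fun k' hk' => Nat.find_min hP hk'⟩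
  have hkpos : k ≠ 0 := by
    rintro rfl
    apply hτ
    have := hk i₀
    rw [pow_zero, pow_one] at this
    rw [hy2, this, one_mul]
  obtain ⟨l, rfl⟩ := Nat.exists_eq_succ_of_ne_zero hkpos
  have hpowy : ∀ (m : ℕ) i, (τ ^ m) (y i) = y i := by
    intro m i
    induction m with
    | zero => rfl
    | succ m ih => rw [pow_succ', AlgEquiv.mul_apply, ih, hyτ]
  have hpows : ∀ (m : ℕ) i, (τ ^ m) (s i) = y i ^ m * s i := by
    intro m i
    induction m with
    | zero => simp
    | succ m ih =>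
      rw [pow_succ', AlgEquiv.mul_apply, ih, map_mul, map_pow, hyτ, hy2]
      ring
  refine ⟨τ ^ p ^ l, fun i => y i ^ p ^ l, ?_, ?_, ?_, ?_⟩
  · intro i
    rw [← pow_mul, ← pow_succ]
    exact hk i
  · intro i
    rw [map_pow, hpowy]
  · intro i
    exact hpows _ i
  · have := hkmin l (Nat.lt_succ_self l)
    push Not at this
    obtain ⟨i, hi⟩ := this
    refine ⟨i, hi, fun h0 => hi ?_⟩
    rw [hy3 i h0, one_pow]

/-- Coefficients of a product of linear polynomials with coefficients in a subfield. -/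
lemma claimK_coeff_mem {Ω : Type*} [Field Ω] (k : Subfield Ω) {n : ℕ} (t s : Fin n → Ω)
    (ht : ∀ i, t i ∈ k) (hs : ∀ i, s i ∈ k) (j : ℕ) :
    (∏ i, (C (t i) * X - C (s i)) : Polynomial Ω).coeff j ∈ k := by
  have h : (∏ i, (C (t i) * X - C (s i)) : Polynomial Ω) =
      Polynomial.map k.subtype (∏ i, (C (⟨t i, ht i⟩ : k) * X - C (⟨s i, hs i⟩ : k))) := by
    rw [Polynomial.map_prod]
    apply Finset.prod_congr rfl
    intro i _
    simp
  rw [h, Polynomial.coeff_map]
  exact SetLike.coe_mem _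

/-- The coefficient vector is determined by its values. -/
lemma claimK_coeff_eq {Ω : Type*} [Field Ω] [Infinite Ω] {n : ℕ} (t s : Fin n → Ω)
    (v : Fin (n + 1) → Ω)
    (hv : ∀ T : Ω, ∑ j : Fin (n + 1), v j * T ^ (j : ℕ) = ∏ i, (t i * T - s i))
    (j : Fin (n + 1)) : v j = (∏ i, (C (t i) * X - C (s i)) : Polynomial Ω).coeff j := by
  have h : (∏ i, (C (t i) * X - C (s i)) : Polynomial Ω) = ∑ j : Fin (n + 1), C (v j) * X ^ (j : ℕ) := by
    apply Polynomial.funext
    intro T
    rw [Polynomial.eval_prod, Polynomial.eval_finsetSum]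
    simp only [eval_sub, eval_mul, eval_C, eval_X, eval_pow]
    exact (hv T).symm
  rw [h, Polynomial.finsetSum_coeff]
  simp only [coeff_C_mul, coeff_X_pow]
  rw [Finset.sum_eq_single j]
  · simp
  · intro b _ hb
    rw [if_neg, mul_zero]
    intro h
    exact hb (Fin.ext h.symm)
  · simp

lemma claimK_linInd_sub {Ω M : Type*} [Field Ω] [AddCommGroup M] [Module Ω M] {n : ℕ}
    (f : Fin (n + 1) → M) (hf : LinearIndependent Ω f) :
    LinearIndependent Ω (fun m : Fin n => f m.succ - f 0) := by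
  rw [Fintype.linearIndependent_iff] at hf ⊢
  intro g hg m
  have := hf (Fin.cons (-∑ i, g i) g) (by
    rw [Fin.sum_univ_succ]
    simp only [Fin.cons_zero, Fin.cons_succ]
    simp only [smul_sub, Finset.sum_sub_distrib, ← Finset.sum_smul] at hg
    rw [neg_smul, neg_add_eq_sub]
    exact hg) m.succ
  simpa using this

theorem claimK {F K₀ E Ω : Type} [Field F] [Field K₀] [IsAlgClosed K₀] [Field E] [Field Ω]
    [CharZero Ω] [Algebra F K₀] [Algebra F E] [Algebra F Ω] [Algebra K₀ E] [Algebra K₀ Ω]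
    [Algebra E Ω] [IsGalois E Ω] [IsScalarTower F K₀ E] [IsScalarTower F K₀ Ω]
    [IsScalarTower K₀ E Ω] {p n N a : ℕ} (hp : p.Prime) (hnp : n < p) (hN : N = p ^ a)
    (hnN : n ≤ N) (c : {e : Fin (n + 1) →₀ ℕ // e.degree = N} → K₀)
    (hc : AlgebraicIndependent F c)
    (s t : Fin n → Ω) (hst : ∀ i, t i = 1 ∨ (t i = 0 ∧ s i = 1))
    (hsE : ∀ i, s i ^ N ∈ Set.range (algebraMap E Ω))
    (hξ : ∃ i, Transcendental K₀ (s i)) (v : Fin (n + 1) → Ω)
    (hv : ∀ T S : Ω, ∑ j : Fin (n + 1), v j * T ^ (j : ℕ) * S ^ (n - j) =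
      ∏ i, (t i * T - s i * S))
    (hw : (∑ᶠ e : {e : Fin (n + 1) →₀ ℕ // e.degree = N},
      algebraMap K₀ Ω (c e) * ∏ j, v j ^ e.1 j) ∈ Set.range (algebraMap E Ω)) :
    ∀ i, s i ∈ Set.range (algebraMap E Ω) := by
  classical
  by_contra hne
  have : Infinite Ω := Infinite.of_injective (Nat.cast : ℕ → Ω) Nat.cast_injective
  have : Finite {e : Fin (n + 1) →₀ ℕ // e.degree = N} :=
    (Finsupp.finite_of_degree_eq (σ := Fin (n + 1)) N).to_subtype
  let _ : Fintype {e : Fin (n + 1) →₀ ℕ // e.degree = N} := Fintype.ofFinite _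
  obtain ⟨σ, z, hz1, hz2, hzs, i₁, hi₁, hs₁⟩ := claimK_aut (K₀ := K₀) (E := E) hN hp s hsE hne
  have ht₁ : t i₁ = 1 := by
    rcases hst i₁ with h | ⟨_, h⟩
    · exact h
    · exfalso
      apply hi₁
      have := hzs i₁
      rw [h, map_one, mul_one] at this
      exact this.symm
  have hσt : ∀ (m : ℕ) i, (σ ^ m) (t i) = t i := by
    intro m i
    rcases hst i with h | ⟨h, _⟩ <;> simp [h]
  have hσz : ∀ (m : ℕ) i, (σ ^ m) (z i) = z i := by
    intro m i
    induction m with
    | zero => rfl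
    | succ m ih => rw [pow_succ', AlgEquiv.mul_apply, ih, hz2]
  have hσs : ∀ (m : ℕ) i, (σ ^ m) (s i) = z i ^ m * s i := by
    intro m i
    induction m with
    | zero => simp
    | succ m ih =>
      rw [pow_succ', AlgEquiv.mul_apply, ih, map_mul, map_pow, hz2, hzs]
      ring
  -- the conjugates of the coefficient vector
  have hvm : ∀ (m : ℕ) (T S : Ω), ∑ j : Fin (n + 1), (σ ^ m) (v j) * T ^ (j : ℕ) * S ^ (n - j) =
      ∏ i, (t i * T - z i ^ m * s i * S) := by
    intro m T S
    have h := congrArg (σ ^ m) (hv ((σ ^ m).symm T) ((σ ^ m).symm S))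
    rw [map_sum, map_prod] at h
    simp only [map_mul, map_pow, map_sub, AlgEquiv.apply_symm_apply, hσt, hσs] at h
    exact h
  have hvm1 : ∀ (m : ℕ) (T : Ω), ∑ j : Fin (n + 1), (σ ^ m) (v j) * T ^ (j : ℕ) =
      ∏ i, (t i * T - z i ^ m * s i) := by
    intro m T
    have h := hvm m T 1
    simpa using h
  -- order of `z i₁`
  have hord : ∀ d : ℕ, z i₁ ^ d = 1 → p ∣ d := by
    intro d hd
    have h := orderOf_eq_prime (hz1 i₁) hi₁ (hp := ⟨hp⟩)
    rw [← h]
    exact orderOf_dvd_of_pow_eq_one hd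
  have hz0 : z i₁ ≠ 0 := by
    intro h
    have := hz1 i₁
    rw [h, zero_pow hp.ne_zero] at this
    exact zero_ne_one this
  -- main step: no two conjugates are proportional
  have key : ∀ m m' : ℕ, m' < m → m ≤ n → ∀ b : Ω,
      (fun j => (σ ^ m) (v j)) ≠ b • fun j => (σ ^ m') (v j) := by
    intro m m' hlt hmn b hb
    have hsum : ∀ T : Ω, ∏ i, (t i * T - z i ^ m * s i) =
        b * ∏ i, (t i * T - z i ^ m' * s i) := by
      intro T
      rw [← hvm1 m, ← hvm1 m', Finset.mul_sum]
      apply Finset.sum_congr rfl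
      intro j _
      have := congrFun hb j
      simp only [Pi.smul_apply, smul_eq_mul] at this
      rw [this]
      ring
    have hb0 : b ≠ 0 := by
      rintro rfl
      -- the product polynomial is nonzero
      have h1 : (∏ i, (C (t i) * X - C (z i ^ m * s i)) : Polynomial Ω) = 0 := by
        apply Polynomial.funext
        intro T
        rw [Polynomial.eval_prod]
        simp only [eval_sub, eval_mul, eval_C, eval_X, eval_zero]
        rw [hsum T, zero_mul]
      rw [Finset.prod_eq_zero_iff] at h1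
      obtain ⟨i, _, hi⟩ := h1
      rcases hst i with h | ⟨h, h'⟩
      · have h2 := congrArg (fun q => Polynomial.coeff q 1) hi
        simp only [coeff_sub, coeff_C_mul, coeff_X_one, mul_one, coeff_zero] at h2
        rw [coeff_C_of_ne_zero one_ne_zero, sub_zero, h] at h2
        exact one_ne_zero h2
      · rw [h, map_zero, zero_mul, zero_sub, neg_eq_zero, C_eq_zero, ← hσs, h', map_one] at hi
        exact one_ne_zero hi
    have hstep : ∀ i, t i = 1 → ∃ k, t k = 1 ∧ s k = z i ^ (m - m') * s i := by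
      intro i hti
      have h1 := hsum (z i ^ m * s i)
      have h2 : ∏ k, (t k * (z i ^ m * s i) - z k ^ m * s k) = 0 := by
        apply Finset.prod_eq_zero (Finset.mem_univ i)
        rw [hti, one_mul, sub_self]
      rw [h2] at h1
      have h3 := (mul_eq_zero.1 h1.symm).resolve_left hb0
      rw [Finset.prod_eq_zero_iff] at h3
      obtain ⟨k, _, hk⟩ := h3
      have hzi : z i ≠ 0 := by
        intro h
        have := hz1 i
        rw [h, zero_pow hp.ne_zero] at this
        exact zero_ne_one this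
      rcases hst k with h | ⟨h, h'⟩
      · refine ⟨k, h, ?_⟩
        rw [h, one_mul, sub_eq_zero] at hk
        -- apply the inverse of `σ ^ m'`
        have h5 : (σ ^ m') (s k) = (σ ^ m') (z i ^ (m - m') * s i) := by
          rw [map_mul, map_pow, hσz, hσs, hσs, ← hk, ← mul_assoc, ← pow_add,
            Nat.sub_add_cancel hlt.le]
        exact (σ ^ m').injective h5
      · exfalso
        rw [h, zero_mul, zero_sub, neg_eq_zero, ← hσs, h', map_one] at hk
        exact one_ne_zero hk
    -- the orbit of `s i₁`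
    have horb : ∀ r : ℕ, ∃ k, s k = z i₁ ^ ((m - m') * r) * s i₁ ∧ t k = 1 := by
      intro r
      induction r with
      | zero => exact ⟨i₁, by simp, ht₁⟩
      | succ r ih =>
        obtain ⟨k, hk, hkt⟩ := ih
        obtain ⟨k', hk't, hk'⟩ := hstep k hkt
        refine ⟨k', ?_, hk't⟩
        -- `z k = z i₁`
        have hzk : z k = z i₁ := by
          have h6 : z k * s k = z i₁ * s k := by
            rw [← hzs k]
            conv_lhs => rw [hk]
            rw [map_mul, map_pow, hz2, hzs i₁, hk]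
            ring
          have hk0 : s k ≠ 0 := by
            rw [hk]
            exact mul_ne_zero (pow_ne_zero _ hz0) hs₁
          exact mul_right_cancel₀ hk0 h6
        rw [hk', hzk, hk, ← mul_assoc, ← pow_add]
        congr 2
        ring
    choose κ hκ1 hκ2 using horb
    have hinj : Function.Injective fun r : Fin p => κ r := by
      intro r r' hrr
      have hrr' : κ (r : ℕ) = κ (r' : ℕ) := hrr
      have h7 : z i₁ ^ ((m - m') * (r : ℕ)) = z i₁ ^ ((m - m') * (r' : ℕ)) := by
        apply mul_right_cancel₀ hs₁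
        rw [← hκ1, ← hκ1, hrr']
      have hcop : Nat.Coprime p (m - m') := by
        rw [Nat.Prime.coprime_iff_not_dvd hp]
        intro hd
        have := Nat.le_of_dvd (by omega) hd
        omega
      have h8 : ∀ x y : ℕ, x < y → y < p →
          z i₁ ^ ((m - m') * x) ≠ z i₁ ^ ((m - m') * y) := by
        intro x y hxy hy he
        have h9 : z i₁ ^ ((m - m') * (y - x)) = 1 := by
          have h10 : (m - m') * y = (m - m') * x + (m - m') * (y - x) := by
            rw [← Nat.mul_add]
            congr 1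
            omega
          rw [h10, pow_add] at he
          exact (mul_eq_left₀ (pow_ne_zero _ hz0)).1 he.symm
        have h11 := hord _ h9
        have h12 := (hcop.dvd_mul_left).1 h11
        have := Nat.le_of_dvd (by omega) h12
        omega
      apply Fin.ext
      rcases lt_trichotomy (r : ℕ) r' with h | h | h
      · exact absurd h7 (h8 _ _ h r'.2)
      · exact h
      · exact absurd h7.symm (h8 _ _ h r.2)
    have hcard := Fintype.card_le_of_injective _ hinj
    rw [Fintype.card_fin, Fintype.card_fin] at hcard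
    omega
  -- the conjugate vectors
  let w : Fin (n + 1) → Fin (n + 1) → Ω := fun m j => (σ ^ (m : ℕ)) (v j)
  have hw0 : ∀ m, w m ≠ 0 := by
    intro m h
    rcases Nat.eq_zero_or_pos n with hn0 | hnpos
    · subst hn0
      exact i₁.elim0
    · -- compare with another conjugate
      by_cases hm : (m : ℕ) = 0
      · refine key 1 0 one_pos hnpos 0 ?_
        have hv0 : ∀ j, v j = 0 := by
          intro j
          have := congrFun h j
          simpa [w, hm] using this
        funext j
        simp [hv0]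
      · refine key m 0 (Nat.pos_of_ne_zero hm) (Nat.lt_succ_iff.1 m.2) 0 ?_
        rw [zero_smul]
        exact h
  have hwne : ∀ m m', m ≠ m' → ∀ b : Ω, w m ≠ b • w m' := by
    intro m m' hmm b hb
    rcases lt_or_gt_of_ne (fun h => hmm (Fin.ext h) : (m : ℕ) ≠ m') with h | h
    · have hb0 : b ≠ 0 := by
        rintro rfl
        rw [zero_smul] at hb
        exact hw0 m hb
      refine key m' m h (Nat.lt_succ_iff.1 m'.2) b⁻¹ ?_
      change w m' = b⁻¹ • w m
      rw [hb, smul_smul, inv_mul_cancel₀ hb0, one_smul]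
    · exact key m m' h (Nat.lt_succ_iff.1 m.2) b hb
  have hli := linearIndependent_eval hnN w hw0 hwne
  have hli' := claimK_linInd_sub _ hli
  -- the value of the form at the conjugates
  obtain ⟨ω, hω⟩ := hw
  rw [finsum_eq_sum_of_fintype] at hω
  have hval : ∀ m : ℕ, ∑ e : {e : Fin (n + 1) →₀ ℕ // e.degree = N},
      algebraMap K₀ Ω (c e) * ∏ j, ((σ ^ m) (v j)) ^ e.1 j = algebraMap E Ω ω := by
    intro m
    have h := congrArg (σ ^ m) hω
    rw [AlgEquiv.commutes, map_sum] at h
    rw [h]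
    apply Finset.sum_congr rfl
    intro e _
    rw [map_mul, map_prod, IsScalarTower.algebraMap_apply K₀ E Ω, AlgEquiv.commutes]
    simp only [map_pow]
  obtain ⟨i₂, hi₂⟩ := hξ
  have hY : ∀ i, s i ∈ acl F ((Finset.univ.image s : Finset Ω) : Set Ω) := by
    intro i
    have hmem : s i ∈ Algebra.adjoin F ((Finset.univ.image s : Finset Ω) : Set Ω) := by
      apply Algebra.subset_adjoin
      simp
    exact isAlgebraic_algebraMap (⟨s i, hmem⟩ : Algebra.adjoin F _)
  have hzY : ∀ i, z i ∈ acl F ((Finset.univ.image s : Finset Ω) : Set Ω) := by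
    intro i
    exact (IsIntegral.of_pow hp.pos (by rw [hz1 i]; exact isIntegral_one)).isAlgebraic
  have htY : ∀ i, t i ∈ acl F ((Finset.univ.image s : Finset Ω) : Set Ω) := by
    intro i
    rcases hst i with h | ⟨h, _⟩ <;> rw [h]
    · exact one_mem _
    · exact zero_mem _
  have hwY : ∀ m j, w m j ∈ acl F ((Finset.univ.image s : Finset Ω) : Set Ω) := by
    intro m j
    rw [claimK_coeff_eq t (fun i => z i ^ (m : ℕ) * s i) (w m) (hvm1 m) j]
    exact claimK_coeff_mem _ t _ htY (fun i => mul_mem (pow_mem (hzY i) _) (hY i)) _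
  refine not_of_count (F := F) c hc (s i₂) hi₂ (Finset.univ.image s)
    (Finset.card_image_le.trans (by simp)) (hY i₂) _ hli' ?_ ?_
  · intro m e
    simp only [Pi.sub_apply]
    exact sub_mem (prod_mem fun i _ => pow_mem (hwY _ _) _)
      (prod_mem fun i _ => pow_mem (hwY _ _) _)
  · intro m
    have h1 := hval ((m.succ : Fin (n + 1)) : ℕ)
    have h2 := hval ((0 : Fin (n + 1)) : ℕ)
    have h3 := sub_eq_zero.2 (h1.trans h2.symm)
    rw [← Finset.sum_sub_distrib] at h3
    rw [← h3]
    apply Finset.sum_congr rfl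
    intro e _
    simp only [Pi.sub_apply, w]
    ring

end Pool.Agent.MultiSpec
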