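import Mathlib

set_option autoImplicit false

namespace Pool.Agent.MultiSpec

open Polynomial

namespace KumIndAux

section quad

variable {k R : Type} [Field k] [Field R] [Algebra k R]

/-- A quadratic extension consists of the elements `u + v y`. -/
theorem quad_form {K : IntermediateField k R} {y : R} (hy : y ∉ K) (hy2 : y ^ 2 ∈ K) {s : Set R}
    (hs : ∀ z ∈ s, z ∈ K ∨ z = y) {w : R} (hw : w ∈ IntermediateField.adjoin k s) :
    ∃ u ∈ K, ∃ v ∈ K, w = u + v * y := by
  induction hw using IntermediateField.adjoin_induction with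
  | mem z hz =>
    rcases hs z hz with h | h
    · exact ⟨z, h, 0, zero_mem _, by ring⟩
    · exact ⟨0, zero_mem _, 1, one_mem _, by rw [h]; ring⟩
  | algebraMap z => exact ⟨_, K.algebraMap_mem z, 0, zero_mem _, by ring⟩
  | add a b _ _ ha hb =>
    obtain ⟨u, hu, v, hv, rfl⟩ := ha
    obtain ⟨u', hu', v', hv', rfl⟩ := hb
    exact ⟨u + u', add_mem hu hu', v + v', add_mem hv hv', by ring⟩
  | mul a b _ _ ha hb =>
    obtain ⟨u, hu, v, hv, rfl⟩ := ha
    obtain ⟨u', hu', v', hv', rfl⟩ := hb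
    exact ⟨u * u' + v * v' * y ^ 2, add_mem (mul_mem hu hu') (mul_mem (mul_mem hv hv') hy2),
      u * v' + v * u', add_mem (mul_mem hu hv') (mul_mem hv hu'), by ring⟩
  | inv a _ ha =>
    obtain ⟨u, hu, v, hv, rfl⟩ := ha
    by_cases hn : u ^ 2 - v ^ 2 * y ^ 2 = 0
    · have hv0 : v = 0 := by
        by_contra hv0
        have h1 : (y - u / v) * (y + u / v) = 0 := by
          field_simp
          linear_combination (-1 : R) * hn
        rcases mul_eq_zero.mp h1 with h | h
        · exact hy (by rw [sub_eq_zero.mp h]; exact div_mem hu hv)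
        · exact hy (by rw [eq_neg_of_add_eq_zero_left h]; exact neg_mem (div_mem hu hv))
      have hu0 : u = 0 := by
        rw [hv0] at hn
        have : u ^ 2 = 0 := by linear_combination hn
        exact pow_eq_zero_iff (two_ne_zero) |>.mp this
      exact ⟨0, zero_mem _, 0, zero_mem _, by rw [hu0, hv0]; simp⟩
    · have hnm : u ^ 2 - v ^ 2 * y ^ 2 ∈ K :=
        sub_mem (pow_mem hu 2) (mul_mem (pow_mem hv 2) hy2)
      refine ⟨u / (u ^ 2 - v ^ 2 * y ^ 2), div_mem hu hnm, -v / (u ^ 2 - v ^ 2 * y ^ 2),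
        div_mem (neg_mem hv) hnm, ?_⟩
      have hne : u + v * y ≠ 0 := by
        intro h
        apply hn
        have : u ^ 2 - v ^ 2 * y ^ 2 = (u + v * y) * (u - v * y) := by ring
        rw [this, h, zero_mul]
      rw [inv_eq_one_div, div_eq_iff hne]
      field_simp
      ring

theorem conj_pow {K : IntermediateField k R} {y : R} (hy2 : y ^ 2 ∈ K) {u v : R} (hu : u ∈ K)
    (hv : v ∈ K) (m : ℕ) :
    ∃ a ∈ K, ∃ b ∈ K, (u + v * y) ^ m = a + b * y ∧ (u - v * y) ^ m = a - b * y := by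
  induction m with
  | zero => exact ⟨1, one_mem _, 0, zero_mem _, by ring, by ring⟩
  | succ m ih =>
    obtain ⟨a, ha, b, hb, h1, h2⟩ := ih
    refine ⟨a * u + b * v * y ^ 2, add_mem (mul_mem ha hu) (mul_mem (mul_mem hb hv) hy2),
      a * v + b * u, add_mem (mul_mem ha hv) (mul_mem hb hu), ?_, ?_⟩
    · rw [pow_succ, h1]; ring
    · rw [pow_succ, h2]; ring

theorem coeff_eq {K : IntermediateField k R} {y : R} (hy : y ∉ K) {a b c d : R} (ha : a ∈ K)
    (hb : b ∈ K) (hc : c ∈ K) (hd : d ∈ K) (h : a + b * y = c + d * y) : a = c ∧ b = d := by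
  have hbd : b = d := by
    by_contra hne
    apply hy
    have h1 : b - d ≠ 0 := sub_ne_zero.mpr hne
    have h2 : y = (c - a) / (b - d) := by
      rw [eq_div_iff h1]
      linear_combination h
    rw [h2]
    exact div_mem (sub_mem hc ha) (sub_mem hb hd)
  refine ⟨?_, hbd⟩
  rw [hbd] at h
  exact add_right_cancel h

theorem elim_one {K : IntermediateField k R} {y : R} (hy : y ∉ K) (hy2 : y ^ 2 ∈ K)
    {α β c u v : R} (hα : α ∈ K) (hβ : β ∈ K) (hc : c ∈ K) (hu : u ∈ K) (hv : v ∈ K) (e p : ℕ)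
    (h : c * (α + β * y) ^ e = (u + v * y) ^ p) :
    (α ^ 2 - β ^ 2 * y ^ 2) ^ e * c ^ 2 = (u ^ 2 - v ^ 2 * y ^ 2) ^ p := by
  obtain ⟨a, ha, b, hb, h1, h2⟩ := conj_pow hy2 hα hβ e
  obtain ⟨a', ha', b', hb', h1', h2'⟩ := conj_pow hy2 hu hv p
  rw [h1, h1'] at h
  have h3 : c * a + c * b * y = a' + b' * y := by rw [← h]; ring
  obtain ⟨h4, h5⟩ := coeff_eq hy (mul_mem hc ha) (mul_mem hc hb) ha' hb' h3
  have e1 : α ^ 2 - β ^ 2 * y ^ 2 = (α + β * y) * (α - β * y) := by ring
  have e2 : u ^ 2 - v ^ 2 * y ^ 2 = (u + v * y) * (u - v * y) := by ring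
  rw [e1, e2, mul_pow, mul_pow, h1, h2, h1', h2', ← h4, ← h5]
  ring

end quad

section base

variable {k : Type} [Field k]

theorem not_sq_poly {F P Q : k[X]} (hF : Squarefree F) (hdeg : 0 < F.natDegree) (hQ : Q ≠ 0)
    (h : P ^ 2 = F * Q ^ 2) : False := by
  have h1 : Q ^ 2 ∣ P ^ 2 := ⟨F, by rw [h]; ring⟩
  have h2 : Q ∣ P := (IsIntegrallyClosed.pow_dvd_pow_iff two_ne_zero).mp h1
  obtain ⟨T, rfl⟩ := h2
  have h3 : T * T = F := by
    have h4 : Q ^ 2 * (T * T) = Q ^ 2 * F := by rw [mul_comm (Q ^ 2) F, ← h]; ring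
    exact mul_left_cancel₀ (pow_ne_zero 2 hQ) h4
  have h5 : IsUnit T := hF T ⟨1, by rw [h3]; ring⟩
  have h6 : IsUnit F := by rw [← h3]; exact h5.mul h5
  have h7 := Polynomial.natDegree_eq_zero_of_isUnit h6
  omega

variable {R : Type} [Field R] [Algebra k R]

theorem not_sq_base {x : R} (hx : Transcendental k x) {F : k[X]} (hF : Squarefree F)
    (hdeg : 0 < F.natDegree) {w : R} (hw : w ∈ IntermediateField.adjoin k {x})
    (h : w ^ 2 = aeval x F) : False := by
  obtain ⟨P, Q, hPQ⟩ := (IntermediateField.mem_adjoin_simple_iff k w).mp hw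
  have hinj : Function.Injective (aeval x : k[X] →ₐ[k] R) :=
    transcendental_iff_injective.mp hx
  have hF0 : aeval x F ≠ 0 := by
    intro h0
    have : F = 0 := hinj (by rw [h0, map_zero])
    rw [this] at hdeg
    simp at hdeg
  have hQ : Q ≠ 0 := by
    rintro rfl
    rw [map_zero, div_zero] at hPQ
    rw [hPQ] at h
    apply hF0
    rw [← h]
    ring
  have hQ' : aeval x Q ≠ 0 := fun h0 => hQ (hinj (by rw [h0, map_zero]))
  apply not_sq_poly hF hdeg hQ (P := P)
  apply hinj
  rw [map_pow, map_mul, map_pow, ← h, hPQ]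
  field_simp

end base

section tower

variable {k R : Type} [Field k] [Field R] [Algebra k R]

/-- the field generated by `x` and the `y i`, `i ∈ S` -/
def Kf (k : Type) {R : Type} [Field k] [Field R] [Algebra k R] {r : ℕ} (x : R) (y : Fin r → R)
    (S : Finset (Fin r)) : IntermediateField k R :=
  IntermediateField.adjoin k ({x} ∪ {z | ∃ i ∈ S, z = y i})

variable {r : ℕ} {x : R} {y : Fin r → R}

theorem Kf_mono {S T : Finset (Fin r)} (h : S ⊆ T) : Kf k x y S ≤ Kf k x y T := by
  apply IntermediateField.adjoin.mono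
  rintro z (hz | ⟨i, hi, rfl⟩)
  · exact Or.inl hz
  · exact Or.inr ⟨i, h hi, rfl⟩

theorem x_mem_Kf (S : Finset (Fin r)) : x ∈ Kf k x y S :=
  IntermediateField.subset_adjoin _ _ (Or.inl rfl)

theorem y_mem_Kf {S : Finset (Fin r)} {i : Fin r} (h : i ∈ S) : y i ∈ Kf k x y S :=
  IntermediateField.subset_adjoin _ _ (Or.inr ⟨i, h, rfl⟩)

theorem aeval_mem_Kf (S : Finset (Fin r)) (P : k[X]) : aeval x P ∈ Kf k x y S := by
  have h : (aeval x P : R) ∈ Algebra.adjoin k {x} := Polynomial.aeval_mem_adjoin_singleton k x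
  exact (Algebra.adjoin_le (S := (Kf k x y S).toSubalgebra)
    (Set.singleton_subset_iff.mpr (x_mem_Kf S))) h

theorem Kf_empty : Kf k x y ∅ = IntermediateField.adjoin k {x} := by
  unfold Kf
  congr 1
  ext z
  simp

theorem Kf_insert_form {S : Finset (Fin r)} {i : Fin r} (hy : y i ∉ Kf k x y S)
    (hy2 : y i ^ 2 ∈ Kf k x y S) {w : R} (hw : w ∈ Kf k x y (insert i S)) :
    ∃ u ∈ Kf k x y S, ∃ v ∈ Kf k x y S, w = u + v * y i := by
  refine quad_form hy hy2 ?_ hw
  rintro z (hz | ⟨j, hj, rfl⟩)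
  · rw [Set.mem_singleton_iff.mp hz]; exact Or.inl (x_mem_Kf S)
  · rcases Finset.mem_insert.mp hj with rfl | hj
    · exact Or.inr rfl
    · exact Or.inl (y_mem_Kf hj)

variable [CharZero k]

theorem indep (hx : Transcendental k x) (ty : Fin r → Bool) (f : Fin r → k[X])
    (hsq : ∀ i, ty i = true → Squarefree (f i)) (hdeg : ∀ i, ty i = true → 0 < (f i).natDegree)
    (hcop : ∀ i j, i ≠ j → ty i = true → ty j = true → IsCoprime (f i) (f j))
    (hy : ∀ i, ty i = true → y i ^ 2 = aeval x (f i)) (S : Finset (Fin r)) :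
    (∀ i ∈ S, ty i = true) → ∀ T : Finset (Fin r), (∀ i ∈ T, ty i = true) → Disjoint S T →
      T.Nonempty → ∀ w ∈ Kf k x y S, w ^ 2 ≠ ∏ i ∈ T, aeval x (f i) := by
  classical
  have hch : CharZero R := charZero_of_injective_algebraMap (algebraMap k R).injective
  have h2 : (2 : R) ≠ 0 := two_ne_zero
  induction S using Finset.induction_on with
  | empty =>
    intro _ T hT _ hne w hw h
    rw [Kf_empty] at hw
    refine not_sq_base hx (F := ∏ i ∈ T, f i) ?_ ?_ hw (by rw [h, map_prod])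
    · refine Finset.squarefree_prod_of_pairwise_isCoprime ?_ (fun i hi => hsq i (hT i hi))
      intro i hi j hj hij
      exact (hcop i j hij (hT i hi) (hT j hj)).isRelPrime
    · have hne0 : ∀ i ∈ T, f i ≠ 0 := fun i hi h0 => by
        have := hdeg i (hT i hi)
        rw [h0] at this
        simp at this
      rw [Polynomial.natDegree_prod _ _ hne0]
      obtain ⟨i, hi⟩ := hne
      exact lt_of_lt_of_le (hdeg i (hT i hi))
        (Finset.single_le_sum (f := fun i => (f i).natDegree) (fun _ _ => Nat.zero_le _) hi)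
  | insert j S hj ih =>
    intro hS T hT hdis hne w hw h
    have hS' : ∀ i ∈ S, ty i = true := fun i hi => hS i (Finset.mem_insert_of_mem hi)
    have htj : ty j = true := hS j (Finset.mem_insert_self _ _)
    have hjT : j ∉ T := Finset.disjoint_left.mp hdis (Finset.mem_insert_self _ _)
    have hST : Disjoint S T := Finset.disjoint_of_subset_left (Finset.subset_insert _ _) hdis
    have hyj : y j ∉ Kf k x y S := by
      intro hm
      refine ih hS' {j} (by simpa using htj) (by simpa using hj) (Finset.singleton_nonempty _)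
        (y j) hm ?_
      rw [Finset.prod_singleton, hy j htj]
    have hyj2 : y j ^ 2 ∈ Kf k x y S := by rw [hy j htj]; exact aeval_mem_Kf S _
    obtain ⟨u, hu, v, hv, rfl⟩ := Kf_insert_form hyj hyj2 hw
    have hTm : ∏ i ∈ T, aeval x (f i) ∈ Kf k x y S := by
      rw [← map_prod]; exact aeval_mem_Kf S _
    have h3 : (u ^ 2 + v ^ 2 * y j ^ 2) + (2 * u * v) * y j = ∏ i ∈ T, aeval x (f i) + 0 * y j := by
      rw [← h]; ring
    obtain ⟨h4, h5⟩ := coeff_eq hyj
      (add_mem (pow_mem hu 2) (mul_mem (pow_mem hv 2) hyj2))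
      (mul_mem (mul_mem (ofNat_mem _ 2) hu) hv) hTm
      (zero_mem _) h3
    have h6 : u * v = 0 := by
      have : 2 * (u * v) = 0 := by rw [← h5]; ring
      exact (mul_eq_zero.mp this).resolve_left h2
    rcases mul_eq_zero.mp h6 with hu0 | hv0
    · -- `u = 0`
      refine ih hS' (insert j T) (by
        intro i hi
        rcases Finset.mem_insert.mp hi with rfl | hi
        · exact htj
        · exact hT i hi) (Finset.disjoint_insert_right.mpr ⟨hj, hST⟩)
        (Finset.insert_nonempty _ _) (v * y j ^ 2) (mul_mem hv hyj2) ?_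
      rw [Finset.prod_insert hjT, ← h4, hu0, ← hy j htj]
      ring
    · refine ih hS' T hT hST hne u hu ?_
      rw [← h4, hv0]
      ring

theorem elim [IsAlgClosed k] (hx : Transcendental k x) {p : ℕ} (hp : p.Prime)
    (a : Fin r → ℕ) (ty : Fin r → Bool) (A B f : Fin r → k[X]) (mu : Fin r → k)
    (hmu : ∀ i, mu i ≠ 0)
    (pell : ∀ i, ty i = true → A i ^ 2 - f i * B i ^ 2 = C (mu i) * X ^ (p ^ a i))
    (hsq : ∀ i, ty i = true → Squarefree (f i)) (hdeg : ∀ i, ty i = true → 0 < (f i).natDegree)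
    (hcop : ∀ i j, i ≠ j → ty i = true → ty j = true → IsCoprime (f i) (f j))
    (hy : ∀ i, ty i = true → y i ^ 2 = aeval x (f i)) (S0 : Finset (Fin r))
    (hS0 : ∀ i ∈ S0, ty i = true) (S : Finset (Fin r)) :
    (∀ i ∈ S, ty i = true) → Disjoint S0 S → ∀ e : Fin r → ℕ, (∀ i, a i = 0 → e i = 0) →
      ∀ c ∈ Kf k x y S0, ∀ g ∈ Kf k x y (S0 ∪ S),
      c * ∏ i ∈ S, ((aeval x (A i) + aeval x (B i) * y i) / 2) ^ e i = g ^ p →
      ∃ s : ℕ, ∃ g' ∈ Kf k x y S0, c ^ 2 ^ s = g' ^ p := by
  classical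
  have hch : CharZero R := charZero_of_injective_algebraMap (algebraMap k R).injective
  have h2 : (2 : R) ≠ 0 := two_ne_zero
  have hx0 : x ≠ 0 := by
    rintro rfl
    exact hx isAlgebraic_zero
  induction S using Finset.induction_on with
  | empty =>
    intro _ _ e _ c hc g hg h
    rw [Finset.union_empty] at hg
    exact ⟨0, g, hg, by simpa using h⟩
  | insert i S hi ih =>
    intro hS hdis e he c hc g hg h
    have hS' : ∀ j ∈ S, ty j = true := fun j hj => hS j (Finset.mem_insert_of_mem hj)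
    have hti : ty i = true := hS i (Finset.mem_insert_self _ _)
    have hdis' : Disjoint S0 S := Finset.disjoint_of_subset_right (Finset.subset_insert _ _) hdis
    have hi0 : i ∉ S0 := Finset.disjoint_right.mp hdis (Finset.mem_insert_self _ _)
    have hyi : y i ∉ Kf k x y (S0 ∪ S) := by
      intro hm
      refine indep hx ty f hsq hdeg hcop hy (S0 ∪ S) ?_ {i} (by simpa using hti) ?_
        (Finset.singleton_nonempty _) (y i) hm ?_
      · intro j hj
        rcases Finset.mem_union.mp hj with h' | h'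
        · exact hS0 j h'
        · exact hS' j h'
      · rw [Finset.disjoint_singleton_right]
        intro h'
        rcases Finset.mem_union.mp h' with h' | h'
        · exact hi0 h'
        · exact hi h'
      · rw [Finset.prod_singleton, hy i hti]
    have hyi2 : y i ^ 2 ∈ Kf k x y (S0 ∪ S) := by rw [hy i hti]; exact aeval_mem_Kf _ _
    have hH : ∀ j ∈ S, (aeval x (A j) + aeval x (B j) * y j) / 2 ∈ Kf k x y (S0 ∪ S) := by
      intro j hj
      exact div_mem (add_mem (aeval_mem_Kf _ _) (mul_mem (aeval_mem_Kf _ _)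
        (y_mem_Kf (Finset.mem_union_right _ hj)))) (ofNat_mem _ 2)
    rw [Finset.union_insert] at hg
    obtain ⟨u, hu, v, hv, rfl⟩ := Kf_insert_form hyi hyi2 hg
    have hcm : c * ∏ j ∈ S, ((aeval x (A j) + aeval x (B j) * y j) / 2) ^ e j ∈
        Kf k x y (S0 ∪ S) :=
      mul_mem (Kf_mono Finset.subset_union_left hc)
        (prod_mem fun j hj => pow_mem (hH j hj) _)
    have h3 : (c * ∏ j ∈ S, ((aeval x (A j) + aeval x (B j) * y j) / 2) ^ e j) *
        (aeval x (A i) / 2 + aeval x (B i) / 2 * y i) ^ e i = (u + v * y i) ^ p := by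
      rw [← h, Finset.prod_insert hi]
      ring
    have h4 := elim_one hyi hyi2 (div_mem (aeval_mem_Kf _ _) (ofNat_mem _ 2))
      (div_mem (aeval_mem_Kf _ _) (ofNat_mem _ 2)) hcm hu hv (e i) p h3
    -- the norm of `H i` is a `p`-th power
    obtain ⟨hh, hhm, hh0, hhe⟩ : ∃ hh ∈ Kf k x y (S0 ∪ S), hh ≠ 0 ∧
        ((aeval x (A i) / 2) ^ 2 - (aeval x (B i) / 2) ^ 2 * y i ^ 2) ^ e i = hh ^ p := by
      by_cases hai : a i = 0
      · refine ⟨1, one_mem _, one_ne_zero, ?_⟩
        rw [he i hai, pow_zero, one_pow]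
      · obtain ⟨ν, hν⟩ := IsAlgClosed.exists_pow_nat_eq (mu i / 4) hp.pos
        have hν0 : ν ≠ 0 := by
          rintro rfl
          rw [zero_pow hp.pos.ne'] at hν
          have : mu i / 4 ≠ 0 := div_ne_zero (hmu i) (by norm_num)
          exact this hν.symm
        obtain ⟨b, hb⟩ := Nat.exists_eq_succ_of_ne_zero hai
        refine ⟨(algebraMap k R ν * x ^ (p ^ b)) ^ e i, pow_mem (mul_mem
          ((Kf k x y (S0 ∪ S)).algebraMap_mem ν) (pow_mem (x_mem_Kf _) _)) _,
          pow_ne_zero _ (mul_ne_zero ((_root_.map_ne_zero _).mpr hν0) (pow_ne_zero _ hx0)), ?_⟩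
        have h5 : (aeval x (A i) / 2) ^ 2 - (aeval x (B i) / 2) ^ 2 * y i ^ 2 =
            (algebraMap k R ν * x ^ (p ^ b)) ^ p := by
          have h6 := congrArg (aeval x) (pell i hti)
          simp only [map_sub, map_mul, map_pow, aeval_C, aeval_X] at h6
          rw [mul_pow, ← map_pow, hν, ← pow_mul, ← pow_succ, ← Nat.succ_eq_add_one, ← hb,
            hy i hti, map_div₀]
          have h7 : algebraMap k R 4 = 4 := map_ofNat _ 4
          rw [h7]
          field_simp
          linear_combination 4 * h6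
        rw [h5]
        exact pow_right_comm _ _ _
    rw [hhe] at h4
    have h5 : c ^ 2 * ∏ j ∈ S, ((aeval x (A j) + aeval x (B j) * y j) / 2) ^ (2 * e j) =
        ((u ^ 2 - v ^ 2 * y i ^ 2) / hh) ^ p := by
      rw [div_pow, eq_div_iff (pow_ne_zero _ hh0), ← h4]
      have : ∏ j ∈ S, ((aeval x (A j) + aeval x (B j) * y j) / 2) ^ (2 * e j) =
          (∏ j ∈ S, ((aeval x (A j) + aeval x (B j) * y j) / 2) ^ e j) ^ 2 := by
        rw [← Finset.prod_pow]
        exact Finset.prod_congr rfl fun j _ => pow_mul' _ 2 _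
      rw [this]
      ring
    obtain ⟨s, g', hg', hs⟩ := ih hS' hdis' (fun j => 2 * e j)
      (fun j hj => by simp [he j hj]) (c ^ 2) (pow_mem hc 2) _
      (div_mem (sub_mem (pow_mem hu 2) (mul_mem (pow_mem hv 2) hyi2)) hhm) h5
    refine ⟨s + 1, g', hg', ?_⟩
    rw [← hs, ← pow_mul, ← pow_succ']

omit [CharZero k] in
theorem rm_pow (z : k) (P : k[X]) (n : ℕ) :
    rootMultiplicity z (P ^ n) = n * rootMultiplicity z P := by
  classical
  rw [← count_roots, ← count_roots, roots_pow, Multiset.count_nsmul]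

omit [CharZero k] in
/-- root multiplicities of a `p`-th power in `k(x)` -/
theorem typeK (hx : Transcendental k x) {p s : ℕ} (hp : p.Prime) (hp2 : p ≠ 2)
    (K : Finset (Fin r)) (c : Fin r → k)
    (hc : ∀ i ∈ K, ∀ j ∈ K, i ≠ j → c i ≠ c j) (e : Fin r → ℕ) {g : R}
    (hg : g ∈ IntermediateField.adjoin k {x})
    (h : (∏ i ∈ K, (x - algebraMap k R (c i)) ^ e i) ^ 2 ^ s = g ^ p) :
    ∀ i ∈ K, p ∣ e i := by
  intro i hi
  obtain ⟨P, Q, hPQ⟩ := (IntermediateField.mem_adjoin_simple_iff k g).mp hg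
  have hinj : Function.Injective (aeval x : k[X] →ₐ[k] R) :=
    transcendental_iff_injective.mp hx
  have hxc : ∀ j, x - algebraMap k R (c j) = aeval x (X - C (c j)) := fun j => by simp
  have hne : ∀ j, (X - C (c j) : k[X]) ≠ 0 := fun j => X_sub_C_ne_zero _
  have hL : (∏ j ∈ K, (X - C (c j) : k[X]) ^ e j) ^ 2 ^ s ≠ 0 :=
    pow_ne_zero _ (Finset.prod_ne_zero_iff.mpr fun j _ => pow_ne_zero _ (hne j))
  have hL' : aeval x ((∏ j ∈ K, (X - C (c j) : k[X]) ^ e j) ^ 2 ^ s) = g ^ p := by
    rw [← h, map_pow, map_prod]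
    congr 1
    exact Finset.prod_congr rfl fun j _ => by rw [map_pow, ← hxc]
  have hg0 : g ^ p ≠ 0 := by
    rw [← hL']
    intro h0
    exact hL (hinj (by rw [h0, map_zero]))
  have hQ : Q ≠ 0 := by
    rintro rfl
    rw [map_zero, div_zero] at hPQ
    rw [hPQ, zero_pow hp.pos.ne'] at hg0
    exact hg0 rfl
  have hP : P ≠ 0 := by
    rintro rfl
    rw [map_zero, zero_div] at hPQ
    rw [hPQ, zero_pow hp.pos.ne'] at hg0
    exact hg0 rfl
  have hQ' : aeval x Q ≠ 0 := fun h0 => hQ (hinj (by rw [h0, map_zero]))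
  have key : (∏ j ∈ K, (X - C (c j) : k[X]) ^ e j) ^ 2 ^ s * Q ^ p = P ^ p := by
    apply hinj
    rw [map_mul, hL', map_pow, map_pow, hPQ, div_pow,
      div_mul_cancel₀ _ (pow_ne_zero _ hQ')]
  have h1 := congrArg (rootMultiplicity (c i)) key
  have hW : (∏ j ∈ K.erase i, (X - C (c j) : k[X]) ^ e j).eval (c i) ≠ 0 := by
    rw [eval_prod]
    refine Finset.prod_ne_zero_iff.mpr fun j hj => ?_
    rw [eval_pow, eval_sub, eval_X, eval_C]
    exact pow_ne_zero _ (sub_ne_zero.mpr (hc i hi j (Finset.mem_of_mem_erase hj)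
      (Finset.ne_of_mem_erase hj).symm))
  have hW0 : (∏ j ∈ K.erase i, (X - C (c j) : k[X]) ^ e j) ≠ 0 := by
    intro h0
    rw [h0, eval_zero] at hW
    exact hW rfl
  have h2 : rootMultiplicity (c i) (∏ j ∈ K, (X - C (c j) : k[X]) ^ e j) = e i := by
    rw [← Finset.mul_prod_erase K _ hi, rootMultiplicity_mul (mul_ne_zero
      (pow_ne_zero _ (hne i)) hW0), rootMultiplicity_X_sub_C_pow,
      rootMultiplicity_eq_zero (fun h => hW h), add_zero]
  rw [rootMultiplicity_mul (mul_ne_zero hL (pow_ne_zero _ hQ)), rm_pow, rm_pow, rm_pow, h2] at h1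
  have h3 : p ∣ 2 ^ s * e i := by
    have h4 : p ∣ 2 ^ s * e i + p * rootMultiplicity (c i) Q := by
      rw [h1]; exact dvd_mul_right _ _
    exact (Nat.dvd_add_left (dvd_mul_right _ _)).mp h4
  rcases hp.dvd_mul.mp h3 with h4 | h4
  · exact absurd ((Nat.prime_dvd_prime_iff_eq hp Nat.prime_two).mp (hp.dvd_of_dvd_pow h4)) hp2
  · exact h4

end tower

end KumIndAux

open KumIndAux in
/-- The independence modulo `p`-th powers needed for module Kummer.  Indices `i` with
`ty i = true` are of type A (`h = (A + B y)/2`, `y ^ 2 = f`), the others of type K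
(`h = x - c`). -/
theorem kummer_independent {k R : Type} [Field k] [IsAlgClosed k] [CharZero k] [Field R]
    [Algebra k R] (x : R) (hx : Transcendental k x) {p r : ℕ} (hp : p.Prime) (hp2 : p ≠ 2)
    (a : Fin r → ℕ) (ty : Fin r → Bool)
    -- type A
    (A B f : Fin r → k[X]) (mu : Fin r → k) (hmu : ∀ i, mu i ≠ 0)
    (pell : ∀ i, ty i = true → A i ^ 2 - f i * B i ^ 2 = C (mu i) * X ^ (p ^ a i))
    (hsq : ∀ i, ty i = true → Squarefree (f i)) (hdeg : ∀ i, ty i = true → 0 < (f i).natDegree)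
    (hcop : ∀ i j, i ≠ j → ty i = true → ty j = true → IsCoprime (f i) (f j))
    (hNP : ∀ i, ty i = true → a i ≠ 0 → ∀ (L : Type) [Field L] [Algebra k L] (z Y g : L),
      Transcendental k z → Y ^ 2 = aeval z (f i) → g ∈ IntermediateField.adjoin k {z, Y} →
      2 * g ^ p ≠ aeval z (A i) + aeval z (B i) * Y)
    (y : Fin r → R) (hy : ∀ i, ty i = true → y i ^ 2 = aeval x (f i))
    -- type K
    (c : Fin r → k) (hc0 : ∀ i, ty i = false → c i ≠ 0)
    (hc : ∀ i j, i ≠ j → ty i = false → ty j = false → c i ≠ c j)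
    -- an independent relation
    (e : Fin r → ℕ) (he : ∀ i, a i = 0 → e i = 0) (g : R)
    (hg : g ∈ IntermediateField.adjoin k ({x} ∪ {z | ∃ i, ty i = true ∧ z = y i}))
    (hrel : ∏ i, (if ty i then (aeval x (A i) + aeval x (B i) * y i) / 2
      else x - algebraMap k R (c i)) ^ e i = g ^ p) :
    ∀ i, p ∣ e i := by
  classical
  have hch : CharZero R := charZero_of_injective_algebraMap (algebraMap k R).injective
  set SA : Finset (Fin r) := Finset.univ.filter (fun i => ty i = true) with hSA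
  set SK : Finset (Fin r) := Finset.univ.filter (fun i => ¬ ty i = true) with hSK
  have hSAm : ∀ i ∈ SA, ty i = true := fun i hi => (Finset.mem_filter.mp hi).2
  have hSKm : ∀ i ∈ SK, ty i = false := fun i hi => by
    have := (Finset.mem_filter.mp hi).2
    simpa using this
  have hKfA : IntermediateField.adjoin k ({x} ∪ {z | ∃ i, ty i = true ∧ z = y i}) =
      Kf k x y SA := by
    unfold Kf
    congr 1
    ext z
    simp [hSA]
  rw [hKfA] at hg
  set HA : Fin r → R := fun i => (aeval x (A i) + aeval x (B i) * y i) / 2 with hHA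
  set cK : R := ∏ i ∈ SK, (x - algebraMap k R (c i)) ^ e i with hcK
  have hrel' : cK * ∏ i ∈ SA, HA i ^ e i = g ^ p := by
    rw [← hrel, ← Finset.prod_filter_mul_prod_filter_not Finset.univ (fun i => ty i = true),
      mul_comm]
    congr 1
    · refine Finset.prod_congr rfl fun i hi => ?_
      rw [if_pos (hSAm i hi)]
    · refine Finset.prod_congr rfl fun i hi => ?_
      rw [if_neg (by rw [hSKm i hi]; exact Bool.false_ne_true)]
  have hcKm : ∀ S, cK ∈ Kf k x y S := fun S => prod_mem fun i _ => pow_mem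
    (sub_mem (x_mem_Kf S) ((Kf k x y S).algebraMap_mem _)) _
  -- type K
  have hK : ∀ i ∈ SK, p ∣ e i := by
    obtain ⟨s, g', hg', hs⟩ := elim (y := y) hx hp a ty A B f mu hmu pell hsq hdeg hcop hy ∅
      (by simp) SA hSAm (Finset.disjoint_empty_left _) e he cK (hcKm _) g
      (by rwa [Finset.empty_union]) hrel'
    rw [Kf_empty] at hg'
    exact typeK hx hp hp2 SK c (fun i hi j hj hij => hc i j hij (hSKm i hi) (hSKm j hj)) e hg' hs
  intro j
  by_cases hj : ty j = true
  · by_contra hdvd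
    have haj : a j ≠ 0 := fun h0 => hdvd (by rw [he j h0]; exact dvd_zero _)
    -- write `cK` as a `p`-th power
    choose! e' he' using hK
    have hcK' : cK = (∏ i ∈ SK, (x - algebraMap k R (c i)) ^ e' i) ^ p := by
      rw [hcK, ← Finset.prod_pow]
      refine Finset.prod_congr rfl fun i hi => ?_
      rw [← pow_mul, mul_comm, ← he' i hi]
    set cK' : R := ∏ i ∈ SK, (x - algebraMap k R (c i)) ^ e' i with hcKd
    have hx0 : ∀ i, x - algebraMap k R (c i) ≠ 0 := fun i h0 => by
      apply hx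
      rw [sub_eq_zero.mp h0]
      exact isAlgebraic_algebraMap _
    have hcK0 : cK' ≠ 0 := Finset.prod_ne_zero_iff.mpr fun i _ => pow_ne_zero _ (hx0 i)
    have hjA : j ∈ SA := Finset.mem_filter.mpr ⟨Finset.mem_univ _, hj⟩
    have hHm : HA j ∈ Kf k x y {j} := div_mem (add_mem (aeval_mem_Kf _ _)
      (mul_mem (aeval_mem_Kf _ _) (y_mem_Kf (Finset.mem_singleton_self _)))) (ofNat_mem _ 2)
    have hH0 : HA j ≠ 0 := by
      intro h0
      have h1 : aeval x (A j) + aeval x (B j) * y j = 0 := by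
        have := congrArg (· * 2) h0
        simpa [hHA] using this
      have h2 := congrArg (aeval x) (pell j hj)
      simp only [map_sub, map_mul, map_pow, aeval_C, aeval_X] at h2
      rw [← hy j hj] at h2
      have h3 : algebraMap k R (mu j) * x ^ (p ^ a j) = 0 := by
        rw [← h2]
        linear_combination (aeval x (A j) - aeval x (B j) * y j) * h1
      rcases mul_eq_zero.mp h3 with h4 | h4
      · exact hmu j ((_root_.map_eq_zero _).mp h4)
      · have h5 : x = 0 := pow_eq_zero_iff (pow_ne_zero _ hp.pos.ne') |>.mp h4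
        apply hx
        rw [h5]
        exact isAlgebraic_zero
    obtain ⟨s, g', hg', hs⟩ := elim (y := y) hx hp a ty A B f mu hmu pell hsq hdeg hcop hy {j}
      (by simpa using hj) (SA.erase j) (fun i hi => hSAm i (Finset.mem_of_mem_erase hi))
      (Finset.disjoint_singleton_left.mpr (Finset.notMem_erase _ _)) e he (cK * HA j ^ e j)
      (mul_mem (hcKm _) (pow_mem hHm _)) g (by
        have : {j} ∪ SA.erase j = SA := by
          rw [← Finset.insert_eq, Finset.insert_erase hjA]
        rw [this]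
        exact hg) (by
        rw [← hrel', ← Finset.mul_prod_erase SA _ hjA]
        ring)
    -- `HA j ^ (e j * 2 ^ s)` is a `p`-th power
    have h1 : HA j ^ (e j * 2 ^ s) = (g' / cK' ^ 2 ^ s) ^ p := by
      rw [div_pow g', ← hs, mul_pow, hcK', ← pow_mul, ← pow_mul, ← pow_mul, mul_comm (2 ^ s) p,
        mul_div_cancel_left₀ _ (pow_ne_zero _ hcK0)]
    have hcop' : Nat.Coprime (e j * 2 ^ s) p := by
      refine Nat.Coprime.mul_left ?_ ?_
      · exact ((Nat.Prime.coprime_iff_not_dvd hp).mpr hdvd).symm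
      · refine Nat.Coprime.pow_left _ ?_
        exact (Nat.coprime_primes Nat.prime_two hp).mpr (Ne.symm hp2)
    obtain ⟨m, -, hm⟩ := Nat.exists_mul_mod_eq_one_of_coprime hcop' hp.one_lt
    have hm2 : e j * 2 ^ s * m = p * (e j * 2 ^ s * m / p) + 1 := by
      rw [← hm]
      exact (Nat.div_add_mod _ _).symm
    set t := e j * 2 ^ s * m / p with ht
    have h2 : HA j = ((g' / cK' ^ 2 ^ s) ^ m / HA j ^ t) ^ p := by
      rw [div_pow _ (HA j ^ t), eq_div_iff (pow_ne_zero _ (pow_ne_zero _ hH0)),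
        pow_right_comm _ m p, ← h1, ← pow_mul, ← pow_mul, hm2, pow_succ, mul_comm t p]
      ring
    refine hNP j hj haj R x (y j) _ hx (hy j hj) ?_ (?_ : 2 * ((g' / cK' ^ 2 ^ s) ^ m / HA j ^ t) ^ p = _)
    · have h3 : Kf k x y {j} = IntermediateField.adjoin k {x, y j} := by
        unfold Kf
        congr 1
        ext z
        simp [or_comm]
      rw [← h3]
      refine div_mem (pow_mem (div_mem hg' (pow_mem ?_ _)) _) (pow_mem hHm _)
      exact prod_mem fun i _ => pow_mem
        (sub_mem (x_mem_Kf _) ((Kf k x y {j}).algebraMap_mem _)) _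
    · rw [← h2]
      simp only [hHA]
      field_simp
  · exact hK j (Finset.mem_filter.mpr ⟨Finset.mem_univ _, hj⟩)

end Pool.Agent.MultiSpec
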