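import Pool.Agent.MultiSpec.KumRad
import Pool.Agent.MultiSpec.KumInd

set_option autoImplicit false

namespace Pool.Agent.MultiSpec

open Polynomial

theorem Kummer_roots {k K : Type*} [Field k] [IsAlgClosed k] [CharZero k] [Field K]
    (φ : k →+* K) {p : ℕ} (hp : p.Prime) (m : ℕ) : ∃ ζ : K, IsPrimitiveRoot ζ (p ^ m) := by
  have hne : NeZero ((p ^ m : ℕ) : k) := ⟨by
    rw [Nat.cast_ne_zero]; exact pow_ne_zero _ hp.ne_zero⟩
  obtain ⟨ζ, hζ⟩ := HasEnoughRootsOfUnity.exists_primitiveRoot k (p ^ m)
  exact ⟨φ ζ, hζ.map_of_injective φ.injective⟩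

/-- Kummer independence of the residual covers.  Indices `i` with `ty i = true` are of type A
(`H = (A + B y)/2`, `y ^ 2 = f`), the others of type K. -/
theorem dvd_finrank_kummer {k R : Type} [Field k] [IsAlgClosed k] [CharZero k] [Field R]
    [Algebra k R] (x : R) (hx : Transcendental k x) {p r : ℕ} (hp : p.Prime) (hp2 : p ≠ 2)
    (a : Fin r → ℕ) (ty : Fin r → Bool)
    -- type A
    (A B f : Fin r → k[X]) (mu : Fin r → k) (hmu : ∀ i, mu i ≠ 0)
    (pell : ∀ i, ty i = true → A i ^ 2 - f i * B i ^ 2 = C (mu i) * X ^ (p ^ a i))
    (hsq : ∀ i, ty i = true → Squarefree (f i)) (hdeg : ∀ i, ty i = true → 0 < (f i).natDegree)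
    (hcop : ∀ i j, i ≠ j → ty i = true → ty j = true → IsCoprime (f i) (f j))
    (hNP : ∀ i, ty i = true → a i ≠ 0 → ∀ (L : Type) [Field L] [Algebra k L] (z Y g : L),
      Transcendental k z → Y ^ 2 = aeval z (f i) → g ∈ IntermediateField.adjoin k {z, Y} →
      2 * g ^ p ≠ aeval z (A i) + aeval z (B i) * Y)
    (y α : Fin r → R) (hy : ∀ i, ty i = true → y i ^ 2 = aeval x (f i))
    (hα : ∀ i, ty i = true →
      2 * α i ^ (p ^ a i) = aeval x (A i) + aeval x (B i) * y i)
    -- type K
    (c : Fin r → k) (hc0 : ∀ i, ty i = false → c i ≠ 0)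
    (hc : ∀ i j, i ≠ j → ty i = false → ty j = false → c i ≠ c j)
    (s : Fin r → R) (hs : ∀ i, ty i = false → s i ^ (p ^ a i) = x - algebraMap k R (c i)) :
    p ^ (∑ i, a i) ∣ Module.finrank (IntermediateField.adjoin k {x}) R := by
  have hR : CharZero R := charZero_of_injective_algebraMap (algebraMap k R).injective
  have h2 : (2 : R) ≠ 0 := two_ne_zero
  have hx0 : x ≠ 0 := by
    rintro rfl
    exact hx (isAlgebraic_zero)
  obtain ⟨L1, hL1⟩ : ∃ L1 : IntermediateField k R,
      L1 = IntermediateField.adjoin k ({x} ∪ {z | ∃ i, ty i = true ∧ z = y i}) := ⟨_, rfl⟩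
  have hle : IntermediateField.adjoin k {x} ≤ L1 := by
    rw [hL1]
    exact IntermediateField.adjoin.mono _ _ _ Set.subset_union_left
  have hxL : x ∈ L1 := hle (IntermediateField.mem_adjoin_simple_self k x)
  have hyL : ∀ i, ty i = true → y i ∈ L1 := by
    intro i hi
    rw [hL1]
    exact IntermediateField.subset_adjoin _ _ (Or.inr ⟨i, hi, rfl⟩)
  have haev : ∀ q : k[X], aeval x q ∈ L1 := by
    intro q
    have : aeval x q = ((aeval (⟨x, hxL⟩ : L1) q : L1) : R) := by
      rw [← IntermediateField.algebraMap_apply, ← Polynomial.aeval_algebraMap_apply]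
      rfl
    rw [this]
    exact Subtype.mem _
  have hhex : ∀ i, ∃ hi : IntermediateField.extendScalars hle,
      (hi : R) = if ty i then (aeval x (A i) + aeval x (B i) * y i) / 2
        else x - algebraMap k R (c i) := by
    intro i
    by_cases hty : ty i = true
    · refine ⟨⟨(aeval x (A i) + aeval x (B i) * y i) / 2, ?_⟩, ?_⟩
      · rw [IntermediateField.mem_extendScalars]
        exact L1.div_mem (L1.add_mem (haev _) (L1.mul_mem (haev _) (hyL i hty)))
          (ofNat_mem L1 2)
      · simp [hty]
    · refine ⟨⟨x - algebraMap k R (c i), ?_⟩, ?_⟩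
      · rw [IntermediateField.mem_extendScalars]
        exact L1.sub_mem hxL (L1.algebraMap_mem _)
      · simp [hty]
  choose h hh using hhex
  have hK : CharZero (IntermediateField.extendScalars hle) := by
    refine ⟨fun u v huv => ?_⟩
    have := congrArg (algebraMap (IntermediateField.extendScalars hle) R) huv
    simpa using this
  have key : p ^ (∑ i, a i) ∣ Module.finrank (IntermediateField.extendScalars hle) R := by
    refine dvd_finrank_of_radicals (K := IntermediateField.extendScalars hle) (R := R) hp hp2
      (fun m => Kummer_roots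
        ((algebraMap (IntermediateField.adjoin k {x}) (IntermediateField.extendScalars hle)).comp
          (algebraMap k (IntermediateField.adjoin k {x}))) hp m) a h ?_
      (fun i => if ty i then α i else s i) ?_ ?_
    · intro i h0
      have h1 := hh i
      rw [h0] at h1
      by_cases hty : ty i = true
      · simp only [hty, if_true] at h1
        have h3 : aeval x (A i) + aeval x (B i) * y i = 0 := by
          have h4 : (aeval x (A i) + aeval x (B i) * y i) / 2 = 0 := h1.symm
          rcases div_eq_zero_iff.mp h4 with h4 | h4
          · exact h4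
          · exact absurd h4 h2
        have h5 := congrArg (aeval x) (pell i hty)
        simp only [map_sub, map_mul, map_pow, aeval_C, aeval_X, ← hy i hty] at h5
        have h6 : algebraMap k R (mu i) * x ^ p ^ a i = 0 := by
          rw [← h5]
          linear_combination (aeval x (A i) - aeval x (B i) * y i) * h3
        rcases mul_eq_zero.mp h6 with h7 | h7
        · rw [map_eq_zero] at h7
          exact hmu i h7
        · exact hx0 ((pow_eq_zero_iff (pow_pos hp.pos _).ne').mp h7)
      · simp only [hty] at h1
        have h3 : x = algebraMap k R (c i) := by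
          have h4 : x - algebraMap k R (c i) = 0 := h1.symm
          exact sub_eq_zero.mp h4
        apply hx
        rw [h3]
        exact isAlgebraic_algebraMap (c i)
    · intro i
      show _ = ((h i : R))
      rw [hh i]
      by_cases hty : ty i = true
      · simp only [hty, if_true]
        have := hα i hty
        rw [eq_div_iff h2, ← this]; ring
      · simp only [hty]
        exact hs i (by simpa using hty)
    · intro e g he hrel
      refine kummer_independent x hx hp hp2 a ty A B f mu hmu pell hsq hdeg hcop hNP y hy c hc0 hc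
        e he (g : R) ?_ ?_
      · rw [← hL1]
        exact (IntermediateField.mem_extendScalars hle).mp g.2
      · have h3 := congrArg (algebraMap (IntermediateField.extendScalars hle) R) hrel
        rw [map_prod, map_pow] at h3
        rw [show ((g : R)) = algebraMap (IntermediateField.extendScalars hle) R g from rfl, ← h3]
        apply Finset.prod_congr rfl
        intro i _
        rw [map_pow]
        congr 1
        exact (hh i).symm
  rw [← Module.finrank_mul_finrank (IntermediateField.adjoin k {x})
    (IntermediateField.extendScalars hle) R]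
  exact key.mul_left _

end Pool.Agent.MultiSpec
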