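import Pool.Agent.MultiSpec.Dehom

set_option autoImplicit false

namespace Pool.Agent.MultiSpec

open IsLocalRing

namespace NotPowAux

/-- The power sums of the roots of `T ^ 2 - P T + c`. -/
def ps {R : Type*} [CommRing R] (P c : R) : ℕ → R
  | 0 => 2
  | 1 => P
  | n + 2 => P * ps P c (n + 1) - c * ps P c n

lemma ps_eq {R : Type*} [CommRing R] (x y : R) : ∀ n, ps (x + y) (x * y) n = x ^ n + y ^ n
  | 0 => by simp [ps]; norm_num
  | 1 => by simp [ps]
  | n + 2 => by
    rw [ps, ps_eq x y (n + 1), ps_eq x y n]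
    ring

lemma map_ps {R S : Type*} [CommRing R] [CommRing S] (φ : R →+* S) (P c : R) :
    ∀ n, φ (ps P c n) = ps (φ P) (φ c) n
  | 0 => by simp only [ps]; exact map_ofNat φ 2
  | 1 => by simp [ps]
  | n + 2 => by
    rw [ps, ps, map_sub, map_mul, map_mul, map_ps φ P c (n + 1), map_ps φ P c n]

/-- Integral quotients lie in an integrally closed ring. -/
lemma mem_of_integral {R L : Type*} [CommRing R] [IsDomain R] [IsIntegrallyClosed R] [Field L]
    [Algebra R L] (hφ : Function.Injective (algebraMap R L)) (x : L) (hx : IsIntegral R x)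
    (r s : R) (hs : s ≠ 0) (hrs : algebraMap R L s * x = algebraMap R L r) :
    ∃ y, algebraMap R L y = x := by
  have : FaithfulSMul R L := (faithfulSMul_iff_algebraMap_injective R L).2 hφ
  let Q := FractionRing R
  let ψ : Q →ₐ[R] L := IsFractionRing.liftAlgHom (K := Q) (g := Algebra.ofId R L) hφ
  have hψ : Function.Injective ψ := ψ.toRingHom.injective
  have hs' : algebraMap R Q s ≠ 0 := by
    intro h
    exact hs ((IsFractionRing.injective R Q) (by rw [h, map_zero]))
  have hsL : algebraMap R L s ≠ 0 := by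
    intro h
    exact hs (hφ (by rw [h, map_zero]))
  have h1 : ψ (algebraMap R Q r / algebraMap R Q s) = x := by
    rw [map_div₀, ψ.commutes, ψ.commutes, div_eq_iff hsL, ← hrs, mul_comm]
  have h2 : IsIntegral R (algebraMap R Q r / algebraMap R Q s) := by
    rw [← h1] at hx
    exact (isIntegral_algHom_iff ψ hψ).1 hx
  obtain ⟨y, hy⟩ := IsIntegrallyClosed.isIntegral_iff.1 h2
  exact ⟨y, by rw [← h1, ← hy, ψ.commutes]⟩

/-- The key computation over the residue field. -/
lemma resid {κ : Type*} [Field κ] [CharZero κ] {p a : ℕ} (hp : p.Prime) (ha : 0 < a) (ζ : κ)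
    (hζ : IsPrimitiveRoot ζ (p ^ a)) (P : Polynomial κ) (w : κ) (hw : w ^ p = 1)
    (h : ps P (Polynomial.C w * Polynomial.X ^ (p ^ (a - 1))) p = Polynomial.X ^ (p ^ a) + 1)
    (h0 : P.eval ζ ^ 2 = 4 * w * ζ ^ (p ^ (a - 1))) (h1 : P.eval 1 ^ 2 = 4 * w) : False := by
  have hpa : p ^ (a - 1) * p = p ^ a := by
    rw [← pow_succ]
    congr 1
    omega
  set M := p ^ (a - 1) with hM
  let F := FractionRing (Polynomial κ)
  let Ω := AlgebraicClosure F
  let j : Polynomial κ →+* Ω := (algebraMap F Ω).comp (algebraMap (Polynomial κ) F)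
  have hj : Function.Injective j :=
    (algebraMap F Ω).injective.comp (IsFractionRing.injective (Polynomial κ) F)
  have : CharZero Ω := by
    have h3 : Function.Injective (j.comp Polynomial.C) := hj.comp Polynomial.C_injective
    exact charZero_of_injective_ringHom h3
  set c : Polynomial κ := Polynomial.C w * Polynomial.X ^ M with hc
  have hw0 : w ≠ 0 := by
    rintro rfl
    rw [zero_pow hp.ne_zero] at hw
    exact zero_ne_one hw
  have hcp : c ^ p = Polynomial.X ^ (p ^ a) := by
    rw [hc, mul_pow, ← Polynomial.C_pow, hw, ← pow_mul, hpa]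
    simp
  obtain ⟨δ, hδ⟩ := IsAlgClosed.exists_pow_nat_eq (j P ^ 2 - 4 * j c) (n := 2) (by norm_num)
  set r : Ω := (j P + δ) / 2 with hr
  set r' : Ω := (j P - δ) / 2 with hr'
  have hsum : r + r' = j P := by rw [hr, hr']; ring
  have hprod : r * r' = j c := by
    rw [hr, hr']
    have : (j P + δ) / 2 * ((j P - δ) / 2) = (j P ^ 2 - δ ^ 2) / 4 := by ring
    rw [this, hδ]
    ring
  have hs : r ^ p + r' ^ p = j (Polynomial.X ^ (p ^ a)) + 1 := by
    rw [← ps_eq, hsum, hprod, ← map_ps, h, map_add, map_one]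
  have hq : r ^ p * r' ^ p = j (Polynomial.X ^ (p ^ a)) := by
    rw [← mul_pow, hprod, ← map_pow, hcp]
  have hX : j (Polynomial.X ^ (p ^ a)) ≠ 0 := by
    rw [Ne, map_eq_zero_iff j hj]
    exact pow_ne_zero _ Polynomial.X_ne_zero
  have key : ∃ η : Ω, η ^ p = 1 ∧ η * (j P - η) = j c := by
    have h5 : (r ^ p - 1) * (r' ^ p - 1) = 0 := by
      have : (r ^ p - 1) * (r' ^ p - 1) = r ^ p * r' ^ p - (r ^ p + r' ^ p) + 1 := by ring
      rw [this, hs, hq]
      ring
    rcases mul_eq_zero.1 h5 with h6 | h6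
    · exact ⟨r, sub_eq_zero.1 h6, by rw [← hsum, ← hprod]; ring⟩
    · exact ⟨r', sub_eq_zero.1 h6, by rw [← hsum, ← hprod]; ring⟩
  obtain ⟨η, hη, hη2⟩ := key
  have hprim : IsPrimitiveRoot (ζ ^ M) p := hζ.pow (pow_pos hp.pos _) hpa.symm
  have hprim' : IsPrimitiveRoot (j (Polynomial.C (ζ ^ M))) p :=
    hprim.map_of_injective (f := j.comp Polynomial.C) (hj.comp Polynomial.C_injective)
  have : NeZero p := ⟨hp.ne_zero⟩
  obtain ⟨i, -, hi⟩ := hprim'.eq_pow_of_pow_eq_one hη
  set e : κ := (ζ ^ M) ^ i with he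
  have he1 : e ^ p = 1 := by
    rw [he, ← pow_mul, mul_comm i p, pow_mul, hprim.pow_eq_one, one_pow]
  have he0 : e ≠ 0 := by
    intro h
    rw [h, zero_pow hp.ne_zero] at he1
    exact zero_ne_one he1
  have hpol : Polynomial.C e * (P - Polynomial.C e) = c := by
    apply hj
    have : η = j (Polynomial.C e) :=
      hi.symm.trans (map_pow (j.comp Polynomial.C) (ζ ^ M) i).symm
    rw [map_mul, map_sub, ← this]
    exact hη2
  have hev : ∀ x : κ, e * (P.eval x - e) = w * x ^ M := by
    intro x
    have := congrArg (Polynomial.eval x) hpol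
    simpa [hc] using this
  have hfin : ∀ x : κ, P.eval x ^ 2 = 4 * w * x ^ M → e ^ 2 = w * x ^ M := by
    intro x hx
    have h7 := hev x
    have h8 : (e ^ 2 - w * x ^ M) ^ 2 = 0 := by
      have : e ^ 2 * P.eval x ^ 2 = (e ^ 2 + w * x ^ M) ^ 2 := by
        rw [← h7]
        ring
      rw [hx] at this
      linear_combination -this
    exact sub_eq_zero.1 (pow_eq_zero_iff (two_ne_zero) |>.1 h8)
  have hA := hfin ζ h0
  have hB := hfin 1 (by simpa using h1)
  rw [one_pow, mul_one] at hB
  rw [hA] at hB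
  have hz : ζ ^ M = 1 := by
    have := mul_left_cancel₀ hw0 (hB.trans (mul_one w).symm)
    exact this
  have hlt : M < p ^ a := by
    rw [← hpa]
    have := hp.two_le
    have hMpos : 0 < M := pow_pos hp.pos _
    nlinarith
  exact hζ.pow_ne_one_of_pos_of_lt (pow_pos hp.pos _).ne' hlt hz

/-- Elements of `k(z, Y)`, `Y ^ 2 ∈ k(z)`. -/
lemma exists_lin {k L : Type*} [Field k] [Field L] [Algebra k L] (z Y g f : L)
    (hf : f ∈ IntermediateField.adjoin k {z}) (hY : Y ^ 2 = f)
    (hg : g ∈ IntermediateField.adjoin k {z, Y}) :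
    ∃ a ∈ IntermediateField.adjoin k {z}, ∃ b ∈ IntermediateField.adjoin k {z},
      g = a + b * Y := by
  set K := IntermediateField.adjoin k ({z} : Set L) with hK
  have h1 : (IntermediateField.adjoin K ({Y} : Set L)).restrictScalars k =
      IntermediateField.adjoin k {z, Y} := by
    rw [hK, IntermediateField.adjoin_adjoin_left]
    rfl
  rw [← h1, IntermediateField.mem_restrictScalars] at hg
  have hint : IsIntegral K Y := by
    refine ⟨Polynomial.X ^ 2 - Polynomial.C ⟨f, hf⟩, ?_, ?_⟩
    · exact Polynomial.monic_X_pow_sub_C _ (by norm_num)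
    · rw [Polynomial.eval₂_sub, Polynomial.eval₂_pow, Polynomial.eval₂_X, Polynomial.eval₂_C, hY]
      exact sub_self _
  have h2 : g ∈ Algebra.adjoin K ({Y} : Set L) := by
    rw [← IntermediateField.adjoin_simple_toSubalgebra_of_isAlgebraic hint.isAlgebraic]
    exact hg
  clear hg h1
  induction h2 using Algebra.adjoin_induction with
  | mem x hx =>
    rw [Set.mem_singleton_iff] at hx
    exact ⟨0, K.zero_mem, 1, K.one_mem, by rw [hx]; ring⟩
  | algebraMap x => exact ⟨x, x.2, 0, K.zero_mem, by rw [zero_mul, add_zero]; rfl⟩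
  | add x y _ _ hx hy =>
    obtain ⟨a, ha, b, hb, rfl⟩ := hx
    obtain ⟨c, hc, d, hd, rfl⟩ := hy
    exact ⟨a + c, K.add_mem ha hc, b + d, K.add_mem hb hd, by ring⟩
  | mul x y _ _ hx hy =>
    obtain ⟨a, ha, b, hb, rfl⟩ := hx
    obtain ⟨c, hc, d, hd, rfl⟩ := hy
    refine ⟨a * c + b * d * f, K.add_mem (K.mul_mem ha hc) (K.mul_mem (K.mul_mem hb hd) hf),
      a * d + b * c, K.add_mem (K.mul_mem ha hd) (K.mul_mem hb hc), ?_⟩
    rw [← hY]
    ring

lemma exists_conj {k L : Type*} [Field k] [Field L] [Algebra k L] (K : IntermediateField k L)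
    (Y f a b : L) (hf : f ∈ K) (hY : Y ^ 2 = f) (ha : a ∈ K) (hb : b ∈ K) :
    ∀ n : ℕ, ∃ u ∈ K, ∃ v ∈ K, (a + b * Y) ^ n = u + v * Y ∧ (a - b * Y) ^ n = u - v * Y
  | 0 => ⟨1, K.one_mem, 0, K.zero_mem, by simp, by simp⟩
  | n + 1 => by
    obtain ⟨u, hu, v, hv, h1, h2⟩ := exists_conj K Y f a b hf hY ha hb n
    refine ⟨u * a + v * b * f, K.add_mem (K.mul_mem hu ha) (K.mul_mem (K.mul_mem hv hb) hf),
      u * b + v * a, K.add_mem (K.mul_mem hu hb) (K.mul_mem hv ha), ?_, ?_⟩
    · rw [pow_succ, h1, ← hY]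
      ring
    · rw [pow_succ, h2, ← hY]
      ring

/-- A simple root of `f` is a root of `h` if `h s ^ 2 = f r ^ 2`. -/
lemma root_of_sq {k : Type*} [Field k] (f h r s : Polynomial k) (hs : s ≠ 0)
    (heq : h * (s * s) = f * (r * r)) (x : k) (hx : f.eval x = 0)
    (hx' : f.derivative.eval x ≠ 0) : h.eval x = 0 := by
  by_cases hh : h = 0
  · rw [hh, Polynomial.eval_zero]
  have hne : h * (s * s) ≠ 0 := mul_ne_zero hh (mul_ne_zero hs hs)
  have hf : f ≠ 0 := by
    rintro rfl
    rw [zero_mul] at heq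
    exact hne heq
  have hm := congrArg (Polynomial.rootMultiplicity x) heq
  have hne' : f * (r * r) ≠ 0 := heq ▸ hne
  rw [Polynomial.rootMultiplicity_mul hne, Polynomial.rootMultiplicity_mul (right_ne_zero_of_mul hne),
    Polynomial.rootMultiplicity_mul hne',
    Polynomial.rootMultiplicity_mul (right_ne_zero_of_mul hne')] at hm
  have h1 : Polynomial.rootMultiplicity x f = 1 := by
    have h2 : 0 < Polynomial.rootMultiplicity x f := (Polynomial.rootMultiplicity_pos hf).2 hx
    have h3 : ¬ 1 < Polynomial.rootMultiplicity x f := by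
      rw [Polynomial.one_lt_rootMultiplicity_iff_isRoot hf]
      exact fun h => hx' h.2
    omega
  have h4 : 0 < Polynomial.rootMultiplicity x h := by omega
  exact (Polynomial.rootMultiplicity_pos hh).1 h4

/-- Algebraic elements lie in an algebraically closed field. -/
lemma mem_of_alg {k L : Type*} [Field k] [IsAlgClosed k] [Field L] [Algebra k L] (x : L)
    (hx : IsIntegral k x) : ∃ y, algebraMap k L y = x := by
  have h := IsAlgClosed.degree_eq_one_of_irreducible k (minpoly.irreducible hx)
  exact minpoly.mem_range_of_degree_eq_one k x h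

/-- The quartic over the valuation ring. -/
noncomputable def quarO {R : Type*} [CommRing R] (t c₀ c₁ : R) : Polynomial R :=
  ((Polynomial.X - Polynomial.C c₀) ^ 2 - Polynomial.C t) *
    ((Polynomial.X - Polynomial.C c₁) ^ 2 - Polynomial.C t)

lemma map_quarO {R S : Type*} [CommRing R] [CommRing S] (φ : R →+* S) (t c₀ c₁ : R) :
    (quarO t c₀ c₁).map φ = quarO (φ t) (φ c₀) (φ c₁) := by
  simp [quarO]

lemma quarO_comm {R : Type*} [CommRing R] (t c₀ c₁ : R) : quarO t c₀ c₁ = quarO t c₁ c₀ := by
  unfold quarO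
  ring

lemma quarO_root {k : Type*} [Field k] [CharZero k] (t c₀ c₁ s : k) (hs : s ^ 2 = t)
    (ht : t ≠ 0) (h : (c₀ + s - c₁) ^ 2 ≠ t) : (quarO t c₀ c₁).eval (c₀ + s) = 0 ∧
      (quarO t c₀ c₁).derivative.eval (c₀ + s) ≠ 0 := by
  constructor
  · simp [quarO, hs]
  · have h1 : (quarO t c₀ c₁).derivative.eval (c₀ + s) =
        2 * s * ((c₀ + s - c₁) ^ 2 - t) := by
      simp only [quarO, Polynomial.derivative_mul, Polynomial.eval_add, Polynomial.eval_mul,
        Polynomial.derivative_sub, Polynomial.derivative_pow, Polynomial.derivative_X,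
        Polynomial.derivative_C, Polynomial.eval_sub, Polynomial.eval_pow, Polynomial.eval_X,
        Polynomial.eval_C, Polynomial.eval_one, Polynomial.eval_zero]
      rw [← hs]
      push_cast
      ring
    rw [h1]
    have hs0 : s ≠ 0 := by
      rintro rfl
      apply ht
      rw [← hs]
      ring
    exact mul_ne_zero (mul_ne_zero two_ne_zero hs0) (sub_ne_zero.2 h)

theorem core {k : Type*} [Field k] [IsAlgClosed k] [CharZero k] (O : ValuationSubring k)
    [CharZero (ResidueField O)] {p a : ℕ} (hp : p.Prime) (ha : 0 < a) (t c₀ c₁ : O)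
    (α β : Polynomial O) (ζ : ResidueField O) (hζ : IsPrimitiveRoot ζ (p ^ a))
    (hpell : α ^ 2 = 4 * Polynomial.X ^ (p ^ a) + quarO t c₀ c₁ * β ^ 2)
    (hα : α.map (residue O) = Polynomial.X ^ (p ^ a) + 1) (htr : residue O t = 0)
    (hc₀ : residue O c₀ = ζ) (hc₁ : residue O c₁ = 1) (ht : t ≠ 0)
    {L : Type*} [Field L] [Algebra k L] (z Y g : L) (hz : Transcendental k z)
    (φ : Polynomial O →+* L)
    (hφ : ∀ q, φ q = Polynomial.aeval z (q.map (algebraMap O k)))
    (hY : Y ^ 2 = φ (quarO t c₀ c₁)) (hg : g ∈ IntermediateField.adjoin k {z, Y})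
    (hgp : 2 * g ^ p = φ α + φ β * Y) : False := by
  have hL : CharZero L := charZero_of_injective_algebraMap (algebraMap k L).injective
  set f := quarO t c₀ c₁ with hf
  have hOk : Function.Injective (algebraMap O k) := IsFractionRing.injective O k
  have hmapk : Function.Injective (Polynomial.map (algebraMap O k)) :=
    Polynomial.map_injective _ hOk
  have hφinj : Function.Injective φ := by
    rw [injective_iff_map_eq_zero]
    intro q hq
    rw [hφ] at hq
    apply hmapk
    rw [Polynomial.map_zero]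
    by_contra h
    exact hz ⟨_, h, hq⟩
  have hφk : ∀ q : Polynomial O, φ q ∈ IntermediateField.adjoin k ({z} : Set L) := by
    intro q
    rw [hφ]
    exact (IntermediateField.mem_adjoin_simple_iff k _).2
      ⟨q.map (algebraMap O k), 1, by rw [map_one, div_one]⟩
  have hK : ∀ x ∈ IntermediateField.adjoin k ({z} : Set L), ∃ r s : Polynomial O, s ≠ 0 ∧
      φ s * x = φ r := by
    intro x hx
    obtain ⟨r, s, hrs⟩ := (IntermediateField.mem_adjoin_simple_iff k _).1 hx
    by_cases h0 : Polynomial.aeval z s = 0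
    · rw [h0, div_zero] at hrs
      exact ⟨0, 1, one_ne_zero, by rw [hrs]; simp⟩
    obtain ⟨b, hbm, hb⟩ := IsLocalization.integerNormalization_spec (nonZeroDivisors O) r
    obtain ⟨b', hbm', hb'⟩ := IsLocalization.integerNormalization_spec (nonZeroDivisors O) s
    set r' := IsLocalization.integerNormalization (nonZeroDivisors O) r
    set s' := IsLocalization.integerNormalization (nonZeroDivisors O) s
    have hr' : φ r' = algebraMap k L (algebraMap O k b) * Polynomial.aeval z r := by
      rw [hφ, hb, ← IsScalarTower.algebraMap_smul k (b : O) r, map_smul, Algebra.smul_def]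
    have hs' : φ s' = algebraMap k L (algebraMap O k b') * Polynomial.aeval z s := by
      rw [hφ, hb', ← IsScalarTower.algebraMap_smul k (b' : O) s, map_smul, Algebra.smul_def]
    have hC : ∀ b : O, φ (Polynomial.C b) = algebraMap k L (algebraMap O k b) := by
      intro b
      rw [hφ, Polynomial.map_C, Polynomial.aeval_C]
    have hbne : ∀ b ∈ nonZeroDivisors O, algebraMap k L (algebraMap O k b) ≠ 0 := by
      intro b hb
      rw [Ne, map_eq_zero_iff _ (algebraMap k L).injective, map_eq_zero_iff _ hOk]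
      exact nonZeroDivisors.ne_zero hb
    refine ⟨Polynomial.C (b' : O) * r', Polynomial.C (b : O) * s', ?_, ?_⟩
    · intro h
      have := congrArg φ h
      rw [map_mul, map_zero, hC, hs'] at this
      exact (mul_ne_zero (hbne b hbm) (mul_ne_zero (hbne b' hbm') h0)) this
    · rw [map_mul, map_mul, hC, hC, hr', hs', hrs]
      field_simp
  obtain ⟨u, hu, v, hv, rfl⟩ := exists_lin z Y g (φ f) (hφk f) hY hg
  -- the roots
  obtain ⟨σ, hσ⟩ := IsAlgClosed.exists_pow_nat_eq (t : k) (n := 2) (by norm_num)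
  have hσO : σ ∈ O := by
    rcases O.mem_or_inv_mem σ with h | h
    · exact h
    · by_cases h0 : σ = 0
      · rw [h0]
        exact O.zero_mem
      have : σ = (t : k) * σ⁻¹ := by
        rw [← hσ]
        field_simp
      rw [this]
      exact O.mul_mem _ _ t.2 h
  set s : O := ⟨σ, hσO⟩ with hs
  have hss : s ^ 2 = t := Subtype.ext (by simpa [hs] using hσ)
  have hsr : residue O s = 0 := by
    have : residue O s ^ 2 = 0 := by rw [← map_pow, hss, htr]
    exact pow_eq_zero_iff (two_ne_zero) |>.1 this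
  have hζ1 : ζ ≠ 1 := by
    intro h
    rw [h] at hζ
    have h1 := hζ.unique IsPrimitiveRoot.one
    have h2 : 1 < p ^ a := Nat.one_lt_pow ha.ne' hp.one_lt
    omega
  have htk : (t : k) ≠ 0 := by
    intro h
    exact ht (Subtype.ext h)
  have hroot : ∀ d e : O, residue O d - residue O e ≠ 0 →
      ((quarO (t : k) d e).eval ((d : k) + σ) = 0 ∧
        (quarO (t : k) d e).derivative.eval ((d : k) + σ) ≠ 0) := by
    intro d e hde
    refine quarO_root _ _ _ _ hσ htk ?_
    intro h
    have h1 : (d + s - e) ^ 2 = t := Subtype.ext (by simpa [hs] using h)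
    have h2 := congrArg (residue O) h1
    rw [map_pow, map_sub, map_add, hsr, htr, add_zero] at h2
    exact hde (pow_eq_zero_iff (two_ne_zero) |>.1 h2)
  have hmapf : f.map (algebraMap O k) = quarO (t : k) c₀ c₁ := map_quarO _ _ _ _
  have hr0 : (f.map (algebraMap O k)).eval ((c₀ : k) + σ) = 0 ∧
      (f.map (algebraMap O k)).derivative.eval ((c₀ : k) + σ) ≠ 0 := by
    rw [hmapf]
    exact hroot c₀ c₁ (by rw [hc₀, hc₁]; exact sub_ne_zero.2 hζ1)
  have hr1 : (f.map (algebraMap O k)).eval ((c₁ : k) + σ) = 0 ∧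
      (f.map (algebraMap O k)).derivative.eval ((c₁ : k) + σ) ≠ 0 := by
    rw [hmapf, quarO_comm]
    exact hroot c₁ c₀ (by rw [hc₀, hc₁]; exact sub_ne_zero.2 (Ne.symm hζ1))
  have hf0 : f.map (algebraMap O k) ≠ 0 := by
    intro h
    rw [h] at hr0
    exact hr0.2 (by simp)
  by_cases hYK : Y ∈ IntermediateField.adjoin k ({z} : Set L)
  · obtain ⟨r, q, hq, hrq⟩ := hK Y hYK
    have h1 : f * (q * q) = r * r := by
      apply hφinj
      rw [map_mul, map_mul, map_mul, ← hrq, ← hY]
      ring
    have h2 := congrArg (Polynomial.map (algebraMap O k)) h1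
    simp only [Polynomial.map_mul] at h2
    have hq' : q.map (algebraMap O k) ≠ 0 := fun h => hq (hmapk (by rw [h, Polynomial.map_zero]))
    have hr' : r.map (algebraMap O k) ≠ 0 := by
      intro h
      rw [h, mul_zero] at h2
      exact (mul_ne_zero hf0 (mul_ne_zero hq' hq')) h2
    have h3 := root_of_sq (f.map (algebraMap O k)) 1 (q.map (algebraMap O k))
      (r.map (algebraMap O k)) hr' (by rw [one_mul, h2]) _ hr0.1 hr0.2
    rw [Polynomial.eval_one] at h3
    exact one_ne_zero h3
  -- the conjugate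
  obtain ⟨u', hu', v', hv', h1, h2⟩ := exists_conj (IntermediateField.adjoin k ({z} : Set L)) Y
    (φ f) u v (hφk f) hY hu hv p
  have h3 : 2 * v' = φ β := by
    by_contra h
    apply hYK
    have h4 : (φ β - 2 * v') * Y = 2 * u' - φ α := by
      rw [h1] at hgp
      linear_combination -hgp
    have h5 : φ β - 2 * v' ≠ 0 := sub_ne_zero.2 (Ne.symm h)
    have h6 : Y = (2 * u' - φ α) / (φ β - 2 * v') := by
      rw [eq_div_iff h5, ← h4]
      ring
    rw [h6]
    have h7 : (2 : L) ∈ IntermediateField.adjoin k ({z} : Set L) := by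
      have := (IntermediateField.adjoin k ({z} : Set L)).natCast_mem 2
      simpa using this
    exact div_mem (sub_mem (mul_mem h7 hu') (hφk α)) (sub_mem (hφk β) (mul_mem h7 hv'))
  have h4 : 2 * u' = φ α := by
    rw [h1] at hgp
    linear_combination hgp - Y * h3
  have hgp' : 2 * (u - v * Y) ^ p = φ α - φ β * Y := by
    rw [h2, ← h3, ← h4]
    ring
  have hpa : p ^ (a - 1) * p = p ^ a := by
    rw [← pow_succ]
    congr 1
    omega
  set M := p ^ (a - 1) with hM
  have hφX : φ Polynomial.X = z := by rw [hφ, Polynomial.map_X, Polynomial.aeval_X]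
  have hφC : ∀ b : O, φ (Polynomial.C b) = algebraMap k L b := by
    intro b
    rw [hφ, Polynomial.map_C, Polynomial.aeval_C]
    rfl
  have hz0 : z ≠ 0 := by
    rintro rfl
    exact hz isAlgebraic_zero
  -- the norm
  set g' := u - v * Y with hg'
  set g := u + v * Y with hg0
  have hnorm : (g * g') ^ p = (z ^ M) ^ p := by
    have h5 : (2 * g ^ p) * (2 * g' ^ p) = 4 * z ^ (p ^ a) := by
      rw [hgp, hgp']
      have h6 : (φ α + φ β * Y) * (φ α - φ β * Y) = φ α ^ 2 - φ β ^ 2 * Y ^ 2 := by ring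
      rw [h6, hY, ← map_pow, ← map_pow, ← map_mul, ← map_sub]
      have h7 : α ^ 2 - β ^ 2 * f = 4 * Polynomial.X ^ (p ^ a) := by
        rw [hpell]
        ring
      rw [h7, map_mul, map_pow, hφX, map_ofNat]
    rw [mul_pow, ← pow_mul, hpa]
    have h8 : (4 : L) ≠ 0 := by norm_num
    apply mul_left_cancel₀ h8
    rw [← h5]
    ring
  have hzM : z ^ M ≠ 0 := pow_ne_zero _ hz0
  obtain ⟨w, hw⟩ := mem_of_alg (k := k) (g * g' / z ^ M) (by
    refine ⟨Polynomial.X ^ p - Polynomial.C 1, Polynomial.monic_X_pow_sub_C _ hp.ne_zero, ?_⟩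
    rw [Polynomial.eval₂_sub, Polynomial.eval₂_pow, Polynomial.eval₂_X, Polynomial.eval₂_C,
      map_one, div_pow, hnorm, div_self (pow_ne_zero _ hzM), sub_self])
  have hwp : w ^ p = 1 := by
    apply (algebraMap k L).injective
    rw [map_pow, hw, div_pow, hnorm, div_self (pow_ne_zero _ hzM), map_one]
  have hwO : w ∈ O := by
    rcases O.mem_or_inv_mem w with h | h
    · exact h
    · have h0 : w ≠ 0 := by
        rintro rfl
        rw [zero_pow hp.ne_zero] at hwp
        exact zero_ne_one hwp
      have h5 : w = (w⁻¹) ^ (p - 1) := by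
        have h6 : w * (w⁻¹) ^ p = (w⁻¹) ^ (p - 1) := by
          obtain ⟨m, hm⟩ : ∃ m, p = m + 1 := ⟨p - 1, by have := hp.pos; omega⟩
          rw [hm, pow_succ, Nat.add_sub_cancel, mul_comm (w⁻¹ ^ m), ← mul_assoc,
            mul_inv_cancel₀ h0, one_mul]
        rw [← h6, inv_pow, hwp, inv_one, mul_one]
      rw [h5]
      exact pow_mem h _
  set w₀ : O := ⟨w, hwO⟩ with hw₀
  have hw₀p : w₀ ^ p = 1 := Subtype.ext (by simpa [hw₀] using hwp)
  have hgg : g * g' = φ (Polynomial.C w₀ * Polynomial.X ^ M) := by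
    rw [map_mul, map_pow, hφX, hφC]
    change g * g' = algebraMap k L w * z ^ M
    rw [hw]
    field_simp
  -- integrality of the trace
  obtain ⟨P, hP⟩ : ∃ P : Polynomial O, φ P = g + g' := by
    letI : Algebra (Polynomial O) L := φ.toAlgebra
    have halg : ∀ q, algebraMap (Polynomial O) L q = φ q := fun q => rfl
    have hYint : IsIntegral (Polynomial O) Y := by
      refine IsIntegral.of_pow (n := 2) (by norm_num) ?_
      rw [hY, ← halg]
      exact isIntegral_algebraMap
    have h2 : IsUnit (2 : O) := by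
      by_contra h
      have h5 : residue O 2 = 0 := (residue_eq_zero_iff _).2 ((mem_maximalIdeal _).2 h)
      rw [map_ofNat] at h5
      exact two_ne_zero h5
    obtain ⟨e, he⟩ := h2.exists_left_inv
    have he' : φ (Polynomial.C e) * 2 = 1 := by
      have := congrArg (fun x => φ (Polynomial.C x)) he
      simp only [map_mul, map_one, map_ofNat] at this
      exact this
    have hgi : ∀ G : L, ∀ y : L, IsIntegral (Polynomial O) y → 2 * G ^ p = y →
        IsIntegral (Polynomial O) G := by
      intro G y hy hGy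
      refine IsIntegral.of_pow hp.pos ?_
      have h5 : G ^ p = algebraMap (Polynomial O) L (Polynomial.C e) * y := by
        rw [halg, ← hGy, ← mul_assoc, he', one_mul]
      rw [h5]
      exact isIntegral_algebraMap.mul hy
    have hg1 : IsIntegral (Polynomial O) g := by
      refine hgi g _ ?_ hgp
      rw [← halg, ← halg]
      exact isIntegral_algebraMap.add (isIntegral_algebraMap.mul hYint)
    have hg2 : IsIntegral (Polynomial O) g' := by
      refine hgi g' _ ?_ hgp'
      rw [← halg, ← halg]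
      exact isIntegral_algebraMap.sub (isIntegral_algebraMap.mul hYint)
    have hmem : g + g' ∈ IntermediateField.adjoin k ({z} : Set L) := by
      have : g + g' = u + u := by rw [hg0, hg']; ring
      rw [this]
      exact add_mem hu hu
    obtain ⟨r, q, hq, hrq⟩ := hK _ hmem
    exact mem_of_integral hφinj _ (hg1.add hg2) r q hq hrq
  have hps : ps P (Polynomial.C w₀ * Polynomial.X ^ M) p = α := by
    apply hφinj
    rw [map_ps, hP, ← hgg, ps_eq]
    have h8 : (2 : L) ≠ 0 := two_ne_zero
    apply mul_left_cancel₀ h8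
    rw [mul_add, hgp, hgp']
    ring
  have hpsr := congrArg (Polynomial.map (residue O)) hps
  rw [hα] at hpsr
  change Polynomial.mapRingHom (residue O) _ = _ at hpsr
  rw [map_ps, map_mul, map_pow, Polynomial.coe_mapRingHom, Polynomial.map_C, Polynomial.map_X]
    at hpsr
  -- the values at the roots
  have hdisc : ∃ r q : Polynomial O, q ≠ 0 ∧
      (P ^ 2 - 4 * (Polynomial.C w₀ * Polynomial.X ^ M)) * (q * q) = f * (r * r) := by
    obtain ⟨r, q, hq, hrq⟩ := hK (2 * v) (by
      have := (IntermediateField.adjoin k ({z} : Set L)).natCast_mem 2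
      exact mul_mem (by simpa using this) hv)
    refine ⟨r, q, hq, ?_⟩
    apply hφinj
    rw [map_mul, map_mul, map_sub, map_pow, map_mul φ 4, map_ofNat, hP, ← hgg, map_mul φ f,
      map_mul φ r, ← hrq, ← hY, hg0, hg']
    ring
  obtain ⟨r, q, hq, hrq⟩ := hdisc
  have hval : ∀ d : O, (f.map (algebraMap O k)).eval ((d : k) + σ) = 0 →
      (f.map (algebraMap O k)).derivative.eval ((d : k) + σ) ≠ 0 →
      (P.map (residue O)).eval (residue O d) ^ 2 = 4 * residue O w₀ * residue O d ^ M := by
    intro d h5 h6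
    have h7 := congrArg (Polynomial.map (algebraMap O k)) hrq
    rw [Polynomial.map_mul, Polynomial.map_mul, Polynomial.map_mul, Polynomial.map_mul] at h7
    have hq' : q.map (algebraMap O k) ≠ 0 := fun h => hq (hmapk (by rw [h, Polynomial.map_zero]))
    have h8 := root_of_sq _ _ _ _ hq' h7 _ h5 h6
    have h9 : (d : k) + σ = algebraMap O k (d + s) := by
      rw [map_add]
      rfl
    rw [h9, Polynomial.eval_map_algebraMap, Polynomial.aeval_algebraMap_apply,
      map_eq_zero_iff _ hOk] at h8
    have h10 := congrArg (residue O) h8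
    rw [Polynomial.coe_aeval_eq_eval, ← Polynomial.eval_map_apply, map_zero] at h10
    rw [map_add, hsr, add_zero] at h10
    have h11 : Polynomial.map (residue O) (P ^ 2 - 4 * (Polynomial.C w₀ * Polynomial.X ^ M)) =
        (P.map (residue O)) ^ 2 - 4 * (Polynomial.C (residue O w₀) * Polynomial.X ^ M) := by
      simp
    rw [h11] at h10
    simp only [Polynomial.eval_sub, Polynomial.eval_pow, Polynomial.eval_mul, Polynomial.eval_C,
      Polynomial.eval_X, Polynomial.eval_ofNat] at h10
    linear_combination h10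
  refine resid hp ha ζ hζ (P.map (residue O)) (residue O w₀) ?_ hpsr ?_ ?_
  · rw [← map_pow, hw₀p, map_one]
  · have := hval c₀ hr0.1 hr0.2
    rwa [hc₀] at this
  · have := hval c₁ hr1.1 hr1.2
    rwa [hc₁, one_pow, mul_one] at this

lemma map_dehom {R S : Type*} [CommRing R] [CommRing S] (φ : R →+* S) (lam : R)
    (q : MvPolynomial (Fin 2) R) :
    (dehom lam q).map φ = dehom (φ lam) (MvPolynomial.map φ q) := by
  have h : (Polynomial.mapRingHom φ).comp (dehom lam) =
      (dehom (φ lam)).comp (MvPolynomial.map φ) := by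
    refine MvPolynomial.ringHom_ext (fun a => by simp [dehom]) fun i => ?_
    fin_cases i <;> simp [dehom]
  exact RingHom.congr_fun h q

lemma dehom_X0 {R : Type*} [CommRing R] (lam : R) :
    dehom lam (MvPolynomial.X 0) = Polynomial.X := by simp [dehom]

lemma dehom_X1 {R : Type*} [CommRing R] (lam : R) :
    dehom lam (MvPolynomial.X 1) = Polynomial.C lam := by simp [dehom]

lemma dehom_quar {R : Type*} [CommRing R] (t c₀ c₁ : R) :
    dehom 1 (quar t c₀ c₁) = quarO t c₀ c₁ := by
  simp [dehom, quar, quarO]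

end NotPowAux

open NotPowAux in
/-- (NP): over an algebraically closed field, for data degenerating to special data,
`(A + B Y) / 2` is not a `p`-th power in `k(z, Y)`, `Y ^ 2 = F(z, lam)`. -/
theorem not_pow_all {k : Type} [Field k] [IsAlgClosed k] [CharZero k] (O : ValuationSubring k)
    [CharZero (ResidueField O)] {p a n : ℕ} (hp : p.Prime) (ha : 0 < a)
    (D : EDatum (p ^ a) n O) (ζ : ResidueField O) (hζ : IsPrimitiveRoot ζ (p ^ a))
    (hD : IsSpecial (D.map (residue O)) ζ) (ht : D.t ≠ 0) (lam : k) (hlam : lam ≠ 0)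
    (L : Type) [Field L] [Algebra k L] (z Y g : L) (hz : Transcendental k z)
    (hY : Y ^ 2 = Polynomial.aeval z (dehom lam (D.map (algebraMap O k)).F))
    (hg : g ∈ IntermediateField.adjoin k {z, Y}) :
    2 * g ^ p ≠ Polynomial.aeval z (dehom lam (D.map (algebraMap O k)).A) +
      Polynomial.aeval z (dehom lam (D.map (algebraMap O k)).B) * Y := by
  intro hgp
  have hpa : p ^ (a - 1) * p = p ^ a := by
    rw [← pow_succ]
    congr 1
    omega
  have hN2 : 2 ≤ p ^ a := by
    have h1 := Nat.one_lt_pow ha.ne' hp.one_lt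
    omega
  set M := p ^ (a - 1) with hM
  set l : L := algebraMap k L lam with hl
  have hl0 : l ≠ 0 := by
    rw [hl, Ne, map_eq_zero_iff _ (algebraMap k L).injective]
    exact hlam
  set z1 : L := z / l with hz1
  set Y1 : L := Y / l ^ 2 with hY1
  set g1 : L := g / l ^ M with hg1
  have hzz : z = l * z1 := by rw [hz1]; field_simp
  have hYY : Y = l ^ 2 * Y1 := by rw [hY1]; field_simp
  have hgg : g = l ^ M * g1 := by rw [hg1]; field_simp
  let φ : Polynomial O →+* L :=
    ((Polynomial.aeval z1 : Polynomial k →ₐ[k] L) : Polynomial k →+* L).comp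
      (Polynomial.mapRingHom (algebraMap O k))
  have hφ : ∀ q, φ q = Polynomial.aeval z1 (q.map (algebraMap O k)) := fun q => rfl
  have hev : ∀ (m : ℕ) (q : MvPolynomial (Fin 2) O), q.IsHomogeneous m →
      Polynomial.aeval z (dehom lam (MvPolynomial.map (algebraMap O k) q)) =
        l ^ m * φ (dehom 1 q) := by
    intro m q hq
    rw [hφ, map_dehom, map_one, aeval_dehom, aeval_dehom, map_one, ← hl]
    have h1 := ev_scale ((hq.map (algebraMap O k)).map (algebraMap k L)) l z1 1
    rw [mul_one, ← hzz] at h1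
    exact h1
  have hFhom : D.F.IsHomogeneous 4 := by
    have h1 : ∀ c : O, (((MvPolynomial.X 0 - MvPolynomial.C c * MvPolynomial.X 1) ^ 2 -
        MvPolynomial.C D.t * MvPolynomial.X 1 ^ 2 : MvPolynomial (Fin 2) O)).IsHomogeneous 2 := by
      intro c
      have hX : ∀ i : Fin 2, (MvPolynomial.X i : MvPolynomial (Fin 2) O).IsHomogeneous 1 :=
        fun i => MvPolynomial.isHomogeneous_X _ i
      have h2 : (MvPolynomial.X 0 - MvPolynomial.C c * MvPolynomial.X 1 :
          MvPolynomial (Fin 2) O).IsHomogeneous 1 := (hX 0).sub ((hX 1).C_mul c)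
      exact (h2.pow 2).sub (((hX 1).pow 2).C_mul _)
    exact (h1 D.c₀).mul (h1 D.c₁)
  have hα := hev _ _ D.hA
  have hβ := hev _ _ D.hB
  have hf := hev _ _ hFhom
  have hf' : (D.map (algebraMap O k)).F = MvPolynomial.map (algebraMap O k) D.F :=
    (map_quar _ _ _ _).symm
  rw [hf', hf] at hY
  change 2 * g ^ p = Polynomial.aeval z (dehom lam (MvPolynomial.map (algebraMap O k) D.A)) +
    Polynomial.aeval z (dehom lam (MvPolynomial.map (algebraMap O k) D.B)) * Y at hgp
  rw [hα, hβ] at hgp
  have htr : residue O D.t = 0 := hD.ht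
  have hc₀ : residue O D.c₀ = ζ := hD.hc₀
  have hc₁ : residue O D.c₁ = 1 := hD.hc₁
  refine core O hp ha D.t D.c₀ D.c₁ (dehom 1 D.A) (dehom 1 D.B) ζ hζ ?_ ?_ htr hc₀ hc₁ ht
    z1 Y1 g1 ?_ φ hφ ?_ ?_ ?_
  · have h1 := congrArg (dehom 1) D.pell
    rw [map_pow, map_add, map_mul, map_pow, map_mul, dehom_X0, dehom_X1, map_mul, map_pow,
      dehom_quar, map_ofNat, map_one, mul_one] at h1
    exact h1
  · rw [map_dehom, map_one]
    have h1 : MvPolynomial.map (residue O) D.A =
        MvPolynomial.X 0 ^ (p ^ a) + MvPolynomial.X 1 ^ (p ^ a) := hD.hA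
    rw [h1, map_add, map_pow, map_pow, dehom_X0, dehom_X1, map_one, one_pow]
  · intro h
    apply hz
    rw [hzz]
    exact (isAlgebraic_algebraMap lam).mul h
  · have h2 : l ^ 4 ≠ 0 := pow_ne_zero _ hl0
    apply mul_left_cancel₀ h2
    rw [← dehom_quar]
    change _ = l ^ 4 * φ (dehom 1 D.F)
    rw [← hY, hYY]
    ring
  · have hle : IntermediateField.adjoin k ({z, Y} : Set L) ≤
        IntermediateField.adjoin k {z1, Y1} := by
      rw [IntermediateField.adjoin_le_iff]
      have h1 : ∀ x ∈ ({z1, Y1} : Set L), x ∈ IntermediateField.adjoin k ({z1, Y1} : Set L) :=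
        fun x hx => IntermediateField.subset_adjoin k _ hx
      have hlm : l ∈ IntermediateField.adjoin k ({z1, Y1} : Set L) :=
        (IntermediateField.adjoin k ({z1, Y1} : Set L)).algebraMap_mem lam
      intro x hx
      rcases hx with rfl | hx
      · rw [hzz]
        exact mul_mem hlm (h1 _ (by simp))
      · rw [Set.mem_singleton_iff] at hx
        rw [hx, hYY]
        exact mul_mem (pow_mem hlm 2) (h1 _ (by simp))
    have hlm : l ∈ IntermediateField.adjoin k ({z1, Y1} : Set L) :=
      (IntermediateField.adjoin k ({z1, Y1} : Set L)).algebraMap_mem lam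
    exact div_mem (hle hg) (pow_mem hlm M)
  · have h2 : l ^ (p ^ a) ≠ 0 := pow_ne_zero _ hl0
    apply mul_left_cancel₀ h2
    have h3 : l ^ (p ^ a) * (2 * g1 ^ p) = 2 * g ^ p := by
      rw [hgg, mul_pow, ← pow_mul, hpa]
      ring
    rw [h3, hgp, hYY]
    have h4 : l ^ (p ^ a) = l ^ (p ^ a - 2) * l ^ 2 := by
      rw [← pow_add]
      congr 1
      omega
    rw [mul_add]
    congr 1
    rw [h4]
    ring

/-- The version for odd primes. -/
theorem not_pow {k : Type} [Field k] [IsAlgClosed k] [CharZero k] (O : ValuationSubring k)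
    [CharZero (ResidueField O)] {p a n : ℕ} (hp : p.Prime) (_hp2 : p ≠ 2) (ha : 0 < a)
    (D : EDatum (p ^ a) n O) (ζ : ResidueField O) (hζ : IsPrimitiveRoot ζ (p ^ a))
    (hD : IsSpecial (D.map (residue O)) ζ) (ht : D.t ≠ 0) (lam : k) (hlam : lam ≠ 0)
    (L : Type) [Field L] [Algebra k L] (z Y g : L) (hz : Transcendental k z)
    (hY : Y ^ 2 = Polynomial.aeval z (dehom lam (D.map (algebraMap O k)).F))
    (hg : g ∈ IntermediateField.adjoin k {z, Y}) :
    2 * g ^ p ≠ Polynomial.aeval z (dehom lam (D.map (algebraMap O k)).A) +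
      Polynomial.aeval z (dehom lam (D.map (algebraMap O k)).B) * Y :=
  not_pow_all O hp ha D ζ hζ hD ht lam hlam L z Y g hz hY hg

end Pool.Agent.MultiSpec
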