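import Pool.Agent.MultiSpec.Dehom

set_option autoImplicit false

namespace Pool.Agent.MultiSpec

open IsLocalRing Polynomial

private lemma quartic_dehom {k : Type*} [Field k] (t c₀ c₁ lam τ : k) (h : τ ^ 2 = t) :
    dehom lam (quar t c₀ c₁) = (X - C (lam * (c₀ + τ))) * (X - C (lam * (c₀ - τ))) *
      ((X - C (lam * (c₁ + τ))) * (X - C (lam * (c₁ - τ)))) := by
  subst h
  simp only [dehom, quar, map_mul, map_sub, map_pow, MvPolynomial.coe_eval₂Hom,
    MvPolynomial.eval₂_X, MvPolynomial.eval₂_C, Matrix.cons_val_zero, Matrix.cons_val_one,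
    map_add]
  ring

private lemma quartic_sqrt {k : Type*} [Field k] [IsAlgClosed k] (O : ValuationSubring k)
    (t : O) (htr : residue O t = 0) : ∃ τ : O, τ ^ 2 = t ∧ residue O τ = 0 := by
  obtain ⟨τ, hτ⟩ := IsAlgClosed.exists_pow_nat_eq (t : k) (n := 2) two_pos
  have hmem : τ ∈ O := by
    rw [← O.valuation_le_one_iff]
    have h1 : O.valuation τ ^ 2 ≤ 1 := by
      rw [← map_pow, hτ]
      exact O.valuation_le_one t
    exact (pow_le_one_iff two_ne_zero).1 h1
  refine ⟨⟨τ, hmem⟩, Subtype.ext hτ, ?_⟩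
  have h2 : (⟨τ, hmem⟩ : O) ^ 2 = t := Subtype.ext hτ
  have h3 : residue O ⟨τ, hmem⟩ ^ 2 = 0 := by rw [← map_pow, h2, htr]
  exact pow_eq_zero_iff two_ne_zero |>.1 h3

/-- The quartics `F(X, lam)` are squarefree. -/
theorem squarefree_quar {k : Type*} [Field k] [IsAlgClosed k] [CharZero k]
    (O : ValuationSubring k) [CharZero (ResidueField O)] (t c₀ c₁ : O) (lam : O) (ht : t ≠ 0)
    (htr : residue O t = 0) (hc : residue O c₀ ≠ residue O c₁) (hlam : residue O lam ≠ 0) :
    Squarefree (dehom (lam : k) (quar (t : k) (c₀ : k) (c₁ : k))) ∧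
      (dehom (lam : k) (quar (t : k) (c₀ : k) (c₁ : k))).natDegree = 4 := by
  obtain ⟨τ, hτ, hτr⟩ := quartic_sqrt O t htr
  have hτ' : (τ : k) ^ 2 = (t : k) := by rw [← hτ]; rfl
  have hτ0 : (τ : k) ≠ 0 := by
    intro h0
    apply ht
    rw [← hτ]
    have : τ = 0 := Subtype.ext h0
    rw [this]; simp
  have hlam0 : (lam : k) ≠ 0 := by
    intro h0
    apply hlam
    have : lam = 0 := Subtype.ext h0
    rw [this, map_zero]
  have h2 : (2 : k) ≠ 0 := two_ne_zero
  -- roots in `O`
  have key : ∀ (e e' : O), residue O e = 0 → residue O e' = 0 →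
      (lam : k) * ((c₀ : k) + (e : k)) ≠ (lam : k) * ((c₁ : k) + (e' : k)) := by
    intro e e' he he' h
    have h1 := mul_left_cancel₀ hlam0 h
    have h3 : c₀ + e = c₁ + e' := Subtype.ext h1
    have h4 := congrArg (residue O) h3
    rw [map_add, map_add, he, he', add_zero, add_zero] at h4
    exact hc h4
  have hneg : residue O (-τ) = 0 := by rw [map_neg, hτr, neg_zero]
  have hself : ∀ c : k, (lam : k) * (c + τ) ≠ (lam : k) * (c - τ) := by
    intro c h
    have h1 := mul_left_cancel₀ hlam0 h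
    have h3 : (2 : k) * τ = 0 := by linear_combination h1
    rcases mul_eq_zero.1 h3 with h4 | h4
    · exact h2 h4
    · exact hτ0 h4
  have hcop : ∀ a b : k, a ≠ b → IsCoprime (X - C a : Polynomial k) (X - C b) := fun a b hab =>
    isCoprime_X_sub_C_of_isUnit_sub (sub_ne_zero.2 hab).isUnit
  have h13 := key τ τ hτr hτr
  have h14 := key τ (-τ) hτr hneg
  have h23 := key (-τ) τ hneg hτr
  have h24 := key (-τ) (-τ) hneg hneg
  have hcoe : ((-τ : O) : k) = -(τ : k) := rfl
  rw [hcoe, ← sub_eq_add_neg] at h14 h23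
  rw [hcoe, ← sub_eq_add_neg, ← sub_eq_add_neg] at h24
  rw [quartic_dehom _ _ _ _ _ hτ']
  constructor
  · apply Separable.squarefree
    refine Separable.mul (Separable.mul (separable_X_sub_C) (separable_X_sub_C)
      (hcop _ _ (hself _))) (Separable.mul (separable_X_sub_C) (separable_X_sub_C)
      (hcop _ _ (hself _))) ?_
    refine IsCoprime.mul_left (IsCoprime.mul_right (hcop _ _ h13) (hcop _ _ h14))
      (IsCoprime.mul_right (hcop _ _ h23) (hcop _ _ h24))
  · rw [natDegree_mul (mul_ne_zero (X_sub_C_ne_zero _) (X_sub_C_ne_zero _))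
      (mul_ne_zero (X_sub_C_ne_zero _) (X_sub_C_ne_zero _)),
      natDegree_mul (X_sub_C_ne_zero _) (X_sub_C_ne_zero _),
      natDegree_mul (X_sub_C_ne_zero _) (X_sub_C_ne_zero _)]
    simp only [natDegree_X_sub_C]

/-- The quartics `F(X, lam)`, `F'(X, lam')` are coprime if the residues of their roots are
different. -/
theorem isCoprime_quar {k : Type*} [Field k] [IsAlgClosed k] [CharZero k]
    (O : ValuationSubring k) [CharZero (ResidueField O)] (t c₀ c₁ lam t' c₀' c₁' lam' : O)
    (htr : residue O t = 0) (htr' : residue O t' = 0)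
    (h00 : residue O (lam * c₀) ≠ residue O (lam' * c₀'))
    (h01 : residue O (lam * c₀) ≠ residue O (lam' * c₁'))
    (h10 : residue O (lam * c₁) ≠ residue O (lam' * c₀'))
    (h11 : residue O (lam * c₁) ≠ residue O (lam' * c₁')) :
    IsCoprime (dehom (lam : k) (quar (t : k) (c₀ : k) (c₁ : k)))
      (dehom (lam' : k) (quar (t' : k) (c₀' : k) (c₁' : k))) := by
  obtain ⟨τ, hτ, hτr⟩ := quartic_sqrt O t htr
  obtain ⟨σ, hσ, hσr⟩ := quartic_sqrt O t' htr'
  have hτ' : (τ : k) ^ 2 = (t : k) := by rw [← hτ]; rfl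
  have hσ' : (σ : k) ^ 2 = (t' : k) := by rw [← hσ]; rfl
  have hcop : ∀ (c c' e e' : O), residue O (lam * c) ≠ residue O (lam' * c') →
      residue O e = 0 → residue O e' = 0 →
      IsCoprime (X - C ((lam : k) * ((c : k) + (e : k))) : Polynomial k)
        (X - C ((lam' : k) * ((c' : k) + (e' : k)))) := by
    intro c c' e e' hne he he'
    refine isCoprime_X_sub_C_of_isUnit_sub (sub_ne_zero.2 fun h => hne ?_).isUnit
    have h3 : lam * (c + e) = lam' * (c' + e') := Subtype.ext h
    have h4 := congrArg (residue O) h3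
    rw [map_mul, map_add, map_mul, map_add, he, he', add_zero, add_zero, ← map_mul,
      ← map_mul] at h4
    exact h4
  have hneg : residue O (-τ) = 0 := by rw [map_neg, hτr, neg_zero]
  have hneg' : residue O (-σ) = 0 := by rw [map_neg, hσr, neg_zero]
  have hcoe : ∀ c : k, c - (τ : k) = c + ((-τ : O) : k) := fun c => sub_eq_add_neg _ _
  have hcoe' : ∀ c : k, c - (σ : k) = c + ((-σ : O) : k) := fun c => sub_eq_add_neg _ _
  rw [quartic_dehom _ _ _ _ _ hτ', quartic_dehom _ _ _ _ _ hσ', hcoe, hcoe, hcoe', hcoe']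
  have hr : ∀ (c e : O), residue O e = 0 → (residue O (lam * c) ≠ residue O (lam' * c₀')) →
      (residue O (lam * c) ≠ residue O (lam' * c₁')) →
      IsCoprime (X - C ((lam : k) * ((c : k) + (e : k))) : Polynomial k)
        ((X - C ((lam' : k) * ((c₀' : k) + (σ : k)))) *
          (X - C ((lam' : k) * ((c₀' : k) + ((-σ : O) : k)))) *
          ((X - C ((lam' : k) * ((c₁' : k) + (σ : k)))) *
          (X - C ((lam' : k) * ((c₁' : k) + ((-σ : O) : k)))))) := by
    intro c e he h0 h1
    exact IsCoprime.mul_right (IsCoprime.mul_right (hcop _ _ _ _ h0 he hσr)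
      (hcop _ _ _ _ h0 he hneg')) (IsCoprime.mul_right (hcop _ _ _ _ h1 he hσr)
      (hcop _ _ _ _ h1 he hneg'))
  exact IsCoprime.mul_left (IsCoprime.mul_left (hr _ _ hτr h00 h01) (hr _ _ hneg h00 h01))
    (IsCoprime.mul_left (hr _ _ hτr h10 h11) (hr _ _ hneg h10 h11))

end Pool.Agent.MultiSpec
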