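import Mathlib

set_option autoImplicit false

namespace Pool.Agent.MultiSpec

namespace ResBQAux

/-- the truncated polynomials `b_i = ∑_{k ≥ i} a_k z^(k-i)` -/
noncomputable def bb {R E : Type*} [CommRing R] [CommRing E] [Algebra R E] (a : ℕ → R) (n : ℕ) (z : E)
    (i : ℕ) : E := ∑ k ∈ Finset.Ico i (n + 1), algebraMap R E (a k) * z ^ (k - i)

variable {R E : Type*} [CommRing R] [Field E] [Algebra R E]

lemma bb_succ (a : ℕ → R) (n : ℕ) (z : E) (i : ℕ) (hi : i ≤ n) :
    bb a n z i = algebraMap R E (a i) + z * bb a n z (i + 1) := by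
  unfold bb
  rw [Finset.sum_eq_sum_Ico_succ_bot (by omega : i < n + 1), Nat.sub_self, pow_zero, mul_one,
    Finset.mul_sum]
  congr 1
  apply Finset.sum_congr rfl
  intro k hk
  rw [Finset.mem_Ico] at hk
  have : k - i = (k - (i + 1)) + 1 := by omega
  rw [this, pow_succ]
  ring

lemma bb_mul_pow (a : ℕ → R) (n : ℕ) (z : E) (i : ℕ) (hi : i ≤ n + 1)
    (h0 : ∑ k ∈ Finset.range (n + 1), algebraMap R E (a k) * z ^ k = 0) :
    bb a n z i * z ^ i = -∑ k ∈ Finset.range i, algebraMap R E (a k) * z ^ k := by
  have h1 : bb a n z i * z ^ i = ∑ k ∈ Finset.Ico i (n + 1), algebraMap R E (a k) * z ^ k := by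
    unfold bb
    rw [Finset.sum_mul]
    apply Finset.sum_congr rfl
    intro k hk
    rw [Finset.mem_Ico] at hk
    rw [mul_assoc, ← pow_add, Nat.sub_add_cancel hk.1]
  rw [h1, eq_neg_iff_add_eq_zero, add_comm]
  rw [← h0, Finset.range_eq_Ico, Finset.range_eq_Ico]
  exact Finset.sum_Ico_consecutive _ (Nat.zero_le _) hi

lemma isIntegral_bb (a : ℕ → R) (n : ℕ) (z : E) (i : ℕ) (hi : i ≤ n + 1)
    (h0 : ∑ k ∈ Finset.range (n + 1), algebraMap R E (a k) * z ^ k = 0) :
    IsIntegral R (bb a n z i) := by
  classical
  set N : Submodule R E := Submodule.span R (((Finset.range (n + 1)).image (fun k => z ^ k) : Finset E) : Set E)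
    with hN
  have hmem : ∀ k ≤ n, z ^ k ∈ N := by
    intro k hk
    apply Submodule.subset_span
    rw [Finset.mem_coe, Finset.mem_image]
    exact ⟨k, Finset.mem_range.2 (by omega), rfl⟩
  have hterm : ∀ (r : R) (k : ℕ), k ≤ n → algebraMap R E r * z ^ k ∈ N := by
    intro r k hk
    rw [← Algebra.smul_def]
    exact N.smul_mem _ (hmem k hk)
  refine isIntegral_of_smul_mem_submodule N ?_ ?_ (bb a n z i) ?_
  · rw [Submodule.ne_bot_iff]
    refine ⟨1, ?_, one_ne_zero⟩
    have := hmem 0 (Nat.zero_le _)
    rwa [pow_zero] at this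
  · exact Submodule.fg_span (Finset.finite_toSet _)
  · intro x hx
    rw [hN] at hx
    induction hx using Submodule.span_induction with
    | mem x hx =>
      rw [Finset.mem_coe, Finset.mem_image] at hx
      obtain ⟨k, hk, rfl⟩ := hx
      rw [Finset.mem_range] at hk
      rw [smul_eq_mul]
      rcases lt_or_ge k i with hki | hki
      · unfold bb
        rw [Finset.sum_mul]
        apply N.sum_mem
        intro l hl
        rw [Finset.mem_Ico] at hl
        rw [mul_assoc, ← pow_add]
        exact hterm _ _ (by omega)
      · obtain ⟨d, rfl⟩ := Nat.exists_eq_add_of_le hki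
        rw [pow_add, ← mul_assoc, bb_mul_pow a n z i hi h0, neg_mul, Finset.sum_mul]
        apply N.neg_mem
        apply N.sum_mem
        intro l hl
        rw [Finset.mem_range] at hl
        rw [mul_assoc, ← pow_add]
        exact hterm _ _ (by omega)
    | zero => rw [smul_zero]; exact N.zero_mem
    | add x y _ _ hx hy => rw [smul_add]; exact N.add_mem hx hy
    | smul r x _ hx => rw [smul_comm]; exact N.smul_mem _ hx

lemma bb_zero (a : ℕ → R) (n : ℕ) (z : E)
    (h0 : ∑ k ∈ Finset.range (n + 1), algebraMap R E (a k) * z ^ k = 0) :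
    bb a n z 0 = 0 := by
  have := bb_mul_pow a n z 0 (Nat.zero_le _) h0
  simpa using this

/-- a normalised relation for an algebraic element -/
lemma exists_relation {K E : Type*} [Field K] [Field E] [Algebra K E]
    (O : ValuationSubring K) (z : E) (hz : IsAlgebraic K z) :
    ∃ (n : ℕ) (a : ℕ → O) (j : ℕ), j ≤ n ∧ a j = 1 ∧
      ∑ k ∈ Finset.range (n + 1), algebraMap O E (a k) * z ^ k = 0 := by
  classical
  obtain ⟨f, hf, hfz⟩ := hz
  obtain ⟨j, hj, hmax⟩ := Finset.exists_max_image f.support (fun k => O.valuation (f.coeff k))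
    (Polynomial.support_nonempty.2 hf)
  rw [Polynomial.mem_support_iff] at hj
  have hle : ∀ k, O.valuation (f.coeff k) ≤ O.valuation (f.coeff j) := by
    intro k
    by_cases hk : f.coeff k = 0
    · rw [hk, map_zero]; exact zero_le
    · exact hmax k (Polynomial.mem_support_iff.2 hk)
  have hmem : ∀ k, f.coeff k / f.coeff j ∈ O := by
    intro k
    rw [← ValuationSubring.valuation_le_one_iff, map_div₀]
    exact div_le_one_of_le₀ (hle k) zero_le
  refine ⟨f.natDegree, fun k => ⟨f.coeff k / f.coeff j, hmem k⟩, j, ?_, ?_, ?_⟩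
  · by_contra hcon
    exact hj (Polynomial.coeff_eq_zero_of_natDegree_lt (by omega))
  · apply Subtype.ext
    exact div_self hj
  · rw [Polynomial.aeval_eq_sum_range] at hfz
    have h2 : ∑ k ∈ Finset.range (f.natDegree + 1),
        algebraMap O E ⟨f.coeff k / f.coeff j, hmem k⟩ * z ^ k =
        algebraMap K E (f.coeff j)⁻¹ * ∑ k ∈ Finset.range (f.natDegree + 1), f.coeff k • z ^ k := by
      rw [Finset.mul_sum]
      apply Finset.sum_congr rfl
      intro k _
      have h3 : algebraMap O E ⟨f.coeff k / f.coeff j, hmem k⟩ = algebraMap K E (f.coeff k / f.coeff j) := rfl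
      rw [h3, Algebra.smul_def, div_eq_mul_inv, map_mul]
      ring
    rw [h2, hfz, mul_zero]

end ResBQAux

open ResBQAux in
/-- The localisation at a prime of the integral closure of a valuation ring in an algebraic
extension is a valuation ring. -/
theorem exists_valuationSubring_of_prime {K E : Type*} [Field K] [Field E] [Algebra K E]
    [Algebra.IsAlgebraic K E] (O : ValuationSubring K) (Q : Ideal (integralClosure O E))
    [Q.IsPrime] :
    ∃ V : ValuationSubring E, (∀ b : integralClosure O E, (b : E) ∈ V) ∧
      (∀ b : integralClosure O E, b ∈ Q ↔ (b : E) ∈ V.nonunits) ∧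
      ∀ z ∈ V, ∃ a b : integralClosure O E, b ∉ Q ∧ z * b = a := by
  have h1Q : (1 : integralClosure O E) ∉ Q := fun h => Ideal.IsPrime.ne_top ‹Q.IsPrime› ((Ideal.eq_top_iff_one Q).2 h)
  let V : ValuationSubring E :=
    { carrier := {z | ∃ a b : integralClosure O E, b ∉ Q ∧ z * b = a}
      mul_mem' := by
        rintro x y ⟨a, b, hb, hab⟩ ⟨a', b', hb', hab'⟩
        refine ⟨a * a', b * b', ?_, ?_⟩
        · intro h
          rcases Ideal.IsPrime.mem_or_mem ‹Q.IsPrime› h with h | h
          · exact hb h
          · exact hb' h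
        · push_cast
          rw [← hab, ← hab']
          ring
      one_mem' := ⟨1, 1, h1Q, by simp⟩
      add_mem' := by
        rintro x y ⟨a, b, hb, hab⟩ ⟨a', b', hb', hab'⟩
        refine ⟨a * b' + a' * b, b * b', ?_, ?_⟩
        · intro h
          rcases Ideal.IsPrime.mem_or_mem ‹Q.IsPrime› h with h | h
          · exact hb h
          · exact hb' h
        · push_cast
          rw [← hab, ← hab']
          ring
      zero_mem' := ⟨0, 1, h1Q, by simp⟩
      neg_mem' := by
        rintro x ⟨a, b, hb, hab⟩
        exact ⟨-a, b, hb, by push_cast; rw [← hab]; ring⟩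
      mem_or_inv_mem' := by
        intro z
        by_cases hz0 : z = 0
        · left
          exact ⟨0, 1, h1Q, by simp [hz0]⟩
        obtain ⟨n, a, j, hj, haj, h0⟩ := exists_relation O z (Algebra.IsAlgebraic.isAlgebraic z)
        have hB : ∀ i ≤ n + 1, IsIntegral O (bb a n z i) := fun i hi => isIntegral_bb a n z i hi h0
        have hC : ∀ i ≤ n, IsIntegral O (z * bb a n z (i + 1)) := by
          intro i hi
          have h1 : z * bb a n z (i + 1) = bb a n z i - algebraMap O E (a i) := by
            rw [bb_succ a n z i hi]; ring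
          rw [h1]
          exact (hB i (by omega)).sub isIntegral_algebraMap
        let b1 : integralClosure O E := ⟨bb a n z (j + 1), hB (j + 1) (by omega)⟩
        let b0 : integralClosure O E := ⟨bb a n z j, hB j (by omega)⟩
        let c : integralClosure O E := ⟨z * bb a n z (j + 1), hC j hj⟩
        have hrel : b0 = 1 + c := by
          apply Subtype.ext
          change bb a n z j = 1 + z * bb a n z (j + 1)
          rw [bb_succ a n z j hj, haj, map_one]
        by_cases hb1 : b1 ∈ Q
        · by_cases hc : c ∈ Q
          · have hb0 : b0 ∉ Q := by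
              intro h
              apply h1Q
              have : (1 : integralClosure O E) = b0 - c := by rw [hrel]; ring
              rw [this]
              exact Q.sub_mem h hc
            left
            rcases Nat.eq_zero_or_pos j with hj0 | hjpos
            · exfalso
              apply hb0
              have : b0 = 0 := by
                apply Subtype.ext
                change bb a n z j = 0
                rw [hj0]
                exact bb_zero a n z h0
              rw [this]
              exact Q.zero_mem
            · obtain ⟨i, rfl⟩ : ∃ i, j = i + 1 := ⟨j - 1, by omega⟩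
              exact ⟨⟨z * bb a n z (i + 1), hC i (by omega)⟩, b0, hb0, rfl⟩
          · right
            refine ⟨b1, c, hc, ?_⟩
            change z⁻¹ * (z * bb a n z (j + 1)) = bb a n z (j + 1)
            rw [← mul_assoc, inv_mul_cancel₀ hz0, one_mul]
        · left
          exact ⟨c, b1, hb1, rfl⟩ }
  have hV : ∀ z : E, z ∈ V ↔ ∃ a b : integralClosure O E, b ∉ Q ∧ z * b = a := fun z => Iff.rfl
  have hBV : ∀ b : integralClosure O E, (b : E) ∈ V := fun b => (hV _).2 ⟨b, 1, h1Q, by simp⟩
  refine ⟨V, hBV, ?_, fun z hz => (hV z).1 hz⟩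
  intro b
  rw [ValuationSubring.mem_nonunits_iff]
  constructor
  · intro hb
    by_cases hb0 : (b : E) = 0
    · rw [hb0, map_zero]
      exact zero_lt_one
    · by_contra hcon
      rw [not_lt] at hcon
      have h1 : V.valuation ((b : E)⁻¹) ≤ 1 := by
        rw [map_inv₀]
        exact inv_le_one_of_one_le₀ hcon
      rw [ValuationSubring.valuation_le_one_iff, hV] at h1
      obtain ⟨a, d, hd, had⟩ := h1
      apply hd
      have h2 : d = a * b := by
        apply Subtype.ext
        push_cast
        rw [← had]
        field_simp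
      rw [h2]
      exact Q.mul_mem_left _ hb
  · intro hlt
    by_contra hb
    have h1 : (b : E)⁻¹ ∈ V := by
      have hb0 : (b : E) ≠ 0 := by
        intro h0
        apply hb
        have : b = 0 := Subtype.ext h0
        rw [this]
        exact Q.zero_mem
      exact (hV _).2 ⟨1, b, hb, by rw [inv_mul_cancel₀ hb0]; rfl⟩
    rw [← ValuationSubring.valuation_le_one_iff, map_inv₀] at h1
    have hpos : V.valuation (b : E) ≠ 0 := by
      rw [Valuation.ne_zero_iff]
      intro h0
      apply hb
      have : b = 0 := Subtype.ext h0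
      rw [this]
      exact Q.zero_mem
    have h2 : (1 : V.ValueGroup) ≤ V.valuation (b : E) := by
      have := (inv_le_one₀ (zero_lt_iff.2 hpos)).1 h1
      exact this
    exact absurd hlt (not_lt.2 h2)

end Pool.Agent.MultiSpec
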