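import Mathlib

set_option autoImplicit false

namespace Pool.Agent.MultiSpec

open IsLocalRing

theorem ResGauss_scale {κ : Type*} [Field κ] (O : ValuationSubring κ) (P : Polynomial κ)
    (hP : P ≠ 0) : ∃ (c : κ) (P0 : Polynomial O), c ≠ 0 ∧
      P0.map (algebraMap O κ) = Polynomial.C c * P ∧ P0.map (residue O) ≠ 0 := by
  obtain ⟨i, hi, hmax⟩ := Finset.exists_max_image P.support (fun i => O.valuation (P.coeff i))
    (Polynomial.support_nonempty.mpr hP)
  have hi0 : P.coeff i ≠ 0 := Polynomial.mem_support_iff.mp hi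
  have hlift : Polynomial.C (P.coeff i)⁻¹ * P ∈ Polynomial.lifts (algebraMap O κ) := by
    rw [Polynomial.lifts_iff_coeff_lifts]
    intro n
    rw [Polynomial.coeff_C_mul]
    have h1 : (P.coeff i)⁻¹ * P.coeff n ∈ O := by
      rw [← O.valuation_le_one_iff, map_mul, map_inv₀]
      by_cases hn : n ∈ P.support
      · have h2 := hmax n hn
        have h3 : O.valuation (P.coeff i) ≠ 0 := by
          rw [Ne, map_eq_zero]; exact hi0
        exact (inv_mul_le_one₀ (zero_lt_iff.mpr h3)).mpr h2
      · rw [Polynomial.notMem_support_iff] at hn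
        rw [hn, map_zero, mul_zero]
        exact zero_le_one
    exact ⟨⟨_, h1⟩, rfl⟩
  obtain ⟨P0, hP0⟩ := (Polynomial.mem_lifts _).mp hlift
  refine ⟨(P.coeff i)⁻¹, P0, inv_ne_zero hi0, hP0, ?_⟩
  intro h0
  have h1 : P0.coeff i = 1 := by
    have h2 := congrArg (fun p => Polynomial.coeff p i) hP0
    simp only [Polynomial.coeff_map, Polynomial.coeff_C_mul] at h2
    rw [inv_mul_cancel₀ hi0] at h2
    exact Subtype.ext h2
  have h2 := congrArg (fun p => Polynomial.coeff p i) h0
  simp only [Polynomial.coeff_map, h1, map_one, Polynomial.coeff_zero] at h2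
  exact one_ne_zero h2

theorem ResGauss_aeval {κ K : Type*} [Field κ] [Field K] [Algebra κ K] (O : ValuationSubring κ)
    (x : K) (f : Polynomial O) :
    Polynomial.aeval x f = Polynomial.aeval x (f.map (algebraMap O κ)) :=
  (Polynomial.aeval_map_algebraMap κ x f).symm

theorem ResGauss_inj {κ K : Type*} [Field κ] [Field K] [Algebra κ K] (O : ValuationSubring κ)
    (x : K) (hx : Transcendental κ x) (f g : Polynomial O)
    (h : Polynomial.aeval x f = Polynomial.aeval x g) : f = g := by
  rw [ResGauss_aeval, ResGauss_aeval] at h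
  have h1 := (transcendental_iff_injective.mp hx) h
  exact Polynomial.map_injective _ (Subtype.val_injective) h1

/-- the Gauss subring -/
def ResGauss_ring {κ K : Type*} [Field κ] [Field K] [Algebra κ K] (O : ValuationSubring κ)
    (x : K) : Subring K where
  carrier := {z | ∃ f g : Polynomial O, g.map (residue O) ≠ 0 ∧
        z * Polynomial.aeval x g = Polynomial.aeval x f}
  zero_mem' := ⟨0, 1, by simp, by simp⟩
  one_mem' := ⟨1, 1, by simp, by simp⟩
  add_mem' := by
    rintro z1 z2 ⟨f1, g1, hg1, h1⟩ ⟨f2, g2, hg2, h2⟩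
    refine ⟨f1 * g2 + f2 * g1, g1 * g2, ?_, ?_⟩
    · rw [Polynomial.map_mul]; exact mul_ne_zero hg1 hg2
    · simp only [map_mul, map_add, ← h1, ← h2]; ring
  mul_mem' := by
    rintro z1 z2 ⟨f1, g1, hg1, h1⟩ ⟨f2, g2, hg2, h2⟩
    refine ⟨f1 * f2, g1 * g2, ?_, ?_⟩
    · rw [Polynomial.map_mul]; exact mul_ne_zero hg1 hg2
    · simp only [map_mul, ← h1, ← h2]; ring
  neg_mem' := by
    rintro z ⟨f, g, hg, h⟩
    refine ⟨-f, g, hg, ?_⟩
    simp only [map_neg, ← h]; ring

theorem ResGauss_mem {κ K : Type*} [Field κ] [Field K] [Algebra κ K] (O : ValuationSubring κ)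
    (x : K) (z : K) : z ∈ ResGauss_ring O x ↔ ∃ f g : Polynomial O, g.map (residue O) ≠ 0 ∧
        z * Polynomial.aeval x g = Polynomial.aeval x f := Iff.rfl

/-- The Gauss valuation ring of `κ(x)`. -/
theorem exists_gauss {κ K : Type*} [Field κ] [Field K] [Algebra κ K] (O : ValuationSubring κ)
    (x : K) (hx : Transcendental κ x) (htop : IntermediateField.adjoin κ {x} = ⊤) :
    ∃ G : ValuationSubring K, (∀ a : κ, algebraMap κ K a ∈ G ↔ a ∈ O) ∧
      (∀ f : Polynomial O, Polynomial.aeval x f ∈ G) ∧
      (∀ f : Polynomial O, Polynomial.aeval x f ∈ G.nonunits ↔ f.map (residue O) = 0) ∧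
      ∀ z ∈ G, ∃ f g : Polynomial O, g.map (residue O) ≠ 0 ∧
        z * Polynomial.aeval x g = Polynomial.aeval x f := by
  have hinj := ResGauss_inj O x hx
  have hval : ∀ z : K, z ∈ ResGauss_ring O x ∨ z⁻¹ ∈ ResGauss_ring O x := by
    intro z
    have hz : z ∈ IntermediateField.adjoin κ {x} := by rw [htop]; exact IntermediateField.mem_top
    obtain ⟨P, Q, hPQ⟩ := (IntermediateField.mem_adjoin_simple_iff κ z).mp hz
    by_cases hz0 : z = 0
    · left; rw [hz0]; exact (ResGauss_ring O x).zero_mem
    have hP : P ≠ 0 := by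
      rintro rfl
      apply hz0; rw [hPQ, map_zero, zero_div]
    have hQ : Q ≠ 0 := by
      rintro rfl
      apply hz0; rw [hPQ, map_zero, div_zero]
    obtain ⟨c, P0, hc, hP0, hP0'⟩ := ResGauss_scale O P hP
    obtain ⟨d, Q0, hd, hQ0, hQ0'⟩ := ResGauss_scale O Q hQ
    have eP : Polynomial.aeval x P0 = algebraMap κ K c * Polynomial.aeval x P := by
      rw [ResGauss_aeval, hP0, map_mul, Polynomial.aeval_C]
    have eQ : Polynomial.aeval x Q0 = algebraMap κ K d * Polynomial.aeval x Q := by
      rw [ResGauss_aeval, hQ0, map_mul, Polynomial.aeval_C]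
    have hPx : Polynomial.aeval x P ≠ 0 := by
      intro h; apply hz0; rw [hPQ, h, zero_div]
    have hQx : Polynomial.aeval x Q ≠ 0 := by
      intro h; apply hz0; rw [hPQ, h, div_zero]
    have hc' : algebraMap κ K c ≠ 0 := by rw [Ne, map_eq_zero]; exact hc
    have hd' : algebraMap κ K d ≠ 0 := by rw [Ne, map_eq_zero]; exact hd
    rcases O.mem_or_inv_mem (d / c) with hm | hm
    · left
      refine ⟨Polynomial.C ⟨d / c, hm⟩ * P0, Q0, hQ0', ?_⟩
      rw [map_mul, Polynomial.aeval_C, eP, eQ, hPQ,
        IsScalarTower.algebraMap_apply O κ K, ValuationSubring.algebraMap_apply]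
      simp only [map_div₀]
      field_simp
    · right
      refine ⟨Polynomial.C ⟨(d / c)⁻¹, hm⟩ * Q0, P0, hP0', ?_⟩
      rw [map_mul, Polynomial.aeval_C, eP, eQ, hPQ,
        IsScalarTower.algebraMap_apply O κ K, ValuationSubring.algebraMap_apply]
      simp only [map_div₀, inv_div]
      field_simp
  let G : ValuationSubring K := ValuationSubring.ofSubring (ResGauss_ring O x) hval
  have hG : ∀ z : K, z ∈ G ↔ ∃ f g : Polynomial O, g.map (residue O) ≠ 0 ∧
        z * Polynomial.aeval x g = Polynomial.aeval x f := fun z => Iff.rfl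
  refine ⟨G, ?_, ?_, ?_, fun z hz => (hG z).mp hz⟩
  · intro a
    rw [hG]
    constructor
    · rintro ⟨f, g, hg, h⟩
      have h1 : Polynomial.C a * g.map (algebraMap O κ) = f.map (algebraMap O κ) := by
        apply (transcendental_iff_injective.mp hx)
        rw [map_mul, Polynomial.aeval_C, ← ResGauss_aeval, ← ResGauss_aeval, h]
      obtain ⟨i, hi⟩ : ∃ i, (g.map (residue O)).coeff i ≠ 0 := by
        by_contra hcon
        push Not at hcon
        exact hg (Polynomial.ext (by simpa using hcon))
      rw [Polynomial.coeff_map] at hi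
      have hu : IsUnit (g.coeff i) := by
        by_contra hnu
        exact hi ((residue_eq_zero_iff _).mpr ((mem_maximalIdeal _).mpr hnu))
      obtain ⟨u, hu⟩ := hu
      have h2 := congrArg (fun p => Polynomial.coeff p i) h1
      simp only [Polynomial.coeff_C_mul, Polynomial.coeff_map,
        ValuationSubring.algebraMap_apply] at h2
      have h3 : ((u⁻¹ : (O : Type _)ˣ) : O) * g.coeff i = 1 := by rw [← hu]; simp
      have h4 : (((u⁻¹ : (O : Type _)ˣ) : O) : κ) * (g.coeff i : κ) = 1 := by
        have := congrArg (fun t : O => (t : κ)) h3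
        simpa using this
      have h5 : a = (f.coeff i * ((u⁻¹ : (O : Type _)ˣ) : O) : O) := by
        push_cast
        rw [← h2]
        linear_combination (-a) * h4
      rw [h5]
      exact Subtype.mem _
    · intro ha
      refine ⟨Polynomial.C ⟨a, ha⟩, 1, by simp, ?_⟩
      rw [map_one, mul_one, Polynomial.aeval_C, IsScalarTower.algebraMap_apply O κ K]
      rfl
  · intro f
    exact (hG _).mpr ⟨f, 1, by simp, by simp⟩
  · intro f
    rw [ValuationSubring.mem_nonunits_iff_or]
    constructor
    · rintro (h | h)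
      · have : f = 0 := hinj f 0 (by rw [h, map_zero])
        rw [this, Polynomial.map_zero]
      · by_contra hf
        apply h
        rw [hG]
        refine ⟨1, f, hf, ?_⟩
        rw [map_one]
        apply inv_mul_cancel₀
        intro h0
        have : f = 0 := hinj f 0 (by rw [h0, map_zero])
        apply hf
        rw [this, Polynomial.map_zero]
    · intro hf
      by_cases h0 : Polynomial.aeval x f = 0
      · exact Or.inl h0
      · right
        rw [hG]
        rintro ⟨f', g', hg', h⟩
        apply hg'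
        have h1 : g' = f * f' := by
          apply hinj
          rw [map_mul, ← h, mul_inv_cancel_left₀ h0]
        rw [h1, Polynomial.map_mul, hf, zero_mul]

end Pool.Agent.MultiSpec
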