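import Mathlib

set_option autoImplicit false

namespace Pool.Agent.MultiSpec

namespace ResPrimesAux

open scoped Pointwise

/-- If every orbit of a finite group on a finite set has size divisible by `N`, so has the set. -/
theorem dvd_card_of_orbits {D X : Type*} [Group D] [Finite X] [MulAction D X] (N : ℕ)
    (h : ∀ x : X, N ∣ (MulAction.stabilizer D x).index) : N ∣ Nat.card X := by
  classical
  have := Fintype.ofFinite X
  have : Fintype (MulAction.orbitRel.Quotient D X) := Fintype.ofFinite _
  rw [Nat.card_congr (MulAction.selfEquivSigmaOrbits' D X), Nat.card_sigma]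
  refine Finset.dvd_sum fun ω _ => ?_
  induction ω using Quotient.inductionOn' with
  | h x =>
    have h1 := MulAction.index_stabilizer D x
    have h2 := h x
    rw [h1] at h2
    exact h2

/-- Residue fields of an invariant extension. -/
theorem exists_theta {A B G k R : Type*} [CommRing A] [CommRing B] [Algebra A B] [Group G]
    [Finite G] [MulSemiringAction G B] [Algebra.IsInvariant A B G] [SMulCommClass G A B]
    [Field k] [Field R] [Algebra k R] [CharZero k] (f : A →+* k) (hfs : Function.Surjective f)
    (ρ : B →+* R) (hρs : Function.Surjective ρ)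
    (hfρ : ∀ a, ρ (algebraMap A B a) = algebraMap k R (f a)) :
    IsGalois k R ∧ FiniteDimensional k R ∧
      ∃ θ : MulAction.stabilizer G (RingHom.ker ρ) →* Gal(R/k), Function.Surjective θ ∧
        ∀ (g : MulAction.stabilizer G (RingHom.ker ρ)) (b : B), θ g (ρ b) = ρ (g.1 • b) := by
  generalize hQ : RingHom.ker ρ = Q
  have hQ' : ∀ b, b ∈ Q ↔ ρ b = 0 := fun b => by rw [← hQ]; exact RingHom.mem_ker
  obtain ⟨P, hP⟩ : ∃ P : Ideal A, P = Q.under A := ⟨_, rfl⟩
  have hP' : ∀ a, a ∈ P ↔ f a = 0 := by
    intro a
    rw [hP, Ideal.under_def, Ideal.mem_comap, hQ', hfρ, map_eq_zero]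
  have hPQ : Q.LiesOver P := ⟨hP⟩
  have hQp : Q.IsPrime := hQ ▸ RingHom.ker_isPrime ρ
  have hkerf : RingHom.ker f = P := by
    ext a; rw [RingHom.mem_ker, hP']
  have hPm : P.IsMaximal := hkerf ▸ RingHom.ker_isMaximal_of_surjective f hfs
  let algBR : Algebra (B ⧸ Q) R := (Ideal.Quotient.lift Q ρ fun b hb => (hQ' b).1 hb).toAlgebra
  let algAk : Algebra (A ⧸ P) k := (Ideal.Quotient.lift P f fun a ha => (hP' a).1 ha).toAlgebra
  let algAR : Algebra (A ⧸ P) R := ((algebraMap k R).comp (algebraMap (A ⧸ P) k)).toAlgebra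
  have hBR : ∀ b : B, algebraMap (B ⧸ Q) R (Ideal.Quotient.mk Q b) = ρ b := fun b => rfl
  have hAk : ∀ a : A, algebraMap (A ⧸ P) k (Ideal.Quotient.mk P a) = f a := fun a => rfl
  have tow1 : IsScalarTower (A ⧸ P) k R := IsScalarTower.of_algebraMap_eq fun _ => rfl
  have tow2 : IsScalarTower (A ⧸ P) (B ⧸ Q) R := by
    refine IsScalarTower.of_algebraMap_eq (R := A ⧸ P) (S := B ⧸ Q) (A := R) fun y => ?_
    obtain ⟨a, rfl⟩ := Ideal.Quotient.mk_surjective y
    change algebraMap k R (f a) = ρ (algebraMap A B a)
    rw [hfρ]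
  have fBR : FaithfulSMul (B ⧸ Q) R := by
    rw [faithfulSMul_iff_algebraMap_injective]
    intro y z h
    obtain ⟨b, rfl⟩ := Ideal.Quotient.mk_surjective y
    obtain ⟨c, rfl⟩ := Ideal.Quotient.mk_surjective z
    rw [hBR, hBR, ← sub_eq_zero, ← map_sub, ← hQ'] at h
    exact Ideal.Quotient.eq.2 h
  have fAk : FaithfulSMul (A ⧸ P) k := by
    rw [faithfulSMul_iff_algebraMap_injective]
    intro y z h
    obtain ⟨b, rfl⟩ := Ideal.Quotient.mk_surjective y
    obtain ⟨c, rfl⟩ := Ideal.Quotient.mk_surjective z
    rw [hAk, hAk, ← sub_eq_zero, ← map_sub, ← hP'] at h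
    exact Ideal.Quotient.eq.2 h
  have frBR : IsFractionRing (B ⧸ Q) R := by
    refine IsFractionRing.of_field _ _ fun z => ?_
    obtain ⟨b, rfl⟩ := hρs z
    exact ⟨Ideal.Quotient.mk Q b, 1, by rw [map_one, div_one, hBR]⟩
  have frAk : IsFractionRing (A ⧸ P) k := by
    refine IsFractionRing.of_field _ _ fun z => ?_
    obtain ⟨a, rfl⟩ := hfs z
    exact ⟨Ideal.Quotient.mk P a, 1, by rw [map_one, div_one, hAk]⟩
  have hsurj := IsFractionRing.stabilizerHom_surjective G P Q k R
  have hnorm : Normal k R := Ideal.IsFractionRing.normal G P Q k R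
  have hgal : IsGalois k R := { __ := hnorm }
  refine ⟨hgal, Ideal.IsFractionRing.finite_of_isInvariant G P Q k R,
    IsFractionRing.stabilizerHom G P Q k R, hsurj, fun g b => ?_⟩
  have h1 := IsFractionRing.stabilizerHom_apply_apply_mk G P Q k R g b
  rw [hBR, hBR] at h1
  exact h1

/-- A finite Galois extension into which `E` embeds. -/
theorem exists_galois (K E : Type) [Field K] [Field E] [Algebra K E] [FiniteDimensional K E]
    [CharZero K] : ∃ (L : Type) (_ : Field L) (_ : Algebra K L),
      FiniteDimensional K L ∧ IsGalois K L ∧ Nonempty (E →ₐ[K] L) := by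
  refine ⟨IntermediateField.normalClosure K E (AlgebraicClosure E), inferInstance, inferInstance,
    inferInstance, inferInstance, ⟨?_⟩⟩
  exact IsScalarTower.toAlgHom K E _

/-- The orbit argument. -/
theorem dvd_finrank_aux {A K E L k R : Type} [CommRing A] [IsDomain A] [IsIntegrallyClosed A]
    [Field K] [Algebra A K] [IsFractionRing A K] [Field E] [Algebra K E] [Algebra A E]
    [IsScalarTower A K E] [FiniteDimensional K E] [CharZero K]
    [Field L] [Algebra K L] [Algebra A L] [IsScalarTower A K L] [FiniteDimensional K L]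
    [IsGalois K L] (ι : E →ₐ[K] L) [Field k] [Field R] [Algebra k R] [CharZero k]
    (f : A →+* k) (hfs : Function.Surjective f) (ρ : integralClosure A L →+* R)
    (hρs : Function.Surjective ρ)
    (hfρ : ∀ a, ρ (algebraMap A (integralClosure A L) a) = algebraMap k R (f a)) (M : ℕ)
    (h : ∀ τ : E →ₐ[K] L, ∃ F : IntermediateField k R, M ∣ Module.finrank k F ∧
      ∀ y ∈ F, ∃ (b : E) (hb : τ b ∈ integralClosure A L), y = ρ ⟨τ b, hb⟩) :
    M ∣ Module.finrank K E := by
  classical
  have hfr : IsFractionRing (integralClosure A L) L :=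
    integralClosure.isFractionRing_of_finite_extension K L
  let act := IsIntegralClosure.MulSemiringAction A K L (integralClosure A L)
  have hact : ∀ (g : Gal(L/K)) (b : integralClosure A L), ((g • b : integralClosure A L) : L) =
      g (b : L) := by
    intro g b
    exact algebraMap_galRestrict_apply A g b
  have hinv : Algebra.IsInvariant A (integralClosure A L) Gal(L/K) :=
    Algebra.isInvariant_of_isGalois A K L _
  have hSM : SMulCommClass Gal(L/K) A (integralClosure A L) := by
    refine ⟨fun g a b => Subtype.ext ?_⟩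
    rw [hact, Algebra.smul_def, Algebra.smul_def, MulMemClass.coe_mul, MulMemClass.coe_mul,
      map_mul, hact]
    congr 1
    change g (algebraMap A L a) = algebraMap A L a
    rw [IsScalarTower.algebraMap_apply A K L, g.commutes]
  obtain ⟨hgal, hfin, θ, hθs, hθ⟩ := exists_theta (G := Gal(L/K)) f hfs ρ hρs hfρ
  have e1 : Module.finrank K E = ι.fieldRange.fixingSubgroup.index := by
    rw [← IntermediateField.finrank_eq_fixingSubgroup_index]
    exact LinearEquiv.finrank_eq (AlgEquiv.ofInjectiveField ι).toLinearEquiv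
  rw [e1, Subgroup.index]
  refine dvd_card_of_orbits (D := MulAction.stabilizer Gal(L/K) (RingHom.ker ρ)) M fun c => ?_
  induction c using QuotientGroup.induction_on with
  | H g =>
    obtain ⟨F, hNF, hF⟩ := h ((g : L →ₐ[K] L).comp ι)
    rw [IntermediateField.finrank_eq_fixingSubgroup_index] at hNF
    rw [← Subgroup.index_comap_of_surjective _ hθs] at hNF
    refine hNF.trans (Subgroup.index_dvd_of_le fun δ hδ => ?_)
    rw [Subgroup.mem_comap, IntermediateField.mem_fixingSubgroup_iff]
    have h1 : ∀ x ∈ ι.fieldRange, δ.1 (g x) = g x := by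
      intro x hx
      have h2 : (δ.1 * g : Gal(L/K)) ∈
          (g : Gal(L/K)) • (ι.fieldRange.fixingSubgroup : Set Gal(L/K)) := by
        rw [MulAction.mem_stabilizer_iff] at hδ
        have h3 : ((δ.1 * g : Gal(L/K)) : Gal(L/K) ⧸ ι.fieldRange.fixingSubgroup) =
          (g : Gal(L/K)) := hδ
        rw [eq_comm, QuotientGroup.eq] at h3
        exact ⟨g⁻¹ * (δ.1 * g), h3, by simp⟩
      obtain ⟨h, hh, heq⟩ := h2
      have h4 : g (h x) = δ.1 (g x) := DFunLike.congr_fun heq x
      rw [← h4, (IntermediateField.mem_fixingSubgroup_iff _ h).1 hh x hx]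
    intro y hy
    obtain ⟨b, hb, rfl⟩ := hF y hy
    rw [hθ]
    congr 1
    apply Subtype.ext
    rw [hact]
    exact h1 _ ⟨b, rfl⟩

attribute [local instance] Ideal.Quotient.field in
theorem primes_aux {A K E : Type} [CommRing A] [IsDomain A] [IsIntegrallyClosed A]
    [Field K] [Algebra A K] [IsFractionRing A K] [Field E] [Algebra K E] [Algebra A E]
    [IsScalarTower A K E] [FiniteDimensional K E] [CharZero K] (m : Ideal A) [m.IsMaximal]
    [CharZero (A ⧸ m)] (M : ℕ)
    (h : ∀ (Q : Ideal (integralClosure A E)) (_ : Q.IsPrime) (_ : Q.LiesOver m),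
      M ∣ Module.finrank (A ⧸ m) (integralClosure A E ⧸ Q)) :
    M ∣ Module.finrank K E := by
  classical
  obtain ⟨L, _, _, _, _, ⟨ι⟩⟩ := exists_galois K E
  let algAL : Algebra A L := ((algebraMap K L).comp (algebraMap A K)).toAlgebra
  have towL : IsScalarTower A K L := .of_algebraMap_eq fun _ => rfl
  have hinjAL : Function.Injective (algebraMap A L) :=
    (algebraMap K L).injective.comp (IsFractionRing.injective A K)
  have hinjB : Function.Injective (algebraMap A (integralClosure A L)) := by
    intro a b hab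
    exact hinjAL (congrArg Subtype.val hab)
  have hfaith : FaithfulSMul A (integralClosure A L) :=
    (faithfulSMul_iff_algebraMap_injective _ _).2 hinjB
  obtain ⟨Q, hQm, hQl⟩ := Ideal.exists_maximal_ideal_liesOver_of_isIntegral
    (S := integralClosure A L) m
  have halgm : ∀ a : A, algebraMap (A ⧸ m) (integralClosure A L ⧸ Q) (Ideal.Quotient.mk m a) =
      Ideal.Quotient.mk Q (algebraMap A (integralClosure A L) a) := fun a => rfl
  -- the maps `τ` on integral closures
  have hβ : ∀ (τ : E →ₐ[K] L) (b : integralClosure A E), τ b ∈ integralClosure A L := by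
    intro τ b
    have h1 : IsIntegral A (b : E) := b.2
    exact h1.map (τ.restrictScalars A)
  refine dvd_finrank_aux ι (Ideal.Quotient.mk m) Ideal.Quotient.mk_surjective
    (Ideal.Quotient.mk Q) Ideal.Quotient.mk_surjective (fun a => (halgm a).symm) M fun τ => ?_
  let β : integralClosure A E →+* integralClosure A L :=
    { toFun := fun b => ⟨τ b, hβ τ b⟩
      map_one' := Subtype.ext (map_one τ)
      map_mul' := fun a b => Subtype.ext (map_mul τ _ _)
      map_zero' := Subtype.ext (map_zero τ)
      map_add' := fun a b => Subtype.ext (map_add τ _ _) }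
  have hβA : ∀ a : A, β (algebraMap A (integralClosure A E) a) =
      algebraMap A (integralClosure A L) a := by
    intro a
    apply Subtype.ext
    exact (τ.restrictScalars A).commutes a
  have hQτp : (Q.comap β).IsPrime := Ideal.comap_isPrime β Q
  have hQτl : (Q.comap β).LiesOver m := by
    constructor
    rw [hQl.over]
    ext a
    rw [Ideal.mem_comap, Ideal.mem_comap, Ideal.mem_comap, hβA]
  have hM := h (Q.comap β) hQτp hQτl
  let φ0 : (integralClosure A E ⧸ Q.comap β) →+* (integralClosure A L ⧸ Q) :=
    Ideal.quotientMap Q β le_rfl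
  have hφ0 : Function.Injective φ0 := Ideal.quotientMap_injective
  let φ : (integralClosure A E ⧸ Q.comap β) →ₐ[A ⧸ m] (integralClosure A L ⧸ Q) :=
    { φ0 with
      commutes' := by
        intro a
        obtain ⟨a, rfl⟩ := Ideal.Quotient.mk_surjective a
        change φ0 (Ideal.Quotient.mk _ (algebraMap A (integralClosure A E) a)) =
          Ideal.Quotient.mk Q (algebraMap A (integralClosure A L) a)
        rw [← hβA]
        exact Ideal.quotientMap_mk }
  have hint : ∀ y : integralClosure A L ⧸ Q, IsAlgebraic (A ⧸ m) y := by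
    intro y
    have h1 : Algebra.IsIntegral A (integralClosure A L ⧸ Q) := inferInstance
    have h2 : IsIntegral (A ⧸ m) y := (h1.isIntegral y).tower_top
    exact h2.isAlgebraic
  let F : IntermediateField (A ⧸ m) (integralClosure A L ⧸ Q) :=
    φ.range.toIntermediateField fun y hy =>
      Subalgebra.inv_mem_of_algebraic (A := φ.range) (x := ⟨y, hy⟩) (hint y)
  refine ⟨F, ?_, ?_⟩
  · have e : Module.finrank (A ⧸ m) F =
        Module.finrank (A ⧸ m) (integralClosure A E ⧸ Q.comap β) :=
      (LinearEquiv.finrank_eq (AlgEquiv.ofInjective φ hφ0).toLinearEquiv).symm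
    rw [e]; exact hM
  · rintro y ⟨z, rfl⟩
    obtain ⟨b, rfl⟩ := Ideal.Quotient.mk_surjective z
    exact ⟨b, hβ τ b, rfl⟩

end ResPrimesAux

/-- If the degrees of all residue extensions over a maximal ideal `m` (residue characteristic
zero) of an integrally closed domain `A` are divisible by `M`, so is the degree of the field
extension.  (Galois closure; decomposition group; orbits of `D` on `G/H`.) -/
theorem dvd_finrank_of_primes {A K E : Type} [CommRing A] [IsDomain A] [IsIntegrallyClosed A]
    [Field K] [Algebra A K] [IsFractionRing A K] [Field E] [Algebra K E] [Algebra A E]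
    [IsScalarTower A K E] [FiniteDimensional K E] [CharZero K] (m : Ideal A) [m.IsMaximal]
    [CharZero (A ⧸ m)] (M : ℕ)
    (h : ∀ (Q : Ideal (integralClosure A E)) (_ : Q.IsPrime) (_ : Q.LiesOver m),
      M ∣ Module.finrank (A ⧸ m) (integralClosure A E ⧸ Q)) :
    M ∣ Module.finrank K E :=
  ResPrimesAux.primes_aux m M h

end Pool.Agent.MultiSpec
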