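import Mathlib
import Pool.Agent.MultiSpec.ResPrimes
import Pool.Agent.MultiSpec.ResBQ
import Pool.Agent.MultiSpec.ResGauss

set_option autoImplicit false

namespace Pool.Agent.MultiSpec

open IsLocalRing

namespace ResidueAux

/-- the degree of the residue extension at a prime above the Gauss valuation ring -/
theorem finrank_residue {κ K E : Type} [Field κ] [Field K] [Field E] [Algebra κ K]
    [Algebra K E] [Algebra κ E] [IsScalarTower κ K E] (O : ValuationSubring κ) (x : K)
    (G : ValuationSubring K) (hG1 : ∀ a : κ, algebraMap κ K a ∈ G ↔ a ∈ O)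
    (hG2 : ∀ f : Polynomial O, Polynomial.aeval x f ∈ G)
    (hG3 : ∀ f : Polynomial O, Polynomial.aeval x f ∈ G.nonunits ↔ f.map (residue O) = 0)
    (hG4 : ∀ z ∈ G, ∃ f g : Polynomial O, g.map (residue O) ≠ 0 ∧
        z * Polynomial.aeval x g = Polynomial.aeval x f)
    (Q : Ideal (integralClosure G E)) (hQm : Q.IsMaximal) (hQl : Q.LiesOver (maximalIdeal G))
    (V : ValuationSubring E) (hV1 : ∀ b : integralClosure G E, (b : E) ∈ V)
    (hV2 : ∀ b : integralClosure G E, b ∈ Q ↔ (b : E) ∈ V.nonunits)
    (hV3 : ∀ z ∈ V, ∃ a b : integralClosure G E, b ∉ Q ∧ z * b = a)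
    (hV : ∀ a : κ, algebraMap κ E a ∈ V ↔ a ∈ O)
    (_ : Algebra (ResidueField O) (ResidueField V))
    (halg : ∀ a : O, algebraMap (ResidueField O) (ResidueField V) (residue O a) =
        residue V ⟨algebraMap κ E a, (hV a).2 a.2⟩)
    (hxV : algebraMap K E x ∈ V) :
    Transcendental (ResidueField O) (residue V ⟨algebraMap K E x, hxV⟩) ∧
    Module.finrank (G ⧸ maximalIdeal G) (integralClosure G E ⧸ Q) =
      Module.finrank (IntermediateField.adjoin (ResidueField O)
        {residue V ⟨algebraMap K E x, hxV⟩}) (ResidueField V) := by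
  classical
  have hGV : ∀ z : G, algebraMap K E z ∈ V := fun z =>
    hV1 (algebraMap G (integralClosure G E) z)
  let γ0 : G →+* V := ((algebraMap K E).comp G.subtype).codRestrict V.toSubring hGV
  let γ : G →+* ResidueField V := (residue V).comp γ0
  let β0 : integralClosure G E →+* V :=
    ((integralClosure G E).val.toRingHom).codRestrict V.toSubring hV1
  let β : integralClosure G E →+* ResidueField V := (residue V).comp β0
  have hβ0 : ∀ b, β b = 0 ↔ b ∈ Q := by
    intro b
    change residue V (β0 b) = 0 ↔ b ∈ Q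
    rw [residue_eq_zero_iff, hV2]
    exact (V.coe_mem_nonunits_iff (a := β0 b)).symm
  have hβγ : ∀ z : G, β (algebraMap G (integralClosure G E) z) = γ z := fun z => rfl
  have hγ0 : ∀ z, γ z = 0 ↔ z ∈ maximalIdeal G := by
    intro z
    rw [← hβγ, hβ0, hQl.over]
    rfl
  set xb : ResidueField V := residue V ⟨algebraMap K E x, hxV⟩ with hxb
  have hxG : x ∈ G := by
    have := hG2 Polynomial.X
    rwa [Polynomial.aeval_X] at this
  have hOG : ∀ a : O, algebraMap κ K a ∈ G := fun a => (hG1 a).2 a.2
  let j : O →+* G := ((algebraMap κ K).comp O.subtype).codRestrict G.toSubring hOG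
  have hγj : γ.comp j = (algebraMap (ResidueField O) (ResidueField V)).comp (residue O) := by
    refine RingHom.ext fun a => Eq.trans ?_ (halg a).symm
    change residue V (γ0 (j a)) = _
    congr 1
    apply Subtype.ext
    exact (IsScalarTower.algebraMap_apply κ K E (a : κ)).symm
  have hpoly : ∀ (f : Polynomial O) (hf : Polynomial.aeval x f ∈ G),
      γ ⟨Polynomial.aeval x f, hf⟩ = Polynomial.aeval xb (f.map (residue O)) := by
    intro f hf
    have e1 : (⟨Polynomial.aeval x f, hf⟩ : G) = Polynomial.eval₂ j ⟨x, hxG⟩ f := by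
      apply Subtype.ext
      have e3 := Polynomial.hom_eval₂ f j G.subtype ⟨x, hxG⟩
      have e4 : G.subtype.comp j = algebraMap O K := rfl
      rw [e4] at e3
      exact e3.symm
    rw [e1, Polynomial.hom_eval₂, hγj, Polynomial.aeval_def, Polynomial.eval₂_map]
    rfl
  have hne : ∀ f : Polynomial O, f.map (residue O) ≠ 0 →
      Polynomial.aeval xb (f.map (residue O)) ≠ 0 := by
    intro f hf h0
    rw [← hpoly f (hG2 f), hγ0, ← G.coe_mem_nonunits_iff] at h0
    exact hf ((hG3 f).1 h0)
  have hsurjO : ∀ p : Polynomial (ResidueField O), ∃ f : Polynomial O, f.map (residue O) = p :=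
    Polynomial.map_surjective _ residue_surjective
  refine ⟨?_, ?_⟩
  · rw [transcendental_iff]
    intro p hp
    obtain ⟨f, rfl⟩ := hsurjO p
    by_contra hc
    exact hne f hc hp
  -- the subfields
  have hγS : ∀ z : G, γ z ∈ IntermediateField.adjoin (ResidueField O) {xb} := by
    intro z
    obtain ⟨f, g, hg, hfg⟩ := hG4 z z.2
    have h1 : γ z * γ ⟨_, hG2 g⟩ = γ ⟨_, hG2 f⟩ := by
      rw [← map_mul]
      congr 1
      exact Subtype.ext hfg
    have hxS : xb ∈ IntermediateField.adjoin (ResidueField O) {xb} :=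
      IntermediateField.mem_adjoin_simple_self _ _
    have hpS : ∀ p : Polynomial (ResidueField O),
        Polynomial.aeval xb p ∈ IntermediateField.adjoin (ResidueField O) {xb} := by
      intro p
      rw [Polynomial.aeval_eq_sum_range]
      refine sum_mem fun i _ => ?_
      rw [Algebra.smul_def]
      exact mul_mem (IntermediateField.algebraMap_mem _ _) (pow_mem hxS i)
    rw [hpoly, hpoly] at h1
    rw [← eq_div_iff (hne g hg)] at h1
    rw [h1]
    exact div_mem (hpS _) (hpS _)
  have hSγ : ∀ y ∈ IntermediateField.adjoin (ResidueField O) {xb}, ∃ z : G, γ z = y := by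
    intro y hy
    rw [IntermediateField.mem_adjoin_simple_iff] at hy
    obtain ⟨p, q, rfl⟩ := hy
    obtain ⟨f, rfl⟩ := hsurjO p
    obtain ⟨g, rfl⟩ := hsurjO q
    by_cases hg : g.map (residue O) = 0
    · refine ⟨0, ?_⟩
      rw [hg]; simp
    · have h1 := hne g hg
      rw [← hpoly g (hG2 g)] at h1
      have h2 : IsUnit (⟨_, hG2 g⟩ : G) := by
        by_contra hc
        exact h1 ((hγ0 _).2 hc)
      obtain ⟨u, hu⟩ := h2
      refine ⟨⟨_, hG2 f⟩ * (u⁻¹ : Gˣ), ?_⟩
      rw [← hpoly g (hG2 g), ← hpoly f (hG2 f), map_mul, eq_div_iff h1, mul_assoc, ← map_mul,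
        ← hu, Units.inv_mul, map_one, mul_one]
  have hβs : Function.Surjective β := by
    intro y
    obtain ⟨z, rfl⟩ := residue_surjective y
    obtain ⟨a, b, hb, hab⟩ := hV3 z z.2
    have hb0 : β b ≠ 0 := fun h => hb ((hβ0 b).1 h)
    have h1 : residue V z * β b = β a := by
      change residue V z * residue V (β0 b) = residue V (β0 a)
      rw [← map_mul]
      congr 1
      exact Subtype.ext hab
    let _ := Ideal.Quotient.field Q
    obtain ⟨t, ht⟩ := Ideal.Quotient.mk_surjective (Ideal.Quotient.mk Q b)⁻¹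
    have h2 : b * t - 1 ∈ Q := by
      rw [← Ideal.Quotient.eq_zero_iff_mem, map_sub, map_mul, ht, map_one, sub_eq_zero,
        mul_inv_cancel₀]
      intro h
      exact hb (Ideal.Quotient.eq_zero_iff_mem.1 h)
    have h3 : β b * β t = 1 := by
      have h4 := (hβ0 _).2 h2
      rw [map_sub, map_mul, map_one, sub_eq_zero] at h4
      exact h4
    exact ⟨a * t, by rw [map_mul, ← h1, mul_assoc, h3, mul_one]⟩
  -- the isomorphisms
  let γS : G →+* IntermediateField.adjoin (ResidueField O) {xb} :=
    γ.codRestrict (IntermediateField.adjoin (ResidueField O) {xb}).toSubring hγS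
  let i0 : (G ⧸ maximalIdeal G) →+* IntermediateField.adjoin (ResidueField O) {xb} :=
    Ideal.Quotient.lift _ γS fun z hz => Subtype.ext ((hγ0 z).2 hz)
  let j0 : (integralClosure G E ⧸ Q) →+* ResidueField V :=
    Ideal.Quotient.lift _ β fun z hz => (hβ0 z).2 hz
  have hi0 : Function.Bijective i0 := by
    constructor
    · intro a b hab
      obtain ⟨a, rfl⟩ := Ideal.Quotient.mk_surjective a
      obtain ⟨b, rfl⟩ := Ideal.Quotient.mk_surjective b
      have h1 : γ a = γ b := congrArg Subtype.val hab
      rw [← sub_eq_zero, ← map_sub, hγ0] at h1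
      exact Ideal.Quotient.eq.2 h1
    · rintro ⟨y, hy⟩
      obtain ⟨z, hz⟩ := hSγ y hy
      exact ⟨Ideal.Quotient.mk _ z, Subtype.ext hz⟩
  have hj0 : Function.Bijective j0 := by
    constructor
    · intro a b hab
      obtain ⟨a, rfl⟩ := Ideal.Quotient.mk_surjective a
      obtain ⟨b, rfl⟩ := Ideal.Quotient.mk_surjective b
      have h1 : β a = β b := hab
      rw [← sub_eq_zero, ← map_sub, hβ0] at h1
      exact Ideal.Quotient.eq.2 h1
    · intro y
      obtain ⟨z, hz⟩ := hβs y
      exact ⟨Ideal.Quotient.mk _ z, hz⟩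
  refine Algebra.finrank_eq_of_equiv_equiv (RingEquiv.ofBijective i0 hi0)
    (RingEquiv.ofBijective j0 hj0) ?_
  refine RingHom.ext fun a => ?_
  obtain ⟨a, rfl⟩ := Ideal.Quotient.mk_surjective a
  rfl

end ResidueAux

open ResidueAux

/-- Divisibility of the degree of a function field of one variable from the residue fields of its
valuation rings over a given valuation ring of the field of constants. -/
theorem dvd_finrank_of_residue {κ E : Type} [Field κ] [Field E] [CharZero κ] [Algebra κ E]
    (O : ValuationSubring κ) [CharZero (ResidueField O)] (x : E) (hx : Transcendental κ x)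
    (hfin : FiniteDimensional (IntermediateField.adjoin κ {x}) E) (M : ℕ)
    (h : ∀ (V : ValuationSubring E) (hV : ∀ a : κ, algebraMap κ E a ∈ V ↔ a ∈ O)
      (_ : Algebra (ResidueField O) (ResidueField V))
      (_ : ∀ a : O, algebraMap (ResidueField O) (ResidueField V) (residue O a) =
        residue V ⟨algebraMap κ E a, (hV a).2 a.2⟩)
      (hxV : x ∈ V) (_ : Transcendental (ResidueField O) (residue V ⟨x, hxV⟩)),
      M ∣ Module.finrank (IntermediateField.adjoin (ResidueField O) {residue V ⟨x, hxV⟩})
        (ResidueField V)) :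
    M ∣ Module.finrank (IntermediateField.adjoin κ {x}) E := by
  classical
  set K := IntermediateField.adjoin κ {x} with hK
  let x' : K := IntermediateField.AdjoinSimple.gen κ x
  have hx'x : algebraMap K E x' = x := rfl
  have hx' : Transcendental κ x' := by
    intro h1
    exact hx (h1.algebraMap (A := E))
  have htop : IntermediateField.adjoin κ {x'} = ⊤ := by
    rw [eq_top_iff]
    rintro ⟨z, hz⟩ _
    have h1 : (IntermediateField.adjoin κ {x'}).map K.val = IntermediateField.adjoin κ {x} := by
      rw [IntermediateField.adjoin_map, Set.image_singleton]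
      rfl
    have hz' : z ∈ (IntermediateField.adjoin κ {x'}).map K.val := by rw [h1]; exact hz
    obtain ⟨w, hw, hwz⟩ := hz'
    have h2 : w = ⟨z, hz⟩ := Subtype.ext hwz
    rw [← h2]
    exact hw
  obtain ⟨G, hG1, hG2, hG3, hG4⟩ := exists_gauss O x' hx' htop
  have hnon : ∀ a : O, algebraMap κ K a ∈ G.nonunits ↔ a ∈ maximalIdeal O := by
    intro a
    have h1 := hG3 (Polynomial.C a)
    rw [Polynomial.aeval_C, Polynomial.map_C, Polynomial.C_eq_zero, residue_eq_zero_iff] at h1
    exact h1
  have hOG : ∀ a : O, algebraMap κ K a ∈ G := fun a => (hG1 a).2 a.2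
  let j : O →+* G := ((algebraMap κ K).comp O.subtype).codRestrict G.toSubring hOG
  have hjm : ∀ a, a ∈ maximalIdeal O → j a ∈ maximalIdeal G := by
    intro a ha
    rw [← G.coe_mem_nonunits_iff]
    exact (hnon a).2 ha
  have hchar : CharZero (G ⧸ maximalIdeal G) := by
    let φ : ResidueField O →+* (G ⧸ maximalIdeal G) :=
      Ideal.Quotient.lift _ ((Ideal.Quotient.mk _).comp j) fun a ha =>
        Ideal.Quotient.eq_zero_iff_mem.2 (hjm a ha)
    exact charZero_of_injective_ringHom φ.injective
  have hcK : CharZero K := charZero_of_injective_algebraMap (algebraMap κ K).injective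
  refine dvd_finrank_of_primes (A := G) (maximalIdeal G) M fun Q hQp hQl => ?_
  have hQm : Q.IsMaximal := by
    refine Ideal.isMaximal_of_isIntegral_of_isMaximal_comap (R := G) Q ?_
    have h1 : Ideal.comap (algebraMap G (integralClosure G E)) Q = maximalIdeal G :=
      hQl.over.symm
    rw [h1]
    infer_instance
  obtain ⟨V, hV1, hV2, hV3⟩ := exists_valuationSubring_of_prime G Q
  have hGE : ∀ z : G, algebraMap K E z ∈ V := fun z =>
    hV1 (algebraMap G (integralClosure G E) z)
  have hGE' : ∀ z : G, z ∈ maximalIdeal G → algebraMap K E z ∈ V.nonunits := by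
    intro z hz
    refine (hV2 (algebraMap G (integralClosure G E) z)).1 ?_
    rw [hQl.over] at hz
    exact hz
  have hV : ∀ a : κ, algebraMap κ E a ∈ V ↔ a ∈ O := by
    intro a
    constructor
    · intro ha
      by_contra hc
      have h1 : a⁻¹ ∈ O := (O.mem_or_inv_mem a).resolve_left hc
      have ha0 : a ≠ 0 := by rintro rfl; exact hc O.zero_mem
      have h2 : (⟨a⁻¹, h1⟩ : O) ∈ maximalIdeal O := by
        rw [← O.coe_mem_nonunits_iff, O.mem_nonunits_iff_or]
        right
        rwa [inv_inv]
      have h3 := hGE' _ (hjm _ h2)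
      have h4 : algebraMap K E (j ⟨a⁻¹, h1⟩) = algebraMap κ E a⁻¹ :=
        (IsScalarTower.algebraMap_apply κ K E a⁻¹).symm
      rw [h4, V.mem_nonunits_iff_or, map_inv₀, inv_inv] at h3
      rcases h3 with h3 | h3
      · rw [inv_eq_zero, map_eq_zero] at h3
        exact ha0 h3
      · exact h3 ha
    · intro ha
      have h1 := hGE (j ⟨a, ha⟩)
      have h4 : algebraMap K E (j ⟨a, ha⟩) = algebraMap κ E a :=
        (IsScalarTower.algebraMap_apply κ K E a).symm
      rwa [h4] at h1
  let f0 : O →+* ResidueField V := (residue V).comp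
    (((algebraMap κ E).comp O.subtype).codRestrict V.toSubring fun a => (hV a).2 a.2)
  have hf0 : ∀ a ∈ maximalIdeal O, f0 a = 0 := by
    intro a ha
    change residue V ⟨algebraMap κ E a, _⟩ = 0
    rw [residue_eq_zero_iff, ← V.coe_mem_nonunits_iff]
    have h4 : algebraMap K E (j a) = algebraMap κ E a :=
      (IsScalarTower.algebraMap_apply κ K E (a : κ)).symm
    change algebraMap κ E a ∈ V.nonunits
    rw [← h4]
    exact hGE' _ (hjm _ ha)
  let algR : Algebra (ResidueField O) (ResidueField V) :=
    (Ideal.Quotient.lift (maximalIdeal O) f0 hf0).toAlgebra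
  have hxV : algebraMap K E x' ∈ V := by
    have h1 := hG2 Polynomial.X
    rw [Polynomial.aeval_X] at h1
    exact hGE ⟨x', h1⟩
  obtain ⟨h1, h2⟩ := finrank_residue O x' G hG1 hG2 hG3 hG4 Q hQm hQl V hV1 hV2 hV3 hV algR
    (fun a => rfl) hxV
  rw [h2]
  exact h V hV algR (fun a => rfl) hxV h1

end Pool.Agent.MultiSpec
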