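import Pool.Agent.MultiSpec.Root1
import Pool.Agent.MultiSpec.Residue
import Pool.Agent.MultiSpec.Kummer
import Pool.Agent.MultiSpec.NotPow
import Pool.Agent.MultiSpec.Quartic
import Pool.Agent.MultiSpec.Places
import Pool.Agent.CurveDeg.Kummer

/-!
The degree of the function field over `κ(ξ)`, `ξ` a nonconstant root of the common pencil, is
divisible by the product of the exponents.
-/

set_option autoImplicit false

namespace Pool.Agent.MultiSpec

open MvPolynomial IsLocalRing

/-- The residue field of a valuation subring of an algebraically closed field is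
algebraically closed. -/
theorem isAlgClosed_resid {K : Type*} [Field K] [IsAlgClosed K] (V : ValuationSubring K) :
    IsAlgClosed (ResidueField V) := by
  refine IsAlgClosed.of_exists_root _ fun p hp hirr => ?_
  obtain ⟨q, hq, hdeg, hmon⟩ := Polynomial.lifts_and_degree_eq_and_monic
    (f := residue V) (p := p) (by
      rw [Polynomial.mem_lifts]
      exact Polynomial.map_surjective _ residue_surjective p) hp
  have hd : (q.map (algebraMap V K)).degree ≠ 0 := by
    rw [hmon.degree_map, hdeg]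
    exact (Polynomial.degree_pos_of_irreducible hirr).ne'
  obtain ⟨x, hx⟩ := IsAlgClosed.exists_root (q.map (algebraMap V K)) hd
  have hint : IsIntegral V x := ⟨q, hmon, by
    rwa [Polynomial.IsRoot, Polynomial.eval_map] at hx⟩
  obtain ⟨y, hy⟩ := IsIntegrallyClosed.isIntegral_iff.mp hint
  refine ⟨residue V y, ?_⟩
  have h1 : q.eval y = 0 := by
    apply IsFractionRing.injective V K
    rw [map_zero, ← Polynomial.eval_map_apply, hy]
    exact hx
  rw [← hq, Polynomial.eval_map_apply, h1, map_zero]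

/-- The residue field of a valuation ring containing the image of `R₀`, at a prime `P`. -/
lemma exists_resid {R₀ F : Type} [CommRing R₀] [Field F] (φ : R₀ →+* F) (P : Ideal R₀)
    [P.IsPrime] (hφ : ∀ a, φ a = 0 → a ∈ P) :
    ∃ (O : ValuationSubring F) (χ : R₀ →+* O), (∀ a, ((χ a : O) : F) = φ a) ∧
      ∀ a, a ∈ P ↔ residue O (χ a) = 0 := by
  classical
  let S := R₀ ⧸ RingHom.ker φ
  let f : S →+* F := RingHom.kerLift φ
  let _ : Algebra S F := f.toAlgebra
  have hinj : Function.Injective (algebraMap S F) := RingHom.kerLift_injective φ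
  have hle : RingHom.ker φ ≤ P := fun a ha => hφ a ha
  let Q : Ideal S := P.map (Ideal.Quotient.mk (RingHom.ker φ))
  have hQ : Q.IsPrime := Ideal.map_isPrime_of_surjective Ideal.Quotient.mk_surjective (by
    rw [Ideal.mk_ker]; exact hle)
  obtain ⟨O, hO, hO'⟩ := exists_valuationSubring hinj Q
  have hmem : ∀ a, φ a ∈ O := fun a => hO (Ideal.Quotient.mk _ a)
  let χ : R₀ →+* O := φ.codRestrict O.toSubring hmem
  refine ⟨O, χ, fun a => rfl, fun a => ?_⟩
  have h1 : a ∈ P ↔ (Ideal.Quotient.mk (RingHom.ker φ) a) ∈ Q := by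
    constructor
    · exact fun h => Ideal.mem_map_of_mem _ h
    · intro h
      obtain ⟨b, hb, hb'⟩ := (Ideal.mem_map_iff_of_surjective _
        Ideal.Quotient.mk_surjective).1 h
      rw [Ideal.Quotient.eq] at hb'
      have := P.sub_mem hb (hle hb')
      rwa [sub_sub_cancel] at this
  rw [h1, hO' (Ideal.Quotient.mk _ a), residue_eq_zero_iff]
  exact O.coe_mem_nonunits_iff (a := χ a)

lemma special_of_quotient {R₀ k₀ k : Type} [CommRing R₀] [Field k₀] [Algebra k₀ R₀] [CommRing k]
    {N n : ℕ} {D : EDatum N n R₀} {P : Ideal R₀} {ζ : k₀}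
    (h : IsSpecial (D.map (Ideal.Quotient.mk P)) (algebraMap k₀ (R₀ ⧸ P) ζ)) (ψ : R₀ →+* k)
    (hψ : ∀ a ∈ P, ψ a = 0) : IsSpecial (D.map ψ) (ψ (algebraMap k₀ R₀ ζ)) := by
  have h1 := h.map (Ideal.Quotient.lift P ψ hψ)
  rw [EDatum.map_map] at h1
  have h2 : (Ideal.Quotient.lift P ψ hψ).comp (Ideal.Quotient.mk P) = ψ :=
    Ideal.Quotient.lift_comp_mk _ _ _
  rw [h2] at h1
  have h3 : Ideal.Quotient.lift P ψ hψ (algebraMap k₀ (R₀ ⧸ P) ζ) =
      ψ (algebraMap k₀ R₀ ζ) := by
    rw [← Ideal.Quotient.algebraMap_eq] at h2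
    rw [IsScalarTower.algebraMap_apply k₀ R₀ (R₀ ⧸ P)]
    exact RingHom.congr_fun h2 _
  rw [h3] at h1
  exact h1

lemma eq_of_mul_root {k : Type*} [Field k] [CharZero k] {a b M M' : ℕ} {u v : k}
    (hM : M ≠ 0) (hM' : M' ≠ 0) (hu : u ^ M = 1) (hv : v ^ M' = 1)
    (h : (a : k) * u = (b : k) * v) : a = b := by
  have h1 := congrArg (fun x => x ^ (M * M')) h
  beta_reduce at h1
  rw [mul_pow, mul_pow, pow_mul u, hu, one_pow, mul_comm M M', pow_mul v, hv, one_pow, mul_one,
    mul_one] at h1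
  have h2 : a ^ (M' * M) = b ^ (M' * M) := by exact_mod_cast h1
  exact Nat.pow_left_injective (Nat.mul_ne_zero hM' hM) h2

lemma not_pow' {k : Type} [Field k] [IsAlgClosed k] [CharZero k] (O : ValuationSubring k)
    [CharZero (ResidueField O)] {p a n N : ℕ} (hN : N = p ^ a) (hp : p.Prime) (hp2 : p ≠ 2)
    (ha : 0 < a) (D : EDatum N n O) (ζ : ResidueField O) (hζ : IsPrimitiveRoot ζ N)
    (hD : IsSpecial (D.map (residue O)) ζ) (ht : D.t ≠ 0) (lam : k) (hlam : lam ≠ 0)
    (L : Type) [Field L] [Algebra k L] (z Y g : L) (hz : Transcendental k z)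
    (hY : Y ^ 2 = Polynomial.aeval z (dehom lam (D.map (algebraMap O k)).F))
    (hg : g ∈ IntermediateField.adjoin k {z, Y}) :
    2 * g ^ p ≠ Polynomial.aeval z (dehom lam (D.map (algebraMap O k)).A) +
      Polynomial.aeval z (dehom lam (D.map (algebraMap O k)).B) * Y := by
  subst hN
  exact not_pow O hp hp2 ha D ζ hζ hD ht lam hlam L z Y g hz hY hg

/-- **Divisibility over a nonconstant root.** -/
theorem dvd_root {k₀ R₀ κ E Ω : Type} [Field k₀] [CommRing R₀] [Algebra k₀ R₀]
    [CharZero k₀] [Field κ] [IsAlgClosed κ] [CharZero κ] [Field E] [Field Ω] [CharZero Ω]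
    [Algebra κ E] [Algebra E Ω] [IsGalois E Ω] (φ : R₀ →+* κ) (hφ : Function.Injective φ)
    {p n r : ℕ} (hp : p.Prime) (hp2 : p ≠ 2) (hnp : n < p) (a : Fin r → ℕ) (ty : Fin r → Bool)
    (N : Fin r → ℕ) (hN : ∀ i, ty i = true → N i = p ^ a i ∧ a i ≠ 0)
    (D : ∀ i : Fin r, Fin n → EDatum (N i) n R₀) (ζ : Fin r → k₀)
    (hζ : ∀ i, ty i = true → IsPrimitiveRoot (ζ i) (N i))
    (m P : Ideal R₀) [m.IsPrime] [P.IsPrime] (hPm : P ≤ m)
    (hm : ∀ i j, IsSpecial ((D i j).map (Ideal.Quotient.mk m)) (algebraMap k₀ (R₀ ⧸ m) (ζ i)))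
    (slot : Fin r → Fin n)
    (hP : ∀ i j, j ≠ slot i →
      IsSpecial ((D i j).map (Ideal.Quotient.mk P)) (algebraMap k₀ (R₀ ⧸ P) (ζ i)))
    (hPt : ∀ i, (D i (slot i)).t ∉ P)
    (lam : Fin r → ℕ) (hlam0 : ∀ i, lam i ≠ 0) (hlam : Function.Injective lam) (ξ : E)
    (hξ : Transcendental κ ξ) (hfin : FiniteDimensional (IntermediateField.adjoin κ {ξ}) E)
    (x z : Fin r → Fin n → E) (q : Fin r → Fin n → LiftPt n Ω)
    (hA : ∀ i, ty i = true → (∀ j, x i j ≠ 0 ∨ z i j ≠ 0) ∧
      (∀ j, IsLift ((D i j).map ((algebraMap E Ω).comp ((algebraMap κ E).comp φ)))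
        (algebraMap E Ω (x i j)) ((lam i : Ω) * algebraMap E Ω (z i j)) (q i j)) ∧
      (∀ j, (q i j).Y ∈ Set.range (algebraMap E Ω)) ∧
      z i (slot i) ≠ 0 ∧ x i (slot i) = ξ * z i (slot i) ∧
      (∀ (σ : Ω ≃ₐ[E] Ω) (ω : Fin n → Ω), (∀ j, ω j ^ N i = 1) →
        (∀ j, σ (q i j).α = ω j * (q i j).α) → (∀ j, σ (q i j).β * ω j = (q i j).β) →
        (∀ j l j', σ ((q i j).s l j') = ω j ^ (l.val + 1) * (q i j).s l j') → ∏ j, ω j = 1))
    (s : Fin r → E) (hK : ∀ i, ty i = false → s i ^ (p ^ a i) = ξ - (lam i : E)) :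
    p ^ (∑ i, a i) ∣ Module.finrank (IntermediateField.adjoin κ {ξ}) E := by
  classical
  -- the first valuation
  obtain ⟨O, χ, hχ, hχP⟩ := exists_resid φ P (fun a ha => by
    have : a = 0 := hφ (ha.trans (map_zero _).symm)
    rw [this]; exact P.zero_mem)
  set k := ResidueField O with hk
  let ψ : R₀ →+* k := (residue O).comp χ
  have hψP : ∀ a, a ∈ P ↔ ψ a = 0 := hχP
  have hkac : IsAlgClosed k := isAlgClosed_resid O
  have hkcz : CharZero k := charZero_of_injective_ringHom (ψ.comp (algebraMap k₀ R₀)).injective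
  -- the second valuation
  obtain ⟨O', χ', hχ', hχm⟩ := exists_resid ψ m (fun a ha => hPm ((hψP a).2 ha))
  have hk'cz : CharZero (ResidueField O') :=
    charZero_of_injective_ringHom (((residue O').comp χ').comp (algebraMap k₀ R₀)).injective
  have hχ'0 : ∀ a, χ' a = 0 → a ∈ P := by
    intro a ha
    rw [hψP, ← hχ', ha]; rfl
  have hspP : ∀ i j, j ≠ slot i → IsSpecial ((D i j).map ψ) (ψ (algebraMap k₀ R₀ (ζ i))) :=
    fun i j hj => special_of_quotient (hP i j hj) ψ fun a ha => (hψP a).1 ha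
  have hspm : ∀ i j, IsSpecial (((D i j).map χ').map (residue O'))
      (residue O' (χ' (algebraMap k₀ R₀ (ζ i)))) := by
    intro i j
    rw [EDatum.map_map]
    exact special_of_quotient (hm i j) ((residue O').comp χ') fun a ha => (hχm a).1 ha
  have hmapO' : ∀ i j, ((D i j).map χ').map (algebraMap O' k) = (D i j).map ψ := by
    intro i j
    rw [EDatum.map_map]
    congr 1
    ext a
    exact hχ' a
  have hN3 : ∀ i, ty i = true → 3 ≤ N i ∧ n < N i := by
    intro i hi
    obtain ⟨h1, h2⟩ := hN i hi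
    have h3 : p ≤ p ^ a i := Nat.le_self_pow h2 p
    have h4 : 3 ≤ p := by
      have := hp.two_le
      omega
    rw [h1]
    omega
  have hζr : ∀ i, ty i = true →
      IsPrimitiveRoot (residue O' (χ' (algebraMap k₀ R₀ (ζ i)))) (N i) := by
    intro i hi
    exact (hζ i hi).map_of_injective (((residue O').comp χ').comp (algebraMap k₀ R₀)).injective
  refine dvd_finrank_of_residue O ξ hξ hfin _ ?_
  intro V hV alg hcompat hxV htr
  obtain ⟨W, hVW⟩ := exists_extension (F := E) (E := Ω) V
  have hVcz : CharZero (ResidueField V) :=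
    charZero_of_injective_ringHom (algebraMap k (ResidueField V)).injective
  set res := resMap (algebraMap E Ω) V W hVW with hres
  have hWcz : CharZero (ResidueField W) := charZero_of_injective_ringHom res.injective
  let φV : R₀ →+* V := ((algebraMap κ E).comp φ).codRestrict V.toSubring fun a => by
    change algebraMap κ E (φ a) ∈ V
    rw [hV, ← hχ]
    exact (χ a).2
  have hφV : (residue V).comp φV = (algebraMap k (ResidueField V)).comp ψ := by
    ext a
    have h1 := hcompat (χ a)
    change residue V (φV a) = algebraMap k (ResidueField V) (residue O (χ a))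
    rw [h1]
    congr 1
    apply Subtype.ext
    change algebraMap κ E (φ a) = algebraMap κ E (χ a)
    rw [hχ]
  have hsub : (algebraMap E Ω).comp (V.subtype.comp φV) =
      (algebraMap E Ω).comp ((algebraMap κ E).comp φ) := by
    ext a; rfl
  -- the residues of the lifts
  have hres1 : ∀ i, ty i = true → ∃ y α : ResidueField V,
      y ^ 2 = ev (residue V ⟨ξ, hxV⟩) (lam i)
        ((D i (slot i)).map ((residue V).comp φV)).F ∧
      2 * α ^ (N i) = ev (residue V ⟨ξ, hxV⟩) (lam i)
          ((D i (slot i)).map ((residue V).comp φV)).A +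
        ev (residue V ⟨ξ, hxV⟩) (lam i) ((D i (slot i)).map ((residue V).comp φV)).B * y := by
    intro i hi
    obtain ⟨h1, h2, h3, h4, h5, h6⟩ := hA i hi
    obtain ⟨hN3i, hnN⟩ := hN3 i hi
    refine typeA_residue V W hVW φV (by omega) hnN (D i) (hlam0 i) ?_ (slot i)
      (algebraMap k (ResidueField V) (ψ (algebraMap k₀ R₀ (ζ i)))) ?_ ?_ (x i) (z i) h1
      ⟨ξ, hxV⟩ ?_ h4 h5 (q i) ?_ h3 h6
    · intro ω hω
      let _ : Algebra k (ResidueField W) := (res.comp (algebraMap k (ResidueField V))).toAlgebra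
      have h7 : IsAlgebraic k ω := by
        refine IsAlgebraic.of_pow (n := N i) (by omega) ?_
        rw [hω]; exact isAlgebraic_one
      obtain ⟨b, hb⟩ := CurveDeg.mem_range_of_isAlgebraic h7
      exact ⟨algebraMap k (ResidueField V) b, hb⟩
    · rw [← map_pow, ← map_pow, ← map_pow, (hζ i hi).pow_eq_one, map_one, map_one, map_one]
    · intro j hj
      rw [hφV, ← EDatum.map_map]
      exact (hspP i j hj).map _
    · intro h7
      rw [h7] at htr
      exact htr isAlgebraic_zero
    · intro j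
      rw [hsub]
      exact h2 j
  have hres2 : ∀ i, ∃ y α : ResidueField V, ty i = true →
      y ^ 2 = Polynomial.aeval (residue V ⟨ξ, hxV⟩)
        (dehom (lam i : k) ((D i (slot i)).map ψ).F) ∧
      2 * α ^ (p ^ a i) = Polynomial.aeval (residue V ⟨ξ, hxV⟩)
          (dehom (lam i : k) ((D i (slot i)).map ψ).A) +
        Polynomial.aeval (residue V ⟨ξ, hxV⟩)
          (dehom (lam i : k) ((D i (slot i)).map ψ).B) * y := by
    intro i
    by_cases hi : ty i = true
    · obtain ⟨y, α, h1, h2⟩ := hres1 i hi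
      refine ⟨y, α, fun _ => ?_⟩
      rw [aeval_dehom, aeval_dehom, aeval_dehom, map_natCast]
      rw [hφV, ← EDatum.map_map] at h1 h2
      rw [EDatum.map_F] at h1
      rw [← (hN i hi).1]
      exact ⟨h1, h2⟩
    · exact ⟨0, 0, fun h => absurd h hi⟩
  choose y α hyα using hres2
  have hsV : ∀ i, ty i = false → s i ∈ V := by
    intro i hi
    have h1 : IsIntegral V (s i ^ (p ^ a i)) := by
      rw [hK i hi]
      have : (ξ - (lam i : E)) = algebraMap V E (⟨ξ, hxV⟩ - (lam i : V)) := by
        rw [map_sub, map_natCast]; rfl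
      rw [this]
      exact isIntegral_algebraMap
    obtain ⟨b, hb⟩ := IsIntegrallyClosed.isIntegral_iff.1 (h1.of_pow (pow_pos hp.pos _))
    rw [← hb]; exact b.2
  have hs2 : ∀ i, ∃ s' : ResidueField V, ty i = false →
      s' ^ (p ^ a i) = residue V ⟨ξ, hxV⟩ - algebraMap k (ResidueField V) (lam i : k) := by
    intro i
    by_cases hi : ty i = false
    · refine ⟨residue V ⟨s i, hsV i hi⟩, fun _ => ?_⟩
      rw [← map_pow, map_natCast, ← map_natCast (residue V), ← map_sub]
      congr 1
      apply Subtype.ext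
      change s i ^ (p ^ a i) = ξ - ((lam i : V) : E)
      rw [hK i hi]
      rfl
    · exact ⟨0, fun h => absurd h hi⟩
  choose s' hs' using hs2
  have hlamk : ∀ i, (lam i : k) ≠ 0 := fun i => by exact_mod_cast hlam0 i
  -- the quartics
  have hquar : ∀ i, ((D i (slot i)).map ψ).F =
      quar ((χ' (D i (slot i)).t : O') : k) ((χ' (D i (slot i)).c₀ : O') : k)
        ((χ' (D i (slot i)).c₁ : O') : k) := by
    intro i
    rw [hχ', hχ', hχ']
    rfl
  have hlamO' : ∀ i, ((lam i : O') : k) = (lam i : k) := fun i => by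
    change algebraMap O' k (lam i : O') = _
    rw [map_natCast]
  have hc₀r : ∀ i, residue O' (χ' (D i (slot i)).c₀) =
      residue O' (χ' (algebraMap k₀ R₀ (ζ i))) := fun i => (hspm i (slot i)).hc₀
  have hc₁r : ∀ i, residue O' (χ' (D i (slot i)).c₁) = 1 := fun i => (hspm i (slot i)).hc₁
  have htr' : ∀ i, residue O' (χ' (D i (slot i)).t) = 0 := fun i => (hspm i (slot i)).ht
  have hsqf : ∀ i, ty i = true →
      Squarefree (dehom (lam i : k) ((D i (slot i)).map ψ).F) ∧
      (dehom (lam i : k) ((D i (slot i)).map ψ).F).natDegree = 4 := by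
    intro i hi
    rw [hquar, ← hlamO']
    refine squarefree_quar O' _ _ _ _ ?_ (htr' i) ?_ ?_
    · intro h0
      exact hPt i (hχ'0 _ h0)
    · rw [hc₀r, hc₁r]
      exact (hζr i hi).ne_one (by have := (hN3 i hi).1; omega)
    · rw [map_natCast]; exact_mod_cast hlam0 i
  refine dvd_finrank_kummer (residue V ⟨ξ, hxV⟩) htr hp hp2 a ty
    (fun i => dehom (lam i : k) ((D i (slot i)).map ψ).A)
    (fun i => dehom (lam i : k) ((D i (slot i)).map ψ).B)
    (fun i => dehom (lam i : k) ((D i (slot i)).map ψ).F)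
    (fun i => 4 * (lam i : k) ^ (N i)) ?_ ?_ (fun i hi => (hsqf i hi).1) ?_ ?_ ?_ y α
    (fun i hi => (hyα i hi).1) (fun i hi => (hyα i hi).2) (fun i => (lam i : k))
    (fun i _ => hlamk i) ?_ s' hs'
  · intro i
    exact mul_ne_zero (by norm_num) (pow_ne_zero _ (hlamk i))
  · intro i hi
    have h1 := congrArg (dehom (lam i : k)) ((D i (slot i)).map ψ).pell
    rw [map_pow, map_add, map_mul, map_mul, map_pow, map_mul, map_pow, map_ofNat] at h1
    have e0 : dehom (lam i : k) (MvPolynomial.X 0) = Polynomial.X := by simp [dehom]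
    have e1 : dehom (lam i : k) (MvPolynomial.X 1) = Polynomial.C (lam i : k) := by
      simp [dehom]
    rw [e0, e1] at h1
    beta_reduce
    rw [h1]
    change 4 * (Polynomial.X * Polynomial.C (lam i : k)) ^ N i +
      dehom (lam i : k) ((D i (slot i)).map ψ).F * _ - _ = _
    rw [← (hN i hi).1, mul_pow, Polynomial.C_mul, Polynomial.C_pow]
    have e2 : (Polynomial.C (4 : k)) = 4 := map_ofNat (Polynomial.C : k →+* Polynomial k) 4
    rw [e2]
    ring
  · intro i hi
    beta_reduce
    rw [(hsqf i hi).2]; norm_num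
  · intro i j hij hi hj
    beta_reduce
    rw [hquar i, hquar j, ← hlamO' i, ← hlamO' j]
    have hNi := (hN3 i hi).1
    have hNj := (hN3 j hj).1
    have hne : ∀ (u v : ResidueField O'), u ^ N i = 1 → v ^ N j = 1 →
        (lam i : ResidueField O') * u ≠ (lam j : ResidueField O') * v := by
      intro u v hu hv h
      exact hij (hlam (eq_of_mul_root (by omega) (by omega) hu hv h))
    refine isCoprime_quar O' _ _ _ _ _ _ _ _ (htr' i) (htr' j) ?_ ?_ ?_ ?_
    · rw [map_mul, map_mul, map_natCast, map_natCast, hc₀r, hc₀r]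
      exact hne _ _ (hζr i hi).pow_eq_one (hζr j hj).pow_eq_one
    · rw [map_mul, map_mul, map_natCast, map_natCast, hc₀r, hc₁r]
      exact hne _ _ (hζr i hi).pow_eq_one (one_pow _)
    · rw [map_mul, map_mul, map_natCast, map_natCast, hc₁r, hc₀r]
      exact hne _ _ (one_pow _) (hζr j hj).pow_eq_one
    · rw [map_mul, map_mul, map_natCast, map_natCast, hc₁r, hc₁r]
      exact hne _ _ (one_pow _) (one_pow _)
  · intro i hi ha L _ _ w Y g hw hY hg
    beta_reduce at hY ⊢
    rw [← hmapO' i (slot i)] at hY ⊢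
    refine not_pow' O' (hN i hi).1 hp hp2 (Nat.pos_of_ne_zero ha) ((D i (slot i)).map χ') _
      (hζr i hi) (hspm i (slot i)) ?_ _ (hlamk i) L w Y g hw hY hg
    intro h0
    exact hPt i (hχ'0 _ h0)
  · intro i j hij _ _ h
    have : lam i = lam j := by exact_mod_cast h
    exact hij (hlam this)

end Pool.Agent.MultiSpec
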