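import Mathlib

/-!
Factorisations of binary forms (given as functions) into linear factors.
-/

set_option autoImplicit false

namespace Pool.Agent.MultiSpec

open MvPolynomial

variable {Ω : Type*} [Field Ω]

/-- The linear form with zero `(x : z)`. -/
noncomputable def lf (x z : Ω) : MvPolynomial (Fin 2) Ω := C z * X 0 - C x * X 1

lemma eval_lf (x z T S : Ω) : eval ![T, S] (lf x z) = z * T - x * S := by
  simp [lf]

lemma lf_ne_zero {x z : Ω} (h : x ≠ 0 ∨ z ≠ 0) : lf x z ≠ 0 := by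
  intro h0
  have h1 := eval_lf x z 1 0
  have h2 := eval_lf x z 0 1
  rw [h0, map_zero] at h1 h2
  rcases h with h | h
  · apply h
    simpa using h2.symm
  · apply h
    simpa using h1.symm

lemma prop_of_det {x z x' z' : Ω} (h : x ≠ 0 ∨ z ≠ 0) (h' : x' ≠ 0 ∨ z' ≠ 0)
    (hd : z' * x - x' * z = 0) : ∃ μ : Ω, μ ≠ 0 ∧ x = μ * x' ∧ z = μ * z' := by
  have hd' : z' * x = x' * z := sub_eq_zero.1 hd
  by_cases hz' : z' = 0
  · have hx' : x' ≠ 0 := h'.resolve_right (fun h => h hz')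
    have hz : z = 0 := by
      rw [hz', zero_mul] at hd'
      exact (mul_eq_zero.1 hd'.symm).resolve_left hx'
    have hx : x ≠ 0 := h.resolve_right (fun h => h hz)
    exact ⟨x / x', div_ne_zero hx hx', by field_simp, by rw [hz, hz', mul_zero]⟩
  · have hz : z ≠ 0 := by
      rintro rfl
      rw [mul_zero] at hd'
      have hx : x = 0 := (mul_eq_zero.1 hd').resolve_left hz'
      rcases h with h | h
      · exact h hx
      · exact h rfl
    refine ⟨z / z', div_ne_zero hz hz', ?_, by field_simp⟩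
    field_simp
    linear_combination hd'

lemma factor_unique_poly : ∀ (n : ℕ) (x z x' z' : Fin n → Ω) (Λ Λ' : Ω), Λ ≠ 0 → Λ' ≠ 0 →
    (∀ i, x i ≠ 0 ∨ z i ≠ 0) → (∀ i, x' i ≠ 0 ∨ z' i ≠ 0) →
    C Λ * ∏ i, lf (x i) (z i) = C Λ' * ∏ i, lf (x' i) (z' i) →
    ∃ (π : Equiv.Perm (Fin n)) (μ : Fin n → Ω), (∀ i, μ i ≠ 0) ∧
      ∀ i, x i = μ i * x' (π i) ∧ z i = μ i * z' (π i)
  | 0, _, _, _, _, _, _, _, _, _, _, _ => ⟨1, fun _ => 1, fun _ => one_ne_zero, fun i => i.elim0⟩
  | n + 1, x, z, x', z', Λ, Λ', hΛ, hΛ', h, h', heq => by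
    have h0 : eval ![x 0, z 0] (C Λ' * ∏ i, lf (x' i) (z' i)) = 0 := by
      rw [← heq, map_mul, map_prod, Fin.prod_univ_succ, eval_lf]
      ring
    rw [map_mul, eval_C, map_prod] at h0
    obtain ⟨i', -, hi'⟩ := Finset.prod_eq_zero_iff.1 ((mul_eq_zero.1 h0).resolve_left hΛ')
    rw [eval_lf] at hi'
    obtain ⟨μ₀, hμ₀, hx₀, hz₀⟩ := prop_of_det (h 0) (h' i') hi'
    have hlf : lf (x 0) (z 0) = C μ₀ * lf (x' i') (z' i') := by
      rw [lf, lf, hx₀, hz₀, C_mul, C_mul]; ring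
    have heq' : C (Λ * μ₀) * ∏ i : Fin n, lf (x i.succ) (z i.succ) =
        C Λ' * ∏ i : Fin n, lf (x' (i'.succAbove i)) (z' (i'.succAbove i)) := by
      rw [Fin.prod_univ_succ, Fin.prod_univ_succAbove _ i', hlf] at heq
      refine mul_left_cancel₀ (lf_ne_zero (h' i')) ?_
      rw [C_mul]
      linear_combination heq
    obtain ⟨π, μ, hμ, hπ⟩ := factor_unique_poly n (fun i => x i.succ) (fun i => z i.succ)
      (fun i => x' (i'.succAbove i)) (fun i => z' (i'.succAbove i)) (Λ * μ₀) Λ'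
      (mul_ne_zero hΛ hμ₀) hΛ' (fun i => h _) (fun i => h' _) heq'
    refine ⟨(finSuccEquiv' 0).trans ((Equiv.optionCongr π).trans (finSuccEquiv' i').symm),
      Fin.cons μ₀ μ, ?_, ?_⟩
    · refine Fin.cases ?_ fun i => ?_
      · simpa using hμ₀
      · simpa using hμ i
    · refine Fin.cases ?_ fun i => ?_
      · simpa using ⟨hx₀, hz₀⟩
      · have := hπ i
        simpa [finSuccEquiv'_zero] using this

/-- The factorisation of a binary form is unique. -/
theorem factor_unique [Infinite Ω] {n : ℕ} (x z x' z' : Fin n → Ω) (Λ Λ' : Ω) (hΛ : Λ ≠ 0)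
    (hΛ' : Λ' ≠ 0) (h : ∀ i, x i ≠ 0 ∨ z i ≠ 0) (h' : ∀ i, x' i ≠ 0 ∨ z' i ≠ 0)
    (heq : ∀ T S : Ω, Λ * ∏ i, (z i * T - x i * S) = Λ' * ∏ i, (z' i * T - x' i * S)) :
    ∃ (π : Equiv.Perm (Fin n)) (μ : Fin n → Ω), (∀ i, μ i ≠ 0) ∧
      (∀ i, x i = μ i * x' (π i) ∧ z i = μ i * z' (π i)) ∧ Λ' = Λ * ∏ i, μ i := by
  have hpoly : C Λ * ∏ i, lf (x i) (z i) = C Λ' * ∏ i, lf (x' i) (z' i) := by
    refine MvPolynomial.funext fun v => ?_
    have hv : v = ![v 0, v 1] := by
      funext i; fin_cases i <;> rfl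
    rw [hv, map_mul, map_mul, map_prod, map_prod]
    simp only [eval_lf, eval_C]
    exact heq _ _
  obtain ⟨π, μ, hμ, hπ⟩ := factor_unique_poly n x z x' z' Λ Λ' hΛ hΛ' h h' hpoly
  refine ⟨π, μ, hμ, hπ, ?_⟩
  have h1 : ∏ i, lf (x i) (z i) = C (∏ i, μ i) * ∏ i, lf (x' i) (z' i) := by
    rw [← Equiv.prod_comp π fun i => lf (x' i) (z' i), map_prod, ← Finset.prod_mul_distrib]
    refine Finset.prod_congr rfl fun i _ => ?_
    rw [lf, lf, (hπ i).1, (hπ i).2, C_mul, C_mul]; ring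
  rw [h1, ← mul_assoc, ← C_mul] at hpoly
  have h2 : ∏ i, lf (x' i) (z' i) ≠ 0 := Finset.prod_ne_zero_iff.2 fun i _ => lf_ne_zero (h' i)
  exact (C_injective _ _ (mul_right_cancel₀ h2 hpoly)).symm

/-- There is a point with first coordinate in an infinite subfield, at which a given product of
linear forms does not vanish. -/
lemma exists_ne_zero_of_infinite {κ : Type*} [Field κ] [Infinite κ] [Algebra κ Ω] {n : ℕ}
    (x z : Fin n → Ω) (h : ∀ i, x i ≠ 0 ∨ z i ≠ 0) :
    ∃ c : κ, ∏ i, (z i * algebraMap κ Ω c - x i) ≠ 0 := by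
  have hfin : {c : κ | ∃ i, z i * algebraMap κ Ω c - x i = 0}.Finite := by
    have h1 : {c : κ | ∃ i, z i * algebraMap κ Ω c - x i = 0} ⊆
        ⋃ i, {c : κ | z i * algebraMap κ Ω c - x i = 0} := by
      rintro c ⟨i, hi⟩
      exact Set.mem_iUnion.2 ⟨i, hi⟩
    refine Set.Finite.subset (Set.finite_iUnion fun i => ?_) h1
    refine Set.Subsingleton.finite ?_
    intro c hc d hd
    have hc' : z i * algebraMap κ Ω c - x i = 0 := hc
    have hd' : z i * algebraMap κ Ω d - x i = 0 := hd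
    have hz : z i ≠ 0 := by
      intro hz
      rw [hz, zero_mul, zero_sub, neg_eq_zero] at hc'
      rcases h i with h | h
      · exact h hc'
      · exact h hz
    apply (algebraMap κ Ω).injective
    apply mul_left_cancel₀ hz
    rw [sub_eq_zero] at hc' hd'
    rw [hc', hd']
  obtain ⟨c, hc⟩ := hfin.exists_notMem
  exact ⟨c, Finset.prod_ne_zero_iff.2 fun i _ hi => hc ⟨i, hi⟩⟩

/-- The binary form of degree `n` with the coefficients of `g`. -/
def bf (n : ℕ) (g : Polynomial Ω) (T S : Ω) : Ω :=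
  ∑ j ∈ Finset.range (n + 1), g.coeff j * T ^ j * S ^ (n - j)

lemma bf_eq_eval {n : ℕ} {g : Polynomial Ω} (hg : g.natDegree ≤ n) (T : Ω) {S : Ω} (hS : S ≠ 0) :
    bf n g T S = S ^ n * g.eval (T / S) := by
  rw [bf, Polynomial.eval_eq_sum_range' (Nat.lt_succ_of_le hg), Finset.mul_sum]
  refine Finset.sum_congr rfl fun j hj => ?_
  have hj' : j ≤ n := Nat.lt_succ_iff.1 (Finset.mem_range.1 hj)
  rw [div_pow]
  obtain ⟨k, rfl⟩ := Nat.exists_eq_add_of_le hj'
  rw [Nat.add_sub_cancel_left, pow_add]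
  field_simp

lemma bf_zero (n : ℕ) (g : Polynomial Ω) (T : Ω) : bf n g T 0 = g.coeff n * T ^ n := by
  rw [bf, Finset.sum_range_succ, Finset.sum_eq_zero, zero_add, Nat.sub_self, pow_zero, mul_one]
  intro j hj
  have : n - j ≠ 0 := by
    have := Finset.mem_range.1 hj
    omega
  rw [zero_pow this, mul_zero]

lemma bf_succ_of_le {n : ℕ} {g : Polynomial Ω} (hg : g.natDegree ≤ n) (T S : Ω) :
    bf (n + 1) g T S = S * bf n g T S := by
  by_cases hS : S = 0
  · subst hS
    rw [bf_zero, zero_mul, Polynomial.coeff_eq_zero_of_natDegree_lt (by omega), zero_mul]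
  · rw [bf_eq_eval (hg.trans (Nat.le_succ n)) T hS, bf_eq_eval hg T hS, pow_succ]
    ring

lemma bf_mul {n : ℕ} {g : Polynomial Ω} (hg : g.natDegree ≤ n) (r T S : Ω) :
    bf (n + 1) ((Polynomial.X - Polynomial.C r) * g) T S = (T - r * S) * bf n g T S := by
  have hd : ((Polynomial.X - Polynomial.C r) * g).natDegree ≤ n + 1 := by
    refine (Polynomial.natDegree_mul_le).trans ?_
    rw [Polynomial.natDegree_X_sub_C]
    omega
  by_cases hS : S = 0
  · subst hS
    rw [bf_zero, bf_zero, mul_zero, sub_zero, sub_mul, Polynomial.coeff_sub,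
      Polynomial.coeff_X_mul, Polynomial.coeff_C_mul,
      Polynomial.coeff_eq_zero_of_natDegree_lt (show g.natDegree < n + 1 by omega), pow_succ]
    ring
  · rw [bf_eq_eval hd T hS, bf_eq_eval hg T hS, pow_succ, Polynomial.eval_mul,
      Polynomial.eval_sub, Polynomial.eval_X, Polynomial.eval_C]
    field_simp

lemma exists_factor_poly [IsAlgClosed Ω] : ∀ (n : ℕ) (g : Polynomial Ω), g ≠ 0 →
    g.natDegree ≤ n → ∃ (Λ : Ω) (x z : Fin n → Ω), Λ ≠ 0 ∧
      (∀ i, z i = 1 ∨ (x i = 1 ∧ z i = 0)) ∧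
      ∀ T S : Ω, bf n g T S = Λ * ∏ i, (z i * T - x i * S)
  | 0, g, hg, hd => by
    refine ⟨g.coeff 0, Fin.elim0, Fin.elim0, ?_, fun i => i.elim0, fun T S => ?_⟩
    · intro h
      apply hg
      rw [Polynomial.eq_C_of_natDegree_le_zero hd, h, Polynomial.C_0]
    · simp [bf]
  | n + 1, g, hg, hd => by
    by_cases hd' : g.natDegree ≤ n
    · obtain ⟨Λ, x, z, hΛ, hn, h⟩ := exists_factor_poly n g hg hd'
      refine ⟨-Λ, Fin.cons 1 x, Fin.cons 0 z, neg_ne_zero.2 hΛ, ?_, fun T S => ?_⟩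
      · refine Fin.cases ?_ fun i => ?_
        · right; simp
        · simpa using hn i
      · rw [bf_succ_of_le hd', h, Fin.prod_univ_succ]
        simp only [Fin.cons_zero, Fin.cons_succ]
        ring
    · have hdeg : g.degree ≠ 0 := by
        intro h0
        apply hd'
        rw [Polynomial.natDegree_eq_of_degree_eq_some h0]
        exact Nat.zero_le _
      obtain ⟨r, hr⟩ := IsAlgClosed.exists_root g hdeg
      obtain ⟨g', hg'⟩ := Polynomial.dvd_iff_isRoot.2 hr
      have hg'0 : g' ≠ 0 := by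
        rintro rfl
        exact hg (by rw [hg', mul_zero])
      have hd'' : g'.natDegree ≤ n := by
        rw [hg', Polynomial.natDegree_mul (Polynomial.X_sub_C_ne_zero r) hg'0,
          Polynomial.natDegree_X_sub_C] at hd
        omega
      obtain ⟨Λ, x, z, hΛ, hn, h⟩ := exists_factor_poly n g' hg'0 hd''
      refine ⟨Λ, Fin.cons r x, Fin.cons 1 z, hΛ, ?_, fun T S => ?_⟩
      · refine Fin.cases ?_ fun i => ?_
        · left; simp
        · simpa using hn i
      · rw [hg', bf_mul hd'', h, Fin.prod_univ_succ]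
        simp only [Fin.cons_zero, Fin.cons_succ]
        ring

/-- Over an algebraically closed field a binary form splits. -/
theorem exists_factor [IsAlgClosed Ω] {n : ℕ} (u : Fin (n + 1) → Ω) (hu : u ≠ 0) :
    ∃ (Λ : Ω) (x z : Fin n → Ω), Λ ≠ 0 ∧ (∀ i, z i = 1 ∨ (x i = 1 ∧ z i = 0)) ∧
      ∀ T S : Ω, ∑ j : Fin (n + 1), u j * T ^ (j : ℕ) * S ^ (n - j) =
        Λ * ∏ i, (z i * T - x i * S) := by
  set g : Polynomial Ω := ∑ j : Fin (n + 1), Polynomial.C (u j) * Polynomial.X ^ (j : ℕ) with hg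
  have hc : ∀ j : Fin (n + 1), g.coeff j = u j := by
    intro j
    rw [hg, Polynomial.finsetSum_coeff, Finset.sum_eq_single j]
    · simp
    · intro i _ hij
      rw [Polynomial.coeff_C_mul_X_pow, if_neg]
      intro h2
      exact hij (Fin.ext h2).symm
    · simp
  have hg0 : g ≠ 0 := by
    intro h
    apply hu
    funext j
    rw [← hc j, h, Polynomial.coeff_zero]
    rfl
  have hd : g.natDegree ≤ n := by
    rw [hg]
    refine Polynomial.natDegree_sum_le_of_forall_le _ _ fun j _ => ?_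
    refine (Polynomial.natDegree_C_mul_X_pow_le _ _).trans ?_
    have := j.2
    omega
  obtain ⟨Λ, x, z, hΛ, hn, h⟩ := exists_factor_poly n g hg0 hd
  refine ⟨Λ, x, z, hΛ, hn, fun T S => ?_⟩
  rw [← h, bf, Finset.sum_range]
  refine Finset.sum_congr rfl fun j _ => ?_
  rw [hc]

end Pool.Agent.MultiSpec
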