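import Pool.Agent.MultiSpec.Lifts
import Pool.Agent.MultiSpec.AsForm

/-!
Normalisation of the data given by the blocks.
-/

set_option autoImplicit false

namespace Pool.Agent.MultiSpec

variable {Ω : Type*} [Field Ω]

lemma Wsum_scale {n : ℕ} (c : Fin n × (Fin n → Fin 2) → Ω) (μ : Fin n → Ω)
    (q : Fin n → LiftPt n Ω) : Wsum c (fun i => (q i).scale (μ i)) = (∏ i, μ i) * Wsum c q := by
  unfold Wsum
  rw [Finset.mul_sum]
  refine Finset.sum_congr rfl fun l _ => ?_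
  rw [Finset.mul_sum]
  refine Finset.sum_congr rfl fun j _ => ?_
  have h1 : ∀ i, ((q i).scale (μ i)).s l (j i) = μ i * (q i).s l (j i) := fun i => rfl
  rw [Finset.prod_congr rfl fun i _ => h1 i, Finset.prod_mul_distrib]
  ring

/-- Type A: the lifts over a given normalised factorisation. -/
theorem typeA_normalise [Infinite Ω] {N n : ℕ} (hN : 2 ≤ N) (hn : n < N)
    (D : Fin n → EDatum N n Ω) (lam : Ω) (c : Fin n × (Fin n → Fin 2) → Ω) {Λ w : Ω}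
    (hΛ : Λ ≠ 0) {x z : Fin n → Ω} (hxz : ∀ i, x i ≠ 0 ∨ z i ≠ 0) {q : Fin n → LiftPt n Ω}
    (hq : ∀ i, IsLift (D i) (x i) (lam * z i) (q i)) (hw : w = Λ * Wsum c q)
    {Λ₀ : Ω} {X Z : Fin n → Ω} (hΛ₀ : Λ₀ ≠ 0) (hXZ : ∀ i, X i ≠ 0 ∨ Z i ≠ 0)
    (heq : ∀ T S : Ω, Λ * ∏ i, (z i * T - x i * S) = Λ₀ * ∏ i, (Z i * T - X i * S)) :
    ∃ (π : Equiv.Perm (Fin n)) (q' : Fin n → LiftPt n Ω),
      (∀ i, IsLift (D i) (X (π i)) (lam * Z (π i)) (q' i)) ∧ w = Λ₀ * Wsum c q' := by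
  obtain ⟨π, μ, hμ, hπ, hΛμ⟩ := factor_unique x z X Z Λ Λ₀ hΛ hΛ₀ hxz hXZ heq
  refine ⟨π, fun i => (q i).scale (μ i)⁻¹, fun i => ?_, ?_⟩
  · have h := (hq i).scale hN hn (μ i)⁻¹
    rw [(hπ i).1, (hπ i).2] at h
    have e1 : (μ i)⁻¹ * (μ i * X (π i)) = X (π i) := inv_mul_cancel_left₀ (hμ i) _
    have e2 : (μ i)⁻¹ * (lam * (μ i * Z (π i))) = lam * Z (π i) := by
      have := hμ i
      field_simp
    rw [e1, e2] at h
    exact h
  · rw [Wsum_scale, hw, hΛμ]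
    have h1 : (∏ i, μ i) * ∏ i, (μ i)⁻¹ = 1 := by
      rw [← Finset.prod_mul_distrib]
      exact Finset.prod_eq_one fun i _ => mul_inv_cancel₀ (hμ i)
    calc Λ * Wsum c q = Λ * ((∏ i, μ i) * ∏ i, (μ i)⁻¹) * Wsum c q := by rw [h1, mul_one]
      _ = _ := by ring

/-- Type K: the roots over a given normalised factorisation. -/
theorem typeK_normalise [Infinite Ω] {N n : ℕ} (c₀ : Ω)
    (Wf : (Fin (n + 1) → Ω) → Ω) (hWf : ∀ (a : Ω) (v : Fin (n + 1) → Ω),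
      Wf (fun j => a * v j) = a ^ N * Wf v) {Λ w : Ω} (hΛ : Λ ≠ 0) {s t : Fin n → Ω}
    (hst : ∀ i, s i ≠ 0 ∨ t i ≠ 0) {v : Fin (n + 1) → Ω} (hN : 0 < N)
    (hv : ∀ T S : Ω, ∑ j : Fin (n + 1), v j * T ^ (j : ℕ) * S ^ (n - j) = ∏ i, (t i * T - s i * S))
    (hw : w = Λ * Wf v) {Λ₀ : Ω} {X Z : Fin n → Ω} (hΛ₀ : Λ₀ ≠ 0)
    (hXZ : ∀ i, Z i = 1 ∨ (X i = 1 ∧ Z i = 0))
    (heq : ∀ T S : Ω, Λ * ∏ i, (t i ^ N * T - (s i ^ N + c₀ * t i ^ N) * S) =
      Λ₀ * ∏ i, (Z i * T - X i * S)) :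
    ∃ (π : Equiv.Perm (Fin n)) (s' t' : Fin n → Ω) (v' : Fin (n + 1) → Ω),
      (∀ i, (t' i = 1 ∧ Z (π i) = 1 ∧ s' i ^ N = X (π i) - c₀) ∨
        (t' i = 0 ∧ s' i = 1 ∧ Z (π i) = 0)) ∧
      (∀ T S : Ω, ∑ j : Fin (n + 1), v' j * T ^ (j : ℕ) * S ^ (n - j) =
        ∏ i, (t' i * T - s' i * S)) ∧ w = Λ₀ * Wf v' := by
  classical
  have hxz : ∀ i, s i ^ N + c₀ * t i ^ N ≠ 0 ∨ t i ^ N ≠ 0 := by
    intro i
    by_cases ht : t i = 0
    · left
      rw [ht, zero_pow hN.ne', mul_zero, add_zero]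
      exact pow_ne_zero _ ((hst i).resolve_right fun h => h ht)
    · exact Or.inr (pow_ne_zero _ ht)
  have hXZ' : ∀ i, X i ≠ 0 ∨ Z i ≠ 0 := by
    intro i
    rcases hXZ i with h | ⟨h, _⟩
    · right; rw [h]; exact one_ne_zero
    · left; rw [h]; exact one_ne_zero
  obtain ⟨π, μ, hμ, hπ, hΛμ⟩ := factor_unique (fun i => s i ^ N + c₀ * t i ^ N)
    (fun i => t i ^ N) X Z Λ Λ₀ hΛ hΛ₀ hxz hXZ' heq
  set ρ : Fin n → Ω := fun i => if t i = 0 then s i else t i with hρ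
  have hρ0 : ∀ i, ρ i ≠ 0 := by
    intro i
    simp only [hρ]
    split_ifs with ht
    · exact (hst i).resolve_right fun h => h ht
    · exact ht
  have hkey : ∀ i, μ i = ρ i ^ N ∧ ((t i / ρ i = 1 ∧ Z (π i) = 1 ∧
      (s i / ρ i) ^ N = X (π i) - c₀) ∨ (t i / ρ i = 0 ∧ s i / ρ i = 1 ∧ Z (π i) = 0)) := by
    intro i
    obtain ⟨h1, h2⟩ := hπ i
    by_cases ht : t i = 0
    · have hρi : ρ i = s i := by simp only [hρ]; rw [if_pos ht]
      have hs : s i ≠ 0 := (hst i).resolve_right fun h => h ht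
      rw [ht, zero_pow hN.ne'] at h2
      have hZ : Z (π i) = 0 := (mul_eq_zero.1 h2.symm).resolve_left (hμ i)
      have hX : X (π i) = 1 := by
        rcases hXZ (π i) with h | ⟨h, _⟩
        · rw [hZ] at h; exact absurd h zero_ne_one
        · exact h
      rw [ht, zero_pow hN.ne', mul_zero, add_zero, hX, mul_one] at h1
      refine ⟨by rw [hρi]; exact h1.symm, Or.inr ⟨?_, ?_, hZ⟩⟩
      · rw [ht, zero_div]
      · rw [hρi, div_self hs]
    · have hρi : ρ i = t i := by simp only [hρ]; rw [if_neg ht]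
      have hZ : Z (π i) = 1 := by
        rcases hXZ (π i) with h | ⟨_, h⟩
        · exact h
        · rw [h, mul_zero] at h2
          exact absurd h2 (pow_ne_zero _ ht)
      rw [hZ, mul_one] at h2
      refine ⟨by rw [hρi]; exact h2.symm, Or.inl ⟨?_, hZ, ?_⟩⟩
      · rw [hρi, div_self ht]
      · rw [hρi, div_pow, div_eq_iff (pow_ne_zero _ ht)]
        have h1' : s i ^ N + c₀ * t i ^ N = μ i * X (π i) := h1
        rw [← h2] at h1'
        linear_combination h1'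
  refine ⟨π, fun i => s i / ρ i, fun i => t i / ρ i, fun j => (∏ i, ρ i)⁻¹ * v j,
    fun i => (hkey i).2, fun T S => ?_, ?_⟩
  · have h1 : ∏ i, (t i / ρ i * T - s i / ρ i * S) = (∏ i, ρ i)⁻¹ * ∏ i, (t i * T - s i * S) := by
      rw [← Finset.prod_inv_distrib, ← Finset.prod_mul_distrib]
      refine Finset.prod_congr rfl fun i _ => ?_
      have := hρ0 i
      field_simp
    rw [h1, ← hv, Finset.mul_sum]
    refine Finset.sum_congr rfl fun j _ => ?_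
    ring
  · rw [hWf, hw, hΛμ]
    have h1 : ∏ i, μ i = (∏ i, ρ i) ^ N := by
      rw [← Finset.prod_pow]
      exact Finset.prod_congr rfl fun i _ => (hkey i).1
    have h2 : (∏ i, ρ i) ^ N * ((∏ i, ρ i)⁻¹) ^ N = 1 := by
      rw [← mul_pow, mul_inv_cancel₀ (Finset.prod_ne_zero_iff.2 fun i _ => hρ0 i), one_pow]
    rw [h1]
    linear_combination (- Λ * Wf v) * h2

end Pool.Agent.MultiSpec
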