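import Mathlib

/-!
Elliptic data: a solution of a Pell equation `A ^ 2 - 4 (XZ) ^ N = F B ^ 2` for a binary quartic
`F`, together with sections of weight one of the characters `1, ..., n`.
-/

set_option autoImplicit false

namespace Pool.Agent.MultiSpec

open MvPolynomial

/-- Evaluation of binary forms. -/
noncomputable abbrev ev {R : Type*} [CommRing R] (x z : R) : MvPolynomial (Fin 2) R →+* R :=
  eval ![x, z]

/-- The quartic. -/
noncomputable def quar {R : Type*} [CommRing R] (t c₀ c₁ : R) : MvPolynomial (Fin 2) R :=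
  ((X 0 - C c₀ * X 1) ^ 2 - C t * X 1 ^ 2) * ((X 0 - C c₁ * X 1) ^ 2 - C t * X 1 ^ 2)

/-- Elliptic data of exponent `N` with sections of characters `1, ..., n`
(the index `l : Fin n` stands for the character `l + 1`). -/
structure EDatum (N n : ℕ) (R : Type*) [CommRing R] where
  t : R
  c₀ : R
  c₁ : R
  inv : R
  A : MvPolynomial (Fin 2) R
  B : MvPolynomial (Fin 2) R
  P : Fin n → Fin 2 → MvPolynomial (Fin 2) R
  Q : Fin n → Fin 2 → MvPolynomial (Fin 2) R
  U : Fin n → Fin 2 → MvPolynomial (Fin 2) R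
  V : Fin n → Fin 2 → MvPolynomial (Fin 2) R
  hA : A.IsHomogeneous N
  hB : B.IsHomogeneous (N - 2)
  hP : ∀ l j, (P l j).IsHomogeneous (l + 2)
  hQ : ∀ l j, (Q l j).IsHomogeneous l
  hU : ∀ l j, (U l j).IsHomogeneous (N - (l + 2))
  hV : ∀ l j, (V l j).IsHomogeneous (N - l)
  hA1 : ev 1 0 A = 1
  hA0 : inv * ev 0 1 A = 1
  pell : A ^ 2 = 4 * (X 0 * X 1) ^ N + quar t c₀ c₁ * B ^ 2
  id1 : ∀ l j, A * Q l j + B * P l j = (X 0 * X 1) ^ (l.val + 1) * U l j
  id2 : ∀ l j, A * P l j + B * Q l j * quar t c₀ c₁ = (X 0 * X 1) ^ (l.val + 1) * V l j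
  id3 : ∀ l j, A * V l j - B * U l j * quar t c₀ c₁ =
    4 * (X 0 * X 1) ^ (N - (l.val + 1)) * P l j
  id4 : ∀ l j, A * U l j - B * V l j = 4 * (X 0 * X 1) ^ (N - (l.val + 1)) * Q l j

variable {N n : ℕ}

lemma map_quar {R S : Type*} [CommRing R] [CommRing S] (φ : R →+* S) (t c₀ c₁ : R) :
    map φ (quar t c₀ c₁) = quar (φ t) (φ c₀) (φ c₁) := by
  simp [quar]

lemma ev_map {R S : Type*} [CommRing R] [CommRing S] (φ : R →+* S) (x z : R)
    (p : MvPolynomial (Fin 2) R) : ev (φ x) (φ z) (map φ p) = φ (ev x z p) := by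
  unfold ev
  rw [eval_map]
  have h : (eval₂Hom φ ![φ x, φ z]) = φ.comp (eval ![x, z]) := by
    refine ringHom_ext (fun a => by simp) fun i => ?_
    fin_cases i <;> simp
  exact RingHom.congr_fun h p

lemma ev_scale {R : Type*} [CommRing R] {m : ℕ} {p : MvPolynomial (Fin 2) R}
    (hp : p.IsHomogeneous m) (a x z : R) : ev (a * x) (a * z) p = a ^ m * ev x z p := by
  unfold ev
  rw [eval_eq', eval_eq', Finset.mul_sum]
  refine Finset.sum_congr rfl fun d hd => ?_
  have h1 : d.degree = m := by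
    by_contra hc
    exact (mem_support_iff.1 hd) (IsHomogeneous.coeff_eq_zero hp hc)
  have h2 : ∏ i : Fin 2, (![a * x, a * z] i) ^ d i = a ^ m * ∏ i : Fin 2, (![x, z] i) ^ d i := by
    rw [← h1, Finsupp.degree_eq_sum]
    simp only [Fin.prod_univ_two, Fin.sum_univ_two, Matrix.cons_val_zero, Matrix.cons_val_one]
    ring
  rw [h2]; ring

namespace EDatum

/-- The quartic of a datum. -/
noncomputable def F {R : Type*} [CommRing R] (D : EDatum N n R) : MvPolynomial (Fin 2) R :=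
  quar D.t D.c₀ D.c₁

/-- Base change of data. -/
noncomputable def map {R S : Type*} [CommRing R] [CommRing S] (D : EDatum N n R) (φ : R →+* S) :
    EDatum N n S where
  t := φ D.t
  c₀ := φ D.c₀
  c₁ := φ D.c₁
  inv := φ D.inv
  A := MvPolynomial.map φ D.A
  B := MvPolynomial.map φ D.B
  P l j := MvPolynomial.map φ (D.P l j)
  Q l j := MvPolynomial.map φ (D.Q l j)
  U l j := MvPolynomial.map φ (D.U l j)
  V l j := MvPolynomial.map φ (D.V l j)
  hA := D.hA.map φ
  hB := D.hB.map φ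
  hP l j := (D.hP l j).map φ
  hQ l j := (D.hQ l j).map φ
  hU l j := (D.hU l j).map φ
  hV l j := (D.hV l j).map φ
  hA1 := by
    have := ev_map φ 1 0 D.A
    rw [D.hA1, map_one, map_zero] at this
    exact this
  hA0 := by
    have := ev_map φ 0 1 D.A
    rw [map_one, map_zero] at this
    rw [this, ← map_mul, D.hA0, map_one]
  pell := by
    rw [← map_quar, ← map_pow, D.pell]
    simp
  id1 l j := by
    rw [← map_mul, ← map_mul, ← map_add, D.id1]
    simp
  id2 l j := by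
    rw [← map_quar, ← map_mul, ← map_mul, ← map_mul, ← map_add, D.id2]
    simp
  id3 l j := by
    rw [← map_quar, ← map_mul, ← map_mul, ← map_mul, ← map_sub, D.id3]
    simp
  id4 l j := by
    rw [← map_mul, ← map_mul, ← map_sub, D.id4]
    simp

end EDatum

/-- The data over the special fibre.  The elements `s₁ = P + Q q`, `s₂ = P - Q q` with
`q = (X - ζ Z)(X - Z)` are multiples of powers of `Z`, `X`. -/
structure IsSpecial {R : Type*} [CommRing R] (D : EDatum N n R) (ζ : R) : Prop where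
  ht : D.t = 0
  hc₀ : D.c₀ = ζ
  hc₁ : D.c₁ = 1
  hA : D.A = X 0 ^ N + X 1 ^ N
  hB : D.B * ((X 0 - C ζ * X 1) * (X 0 - X 1)) = X 0 ^ N - X 1 ^ N
  h10 : ∀ l : Fin n, D.P l 0 + D.Q l 0 * ((X 0 - C ζ * X 1) * (X 0 - X 1)) =
    X 1 ^ (l.val + 1) * (C (2 * ζ ^ (l.val + 1)) * (X 0 - X 1))
  h20 : ∀ l : Fin n, D.P l 0 - D.Q l 0 * ((X 0 - C ζ * X 1) * (X 0 - X 1)) =
    X 0 ^ (l.val + 1) * (2 * (X 0 - X 1))
  h11 : ∀ l : Fin n, D.P l 1 + D.Q l 1 * ((X 0 - C ζ * X 1) * (X 0 - X 1)) =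
    X 1 ^ (l.val + 1) * (2 * (X 0 - C ζ * X 1))
  h21 : ∀ l : Fin n, D.P l 1 - D.Q l 1 * ((X 0 - C ζ * X 1) * (X 0 - X 1)) =
    X 0 ^ (l.val + 1) * (2 * (X 0 - C ζ * X 1))

/-- The coordinates of a lift of a point of the line. -/
structure LiftPt (n : ℕ) (R : Type*) where
  Y : R
  α : R
  β : R
  s : Fin n → Fin 2 → R

/-- The image of a lift. -/
def LiftPt.map {R S : Type*} (φ : R → S) (q : LiftPt n R) : LiftPt n S :=
  ⟨φ q.Y, φ q.α, φ q.β, fun l j => φ (q.s l j)⟩

/-- Scaling of a lift. -/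
def LiftPt.scale {R : Type*} [CommRing R] (a : R) (q : LiftPt n R) : LiftPt n R :=
  ⟨a ^ 2 * q.Y, a * q.α, a * q.β, fun l j => a * q.s l j⟩

/-- `q` is a lift of the point `(x, z)`. -/
structure IsLift {R : Type*} [CommRing R] (D : EDatum N n R) (x z : R) (q : LiftPt n R) :
    Prop where
  hY : q.Y ^ 2 = ev x z D.F
  hα : 2 * q.α ^ N = ev x z D.A + ev x z D.B * q.Y
  hβ : 2 * q.β ^ N = ev x z D.A - ev x z D.B * q.Y
  hαβ : q.α * q.β = x * z
  h1 : ∀ l j, q.β ^ (l.val + 1) * q.s l j = ev x z (D.P l j) + ev x z (D.Q l j) * q.Y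
  h2 : ∀ l j, 2 * q.α ^ (N - (l.val + 1)) * q.s l j =
    ev x z (D.V l j) + ev x z (D.U l j) * q.Y

/-- The generic section: a sum over the characters `1, ..., n` of sums with coefficients `c` of
products of sections in the `n` slots. -/
def Wsum {R : Type*} [CommRing R] (c : Fin n × (Fin n → Fin 2) → R) (q : Fin n → LiftPt n R) : R :=
  ∑ l : Fin n, ∑ j : Fin n → Fin 2, c (l, j) * ∏ i, (q i).s l (j i)

end Pool.Agent.MultiSpec
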