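import Mathlib

set_option autoImplicit false

namespace Pool.Agent.MultiSpec

open scoped IntermediateField.algebraAdjoinAdjoin

/-- evaluation at `a` on `κ[y]`, `y` transcendental -/
theorem DegParts_ev {κ E : Type*} [Field κ] [Field E] [Algebra κ E] (y : E)
    (htr : Transcendental κ y) (a : κ) :
    ∃ ev : Algebra.adjoin κ {y} →ₐ[κ] κ,
      ev ⟨y, Algebra.self_mem_adjoin_singleton κ y⟩ = a ∧
      ∀ p : Algebra.adjoin κ {y}, ∃ q : Algebra.adjoin κ {y},
        p = q * (⟨y, Algebra.self_mem_adjoin_singleton κ y⟩ - algebraMap κ _ a)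
          + algebraMap κ _ (ev p) := by
  set e := Polynomial.algEquivOfTranscendental κ y htr with he
  have heX : e Polynomial.X = ⟨y, Algebra.self_mem_adjoin_singleton κ y⟩ := by
    rw [he, Polynomial.algEquivOfTranscendental]
    simp
  refine ⟨(Polynomial.aeval a).comp e.symm.toAlgHom, ?_, fun p => ?_⟩
  · have h1 : e.symm ⟨y, Algebra.self_mem_adjoin_singleton κ y⟩ = Polynomial.X := by
      rw [← heX, AlgEquiv.symm_apply_apply]
    simp [h1]
  · refine ⟨e ((e.symm p) /ₘ (Polynomial.X - Polynomial.C a)), ?_⟩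
    have h2 := Polynomial.modByMonic_add_div (e.symm p) (Polynomial.X - Polynomial.C a)
    rw [Polynomial.modByMonic_X_sub_C_eq_C_eval] at h2
    have h3 := congrArg e h2
    rw [AlgEquiv.apply_symm_apply, map_add, map_mul, map_sub, heX] at h3
    have hC : ∀ c : κ, e (Polynomial.C c) = algebraMap κ _ c := fun c => by
      rw [← Polynomial.algebraMap_eq, AlgEquiv.commutes]
    rw [hC, hC] at h3
    conv_lhs => rw [← h3]
    rw [add_comm, mul_comm]
    congr 2

theorem DegParts_core {κ E : Type*} [Field κ] [Field E] [Algebra κ E]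
    (B : Subalgebra κ E) (hfg : B.FG) (hfrac : ∀ z : E, ∃ a b : B, b ≠ 0 ∧ z * b = a)
    (y : B) (htr : Transcendental κ (y : E))
    (hint : ∀ d : B, IsIntegral (Algebra.adjoin κ {(y : E)}) (d : E)) :
    FiniteDimensional (IntermediateField.adjoin κ {(y : E)}) E ∧ ∀ a : κ,
      Module.Finite κ (B ⧸ Ideal.span {y - algebraMap κ B a}) ∧
      Module.finrank κ (B ⧸ Ideal.span {y - algebraMap κ B a}) =
        Module.finrank (IntermediateField.adjoin κ {(y : E)}) E := by
  classical
  set A := Algebra.adjoin κ {(y : E)} with hA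
  set F := IntermediateField.adjoin κ {(y : E)} with hF
  have hAB : A ≤ B := Algebra.adjoin_le (by simp)
  have : IsPrincipalIdealRing A :=
    IsPrincipalIdealRing.of_surjective
      (Polynomial.algEquivOfTranscendental κ (y : E) htr).toRingEquiv.toRingHom
      (Polynomial.algEquivOfTranscendental κ (y : E) htr).surjective
  let algAB : Algebra A B := (Subalgebra.inclusion hAB).toRingHom.toAlgebra
  have towerκAB : IsScalarTower κ A B := IsScalarTower.of_algebraMap_eq fun c => rfl
  have towerABE : IsScalarTower A B E := IsScalarTower.of_algebraMap_eq fun c => rfl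
  have : Algebra.FiniteType κ B := B.fg_iff_finiteType.mp hfg
  have : Algebra.FiniteType A B := Algebra.FiniteType.of_restrictScalars_finiteType κ A B
  have : Algebra.IsIntegral A B := ⟨fun d =>
    (isIntegral_algebraMap_iff (R := A) (A := B) (B := E) Subtype.val_injective).mp (hint d)⟩
  have : Module.Finite A B := Algebra.IsIntegral.finite
  have : FaithfulSMul A B := by
    rw [faithfulSMul_iff_algebraMap_injective]
    exact Subalgebra.inclusion_injective hAB
  have : Module.IsTorsionFree A B := inferInstance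
  have : Module.Free A B := inferInstance
  set ι := Module.Free.ChooseBasisIndex A B with hι
  set bB : Module.Basis ι A B := Module.Free.chooseBasis A B with hbB
  -- the basis of `E` over `F`
  have hliA : LinearIndependent A (fun i => (bB i : E)) :=
    bB.linearIndependent.map' (IsScalarTower.toAlgHom A B E).toLinearMap
      (LinearMap.ker_eq_bot.mpr Subtype.val_injective)
  have hliF : LinearIndependent F (fun i => (bB i : E)) :=
    (LinearIndependent.iff_fractionRing A F).mp hliA
  have hBspan : ∀ d : B, (d : E) ∈ Submodule.span F (Set.range fun i => (bB i : E)) := by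
    intro d
    have h1 := bB.sum_repr d
    have h2 : (d : E) = ∑ i, algebraMap A F (bB.repr d i) • (bB i : E) := by
      conv_lhs => rw [← h1]
      rw [AddSubmonoidClass.coe_finsetSum]
      refine Finset.sum_congr rfl fun i _ => ?_
      rw [algebraMap_smul]
      rfl
    rw [h2]
    exact Submodule.sum_mem _ fun i _ =>
      Submodule.smul_mem _ _ (Submodule.subset_span ⟨i, rfl⟩)
  have hspan : ⊤ ≤ Submodule.span F (Set.range fun i => (bB i : E)) := by
    -- the `F`-span of `B` is a subalgebra
    have hS : Subalgebra.toSubmodule (Algebra.adjoin F (B : Set E))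
        = Submodule.span F (B : Set E) := by
      rw [Algebra.adjoin_eq_span]
      congr 1
      exact congrArg (fun M : Submonoid E => (M : Set E)) (Submonoid.closure_eq B.toSubmonoid)
    have hle : Submodule.span F (B : Set E)
        ≤ Submodule.span F (Set.range fun i => (bB i : E)) :=
      Submodule.span_le.mpr fun d hd => hBspan ⟨d, hd⟩
    intro z _
    obtain ⟨a, b, hb, hz⟩ := hfrac z
    have hbE : (b : E) ≠ 0 := fun h => hb (Subtype.ext h)
    have hbS : (b : E) ∈ Algebra.adjoin F (B : Set E) := Algebra.subset_adjoin b.2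
    have haS : (a : E) ∈ Algebra.adjoin F (B : Set E) := Algebra.subset_adjoin a.2
    have hbint : IsIntegral F (b : E) := (hint b).tower_top
    have hbinv : (b : E)⁻¹ ∈ Algebra.adjoin F (B : Set E) :=
      Subalgebra.inv_mem_of_algebraic (A := Algebra.adjoin F (B : Set E)) (x := ⟨b, hbS⟩)
        hbint.isAlgebraic
    have hz' : z = (a : E) * (b : E)⁻¹ := by rw [← hz]; field_simp
    have hzS : z ∈ Algebra.adjoin F (B : Set E) := by
      rw [hz']; exact mul_mem haS hbinv
    have : z ∈ Subalgebra.toSubmodule (Algebra.adjoin F (B : Set E)) := hzS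
    rw [hS] at this
    exact hle this
  set bE : Module.Basis ι F E := Module.Basis.mk hliF hspan with hbE
  have hfinE : FiniteDimensional F E := Module.Finite.of_basis bE
  have hrank : Module.finrank F E = Fintype.card ι := Module.finrank_eq_card_basis bE
  refine ⟨hfinE, fun a => ?_⟩
  set I : Ideal B := Ideal.span {y - algebraMap κ B a} with hI
  obtain ⟨ev, hev1, hev2⟩ := DegParts_ev (y : E) htr a
  set y' : A := ⟨(y : E), Algebra.self_mem_adjoin_singleton κ (y : E)⟩ with hy'
  have hyy : algebraMap A B y' = y := rfl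
  set L : (ι → κ) →ₗ[κ] B ⧸ I :=
    (Ideal.Quotient.mkₐ κ I).toLinearMap ∘ₗ (Fintype.linearCombination κ (fun i => bB i)) with hL
  have hLapp : ∀ c : ι → κ, L c = Ideal.Quotient.mk I (∑ i, c i • bB i) := by
    intro c
    rw [hL]
    simp [Fintype.linearCombination_apply]
  have hinj : Function.Injective L := by
    rw [injective_iff_map_eq_zero]
    intro c hc
    rw [hLapp, Ideal.Quotient.eq_zero_iff_mem, hI, Ideal.mem_span_singleton'] at hc
    obtain ⟨β, hβ⟩ := hc
    -- coordinates
    have h1 : ∑ i, c i • bB i = (y' - algebraMap κ A a) • β := by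
      rw [Algebra.smul_def, map_sub, hyy, ← IsScalarTower.algebraMap_apply, mul_comm]
      exact hβ.symm
    funext i
    have h2 := congrArg (fun v => bB.repr v i) h1
    simp only [map_smul, Finsupp.smul_apply, smul_eq_mul] at h2
    have h3 : (bB.repr (∑ j, c j • bB j)) i = algebraMap κ A (c i) := by
      have h4 : ∑ j, c j • bB j = ∑ j, algebraMap κ A (c j) • bB j := by
        refine Finset.sum_congr rfl fun j _ => ?_
        rw [algebraMap_smul]
      rw [h4, Module.Basis.repr_sum_self]
    rw [h3] at h2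
    have h5 := congrArg ev h2
    rw [map_mul, map_sub, AlgHom.commutes, AlgHom.commutes, hev1] at h5
    simpa using h5
  have hsurj : Function.Surjective L := by
    intro x
    obtain ⟨β, rfl⟩ := Ideal.Quotient.mk_surjective x
    refine ⟨fun i => ev (bB.repr β i), ?_⟩
    rw [hLapp, Ideal.Quotient.eq, hI, Ideal.mem_span_singleton']
    choose q hq using hev2
    refine ⟨-∑ i, q (bB.repr β i) • bB i, ?_⟩
    have h1 : β = ∑ i, (bB.repr β i) • bB i := (bB.sum_repr β).symm
    have h2 : β = ∑ i, (q (bB.repr β i) * (y' - algebraMap κ A a)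
        + algebraMap κ A (ev (bB.repr β i))) • bB i := by
      conv_lhs => rw [h1]
      exact Finset.sum_congr rfl fun i _ => by rw [← hq]
    have h3 : ∀ i, (q (bB.repr β i) * (y' - algebraMap κ A a)
        + algebraMap κ A (ev (bB.repr β i))) • bB i
        = (q (bB.repr β i) • bB i) * (y - algebraMap κ B a) + ev (bB.repr β i) • bB i := by
      intro i
      rw [add_smul, algebraMap_smul, mul_comm (q (bB.repr β i)), mul_smul,
        Algebra.smul_def (y' - algebraMap κ A a), map_sub, hyy,
        ← IsScalarTower.algebraMap_apply, mul_comm]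
    rw [Finset.sum_congr rfl fun i _ => h3 i, Finset.sum_add_distrib, ← Finset.sum_mul] at h2
    linear_combination h2
  set Le : (ι → κ) ≃ₗ[κ] B ⧸ I := LinearEquiv.ofBijective L ⟨hinj, hsurj⟩ with hLe
  refine ⟨Module.Finite.equiv Le, ?_⟩
  rw [← LinearEquiv.finrank_eq Le, Module.finrank_fintype_fun_eq_card, hrank]

/-- (DegFin) If `D` is integral over `κ[b]` the fibre over `b = 0` has the generic degree. -/
theorem finrank_quotient_integral {κ E : Type*} [Field κ] [Field E] [Algebra κ E]
    (D : Subalgebra κ E) (hDfg : D.FG) (hfrac : ∀ z : E, ∃ a b : D, b ≠ 0 ∧ z * b = a)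
    (b : D) (htr : Transcendental κ (b : E))
    (hint : ∀ d : D, IsIntegral (Algebra.adjoin κ {(b : E)}) (d : E)) :
    FiniteDimensional (IntermediateField.adjoin κ {(b : E)}) E ∧
      Module.Finite κ (D ⧸ Ideal.span {b}) ∧
      Module.finrank κ (D ⧸ Ideal.span {b}) =
        Module.finrank (IntermediateField.adjoin κ {(b : E)}) E := by
  obtain ⟨h1, h2⟩ := DegParts_core D hDfg hfrac b htr hint
  have h3 := h2 0
  rw [map_zero, sub_zero] at h3
  exact ⟨h1, h3⟩

/-- (DegGen) For almost all `a` the fibre over `y = a` has the generic degree. -/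
theorem finrank_quotient_generic {κ E : Type*} [Field κ] [Field E] [Algebra κ E]
    (D : Subalgebra κ E) (hDfg : D.FG) (hfrac : ∀ z : E, ∃ a b : D, b ≠ 0 ∧ z * b = a)
    (y : D) (htr : Transcendental κ (y : E))
    (hfin : FiniteDimensional (IntermediateField.adjoin κ {(y : E)}) E) :
    ∃ bad : Set κ, bad.Finite ∧ ∀ a, a ∉ bad →
      Module.finrank κ (D ⧸ Ideal.span {y - algebraMap κ D a}) =
        Module.finrank (IntermediateField.adjoin κ {(y : E)}) E := by
  classical
  set A := Algebra.adjoin κ {(y : E)} with hA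
  have hAD : A ≤ D := Algebra.adjoin_le (by simp)
  obtain ⟨t, ht⟩ := hDfg
  obtain ⟨r, hr0, hr⟩ := exists_integral_multiples A
    (IntermediateField.adjoin κ {(y : E)}) t
  have hrE : (r : E) ≠ 0 := fun h => hr0 (Subtype.ext h)
  -- the finite subalgebra
  set B : Subalgebra κ E := Algebra.adjoin κ (insert (y : E) ((fun d => (r : E) * d) '' t)) with hB
  have hyB : (y : E) ∈ B := Algebra.subset_adjoin (Set.mem_insert _ _)
  have hAB : A ≤ B := Algebra.adjoin_le (by simpa using hyB)
  have hrB : (r : E) ∈ B := hAB r.2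
  have hBD : B ≤ D := by
    refine Algebra.adjoin_le ?_
    rintro x (rfl | ⟨d, hd, rfl⟩)
    · exact y.2
    · refine mul_mem (hAD r.2) ?_
      rw [← ht]
      exact Algebra.subset_adjoin hd
  have hBfg : B.FG := by
    refine ⟨insert (y : E) (t.image fun d => (r : E) * d), ?_⟩
    rw [hB]
    simp
  have hBint : ∀ d : B, IsIntegral A (d : E) := by
    intro d
    have hle : B ≤ (integralClosure A E).restrictScalars κ := by
      refine Algebra.adjoin_le ?_
      rintro x (rfl | ⟨d, hd, rfl⟩)
      · exact isIntegral_algebraMap (R := A) (A := E)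
          (x := ⟨(y : E), Algebra.self_mem_adjoin_singleton κ (y : E)⟩)
      · exact hr d hd
    exact hle d.2
  -- elements of `D` are in `B` after multiplication with a power of `r`
  have hpow : ∀ d ∈ D, ∃ k : ℕ, (r : E) ^ k * d ∈ B := by
    intro d hd
    rw [← ht] at hd
    induction hd using Algebra.adjoin_induction with
    | mem x hx =>
      refine ⟨1, ?_⟩
      rw [pow_one]
      exact Algebra.subset_adjoin (Set.mem_insert_of_mem _ ⟨x, hx, rfl⟩)
    | algebraMap c => exact ⟨0, by rw [pow_zero, one_mul]; exact B.algebraMap_mem c⟩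
    | add x z _ _ hx hz =>
      obtain ⟨k, hk⟩ := hx
      obtain ⟨l, hl⟩ := hz
      refine ⟨k + l, ?_⟩
      have e : (r : E) ^ (k + l) * (x + z)
          = (r : E) ^ l * ((r : E) ^ k * x) + (r : E) ^ k * ((r : E) ^ l * z) := by ring
      rw [e]
      exact add_mem (mul_mem (pow_mem hrB _) hk) (mul_mem (pow_mem hrB _) hl)
    | mul x z _ _ hx hz =>
      obtain ⟨k, hk⟩ := hx
      obtain ⟨l, hl⟩ := hz
      refine ⟨k + l, ?_⟩
      have e : (r : E) ^ (k + l) * (x * z)
          = ((r : E) ^ k * x) * ((r : E) ^ l * z) := by ring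
      rw [e]
      exact mul_mem hk hl
  have hBfrac : ∀ z : E, ∃ a b : B, b ≠ 0 ∧ z * b = a := by
    intro z
    obtain ⟨a, b, hb, hz⟩ := hfrac z
    obtain ⟨k, hk⟩ := hpow a a.2
    obtain ⟨l, hl⟩ := hpow b b.2
    refine ⟨⟨(r : E) ^ l * ((r : E) ^ k * a), mul_mem (pow_mem hrB _) hk⟩,
      ⟨(r : E) ^ k * ((r : E) ^ l * b), mul_mem (pow_mem hrB _) hl⟩, ?_, ?_⟩
    · intro h
      have h1 : (r : E) ^ k * ((r : E) ^ l * b) = 0 := congrArg Subtype.val h
      have hbE : (b : E) ≠ 0 := fun h => hb (Subtype.ext h)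
      exact (mul_ne_zero (pow_ne_zero _ hrE) (mul_ne_zero (pow_ne_zero _ hrE) hbE)) h1
    · simp only
      rw [← hz]
      ring
  obtain ⟨hfinE, hcore⟩ := DegParts_core B hBfg hBfrac ⟨y, hyB⟩ htr hBint
  -- the bad set
  obtain ⟨P, hP⟩ := Algebra.adjoin_mem_exists_aeval κ (y : E) r.2
  have hP0 : P ≠ 0 := by
    rintro rfl
    rw [map_zero] at hP
    exact hrE hP.symm
  refine ⟨{a | P.IsRoot a}, Polynomial.finite_setOfPred_isRoot hP0, fun a ha => ?_⟩
  rw [← (hcore a).2]
  -- Bezout
  have hbez : ∀ k : ℕ, ∃ u v : E, u ∈ B ∧ v ∈ B ∧ u * (r : E) ^ k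
      + v * ((y : E) - algebraMap κ E a) = 1 := by
    intro k
    have hcop : IsCoprime (P ^ k) (Polynomial.X - Polynomial.C a) := by
      refine IsCoprime.pow_left ?_
      refine IsCoprime.symm ?_
      rw [(Polynomial.irreducible_X_sub_C a).coprime_iff_not_dvd, Polynomial.dvd_iff_isRoot]
      exact ha
    obtain ⟨u, v, huv⟩ := hcop
    have h1 := congrArg (Polynomial.aeval (y : E)) huv
    simp only [map_add, map_mul, map_pow, map_sub, Polynomial.aeval_X, Polynomial.aeval_C,
      map_one, hP] at h1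
    refine ⟨_, _, ?_, ?_, h1⟩
    · exact hAB (Polynomial.aeval_mem_adjoin_singleton κ (y : E))
    · exact hAB (Polynomial.aeval_mem_adjoin_singleton κ (y : E))
  set I : Ideal D := Ideal.span {y - algebraMap κ D a} with hI
  set f : B →ₐ[κ] D ⧸ I := (Ideal.Quotient.mkₐ κ I).comp (Subalgebra.inclusion hBD) with hf
  have hfapp : ∀ x : B, f x = Ideal.Quotient.mk I ⟨x, hBD x.2⟩ := fun x => rfl
  have hsurj : Function.Surjective f := by
    intro x
    obtain ⟨d, rfl⟩ := Ideal.Quotient.mk_surjective x
    obtain ⟨k, hk⟩ := hpow d d.2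
    obtain ⟨u, v, hu, hv, huv⟩ := hbez k
    refine ⟨⟨u * ((r : E) ^ k * d), mul_mem hu hk⟩, ?_⟩
    rw [hfapp, Ideal.Quotient.eq, hI, Ideal.mem_span_singleton']
    refine ⟨-⟨v, hBD hv⟩ * d, ?_⟩
    apply Subtype.ext
    simp only [MulMemClass.coe_mul, NegMemClass.coe_neg, AddSubgroupClass.coe_sub]
    have e : ((algebraMap κ D a : D) : E) = algebraMap κ E a := rfl
    rw [e]
    linear_combination (-(d : E)) * huv
  have hker : RingHom.ker f = Ideal.span {(⟨y, hyB⟩ : B) - algebraMap κ B a} := by
    ext x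
    rw [RingHom.mem_ker, hfapp, Ideal.Quotient.eq_zero_iff_mem, hI, Ideal.mem_span_singleton',
      Ideal.mem_span_singleton']
    constructor
    · rintro ⟨d, hd⟩
      obtain ⟨k, hk⟩ := hpow d d.2
      obtain ⟨u, v, hu, hv, huv⟩ := hbez k
      have hd' : (d : E) * ((y : E) - algebraMap κ E a) = x := congrArg Subtype.val hd
      have hdB : (d : E) ∈ B := by
        have e : (d : E) = u * ((r : E) ^ k * d) + v * x := by
          rw [← hd']
          linear_combination (-(d : E)) * huv
        rw [e]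
        exact add_mem (mul_mem hu hk) (mul_mem hv x.2)
      exact ⟨⟨d, hdB⟩, Subtype.ext hd'⟩
    · rintro ⟨d, hd⟩
      have hd' : (d : E) * ((y : E) - algebraMap κ E a) = x := congrArg Subtype.val hd
      exact ⟨⟨d, hBD d.2⟩, Subtype.ext hd'⟩
  have e1 : (B ⧸ RingHom.ker f) ≃ₐ[κ] D ⧸ I := Ideal.quotientKerAlgEquivOfSurjective hsurj
  rw [← e1.toLinearEquiv.finrank_eq, hker]

/-- additivity for two factors -/
theorem DegParts_mul {κ D : Type*} [Field κ] [CommRing D] [IsDomain D] [Algebra κ D]
    (a b : D) (ha : a ≠ 0) (hfa : Module.Finite κ (D ⧸ Ideal.span {a}))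
    (hfb : Module.Finite κ (D ⧸ Ideal.span {b})) :
    Module.Finite κ (D ⧸ Ideal.span {a * b}) ∧
    Module.finrank κ (D ⧸ Ideal.span {a * b}) =
      Module.finrank κ (D ⧸ Ideal.span {a}) + Module.finrank κ (D ⧸ Ideal.span {b}) := by
  set I : Ideal D := Ideal.span {a * b} with hI
  set Ia : Ideal D := Ideal.span {a} with hIa
  set Ib : Ideal D := Ideal.span {b} with hIb
  have hle : I ≤ Ia := by
    rw [hI, hIa, Ideal.span_singleton_le_span_singleton]
    exact Dvd.intro _ rfl
  set g : (D ⧸ I) →ₗ[κ] (D ⧸ Ia) := (Ideal.Quotient.factorₐ κ hle).toLinearMap with hg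
  have hgsurj : Function.Surjective g := Ideal.Quotient.factor_surjective hle
  -- multiplication by `a`
  set m : D →ₗ[κ] (D ⧸ I) :=
    (Ideal.Quotient.mkₐ κ I).toLinearMap ∘ₗ (LinearMap.mulLeft κ a) with hm
  have hmapp : ∀ x, m x = Ideal.Quotient.mk I (a * x) := fun x => rfl
  have hmker : LinearMap.ker m = Ib.restrictScalars κ := by
    ext x
    rw [LinearMap.mem_ker, hmapp, Ideal.Quotient.eq_zero_iff_mem, hI,
      Submodule.restrictScalars_mem, hIb, Ideal.mem_span_singleton, Ideal.mem_span_singleton]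
    exact mul_dvd_mul_iff_left ha
  have hmrange : LinearMap.range m = LinearMap.ker g := by
    ext x
    obtain ⟨d, rfl⟩ := Ideal.Quotient.mk_surjective x
    rw [LinearMap.mem_range, LinearMap.mem_ker]
    have h1 : g (Ideal.Quotient.mk I d) = Ideal.Quotient.mk Ia d := rfl
    rw [h1, Ideal.Quotient.eq_zero_iff_mem, hIa, Ideal.mem_span_singleton]
    constructor
    · rintro ⟨z, hz⟩
      rw [hmapp, Ideal.Quotient.eq, hI, Ideal.mem_span_singleton] at hz
      obtain ⟨w, hw⟩ := hz
      exact ⟨z - b * w, by linear_combination (-1 : D) * hw⟩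
    · rintro ⟨z, rfl⟩
      exact ⟨z, rfl⟩
  have eb : (D ⧸ Ib) ≃ₗ[κ] LinearMap.range m :=
    ((Submodule.Quotient.restrictScalarsEquiv κ Ib).symm.trans
      (Submodule.quotEquivOfEq _ _ hmker.symm)).trans m.quotKerEquivRange
  have hfr : Module.Finite κ (LinearMap.range m) := Module.Finite.equiv eb
  have hfk : Module.Finite κ (LinearMap.ker g) := by rw [← hmrange]; exact hfr
  have hfq : Module.Finite κ ((D ⧸ I) ⧸ LinearMap.ker g) :=
    Module.Finite.equiv (g.quotKerEquivOfSurjective hgsurj).symm
  have hfin : Module.Finite κ (D ⧸ I) := Module.Finite.of_submodule_quotient (LinearMap.ker g)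
  refine ⟨hfin, ?_⟩
  have h1 := LinearMap.finrank_range_add_finrank_ker g
  rw [LinearMap.range_eq_top.mpr hgsurj, finrank_top, ← hmrange, ← eb.finrank_eq] at h1
  exact h1.symm

/-- (DegProd) Additivity of the colength of principal ideals. -/
theorem finrank_quotient_prod {κ D : Type*} [Field κ] [CommRing D] [IsDomain D] [Algebra κ D]
    {ι : Type*} (s : Finset ι) (b : ι → D) (hb : ∀ i ∈ s, b i ≠ 0)
    (hfin : ∀ i ∈ s, Module.Finite κ (D ⧸ Ideal.span {b i})) :
    Module.Finite κ (D ⧸ Ideal.span {∏ i ∈ s, b i}) ∧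
    Module.finrank κ (D ⧸ Ideal.span {∏ i ∈ s, b i}) =
      ∑ i ∈ s, Module.finrank κ (D ⧸ Ideal.span {b i}) := by
  classical
  induction s using Finset.induction_on with
  | empty =>
    have hss : Subsingleton (D ⧸ Ideal.span {∏ i ∈ (∅ : Finset ι), b i}) := by
      rw [Ideal.Quotient.subsingleton_iff]
      simp
    refine ⟨inferInstance, ?_⟩
    rw [Finset.sum_empty]
    exact Module.finrank_zero_of_subsingleton
  | insert a s ha ih =>
    rw [Finset.prod_insert ha, Finset.sum_insert ha]
    obtain ⟨h1, h2⟩ := ih (fun i hi => hb i (Finset.mem_insert_of_mem hi))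
      (fun i hi => hfin i (Finset.mem_insert_of_mem hi))
    obtain ⟨h3, h4⟩ := DegParts_mul (κ := κ) (b a) (∏ i ∈ s, b i)
      (hb a (Finset.mem_insert_self _ _)) (hfin a (Finset.mem_insert_self _ _)) h1
    exact ⟨h3, by rw [h4, h2]⟩

end Pool.Agent.MultiSpec
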