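import Mathlib
import Pool.Agent.MultiSpec.DegParts

set_option autoImplicit false

namespace Pool.Agent.MultiSpec

section DegFormAux

variable {κ E : Type*} [Field κ] [Field E] [Algebra κ E]

/-- transitivity of integrality for subalgebras that need not be nested -/
private theorem degForm_isIntegral_trans (A D : Subalgebra κ E)
    (hAD : ∀ d ∈ D, IsIntegral A d) {x : E} (hx : IsIntegral D x) : IsIntegral A x := by
  have h1 : IsIntegral (integralClosure A E) x := by
    let φ : D →+* integralClosure A E :=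
      { toFun := fun d => ⟨d, hAD d d.2⟩
        map_one' := rfl
        map_mul' := fun _ _ => rfl
        map_zero' := rfl
        map_add' := fun _ _ => rfl }
    exact IsIntegral.map_of_comp_eq φ (RingHom.id E) (by ext; rfl) hx
  exact isIntegral_trans x h1

/-- the ring `D1` -/
private theorem degForm_exists_subalgebra {n : ℕ} (y : Fin n → E)
    (D : Subalgebra κ E) (hDfg : D.FG)
    (hy : ∀ j, IsIntegral D (y j))
    (hfrac : ∀ z : E, ∃ s ∈ D, s ≠ 0 ∧ IsIntegral D (s * z))
    (S : Finset E) (hS : IntermediateField.adjoin κ ((S : Set E)) = ⊤) :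
    ∃ D1 : Subalgebra κ E, D1.FG ∧ D ≤ D1 ∧ (∀ j, y j ∈ D1) ∧
      (∀ z : E, ∃ a b : D1, b ≠ 0 ∧ z * b = a) ∧ ∀ d ∈ D1, IsIntegral D d := by
  classical
  choose s hsD hs0 hsI using hfrac
  let T : Set E := Set.range y ∪ (fun z => s z * z) '' (S : Set E)
  have hTfin : T.Finite := (Set.finite_range y).union ((Finset.finite_toSet S).image _)
  let D1 : Subalgebra κ E := D ⊔ Algebra.adjoin κ T
  have hDD1 : D ≤ D1 := le_sup_left
  have hT1 : T ⊆ (D1 : Set E) := fun z hz =>
    (le_sup_right : Algebra.adjoin κ T ≤ D1) (Algebra.subset_adjoin hz)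
  refine ⟨D1, ?_, hDD1, ?_, ?_, ?_⟩
  · refine Subalgebra.FG.sup hDfg ⟨hTfin.toFinset, by simp⟩
  · intro j
    exact hT1 (Or.inl ⟨j, rfl⟩)
  · have htop : IntermediateField.adjoin κ (D1 : Set E) = ⊤ := by
      rw [eq_top_iff, ← hS, IntermediateField.adjoin_le_iff]
      intro z hz
      have h1 : s z * z ∈ IntermediateField.adjoin κ (D1 : Set E) :=
        IntermediateField.subset_adjoin _ _ (hT1 (Or.inr ⟨z, hz, rfl⟩))
      have h2 : s z ∈ IntermediateField.adjoin κ (D1 : Set E) :=
        IntermediateField.subset_adjoin _ _ (hDD1 (hsD z))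
      have h3 : z = (s z * z) / s z := by
        field_simp [hs0 z]
      rw [h3]
      exact div_mem h1 h2
    intro z
    have hz : z ∈ IntermediateField.adjoin κ (D1 : Set E) := by
      rw [htop]; trivial
    rw [IntermediateField.mem_adjoin_iff_div] at hz
    obtain ⟨a, ha, b, hb, hab⟩ := hz
    rw [Algebra.adjoin_eq] at ha hb
    by_cases hb0 : b = 0
    · refine ⟨0, 1, one_ne_zero, ?_⟩
      simp [hab, hb0]
    · refine ⟨⟨a, ha⟩, ⟨b, hb⟩, ?_, ?_⟩
      · intro h
        exact hb0 (congrArg Subtype.val h)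
      · show z * b = a
        rw [hab]
        field_simp
  · intro d hd
    have hle : D1 ≤ (integralClosure D E).restrictScalars κ := by
      refine sup_le ?_ (Algebra.adjoin_le ?_)
      · intro x hx
        exact isIntegral_algebraMap (R := D) (A := E) (x := ⟨x, hx⟩)
      · rintro x (⟨j, rfl⟩ | ⟨z, _, rfl⟩)
        · exact hy j
        · exact hsI z
    exact hle hd

open scoped IntermediateField.algebraAdjoinAdjoin in
/-- exchange -/
private theorem degForm_finite (S : Finset E)
    (hS : IntermediateField.adjoin κ ((S : Set E)) = ⊤)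
    (b y : E) (hb : Transcendental κ b)
    (hfin : FiniteDimensional (IntermediateField.adjoin κ {b}) E)
    (hy : Transcendental κ y) :
    FiniteDimensional (IntermediateField.adjoin κ {y}) E := by
  have hess : Algebra.EssFiniteType κ E := IntermediateField.fg_top_iff.1 ⟨S, hS⟩
  have h1 : AlgebraicIndependent κ (fun _ : Unit => b) := by
    rw [algebraicIndependent_unique_type_iff]; exact hb
  have h2 : IsTranscendenceBasis κ (fun _ : Unit => b) := by
    rw [h1.isTranscendenceBasis_iff_isAlgebraic]
    have hset : Set.range (fun _ : Unit => b) = {b} := by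
      ext z; simp [eq_comm]
    rw [hset]
    have : Algebra.IsAlgebraic (IntermediateField.adjoin κ {b}) E := inferInstance
    exact (IsFractionRing.comap_isAlgebraic_iff (A := Algebra.adjoin κ {b})
      (K := IntermediateField.adjoin κ {b}) (C := E)).2 this
  have h3 : Algebra.trdeg κ E ≤ 1 := by
    have h := h2.lift_cardinalMk_eq_trdeg
    simp at h
    rw [← h]
  have h4 : AlgebraicIndependent κ (fun _ : Unit => y) := by
    rw [algebraicIndependent_unique_type_iff]; exact hy
  have h5 : IsTranscendenceBasis κ (fun _ : Unit => y) := by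
    refine h4.isTranscendenceBasis_of_lift_trdeg_le_of_finite ?_
    simpa using h3
  have h6 := h5.isAlgebraic_field
  have hset : Set.range (fun _ : Unit => y) = {y} := by
    ext z; simp [eq_comm]
  rw [hset] at h6
  have h7 : Algebra.EssFiniteType (IntermediateField.adjoin κ {y}) E :=
    Algebra.EssFiniteType.of_comp κ _ E
  exact Algebra.finite_of_essFiniteType_of_isAlgebraic

end DegFormAux

/-- The degree formula modulo `M`.  `D` plays the role of the coordinate ring of the affine curve
`ℓ_{c'} ≠ 0`, the elements `b c = ∏ j, (1 + (c - c') y j)`. -/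
theorem exists_dvd_finrank {κ E : Type} [Field κ] [IsAlgClosed κ] [CharZero κ] [Field E]
    [Algebra κ E] {n : ℕ} (y : Fin n → E) (c' : κ) (bad : Set κ) (hbad : bad.Finite)
    (D : Subalgebra κ E) (hDfg : D.FG)
    (hy : ∀ j, IsIntegral D (y j))
    (hfrac : ∀ z : E, ∃ s ∈ D, s ≠ 0 ∧ IsIntegral D (s * z))
    (hEfin : ∃ S : Finset E, IntermediateField.adjoin κ ((S : Set E)) = ⊤)
    (hint : ∀ c, c ∉ bad → ∀ d ∈ D,
      IsIntegral (Algebra.adjoin κ {∏ j, (1 + algebraMap κ E (c - c') * y j)}) d)
    (htr : ∀ c, c ∉ bad → Transcendental κ (∏ j, (1 + algebraMap κ E (c - c') * y j)))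
    (M : ℕ) (hM : ∀ j, Transcendental κ (y j) →
      M ∣ Module.finrank (IntermediateField.adjoin κ {y j}) E) :
    ∃ c, c ∉ bad ∧ c ≠ c' ∧
      FiniteDimensional (IntermediateField.adjoin κ
        {∏ j, (1 + algebraMap κ E (c - c') * y j)}) E ∧
      M ∣ Module.finrank (IntermediateField.adjoin κ
        {∏ j, (1 + algebraMap κ E (c - c') * y j)}) E := by
  classical
  obtain ⟨S, hS⟩ := hEfin
  obtain ⟨D1, hD1fg, hDD1, hyD1, hD1frac, hD1int⟩ :=
    degForm_exists_subalgebra y D hDfg hy hfrac S hS
  -- the factors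
  let f : κ → Fin n → D1 := fun c j =>
    1 + algebraMap κ D1 (c - c') * ⟨y j, hyD1 j⟩
  have hf : ∀ c j, ((f c j : D1) : E) = 1 + algebraMap κ E (c - c') * y j := fun c j => rfl
  let b : κ → D1 := fun c => ∏ j, f c j
  have hb : ∀ c, ((b c : D1) : E) = ∏ j, (1 + algebraMap κ E (c - c') * y j) := by
    intro c
    show ((∏ j, f c j : D1) : E) = _
    rw [SubmonoidClass.coe_finsetProd]
    exact Finset.prod_congr rfl fun j _ => hf c j
  -- the degree of `b c`
  have hdeg : ∀ c, c ∉ bad →
      FiniteDimensional (IntermediateField.adjoin κ {((b c : D1) : E)}) E ∧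
      Module.Finite κ (D1 ⧸ Ideal.span {b c}) ∧
      Module.finrank κ (D1 ⧸ Ideal.span {b c}) =
        Module.finrank (IntermediateField.adjoin κ {((b c : D1) : E)}) E := by
    intro c hc
    refine finrank_quotient_integral D1 hD1fg hD1frac (b c) ?_ ?_
    · rw [hb]; exact htr c hc
    · intro d
      have h1 : IsIntegral D (d : E) := hD1int d d.2
      rw [hb]
      exact degForm_isIntegral_trans _ D (hint c hc) h1
  -- the fibres of the coordinates
  have hInf : (Set.univ : Set κ).Infinite := Set.infinite_univ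
  obtain ⟨c0, hc0⟩ : ∃ c0, c0 ∉ bad := by
    obtain ⟨c0, hc0⟩ := hbad.infinite_compl.nonempty
    exact ⟨c0, hc0⟩
  have hfinj : ∀ j, Transcendental κ (y j) →
      FiniteDimensional (IntermediateField.adjoin κ {y j}) E := by
    intro j hj
    refine degForm_finite S hS (b c0 : E) (y j) ?_ (hdeg c0 hc0).1 hj
    rw [hb]; exact htr c0 hc0
  have hgen : ∀ j, ∃ B : Set κ, B.Finite ∧ (Transcendental κ (y j) → ∀ a, a ∉ B →
      Module.finrank κ (D1 ⧸ Ideal.span {(⟨y j, hyD1 j⟩ : D1) - algebraMap κ D1 a}) =
        Module.finrank (IntermediateField.adjoin κ {y j}) E) := by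
    intro j
    by_cases hj : Transcendental κ (y j)
    · obtain ⟨B, hB, h⟩ := finrank_quotient_generic D1 hD1fg hD1frac ⟨y j, hyD1 j⟩ hj (hfinj j hj)
      exact ⟨B, hB, fun _ => h⟩
    · exact ⟨∅, Set.finite_empty, fun h => absurd h hj⟩
  choose B hB hBgen using hgen
  have hcon : ∀ j, ∃ e : κ, ¬ Transcendental κ (y j) → y j = algebraMap κ E e := by
    intro j
    by_cases hj : Transcendental κ (y j)
    · exact ⟨0, fun h => absurd hj h⟩
    · have hj' : IsAlgebraic κ (y j) := by
        rwa [Transcendental, not_not] at hj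
      have hal : Algebra.IsAlgebraic κ (IntermediateField.adjoin κ {y j}) :=
        IntermediateField.isAlgebraic_adjoin (by
          intro x hx
          rw [Set.mem_singleton_iff] at hx
          rw [hx]; exact hj'.isIntegral)
      have hal' : Algebra.IsIntegral κ (IntermediateField.adjoin κ {y j}) := inferInstance
      obtain ⟨e, he⟩ := (IsAlgClosed.algebraMap_bijective_of_isIntegral
        (k := κ) (K := IntermediateField.adjoin κ {y j})).2
          ⟨y j, IntermediateField.mem_adjoin_simple_self κ (y j)⟩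
      exact ⟨e, fun _ => (congrArg Subtype.val he).symm⟩
  choose e he using hcon
  -- the bad set
  let bad' : Set κ := bad ∪ {c'} ∪ ⋃ j, ((fun a => c' - a⁻¹) '' (B j) ∪ {c' - (e j)⁻¹})
  have hbad' : bad'.Finite := by
    refine (hbad.union (Set.finite_singleton _)).union (Set.finite_iUnion fun j => ?_)
    exact ((hB j).image _).union (Set.finite_singleton _)
  obtain ⟨c, hc⟩ := hbad'.infinite_compl.nonempty
  have hcb : c ∉ bad := fun h => hc (Or.inl (Or.inl h))
  have hcc' : c ≠ c' := fun h => hc (Or.inl (Or.inr h))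
  have hcB : ∀ j, -(c - c')⁻¹ ∉ B j := by
    intro j hj
    refine hc (Or.inr (Set.mem_iUnion.2 ⟨j, Or.inl ⟨_, hj, ?_⟩⟩))
    simp [inv_neg]
  have hce : ∀ j, 1 + (c - c') * e j ≠ 0 := by
    intro j hj
    refine hc (Or.inr (Set.mem_iUnion.2 ⟨j, Or.inr ?_⟩))
    have he0 : e j ≠ 0 := by
      rintro h0; simp [h0] at hj
    rw [Set.mem_singleton_iff]
    field_simp
    linear_combination hj
  obtain ⟨h1, h2, h3⟩ := hdeg c hcb
  refine ⟨c, hcb, hcc', ?_, ?_⟩
  · rw [← hb]; exact h1
  rw [← hb, ← h3]
  have hf0 : ∀ j ∈ (Finset.univ : Finset (Fin n)), f c j ≠ 0 := by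
    intro j _ h0
    have : b c = 0 := Finset.prod_eq_zero (Finset.mem_univ j) h0
    have h4 := htr c hcb
    rw [← hb, this] at h4
    exact h4 (isAlgebraic_zero)
  have hffin : ∀ j ∈ (Finset.univ : Finset (Fin n)),
      Module.Finite κ (D1 ⧸ Ideal.span {f c j}) := by
    intro j _
    have hle : Ideal.span {b c} ≤ Ideal.span {f c j} := by
      rw [Ideal.span_singleton_le_span_singleton]
      exact Finset.dvd_prod_of_mem _ (Finset.mem_univ j)
    exact Module.Finite.of_surjective (Ideal.Quotient.factorₐ κ hle).toLinearMap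
      (Ideal.Quotient.factor_surjective hle)
  have h5 := (finrank_quotient_prod (κ := κ) (D := D1) Finset.univ (f c) hf0 hffin).2
  have h6 : Module.finrank κ (D1 ⧸ Ideal.span {b c}) =
      ∑ j, Module.finrank κ (D1 ⧸ Ideal.span {f c j}) := h5
  rw [h6]
  refine Finset.dvd_sum fun j _ => ?_
  have hcc0 : c - c' ≠ 0 := sub_ne_zero.2 hcc'
  by_cases hj : Transcendental κ (y j)
  · have hspan : Ideal.span {f c j} =
        Ideal.span {(⟨y j, hyD1 j⟩ : D1) - algebraMap κ D1 (-(c - c')⁻¹)} := by
      rw [Ideal.span_singleton_eq_span_singleton]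
      refine Associated.symm ⟨Units.map (algebraMap κ D1).toMonoidHom (Units.mk0 (c - c') hcc0), ?_⟩
      apply Subtype.ext
      show (y j - algebraMap κ E (-(c - c')⁻¹)) * algebraMap κ E (c - c') =
        1 + algebraMap κ E (c - c') * y j
      have : algebraMap κ E (-(c - c')⁻¹) * algebraMap κ E (c - c') = -1 := by
        rw [← map_mul]
        have : -(c - c')⁻¹ * (c - c') = -1 := by field_simp
        rw [this]; simp
      linear_combination -this
    rw [hspan, hBgen j hj _ (hcB j)]
    exact hM j hj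
  · have hunit : IsUnit (f c j) := by
      have : f c j = algebraMap κ D1 (1 + (c - c') * e j) := by
        apply Subtype.ext
        rw [hf, he j hj]
        show _ = algebraMap κ E _
        simp
      rw [this]
      exact (isUnit_iff_ne_zero.2 (hce j)).map _
    rw [Ideal.span_singleton_eq_top.2 hunit]
    have : Subsingleton (D1 ⧸ (⊤ : Ideal D1)) := Ideal.Quotient.subsingleton_iff.2 rfl
    rw [Module.finrank_zero_of_subsingleton]
    exact dvd_zero M

end Pool.Agent.MultiSpec
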