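import Pool.Agent.MultiSpec.Datum

set_option autoImplicit false

namespace Pool.Agent.MultiSpec

/-- Dehomogenisation: the value of a binary form at `(X, lam)`. -/
noncomputable def dehom {k : Type*} [CommRing k] (lam : k) :
    MvPolynomial (Fin 2) k →+* Polynomial k :=
  MvPolynomial.eval₂Hom Polynomial.C ![Polynomial.X, Polynomial.C lam]

lemma aeval_dehom {k L : Type*} [CommRing k] [CommRing L] [Algebra k L] (lam : k) (z : L)
    (p : MvPolynomial (Fin 2) k) : Polynomial.aeval z (dehom lam p) =
      ev z (algebraMap k L lam) (MvPolynomial.map (algebraMap k L) p) := by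
  unfold ev
  rw [MvPolynomial.eval_map]
  have h : ((Polynomial.aeval z : Polynomial k →ₐ[k] L) : Polynomial k →+* L).comp (dehom lam) =
      MvPolynomial.eval₂Hom (algebraMap k L) ![z, algebraMap k L lam] := by
    refine MvPolynomial.ringHom_ext (fun a => by simp [dehom]) fun i => ?_
    fin_cases i <;> simp [dehom]
  exact RingHom.congr_fun h p

end Pool.Agent.MultiSpec
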