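import Mathlib

/-!
# Density of the multidegrees to which the divisibility theorems apply

`Cond C K n d`: for every prime `p` either all `d i` divisible by `p` are large compared with the
`n`-th power of their `p`-part, or `p > K` divides only one `d k`, and `d k` is at least `C` times
its `p`-part.  We show that the tuples which do not satisfy the condition have density zero.
-/

set_option autoImplicit false

namespace Pool.Agent.MultiSpec.Density

open Finset
open scoped Classical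

/-- The arithmetic condition on the multidegree. -/
def Cond (C K n : ℕ) {r : ℕ} (d : Fin r → ℕ) : Prop :=
  ∀ p : ℕ, p.Prime →
    (∀ i, p ∣ d i → C * (p ^ (d i).factorization p) ^ n ≤ d i) ∨
    (K < p ∧ ∃ k, (∀ i, i ≠ k → ¬ p ∣ d i) ∧ C * p ^ (d k).factorization p ≤ d k)

/-- The box. -/
def box (r X : ℕ) : Finset (Fin r → ℕ) := Fintype.piFinset fun _ => Icc 1 X

lemma mem_box {r X : ℕ} {d : Fin r → ℕ} : d ∈ box r X ↔ ∀ i, 1 ≤ d i ∧ d i ≤ X := by
  simp [box]

lemma card_pi {r X : ℕ} (S : Fin r → Finset ℕ) (w : Fin r → ℝ)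
    (hS : ∀ k, ((S k).card : ℝ) ≤ w k * X) :
    ((Fintype.piFinset S).card : ℝ) ≤ (∏ k, w k) * (X : ℝ) ^ r := by
  rw [Fintype.card_piFinset, Nat.cast_prod]
  calc ∏ k, ((S k).card : ℝ) ≤ ∏ k, (w k * X) :=
        Finset.prod_le_prod (fun _ _ => Nat.cast_nonneg _) fun k _ => hS k
    _ = _ := by rw [Finset.prod_mul_distrib]; simp

/-- One coordinate is restricted. -/
lemma card_one {r X : ℕ} (i : Fin r) (P : ℕ → Prop) [DecidablePred P] (ε : ℝ)
    (h : (((Icc 1 X).filter P).card : ℝ) ≤ ε * X) :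
    (((box r X).filter fun d => P (d i)).card : ℝ) ≤ ε * (X : ℝ) ^ r := by
  have h1 : (box r X).filter (fun d => P (d i)) ⊆
      Fintype.piFinset fun k => if k = i then (Icc 1 X).filter P else Icc 1 X := by
    intro d hd
    rw [mem_filter, mem_box] at hd
    rw [Fintype.mem_piFinset]
    intro k
    split_ifs with hk
    · subst hk
      exact mem_filter.2 ⟨mem_Icc.2 (hd.1 k), hd.2⟩
    · exact mem_Icc.2 (hd.1 k)
  refine (Nat.cast_le.2 (card_le_card h1)).trans ?_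
  refine (card_pi (X := X) _ (fun k => if k = i then ε else 1) fun k => ?_).trans (le_of_eq ?_)
  · by_cases hk : k = i
    · simp only [hk, if_true]; exact h
    · simp [hk]
  · simp

/-- Two coordinates are restricted. -/
lemma card_two {r X : ℕ} {i j : Fin r} (hij : i ≠ j) (P : ℕ → Prop) [DecidablePred P] (ε : ℝ)
    (h : (((Icc 1 X).filter P).card : ℝ) ≤ ε * X) :
    (((box r X).filter fun d => P (d i) ∧ P (d j)).card : ℝ) ≤ ε ^ 2 * (X : ℝ) ^ r := by
  have h1 : (box r X).filter (fun d => P (d i) ∧ P (d j)) ⊆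
      Fintype.piFinset fun k => if k = i ∨ k = j then (Icc 1 X).filter P else Icc 1 X := by
    intro d hd
    rw [mem_filter, mem_box] at hd
    rw [Fintype.mem_piFinset]
    intro k
    split_ifs with hk
    · rcases hk with rfl | rfl
      · exact mem_filter.2 ⟨mem_Icc.2 (hd.1 _), hd.2.1⟩
      · exact mem_filter.2 ⟨mem_Icc.2 (hd.1 _), hd.2.2⟩
    · exact mem_Icc.2 (hd.1 k)
  refine (Nat.cast_le.2 (card_le_card h1)).trans ?_
  refine (card_pi (X := X) _ (fun k => if k = i ∨ k = j then ε else 1) fun k => ?_).trans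
    (le_of_eq ?_)
  · by_cases hk : k = i ∨ k = j
    · simp only [hk, if_true]; exact h
    · simp [hk]
  · congr 1
    rw [← Finset.prod_filter, Finset.prod_const]
    congr 1
    rw [show (univ.filter fun k => k = i ∨ k = j) = {i, j} by ext; simp, card_pair hij]

/-- Multiples of `m`. -/
lemma card_mult (m X : ℕ) :
    (((Icc 1 X).filter fun a => m ∣ a).card : ℝ) ≤ (1 / m : ℝ) * X := by
  have h : ((Icc 1 X).filter fun a => m ∣ a) = (Ioc 0 X).filter fun a => m ∣ a := by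
    ext a; simp [Nat.succ_le_iff]
  rw [h, Nat.Ioc_filter_dvd_card_eq_div]
  rw [one_div, inv_mul_eq_div]
  exact Nat.cast_div_le


/-- The sum of the inverse squares beyond `P`. -/
lemma sum_inv_sq (P X : ℕ) (hP : 0 < P) :
    ∑ m ∈ Ioc P X, (1 / (m : ℝ)) ^ 2 ≤ 1 / (P : ℝ) := by
  rcases le_total X P with h | h
  · rw [Ioc_eq_empty (by omega), sum_empty]; positivity
  · have := sum_Ioc_inv_sq_le_sub (α := ℝ) hP.ne' h
    have h1 : (0 : ℝ) ≤ (X : ℝ)⁻¹ := by positivity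
    calc ∑ m ∈ Ioc P X, (1 / (m : ℝ)) ^ 2 = ∑ m ∈ Ioc P X, ((m : ℝ) ^ 2)⁻¹ :=
          sum_congr rfl fun m _ => by rw [one_div, inv_pow]
      _ ≤ (P : ℝ)⁻¹ - (X : ℝ)⁻¹ := this
      _ ≤ 1 / P := by rw [one_div]; linarith

/-- Few integers are divisible by the square of a prime greater than `P`. -/
lemma card_sq (P X : ℕ) (hP : 0 < P) :
    (((Icc 1 X).filter fun a => ∃ p : ℕ, p.Prime ∧ P < p ∧ p ^ 2 ∣ a).card : ℝ) ≤ (1 / P : ℝ) * X := by
  have h : ((Icc 1 X).filter fun a => ∃ p : ℕ, p.Prime ∧ P < p ∧ p ^ 2 ∣ a) ⊆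
      (Ioc P X).biUnion fun m => (Icc 1 X).filter fun a => m ^ 2 ∣ a := by
    intro a ha
    rw [mem_filter, mem_Icc] at ha
    obtain ⟨⟨h1, h2⟩, p, hp, hpP, hpa⟩ := ha
    rw [mem_biUnion]
    refine ⟨p, mem_Ioc.2 ⟨hpP, ?_⟩, mem_filter.2 ⟨mem_Icc.2 ⟨h1, h2⟩, hpa⟩⟩
    exact (Nat.le_self_pow two_ne_zero p).trans ((Nat.le_of_dvd (by omega) hpa).trans h2)
  refine (Nat.cast_le.2 (card_le_card h)).trans ?_
  refine (Nat.cast_le.2 card_biUnion_le).trans ?_
  rw [Nat.cast_sum]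
  calc ∑ m ∈ Ioc P X, (((Icc 1 X).filter fun a => m ^ 2 ∣ a).card : ℝ)
      ≤ ∑ m ∈ Ioc P X, (1 / (m : ℝ)) ^ 2 * X := by
        refine sum_le_sum fun m _ => ?_
        have := card_mult (m ^ 2) X
        rw [Nat.cast_pow] at this
        rwa [one_div_pow]
    _ = (∑ m ∈ Ioc P X, (1 / (m : ℝ)) ^ 2) * X := by rw [sum_mul]
    _ ≤ _ := mul_le_mul_of_nonneg_right (sum_inv_sq P X hP) (Nat.cast_nonneg _)

/-- Few integers are a prime times an integer less than `C`. -/
lemma card_prime (C X : ℕ) :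
    ((Icc 1 X).filter fun a => ∃ p : ℕ, p.Prime ∧ p ∣ a ∧ a < C * p).card ≤
      C * Nat.primeCounting X := by
  have h : ((Icc 1 X).filter fun a => ∃ p : ℕ, p.Prime ∧ p ∣ a ∧ a < C * p) ⊆
      (range C ×ˢ (range (X + 1)).filter Nat.Prime).image fun q => q.1 * q.2 := by
    intro a ha
    rw [mem_filter, mem_Icc] at ha
    obtain ⟨⟨h1, h2⟩, p, hp, ⟨t, rfl⟩, hlt⟩ := ha
    rw [mem_image]
    refine ⟨(t, p), mem_product.2 ⟨mem_range.2 ?_, mem_filter.2 ⟨mem_range.2 ?_, hp⟩⟩, mul_comm _ _⟩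
    · rw [mul_comm C] at hlt
      exact lt_of_mul_lt_mul_left hlt (Nat.zero_le _)
    · have : p ≤ p * t := Nat.le_mul_of_pos_right _ (Nat.pos_of_ne_zero fun h => by simp [h] at h1)
      show p < X + 1
      omega
  refine (card_le_card h).trans (card_image_le.trans ?_)
  rw [card_product, card_range, Nat.primeCounting, Nat.primeCounting', Nat.count_eq_card_filter_range]

/-- Primes have density zero. -/
lemma primeCounting_small (ε : ℝ) (hε : 0 < ε) :
    ∃ X₀ : ℕ, ∀ X : ℕ, X₀ ≤ X → (Nat.primeCounting X : ℝ) ≤ ε * X := by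
  have h1 := Chebyshev.eventually_primeCounting_le (ε := 1) one_pos
  have h2 : ∀ᶠ x : ℝ in Filter.atTop, (Real.log 4 + 1) / ε ≤ Real.log x :=
    Real.tendsto_log_atTop.eventually_ge_atTop _
  have h3 : ∀ᶠ x : ℝ in Filter.atTop, (Nat.primeCounting ⌊x⌋₊ : ℝ) ≤ ε * x := by
    filter_upwards [h1, h2, Filter.eventually_gt_atTop 1] with x hx1 hx2 hx3
    have hlog : 0 < Real.log x := Real.log_pos hx3
    refine hx1.trans ?_
    rw [div_le_iff₀ hlog]
    have h4 : Real.log 4 + 1 ≤ ε * Real.log x := by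
      rw [div_le_iff₀ hε] at hx2
      linarith
    have h5 : (0 : ℝ) < x := by linarith
    nlinarith
  obtain ⟨x₀, hx₀⟩ := Filter.eventually_atTop.1 h3
  refine ⟨⌈x₀⌉₊, fun X hX => ?_⟩
  have := hx₀ X ((Nat.le_ceil x₀).trans (Nat.cast_le.2 hX))
  rwa [Nat.floor_natCast] at this

/-- For a fixed prime, few integers are small compared with a power of their `p`-part. -/
lemma card_small (C n p : ℕ) (hp : p.Prime) (ε : ℝ) (hε : 0 < ε) :
    ∃ X₀ : ℕ, ∀ X : ℕ, X₀ ≤ X →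
      (((Icc 1 X).filter fun a => p ∣ a ∧ a < C * (p ^ a.factorization p) ^ n).card : ℝ) ≤
        ε * X := by
  obtain ⟨V, hV⟩ := exists_pow_lt_of_lt_one (half_pos hε)
    (show (1 / p : ℝ) < 1 by
      rw [div_lt_one (by exact_mod_cast hp.pos)]
      exact_mod_cast hp.one_lt)
  refine ⟨⌈(C * (p ^ V) ^ n : ℕ) / (ε / 2)⌉₊, fun X hX => ?_⟩
  have hX' : ((C * (p ^ V) ^ n : ℕ) : ℝ) ≤ ε / 2 * X := by
    have := (Nat.le_ceil _).trans (Nat.cast_le (α := ℝ).2 hX)
    rw [div_le_iff₀ (half_pos hε)] at this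
    linarith
  have h : ((Icc 1 X).filter fun a => p ∣ a ∧ a < C * (p ^ a.factorization p) ^ n) ⊆
      (Icc 1 ⌊ε / 2 * X⌋₊) ∪ ((Icc 1 X).filter fun a => p ^ V ∣ a) := by
    intro a ha
    rw [mem_filter, mem_Icc] at ha
    obtain ⟨⟨h1, h2⟩, -, hlt⟩ := ha
    rw [mem_union]
    by_cases hV' : V ≤ a.factorization p
    · right
      exact mem_filter.2 ⟨mem_Icc.2 ⟨h1, h2⟩, (pow_dvd_pow p hV').trans (Nat.ordProj_dvd a p)⟩
    · left
      rw [mem_Icc]
      refine ⟨h1, Nat.le_floor ?_⟩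
      refine le_trans ?_ hX'
      exact_mod_cast (hlt.trans_le (Nat.mul_le_mul_left C (Nat.pow_le_pow_left
        (Nat.pow_le_pow_right hp.pos (by omega)) n))).le
  refine (Nat.cast_le.2 (card_le_card h)).trans ((Nat.cast_le.2 (card_union_le _ _)).trans ?_)
  rw [Nat.cast_add]
  have h1 : (((Icc 1 ⌊ε / 2 * X⌋₊).card : ℕ) : ℝ) ≤ ε / 2 * X := by
    rw [Nat.card_Icc, Nat.add_sub_cancel]
    exact Nat.floor_le (by positivity)
  have h2 : (((Icc 1 X).filter fun a => p ^ V ∣ a).card : ℝ) ≤ ε / 2 * X := by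
    refine (card_mult _ X).trans (mul_le_mul_of_nonneg_right ?_ (Nat.cast_nonneg _))
    rw [Nat.cast_pow, ← one_div_pow]
    exact hV.le
  linarith


/-- A tuple that violates the condition lies in one of four small sets. -/
lemma of_not_cond {C K n r P X : ℕ} (hKP : K ≤ P) {d : Fin r → ℕ} (hd : d ∈ box r X)
    (hnot : ¬ Cond C K n d) :
    (∃ i, ∃ p ∈ range (P + 1), p.Prime ∧ p ∣ d i ∧ d i < C * (p ^ (d i).factorization p) ^ n) ∨
    (∃ i j, i ≠ j ∧ ∃ p ∈ Ioc P X, p ∣ d i ∧ p ∣ d j) ∨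
    (∃ i, ∃ p : ℕ, p.Prime ∧ P < p ∧ p ^ 2 ∣ d i) ∨
    (∃ i, ∃ p : ℕ, p.Prime ∧ p ∣ d i ∧ d i < C * p) := by
  unfold Cond at hnot
  push Not at hnot
  obtain ⟨p, hp, ⟨i, hpi, hi⟩, h2⟩ := hnot
  by_cases hpP : p ≤ P
  · exact Or.inl ⟨i, p, mem_range.2 (by omega), hp, hpi, hi⟩
  · right
    have hpP' : P < p := not_le.1 hpP
    have h3 := h2 (by omega) i
    by_cases h4 : ∃ j, j ≠ i ∧ p ∣ d j
    · left
      obtain ⟨j, hji, hpj⟩ := h4
      refine ⟨i, j, hji.symm, p, mem_Ioc.2 ⟨hpP', ?_⟩, hpi, hpj⟩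
      exact (Nat.le_of_dvd (mem_box.1 hd i).1 hpi).trans (mem_box.1 hd i).2
    · right
      push Not at h4
      have h5 := h3 h4
      by_cases h6 : p ^ 2 ∣ d i
      · exact Or.inl ⟨i, p, hp, hpP', h6⟩
      · right
        refine ⟨i, p, hp, hpi, h5.trans_le (Nat.mul_le_mul_left C ?_)⟩
        have h7 : (d i).factorization p < 2 := by
          by_contra hc
          exact h6 ((pow_dvd_pow p (not_lt.1 hc)).trans (Nat.ordProj_dvd _ _))
        calc p ^ (d i).factorization p ≤ p ^ 1 := Nat.pow_le_pow_right hp.pos (by omega)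
          _ = p := pow_one p

/-- **The tuples that violate the condition have density zero.** -/
theorem density (C K n r : ℕ) (ε : ℝ) (hε : 0 < ε) :
    ∃ X₀ : ℕ, ∀ X : ℕ, X₀ ≤ X →
      (((box r X).filter fun d => ¬ Cond C K n d).card : ℝ) ≤ ε * (X : ℝ) ^ r := by
  -- the bound for the size of the primes
  obtain ⟨P, hP1, hP2, hP3⟩ : ∃ P : ℕ, 0 < P ∧ K ≤ P ∧ ((r : ℝ) ^ 2 + r) * (1 / P) ≤ ε / 2 := by
    refine ⟨max 1 (max K ⌈((r : ℝ) ^ 2 + r) / (ε / 2)⌉₊), by simp, by simp, ?_⟩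
    set Q := max 1 (max K ⌈((r : ℝ) ^ 2 + r) / (ε / 2)⌉₊)
    have hQ : ((r : ℝ) ^ 2 + r) / (ε / 2) ≤ Q :=
      (Nat.le_ceil _).trans (Nat.cast_le.2 ((le_max_right _ _).trans (le_max_right _ _)))
    have hQ0 : (0 : ℝ) < Q := by
      have : 1 ≤ Q := le_max_left _ _
      exact_mod_cast this
    rw [mul_one_div, div_le_iff₀ hQ0]
    rw [div_le_iff₀ (half_pos hε)] at hQ
    linarith
  set δ : ℝ := ε / (4 * (r + 1) * (P + 1)) with hδ
  have hδ0 : 0 < δ := by positivity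
  set η : ℝ := ε / (4 * (r + 1) * (C + 1)) with hη
  have hη0 : 0 < η := by positivity
  have hA : ∀ p : ℕ, ∃ X₀ : ℕ, ∀ X : ℕ, X₀ ≤ X → p.Prime →
      (((Icc 1 X).filter fun a => p ∣ a ∧ a < C * (p ^ a.factorization p) ^ n).card : ℝ) ≤
        δ * X := by
    intro p
    by_cases hp : p.Prime
    · obtain ⟨X₀, h⟩ := card_small C n p hp δ hδ0
      exact ⟨X₀, fun X hX _ => h X hX⟩
    · exact ⟨0, fun X _ h => absurd h hp⟩
  choose X₁ hX₁ using hA
  obtain ⟨X₂, hX₂⟩ := primeCounting_small η hη0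
  refine ⟨max X₂ ((range (P + 1)).sup X₁), fun X hX => ?_⟩
  have hXr : (0 : ℝ) ≤ (X : ℝ) ^ r := by positivity
  -- the four sets
  set A : Finset (Fin r → ℕ) := (univ : Finset (Fin r)).biUnion fun i =>
    ((range (P + 1)).filter Nat.Prime).biUnion fun p => (box r X).filter fun d =>
      (p ∣ d i ∧ d i < C * (p ^ (d i).factorization p) ^ n) with hAdef
  set B : Finset (Fin r → ℕ) := (univ : Finset (Fin r × Fin r)).biUnion fun ij =>
    (Ioc P X).biUnion fun p => if ij.1 ≠ ij.2 then (box r X).filter fun d =>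
      (p ∣ d ij.1 ∧ p ∣ d ij.2) else ∅ with hBdef
  set D : Finset (Fin r → ℕ) := (univ : Finset (Fin r)).biUnion fun i =>
    (box r X).filter fun d => ∃ p : ℕ, p.Prime ∧ P < p ∧ p ^ 2 ∣ d i with hDdef
  set E : Finset (Fin r → ℕ) := (univ : Finset (Fin r)).biUnion fun i =>
    (box r X).filter fun d => ∃ p : ℕ, p.Prime ∧ p ∣ d i ∧ d i < C * p with hEdef
  have hsub : (box r X).filter (fun d => ¬ Cond C K n d) ⊆ (A ∪ B) ∪ (D ∪ E) := by
    intro d hd
    rw [mem_filter] at hd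
    simp only [mem_union]
    rcases of_not_cond hP2 hd.1 hd.2 with ⟨i, p, hp1, hp2, hp3, hp4⟩ | ⟨i, j, hij, p, hp, h1, h2⟩ |
      ⟨i, p, hp⟩ | ⟨i, p, hp⟩
    · left; left
      rw [hAdef, mem_biUnion]
      refine ⟨i, mem_univ _, ?_⟩
      rw [mem_biUnion]
      exact ⟨p, mem_filter.2 ⟨hp1, hp2⟩, mem_filter.2 ⟨hd.1, hp3, hp4⟩⟩
    · left; right
      rw [hBdef, mem_biUnion]
      refine ⟨(i, j), mem_univ _, ?_⟩
      rw [mem_biUnion]
      refine ⟨p, hp, ?_⟩
      rw [if_pos hij]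
      exact mem_filter.2 ⟨hd.1, h1, h2⟩
    · right; left
      rw [hDdef, mem_biUnion]
      exact ⟨i, mem_univ _, mem_filter.2 ⟨hd.1, p, hp⟩⟩
    · right; right
      rw [hEdef, mem_biUnion]
      exact ⟨i, mem_univ _, mem_filter.2 ⟨hd.1, p, hp⟩⟩
  have hcA : (A.card : ℝ) ≤ r * ((P + 1) * δ) * (X : ℝ) ^ r := by
    refine (Nat.cast_le.2 card_biUnion_le).trans ?_
    rw [Nat.cast_sum]
    have h1 : ∀ i : Fin r, ((((range (P + 1)).filter Nat.Prime).biUnion fun p =>
        (box r X).filter fun d => (p ∣ d i ∧ d i < C * (p ^ (d i).factorization p) ^ n)).card : ℝ) ≤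
        (P + 1) * δ * (X : ℝ) ^ r := by
      intro i
      refine (Nat.cast_le.2 card_biUnion_le).trans ?_
      rw [Nat.cast_sum]
      calc _ ≤ ∑ p ∈ (range (P + 1)).filter Nat.Prime, δ * (X : ℝ) ^ r := by
            refine sum_le_sum fun p hp => ?_
            rw [mem_filter] at hp
            exact card_one i (fun a => p ∣ a ∧ a < C * (p ^ a.factorization p) ^ n) δ
              (hX₁ p X (((Finset.le_sup (f := X₁) hp.1).trans (le_max_right _ _)).trans hX) hp.2)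
        _ = ((range (P + 1)).filter Nat.Prime).card * (δ * (X : ℝ) ^ r) := by
            rw [sum_const, nsmul_eq_mul]
        _ ≤ (P + 1) * (δ * (X : ℝ) ^ r) := by
            refine mul_le_mul_of_nonneg_right ?_ (by positivity)
            have := card_filter_le (range (P + 1)) Nat.Prime
            rw [card_range] at this
            exact_mod_cast this
        _ = _ := by ring
    calc _ ≤ ∑ _i : Fin r, (P + 1) * δ * (X : ℝ) ^ r := sum_le_sum fun i _ => h1 i
      _ = _ := by simp; ring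
  have hcB : (B.card : ℝ) ≤ (r : ℝ) ^ 2 * (1 / P) * (X : ℝ) ^ r := by
    refine (Nat.cast_le.2 card_biUnion_le).trans ?_
    rw [Nat.cast_sum]
    have h1 : ∀ ij : Fin r × Fin r, (((Ioc P X).biUnion fun p => if ij.1 ≠ ij.2 then
        (box r X).filter fun d => (p ∣ d ij.1 ∧ p ∣ d ij.2) else ∅).card : ℝ) ≤
        (1 / P) * (X : ℝ) ^ r := by
      intro ij
      refine (Nat.cast_le.2 card_biUnion_le).trans ?_
      rw [Nat.cast_sum]
      calc _ ≤ ∑ p ∈ Ioc P X, (1 / (p : ℝ)) ^ 2 * (X : ℝ) ^ r := by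
            refine sum_le_sum fun p _ => ?_
            split_ifs with hij
            · exact card_two hij (fun a => p ∣ a) (1 / p) (card_mult p X)
            · rw [card_empty, Nat.cast_zero]; positivity
        _ = (∑ p ∈ Ioc P X, (1 / (p : ℝ)) ^ 2) * (X : ℝ) ^ r := by rw [sum_mul]
        _ ≤ _ := mul_le_mul_of_nonneg_right (sum_inv_sq P X hP1) hXr
    calc _ ≤ ∑ _ij : Fin r × Fin r, (1 / (P : ℝ)) * (X : ℝ) ^ r := sum_le_sum fun i _ => h1 i
      _ = _ := by simp; ring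
  have hcD : (D.card : ℝ) ≤ (r : ℝ) * (1 / P) * (X : ℝ) ^ r := by
    refine (Nat.cast_le.2 card_biUnion_le).trans ?_
    rw [Nat.cast_sum]
    calc _ ≤ ∑ _i : Fin r, (1 / (P : ℝ)) * (X : ℝ) ^ r := sum_le_sum fun i _ =>
          card_one i (fun a => ∃ p : ℕ, p.Prime ∧ P < p ∧ p ^ 2 ∣ a) (1 / P) (card_sq P X hP1)
      _ = _ := by simp; ring
  have hcE : (E.card : ℝ) ≤ (r : ℝ) * (C * η) * (X : ℝ) ^ r := by
    refine (Nat.cast_le.2 card_biUnion_le).trans ?_
    rw [Nat.cast_sum]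
    calc _ ≤ ∑ _i : Fin r, (C * η) * (X : ℝ) ^ r := by
          refine sum_le_sum fun i _ => ?_
          refine card_one i (fun a => ∃ p : ℕ, p.Prime ∧ p ∣ a ∧ a < C * p) (C * η) ?_
          refine (Nat.cast_le.2 (card_prime C X)).trans ?_
          rw [Nat.cast_mul, mul_assoc]
          exact mul_le_mul_of_nonneg_left (hX₂ X ((le_max_left _ _).trans hX)) (Nat.cast_nonneg _)
      _ = _ := by simp; ring
  have hAc : (r : ℝ) * ((P + 1) * δ) ≤ ε / 4 := by
    rw [hδ]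
    have : (r : ℝ) * ((P + 1) * (ε / (4 * (r + 1) * (P + 1)))) = ε / 4 * (r / (r + 1)) := by
      field_simp
    rw [this]
    have h1 : (r : ℝ) / (r + 1) ≤ 1 := by
      rw [div_le_one (by positivity)]; linarith
    nlinarith
  have hEc : (r : ℝ) * (C * η) ≤ ε / 4 := by
    rw [hη]
    have : (r : ℝ) * (C * (ε / (4 * (r + 1) * (C + 1)))) =
        ε / 4 * ((r / (r + 1)) * (C / (C + 1))) := by
      field_simp
    rw [this]
    have h1 : (r : ℝ) / (r + 1) ≤ 1 := by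
      rw [div_le_one (by positivity)]; linarith
    have h2 : (C : ℝ) / (C + 1) ≤ 1 := by
      rw [div_le_one (by positivity)]; linarith
    have h4 : (0 : ℝ) ≤ (r : ℝ) / (r + 1) := by positivity
    have h5 : (0 : ℝ) ≤ (C : ℝ) / (C + 1) := by positivity
    have h3 : (r : ℝ) / (r + 1) * (C / (C + 1)) ≤ 1 := by nlinarith
    nlinarith
  calc (((box r X).filter fun d => ¬ Cond C K n d).card : ℝ)
      ≤ (((A ∪ B) ∪ (D ∪ E)).card : ℝ) := Nat.cast_le.2 (card_le_card hsub)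
    _ ≤ (A.card + B.card) + (D.card + E.card) := by
        exact_mod_cast (card_union_le _ _).trans
          (Nat.add_le_add (card_union_le _ _) (card_union_le _ _))
    _ ≤ ε * (X : ℝ) ^ r := by
        have h1 : (A.card : ℝ) ≤ ε / 4 * (X : ℝ) ^ r :=
          hcA.trans (mul_le_mul_of_nonneg_right hAc hXr)
        have h2 : (E.card : ℝ) ≤ ε / 4 * (X : ℝ) ^ r :=
          hcE.trans (mul_le_mul_of_nonneg_right hEc hXr)
        have h3 : (B.card : ℝ) + D.card ≤ ε / 2 * (X : ℝ) ^ r := by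
          calc (B.card : ℝ) + D.card ≤ (r : ℝ) ^ 2 * (1 / P) * (X : ℝ) ^ r +
                (r : ℝ) * (1 / P) * (X : ℝ) ^ r := add_le_add hcB hcD
            _ = (((r : ℝ) ^ 2 + r) * (1 / P)) * (X : ℝ) ^ r := by ring
            _ ≤ _ := mul_le_mul_of_nonneg_right hP3 hXr
        linarith

end Pool.Agent.MultiSpec.Density
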