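import Mathlib

set_option autoImplicit false

namespace Pool.Agent.MultiSpec

open Polynomial Module

/-- An element of `F(θ)`, `θ ^ (p ^ a) = h`, whose `p`-th power is in `F`, is a multiple of a power
of `θ`. -/
theorem KumRad_desc {F L : Type*} [Field F] [Field L] [Algebra F L] {p a : ℕ} (hp : p.Prime)
    (ha : a ≠ 0) {ζ : F} (hζ : IsPrimitiveRoot ζ (p ^ a)) (h : F) (pb : PowerBasis F L)
    (hmin : minpoly F pb.gen = X ^ (p ^ a) - C h) (u : F) (g : L)
    (hg : g ^ p = algebraMap F L u) : ∃ (j : ℕ) (c : F), j < p ∧ u = c ^ p * h ^ j := by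
  have hn : 0 < p ^ a := pow_pos hp.pos a
  have hpa : p ^ a = p ^ (a - 1) * p := by
    rw [← pow_succ]; congr 1; omega
  have hdim : pb.dim = p ^ a := by
    rw [← pb.natDegree_minpoly, hmin, natDegree_X_pow_sub_C]
  have hgen : pb.gen ^ (p ^ a) = algebraMap F L h := by
    have h1 := minpoly.aeval F pb.gen
    rw [hmin] at h1
    simp only [map_sub, map_pow, aeval_X, aeval_C] at h1
    exact sub_eq_zero.1 h1
  rcases eq_or_ne g 0 with hg0 | hg0
  · refine ⟨0, 0, hp.pos, ?_⟩
    rw [hg0, zero_pow hp.ne_zero] at hg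
    rw [zero_pow hp.ne_zero, zero_mul]
    exact (algebraMap F L).injective (by rw [map_zero, ← hg])
  -- the automorphism
  have hroot : aeval (algebraMap F L ζ * pb.gen) (minpoly F pb.gen) = 0 := by
    rw [hmin]
    simp only [map_sub, map_pow, aeval_X, aeval_C]
    rw [mul_pow, hgen, ← map_pow, hζ.pow_eq_one, map_one, one_mul, sub_self]
  let σ : L →ₐ[F] L := pb.lift _ hroot
  have hσ : σ pb.gen = algebraMap F L ζ * pb.gen := pb.lift_gen _ _
  have hrepr : ∀ (x : L) (i : Fin pb.dim),
      pb.basis.repr (σ x) i = pb.basis.repr x i * ζ ^ (i : ℕ) := by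
    intro x i
    have h1 : σ x = ∑ k, (pb.basis.repr x k * ζ ^ (k : ℕ)) • pb.basis k := by
      conv_lhs => rw [← pb.basis.sum_repr x]
      rw [map_sum]
      refine Finset.sum_congr rfl fun k _ => ?_
      rw [map_smul, pb.basis_eq_pow, map_pow, hσ, mul_pow, ← map_pow, mul_smul,
        Algebra.smul_def (ζ ^ (k : ℕ))]
    rw [h1, pb.basis.repr_sum_self]
  -- `σ g = ξ g`
  have hζ' : IsPrimitiveRoot (algebraMap F L (ζ ^ (p ^ (a - 1)))) p :=
    (hζ.pow hn hpa).map_of_injective (algebraMap F L).injective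
  have hq : (σ g / g) ^ p = 1 := by
    rw [div_pow, ← map_pow, hg, AlgHom.commutes]
    refine div_self ?_
    rw [← hg]; exact pow_ne_zero _ hg0
  have : NeZero p := ⟨hp.ne_zero⟩
  obtain ⟨j, hj, hj'⟩ := hζ'.eq_pow_of_pow_eq_one hq
  have hσg : σ g = (ζ ^ (p ^ (a - 1) * j)) • g := by
    rw [Algebra.smul_def, pow_mul, map_pow, hj', div_mul_cancel₀ _ hg0]
  have hlt : p ^ (a - 1) * j < p ^ a := by
    rw [hpa]; exact Nat.mul_lt_mul_of_pos_left hj (pow_pos hp.pos _)
  let i₀ : Fin pb.dim := ⟨p ^ (a - 1) * j, by rw [hdim]; exact hlt⟩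
  have hsupp : ∀ i : Fin pb.dim, pb.basis.repr g i ≠ 0 → i = i₀ := by
    intro i hi
    have h1 := hrepr g i
    rw [hσg, map_smul, Finsupp.smul_apply, smul_eq_mul, mul_comm] at h1
    have h2 := mul_left_cancel₀ hi h1
    have h3 := hζ.pow_inj hlt (by have := i.2; omega) h2
    exact Fin.ext h3.symm
  have hgeq : g = algebraMap F L (pb.basis.repr g i₀) * pb.gen ^ (p ^ (a - 1) * j) := by
    conv_lhs => rw [← pb.basis.sum_repr g]
    rw [Finset.sum_eq_single i₀]
    · rw [pb.basis_eq_pow, Algebra.smul_def]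
    · intro i _ hi
      by_contra hne
      apply hi
      apply hsupp
      intro h0
      rw [h0, zero_smul] at hne
      exact hne rfl
    · intro hnot; exact absurd (Finset.mem_univ _) hnot
  generalize pb.basis.repr g i₀ = c at hgeq
  refine ⟨j, c, hj, ?_⟩
  apply (algebraMap F L).injective
  have e1 : p ^ (a - 1) * j * p = p ^ a * j := by rw [hpa]; ring
  rw [← hg, hgeq, mul_pow, map_mul, map_pow, map_pow, ← hgen, ← pow_mul, ← pow_mul, e1]

/-- Degree and descent for one radical. -/
theorem KumRad_step {F R : Type*} [Field F] [Field R] [Algebra F R] {p a : ℕ} (hp : p.Prime)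
    (hp2 : p ≠ 2) (ha : a ≠ 0) {ζ : F} (hζ : IsPrimitiveRoot ζ (p ^ a)) (h : F) (θ : R)
    (hθ : θ ^ (p ^ a) = algebraMap F R h) (hnp : ∀ b : F, b ^ p ≠ h) :
    finrank F (IntermediateField.adjoin F {θ}) = p ^ a ∧
    ∀ (u : F) (g : IntermediateField.adjoin F {θ}), g ^ p = algebraMap F _ u →
      ∃ (j : ℕ) (c : F), j < p ∧ u = c ^ p * h ^ j := by
  have hn : 0 < p ^ a := pow_pos hp.pos a
  have hint : IsIntegral F θ := by
    refine IsIntegral.of_pow hn ?_
    rw [hθ]; exact isIntegral_algebraMap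
  have hirr : Irreducible (X ^ (p ^ a) - C h) :=
    (X_pow_sub_C_irreducible_iff_of_prime_pow hp hp2 ha).2 hnp
  have hmin : minpoly F θ = X ^ (p ^ a) - C h := by
    refine (minpoly.eq_of_irreducible_of_monic hirr ?_ (monic_X_pow_sub_C h hn.ne')).symm
    simp [hθ]
  constructor
  · rw [IntermediateField.adjoin.finrank hint, hmin, natDegree_X_pow_sub_C]
  · intro u g hg
    refine KumRad_desc hp ha hζ h (IntermediateField.adjoin.powerBasis hint) ?_ u g hg
    rw [IntermediateField.adjoin.powerBasis_gen, IntermediateField.minpoly_gen, hmin]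

universe v

theorem KumRad_aux {R : Type v} [Field R] {p : ℕ} (hp : p.Prime) (hp2 : p ≠ 2) (r : ℕ) :
    ∀ (K : Type v) [Field K] [Algebra K R], (∀ m, ∃ ζ : K, IsPrimitiveRoot ζ (p ^ m)) →
    ∀ (a : Fin r → ℕ) (h : Fin r → K) (θ : Fin r → R),
    (∀ i, θ i ^ (p ^ a i) = algebraMap K R (h i)) →
    (∀ (e : Fin r → ℕ) (g : K), (∀ i, a i = 0 → e i = 0) →
      ∏ i, h i ^ e i = g ^ p → ∀ i, p ∣ e i) →
    p ^ (∑ i, a i) ∣ Module.finrank K R := by
  induction r with
  | zero =>
    intro K _ _ _ a h θ _ _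
    simp
  | succ r ih =>
    intro K _ _ hroots a h θ hθ hind
    rcases eq_or_ne (a 0) 0 with ha | ha
    · rw [Fin.sum_univ_succ, ha, zero_add]
      refine ih K hroots (fun i => a i.succ) (fun i => h i.succ) (fun i => θ i.succ)
        (fun i => hθ i.succ) ?_
      intro e g he heq i
      have h1 := hind (Fin.cons 0 e) g ?_ ?_ i.succ
      · simpa using h1
      · intro k
        refine Fin.cases ?_ (fun k => ?_) k
        · intro _; rfl
        · intro hk
          rw [Fin.cons_succ]
          exact he k hk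
      · rw [Fin.prod_univ_succ]
        simpa using heq
    · obtain ⟨ζ, hζ⟩ := hroots (a 0)
      have hnp : ∀ b : K, b ^ p ≠ h 0 := by
        intro b hb
        have h1 := hind (Fin.cons 1 (fun _ => 0)) b ?_ ?_ 0
        · rw [Fin.cons_zero] at h1
          exact hp.one_lt.ne' (Nat.dvd_one.1 h1)
        · intro k
          refine Fin.cases ?_ (fun k => ?_) k
          · intro h0; exact absurd h0 ha
          · intro _; rfl
        · rw [Fin.prod_univ_succ]
          simp [hb]
      obtain ⟨hdeg, hdesc⟩ := KumRad_step hp hp2 ha hζ (h 0) (θ 0) (hθ 0) hnp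
      have h2 := ih (IntermediateField.adjoin K {θ 0}) (fun m => ?_) (fun i => a i.succ)
        (fun i => algebraMap K _ (h i.succ)) (fun i => θ i.succ) (fun i => ?_) ?_
      · rw [Fin.sum_univ_succ, pow_add,
          ← Module.finrank_mul_finrank K (IntermediateField.adjoin K {θ 0}) R, hdeg]
        exact Nat.mul_dvd_mul_left _ h2
      · obtain ⟨ξ, hξ⟩ := hroots m
        exact ⟨algebraMap K _ ξ, hξ.map_of_injective (algebraMap K _).injective⟩
      · rw [hθ i.succ]; rfl
      · intro e g he heq i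
        have h3 : g ^ p = algebraMap K _ (∏ i : Fin r, h i.succ ^ e i) := by
          rw [← heq, map_prod]
          refine Finset.prod_congr rfl fun i _ => ?_
          rw [map_pow]
        obtain ⟨j, c, hj, hc⟩ := hdesc _ g h3
        have h1 := hind (Fin.cons (p - j) e) (c * h 0) ?_ ?_ i.succ
        · simpa using h1
        · intro k
          refine Fin.cases ?_ (fun k => ?_) k
          · intro h0; exact absurd h0 ha
          · intro hk
            rw [Fin.cons_succ]
            exact he k hk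
        · rw [Fin.prod_univ_succ]
          simp only [Fin.cons_zero, Fin.cons_succ]
          rw [hc, mul_pow, mul_left_comm, ← pow_add]
          congr 2
          omega

/-- Kummer theory: radicals of elements that are independent modulo `p`-th powers. -/
theorem dvd_finrank_of_radicals {K R : Type*} [Field K] [Field R] [CharZero K] [Algebra K R]
    {p r : ℕ} (hp : p.Prime) (hp2 : p ≠ 2) (hroots : ∀ m, ∃ ζ : K, IsPrimitiveRoot ζ (p ^ m))
    (a : Fin r → ℕ) (h : Fin r → K) (h0 : ∀ i, h i ≠ 0) (θ : Fin r → R)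
    (hθ : ∀ i, θ i ^ (p ^ a i) = algebraMap K R (h i))
    (hind : ∀ (e : Fin r → ℕ) (g : K), (∀ i, a i = 0 → e i = 0) →
      ∏ i, h i ^ e i = g ^ p → ∀ i, p ∣ e i) :
    p ^ (∑ i, a i) ∣ Module.finrank K R := by
  have h1 := KumRad_aux hp hp2 r (⊥ : IntermediateField K R) (fun m => ?_) a
    (fun i => algebraMap K _ (h i)) θ (fun i => ?_) ?_
  · rwa [IntermediateField.finrank_bot'] at h1
  · obtain ⟨ξ, hξ⟩ := hroots m
    exact ⟨algebraMap K _ ξ, hξ.map_of_injective (algebraMap K _).injective⟩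
  · rw [hθ i]; rfl
  · intro e g he heq
    obtain ⟨g₀, hg₀⟩ := IntermediateField.mem_bot.1 g.2
    refine hind e g₀ he ?_
    have h2 : algebraMap K (⊥ : IntermediateField K R) (∏ i, h i ^ e i) =
        algebraMap K (⊥ : IntermediateField K R) (g₀ ^ p) := by
      rw [map_prod, map_pow]
      have h3 : algebraMap K (⊥ : IntermediateField K R) g₀ = g := Subtype.ext hg₀
      rw [h3, ← heq]
      refine Finset.prod_congr rfl fun i _ => ?_
      rw [map_pow]
    exact (algebraMap K (⊥ : IntermediateField K R)).injective h2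

end Pool.Agent.MultiSpec
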